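import Pool.Agent.AXS.Base

/-!
# No critical segments on the axis
-/

set_option autoImplicit false

open Set MeasureTheory Filter Topology

namespace Pool.Agent.AXS

section

variable {p m : ℝ} {P : Set (ℝ × ℝ)} {U : ℝ × ℝ → ℝ}

/-- the derivative of `rho` on horizontal lines -/
theorem AXIS_.hasDerivAt_rho (hG : T_GOOD) (hU : Plan p m P U) {r z : ℝ}
    (hx : (r, z) ∈ Good P U) :
    HasDerivAt (fun r => rho U (r, z)) (2 * rho U (r, z) * h1 U (r, z)) r := by
  obtain ⟨hO, -, hrho, -, -, -, -, -, -, H⟩ := hG p m P U hU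
  obtain ⟨-, -, e1, -⟩ := H _ hx
  have h2 : DifferentiableAt ℝ (rho U) (r, z) :=
    (hrho.differentiableOn (by norm_num)).differentiableAt (hO.mem_nhds hx)
  have h3 : HasDerivAt (fun r : ℝ => (r, z)) ((1 : ℝ), (0 : ℝ)) r :=
    (hasDerivAt_id r).prodMk (hasDerivAt_const r z)
  have h4 := h2.hasFDerivAt.comp_hasDerivAt r h3
  rw [← e1]
  exact h4

theorem AXIS_.ae_line (hL : T_LINES) (hU : Plan p m P U) {r₀ z₁ z₂ : ℝ} (hr0 : 0 < r₀)
    (hz : z₁ < z₂) (hsub : Icc 0 r₀ ×ˢ Icc z₁ z₂ ⊆ P)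
    (hcon : ¬ ∃ r₁, 0 < r₁ ∧ r₁ < r₀ ∧ ∀ x ∈ Icc r₁ r₀ ×ˢ Icc z₁ z₂, rho U x = 0) :
    ∀ᵐ z : ℝ, z ∈ Icc z₁ z₂ → ∀ r ∈ Ioc 0 r₀, rho U (r, z) ≠ 0 := by
  have h1 : ∀ j : ℕ, ∀ᵐ z : ℝ, z ∈ Icc z₁ z₂ → ∀ r ∈ Icc (r₀ / (j + 2)) r₀,
      rho U (r, z) ≠ 0 := by
    intro j
    have hj : (0 : ℝ) < (j : ℝ) + 2 := by positivity
    have hj1 : 0 < r₀ / (j + 2) := by positivity
    have hj2 : r₀ / (j + 2) < r₀ := by
      rw [div_lt_iff₀ hj]
      nlinarith [(Nat.cast_nonneg j : (0 : ℝ) ≤ j)]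
    rcases hL p m P U hU (r₀ / (j + 2)) r₀ z₁ z₂ hj1 hj2 hz
      (Subset.trans (prod_mono (Icc_subset_Icc_left hj1.le) subset_rfl) hsub) with h | h
    · exact absurd ⟨_, hj1, hj2, h⟩ hcon
    · exact h.1
  filter_upwards [ae_all_iff.mpr h1] with z hzz hzm r hr
  obtain ⟨j, hj⟩ := exists_nat_gt (r₀ / r)
  refine hzz j hzm r ⟨?_, hr.2⟩
  have hj' : (0 : ℝ) < (j : ℝ) + 2 := by positivity
  rw [div_le_iff₀ hj']
  rw [div_lt_iff₀ hr.1] at hj
  nlinarith [hr.1]

end

theorem p_AXIS (hG : T_GOOD) (hL : T_LINES) (hE : T_ENERGY) (hS : T_SEG2) : T_AXIS := by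
  intro p m P U hU r₀ z₁ z₂ hr0 hz hsub hax
  by_contra hcon
  have hae := AXIS_.ae_line hL hU hr0 hz hsub hcon
  obtain ⟨hO, hrho, -, -, -, -, -, hh1, -, -⟩ := hG p m P U hU
  set d := (z₂ - z₁) / 3 with hd
  have hd0 : 0 < d := by
    rw [hd]
    linarith
  obtain ⟨C, hC0, hC⟩ := hE p m P U r₀ z₁ z₂ (z₁ + d) (z₁ + 2 * d) hU hr0 (by linarith)
    (by linarith) (by linarith) hsub hax
  -- a small radius
  set R := min (r₀ / 4) (d / (32 * C)) with hR
  have hR0 : 0 < R := by positivity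
  have hR1 : R ≤ r₀ / 4 := min_le_left _ _
  have hR2 : R ≤ d / (32 * C) := min_le_right _ _
  set I := Ioo (z₁ + d) (z₁ + 2 * d) with hI
  have hIs : I ⊆ Icc z₁ z₂ := by
    intro z hz'
    exact ⟨by linarith [hz'.1], by linarith [hz'.2]⟩
  -- integration of the inequality on the segments
  have hmain : ∀ k : ℝ, 0 < k → k < 1 →
      ∫⁻ z in I, ENNReal.ofReal ((max 0 (Real.log (rho U (R, z) / k) / 2)) ^ 2) ≤
        ENNReal.ofReal R * ENNReal.ofReal (C * (1 + Real.log (1 / k)) ^ 2) := by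
    intro k hk0 hk1
    set S := (Ioo 0 (r₀ / 2) ×ˢ I) ∩ {x | k < rho U x} with hSdef
    have hboxP : Ioo 0 (r₀ / 2) ×ˢ I ⊆ P := by
      rintro ⟨r, z⟩ ⟨h1, h2⟩
      dsimp only at h1 h2
      exact hsub ⟨⟨by dsimp only; linarith [h1.1], by dsimp only; linarith [h1.2]⟩, hIs h2⟩
    have hSo : IsOpen S := by
      have h1 : ContinuousOn (rho U) (Ioo 0 (r₀ / 2) ×ˢ I) := hrho.mono hboxP
      exact h1.isOpen_inter_preimage (isOpen_Ioo.prod isOpen_Ioo) isOpen_Ioi
    have hSG : S ⊆ Good P U := by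
      rintro ⟨r, z⟩ ⟨h1, h2⟩
      have h2' : k < rho U (r, z) := h2
      exact ⟨hboxP h1, h1.1.1, (hk0.trans h2').ne'⟩
    set F : ℝ × ℝ → ENNReal := S.indicator fun x => ENNReal.ofReal (h1 U x ^ 2) with hF
    have hFm : AEMeasurable F := by
      rw [hF, aemeasurable_indicator_iff hSo.measurableSet]
      have h1 : ContinuousOn (fun x => h1 U x ^ 2) S := ((hh1.continuousOn).mono hSG).pow 2
      exact (h1.aemeasurable hSo.measurableSet).ennreal_ofReal
    have hFub : ∫⁻ z : ℝ, ∫⁻ r : ℝ, F (r, z) = ∫⁻ x in S, ENNReal.ofReal (h1 U x ^ 2) := by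
      rw [← lintegral_indicator hSo.measurableSet]
      exact (lintegral_prod_symm F hFm).symm
    have hpt : ∀ᵐ z : ℝ, z ∈ I →
        ENNReal.ofReal ((max 0 (Real.log (rho U (R, z) / k) / 2)) ^ 2) ≤
          ENNReal.ofReal R * ∫⁻ r : ℝ, F (r, z) := by
      filter_upwards [hae] with z hz1 hzI
      have hzm := hIs hzI
      have hline := hz1 hzm
      have hPz : ∀ r ∈ Icc 0 R, (r, z) ∈ P := fun r hr =>
        hsub ⟨⟨hr.1, by dsimp only; linarith [hr.2]⟩, hzm⟩
      have hGz : ∀ r ∈ Ioc 0 R, (r, z) ∈ Good P U := fun r hr =>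
        ⟨hPz r ⟨hr.1.le, hr.2⟩, hr.1, hline r ⟨hr.1, by linarith [hr.2]⟩⟩
      have hcz : Continuous fun r : ℝ => (r, z) := Continuous.prodMk_left z
      have h2 := hS R k (fun r => rho U (r, z)) (fun r => h1 U (r, z)) hR0 hk0
        (hrho.comp hcz.continuousOn hPz) (hax z hzm)
        (fun r hr => ⟨rho_pos (hGz r hr), AXIS_.hasDerivAt_rho hG hU (hGz r hr)⟩)
        (hh1.continuousOn.comp hcz.continuousOn hGz)
      refine h2.trans (mul_le_mul_right ?_ _)
      have hTm : MeasurableSet (Ioo 0 R ∩ {r | k < rho U (r, z)}) := by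
        have h3 : ContinuousOn (fun r => rho U (r, z)) (Ioo 0 R) :=
          (hrho.comp hcz.continuousOn hPz).mono Ioo_subset_Icc_self
        exact (h3.isOpen_inter_preimage isOpen_Ioo isOpen_Ioi).measurableSet
      rw [← lintegral_indicator hTm]
      apply lintegral_mono
      intro r
      dsimp only
      by_cases hr : r ∈ Ioo 0 R ∩ {r | k < rho U (r, z)}
      · rw [indicator_of_mem hr, hF, indicator_of_mem]
        exact ⟨⟨⟨hr.1.1, by dsimp only; linarith [hr.1.2]⟩, hzI⟩, hr.2⟩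
      · rw [indicator_of_notMem hr]
        exact bot_le
    calc ∫⁻ z in I, ENNReal.ofReal ((max 0 (Real.log (rho U (R, z) / k) / 2)) ^ 2)
        ≤ ∫⁻ z in I, ENNReal.ofReal R * ∫⁻ r : ℝ, F (r, z) :=
          setLIntegral_mono_ae' measurableSet_Ioo hpt
      _ ≤ ∫⁻ z, ENNReal.ofReal R * ∫⁻ r : ℝ, F (r, z) := setLIntegral_le_lintegral _ _
      _ = ENNReal.ofReal R * ∫⁻ z : ℝ, ∫⁻ r : ℝ, F (r, z) :=
          lintegral_const_mul' _ _ ENNReal.ofReal_ne_top
      _ ≤ ENNReal.ofReal R * ENNReal.ofReal (C * (1 + Real.log (1 / k)) ^ 2) := by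
          rw [hFub]
          exact mul_le_mul_right (hC k hk0 hk1) _
  -- the level sets
  set EN : ℕ → Set ℝ := fun N => I ∩ {z | Real.exp (-(N : ℝ)) < rho U (R, z)} with hEN
  have hENm : ∀ N, MeasurableSet (EN N) := by
    intro N
    have hcz : Continuous fun z : ℝ => (R, z) := Continuous.prodMk_right R
    have h3 : ContinuousOn (fun z => rho U (R, z)) I := by
      refine hrho.comp hcz.continuousOn ?_
      intro z hz'
      exact hsub ⟨⟨hR0.le, by dsimp only; linarith⟩, hIs hz'⟩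
    exact (h3.isOpen_inter_preimage isOpen_Ioo isOpen_Ioi).measurableSet
  have hbound : ∀ N, volume (EN N) ≤ ENNReal.ofReal (16 * (R * C)) := by
    intro N
    set lam : ℝ := 2 * N + 1 with hlam
    have hN0 : (0 : ℝ) ≤ N := Nat.cast_nonneg N
    have hk0 : 0 < Real.exp (-lam) := Real.exp_pos _
    have hk1 : Real.exp (-lam) < 1 := by
      rw [Real.exp_lt_one_iff]
      linarith
    have h1 := hmain (Real.exp (-lam)) hk0 hk1
    have hlog : Real.log (1 / Real.exp (-lam)) = lam := by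
      rw [one_div, ← Real.exp_neg, neg_neg, Real.log_exp]
    rw [hlog] at h1
    have h2 : ENNReal.ofReal (((lam - N) / 2) ^ 2) * volume (EN N) ≤
        ∫⁻ z in I, ENNReal.ofReal ((max 0 (Real.log (rho U (R, z) / Real.exp (-lam)) / 2)) ^ 2)
        := by
      rw [← setLIntegral_const]
      refine le_trans ?_ (lintegral_mono_set (inter_subset_left : EN N ⊆ I))
      apply setLIntegral_mono' (hENm N)
      intro z hz'
      apply ENNReal.ofReal_le_ofReal
      have h3 : Real.exp (-(N : ℝ)) < rho U (R, z) := hz'.2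
      have h4 : -(N : ℝ) ≤ Real.log (rho U (R, z)) := by
        rw [Real.le_log_iff_exp_le ((Real.exp_pos _).trans h3)]
        exact h3.le
      have h5 : Real.log (rho U (R, z) / Real.exp (-lam)) = Real.log (rho U (R, z)) + lam := by
        rw [Real.log_div ((Real.exp_pos _).trans h3).ne' (Real.exp_pos _).ne', Real.log_exp]
        ring
      rw [h5]
      have h6 : (lam - N) / 2 ≤ max 0 ((Real.log (rho U (R, z)) + lam) / 2) := by
        refine le_trans ?_ (le_max_right _ _)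
        linarith
      have h7 : 0 ≤ (lam - N) / 2 := by
        rw [hlam]
        linarith
      exact pow_le_pow_left₀ h7 h6 2
    have h3 := h2.trans h1
    rw [← ENNReal.ofReal_mul hR0.le] at h3
    have h4 : R * (C * (1 + lam) ^ 2) = ((lam - N) / 2) ^ 2 * (16 * (R * C)) := by
      rw [hlam]
      ring
    rw [h4, ENNReal.ofReal_mul (by positivity)] at h3
    have h5 : ENNReal.ofReal (((lam - N) / 2) ^ 2) ≠ 0 := by
      rw [ne_eq, ENNReal.ofReal_eq_zero, not_le]
      have : 0 < (lam - N) / 2 := by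
        rw [hlam]
        linarith
      positivity
    exact (ENNReal.mul_le_mul_iff_right h5 ENNReal.ofReal_ne_top).mp h3
  have hmono : Monotone EN := by
    intro N M hNM z hz'
    have h1 : Real.exp (-(N : ℝ)) < rho U (R, z) := hz'.2
    have h2 : Real.exp (-(M : ℝ)) ≤ Real.exp (-(N : ℝ)) := by
      rw [Real.exp_le_exp, neg_le_neg_iff]
      exact_mod_cast hNM
    exact ⟨hz'.1, lt_of_le_of_lt h2 h1⟩
  have hunion : volume I ≤ volume (⋃ N, EN N) := by
    apply measure_mono_ae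
    filter_upwards [hae] with z hz1 hzI
    have hzI' : z ∈ I := hzI
    have h1 : rho U (R, z) ≠ 0 := hz1 (hIs hzI') R ⟨hR0, by linarith⟩
    have h2 : 0 < rho U (R, z) := lt_of_le_of_ne (rho_nonneg U _) (Ne.symm h1)
    obtain ⟨N, hN⟩ := exists_nat_gt (-Real.log (rho U (R, z)))
    have h3 : z ∈ ⋃ N, EN N := by
      refine mem_iUnion.mpr ⟨N, hzI', ?_⟩
      change Real.exp (-(N : ℝ)) < rho U (R, z)
      rw [← Real.lt_log_iff_exp_lt h2]
      linarith
    exact h3
  have hfinal : ENNReal.ofReal d ≤ ENNReal.ofReal (16 * (R * C)) := by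
    have h1 : volume I = ENNReal.ofReal d := by
      rw [hI, Real.volume_Ioo]
      congr 1
      ring
    rw [← h1]
    refine hunion.trans ?_
    rw [hmono.measure_iUnion]
    exact iSup_le hbound
  rw [ENNReal.ofReal_le_ofReal_iff (by positivity)] at hfinal
  have h1 : R * C ≤ d / 32 := by
    have := mul_le_mul_of_nonneg_right hR2 hC0.le
    refine this.trans (le_of_eq ?_)
    field_simp
  linarith

end Pool.Agent.AXS
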