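import Pool.Agent.AXS.Targets

/-!
# Axially symmetric `p`-harmonic functions: easy lemmas
-/

set_option autoImplicit false

open Set MeasureTheory Filter Topology
open scoped RealInnerProductSpace
open Pool.Agent.SCP (E PHarm hs Eqn Sub)

namespace Pool.Agent.AXS

section

variable {p m : ℝ} {P : Set (ℝ × ℝ)} {U : ℝ × ℝ → ℝ}

theorem rho_nonneg (U : ℝ × ℝ → ℝ) (x : ℝ × ℝ) : 0 ≤ rho U x := by
  unfold rho
  positivity

theorem rho_pos {x : ℝ × ℝ} (hx : x ∈ Good P U) : 0 < rho U x :=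
  lt_of_le_of_ne (rho_nonneg U x) (Ne.symm hx.2.2)

theorem sn_sq_add_cs_sq {x : ℝ × ℝ} (hx : x ∈ Good P U) : sn U x ^ 2 + cs U x ^ 2 = 1 := by
  have h := rho_pos hx
  unfold sn cs
  rw [div_pow, div_pow, Real.sq_sqrt h.le, ← add_div]
  exact div_self h.ne'

theorem t1_eq {x : ℝ × ℝ} (hx : x ∈ Good P U) : t1 U x = sn U x * XX U x + cs U x * YY U x := by
  have h := sn_sq_add_cs_sq hx
  unfold XX YY
  linear_combination (- t1 U x) * h

theorem t2_eq {x : ℝ × ℝ} (hx : x ∈ Good P U) : t2 U x = cs U x * XX U x - sn U x * YY U x := by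
  have h := sn_sq_add_cs_sq hx
  unfold XX YY
  linear_combination (- t2 U x) * h

theorem t_sq {x : ℝ × ℝ} (hx : x ∈ Good P U) :
    t1 U x ^ 2 + t2 U x ^ 2 = XX U x ^ 2 + YY U x ^ 2 := by
  have h := sn_sq_add_cs_sq hx
  unfold XX YY
  linear_combination (-(t1 U x ^ 2 + t2 U x ^ 2)) * h

theorem sn_sq_le {x : ℝ × ℝ} (hx : x ∈ Good P U) : sn U x ^ 2 ≤ 1 := by
  nlinarith [sn_sq_add_cs_sq hx, sq_nonneg (cs U x)]

theorem cs_sq_le {x : ℝ × ℝ} (hx : x ∈ Good P U) : cs U x ^ 2 ≤ 1 := by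
  nlinarith [sn_sq_add_cs_sq hx, sq_nonneg (sn U x)]

theorem jac (hg : T_GOOD) (hU : Plan p m P U) {x : ℝ × ℝ} (hx : x ∈ Good P U) :
    h1 U x * t2 U x - h2 U x * t1 U x = XX U x ^ 2 + YY U x ^ 2 / (p - 1) +
      m / (p - 1) * (sn U x / x.1) * YY U x := by
  obtain ⟨-, -, -, -, -, -, -, -, -, H⟩ := hg p m P U hU
  obtain ⟨-, h, -, -, -, -, -, -, -, e1, e2⟩ := H x hx
  have hp : p - 1 ≠ 0 := by
    have := hU.one_lt
    intro h0
    linarith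
  have hr : x.1 ≠ 0 := hx.2.1.ne'
  rw [e1, e2, t1_eq hx, t2_eq hx]
  generalize sn U x = s at *
  generalize cs U x = c at *
  generalize XX U x = X at *
  generalize YY U x = Y at *
  generalize x.1 = r at *
  generalize p - 1 = q at *
  have hc : c ^ 2 = 1 - s ^ 2 := by linarith
  field_simp
  ring_nf
  rw [hc]
  ring

theorem jac_ge (hg : T_GOOD) (hU : Plan p m P U) : ∃ c C : ℝ, 0 < c ∧ 0 < C ∧ ∀ x ∈ Good P U,
    c * (t1 U x ^ 2 + t2 U x ^ 2) ≤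
      h1 U x * t2 U x - h2 U x * t1 U x + C * (sn U x / x.1) ^ 2 := by
  have hp : 0 < p - 1 := by
    have := hU.one_lt
    linarith
  have hm : 0 < m := by
    have := hU.one_le
    linarith
  refine ⟨min 1 (1 / (2 * (p - 1))), m ^ 2 / (2 * (p - 1)), by positivity, by positivity, ?_⟩
  intro x hx
  rw [jac hg hU hx, t_sq hx]
  have h1 : min 1 (1 / (2 * (p - 1))) ≤ 1 := min_le_left _ _
  have h2 : min 1 (1 / (2 * (p - 1))) ≤ 1 / (2 * (p - 1)) := min_le_right _ _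
  have h3 : min 1 (1 / (2 * (p - 1))) * XX U x ^ 2 ≤ 1 * XX U x ^ 2 :=
    mul_le_mul_of_nonneg_right h1 (sq_nonneg _)
  have h4 : min 1 (1 / (2 * (p - 1))) * YY U x ^ 2 ≤ 1 / (2 * (p - 1)) * YY U x ^ 2 :=
    mul_le_mul_of_nonneg_right h2 (sq_nonneg _)
  have h5 : 0 ≤ (YY U x + m * (sn U x / x.1)) ^ 2 / (2 * (p - 1)) := by positivity
  have h6 : YY U x ^ 2 / (p - 1) + m / (p - 1) * (sn U x / x.1) * YY U x +
      m ^ 2 / (2 * (p - 1)) * (sn U x / x.1) ^ 2 = 1 / (2 * (p - 1)) * YY U x ^ 2 +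
      (YY U x + m * (sn U x / x.1)) ^ 2 / (2 * (p - 1)) := by
    generalize sn U x / x.1 = σ
    field_simp
    ring
  linarith

theorem hsq_le (hg : T_GOOD) (hU : Plan p m P U) : ∃ C : ℝ, 0 < C ∧ ∀ x ∈ Good P U,
    h1 U x ^ 2 + h2 U x ^ 2 ≤ C * (t1 U x ^ 2 + t2 U x ^ 2 + (sn U x / x.1) ^ 2) := by
  have hp : 0 < p - 1 := by
    have := hU.one_lt
    linarith
  have hm : 0 < m := by
    have := hU.one_le
    linarith
  refine ⟨1 + 2 * (1 + m ^ 2) / (p - 1) ^ 2, by positivity, ?_⟩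
  intro x hx
  obtain ⟨-, -, -, -, -, -, -, -, -, H⟩ := hg p m P U hU
  obtain ⟨-, h, -, -, -, -, -, -, -, e1, e2⟩ := H x hx
  rw [t_sq hx]
  have h0 : h1 U x ^ 2 + h2 U x ^ 2 = XX U x ^ 2 +
      (YY U x + m * (sn U x / x.1)) ^ 2 / (p - 1) ^ 2 := by
    rw [e1, e2]
    generalize sn U x = s at *
    generalize cs U x = c at *
    generalize XX U x = X at *
    generalize YY U x = Y at *
    generalize x.1 = r at *
    have hp' : p - 1 ≠ 0 := hp.ne'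
    generalize p - 1 = q at *
    have hc : c ^ 2 = 1 - s ^ 2 := by linarith
    have e3 : (c * X - s * (Y + m * s / r) / q) ^ 2 + (-(s * X) - c * (Y + m * s / r) / q) ^ 2 =
        (s ^ 2 + c ^ 2) * (X ^ 2 + (Y + m * s / r) ^ 2 / q ^ 2) := by
      field_simp
      ring
    rw [e3, h, one_mul, mul_div_assoc]
  rw [h0]
  generalize sn U x / x.1 = σ
  generalize XX U x = X
  generalize YY U x = Y
  have h7 : (Y + m * σ) ^ 2 ≤ 2 * (1 + m ^ 2) * (X ^ 2 + Y ^ 2 + σ ^ 2) := by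
    nlinarith [sq_nonneg (Y - m * σ), sq_nonneg X, sq_nonneg (m * Y), sq_nonneg σ,
      sq_nonneg (m * X), sq_nonneg (m * σ)]
  have h8 : (Y + m * σ) ^ 2 / (p - 1) ^ 2 ≤
      2 * (1 + m ^ 2) * (X ^ 2 + Y ^ 2 + σ ^ 2) / (p - 1) ^ 2 :=
    div_le_div_of_nonneg_right h7 (by positivity)
  have h9 : (1 + 2 * (1 + m ^ 2) / (p - 1) ^ 2) * (X ^ 2 + Y ^ 2 + σ ^ 2) =
      X ^ 2 + Y ^ 2 + σ ^ 2 + 2 * (1 + m ^ 2) * (X ^ 2 + Y ^ 2 + σ ^ 2) / (p - 1) ^ 2 := by ring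
  rw [h9]
  nlinarith [sq_nonneg Y, sq_nonneg σ]

theorem ww_nonneg {κ : ℝ} (hκ : 0 < κ) (x : ℝ × ℝ) : 0 ≤ ww p m κ U x :=
  div_nonneg (Real.rpow_nonneg (rho_nonneg U x) _) hκ.le

theorem ww_pos {κ : ℝ} (hκ : 0 < κ) {x : ℝ × ℝ} (hx : x ∈ Good P U) : 0 < ww p m κ U x :=
  div_pos (Real.rpow_pos_of_pos (rho_pos hx) _) hκ

theorem tt_pos {δ r : ℝ} (hδ : 0 < δ) (hr : 0 < r) : 0 < tt δ r :=
  lt_min (div_pos hr hδ) one_pos

theorem tt_le_one (δ r : ℝ) : tt δ r ≤ 1 := min_le_right _ _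

theorem tt_lt_one {δ r : ℝ} (hδ : 0 < δ) (h : tt δ r < 1) : r < δ := by
  unfold tt at h
  by_contra hcon
  push Not at hcon
  rw [min_eq_right ((one_le_div hδ).mpr hcon)] at h
  exact lt_irrefl _ h

theorem tt_eq_one {δ r : ℝ} (hδ : 0 < δ) (h : δ ≤ r) : tt δ r = 1 :=
  min_eq_right ((one_le_div hδ).mpr h)

theorem om_eq_one {δ r : ℝ} (hδ : 0 < δ) (h : δ ≤ r) : om δ r = 1 := by
  unfold om
  rw [tt_eq_one hδ h]
  norm_num

/-- the condition of `POS` -/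
theorem low {κ δ : ℝ} {x : ℝ × ℝ} (hδ : 0 < δ) (h : x.1 < δ → ww p m κ U x ≤ 1) :
    tt δ x.1 < 1 → ww p m κ U x ≤ 1 := fun h1 => h (tt_lt_one hδ h1)

end

end Pool.Agent.AXS
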