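import Pool.Agent.AXS.Targets
import Pool.Agent.AXS.Base

/-!
# Axially symmetric `p`-harmonic functions: the capacity estimate
-/

set_option autoImplicit false

open Set MeasureTheory Filter Topology
open scoped RealInnerProductSpace ENNReal Manifold

namespace Pool.Agent.AXS

namespace Cap

/-! ### One variable -/

theorem hasDerivAt_sqp (u : ℝ) :
    HasDerivAt (fun v : ℝ => (max 0 v) ^ 2) (2 * max 0 u) u := by
  rcases lt_trichotomy u 0 with h | h | h
  · have e : (fun v : ℝ => (max 0 v) ^ 2) =ᶠ[𝓝 u] fun _ => (0 : ℝ) := by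
      filter_upwards [Iio_mem_nhds h] with v hv
      rw [max_eq_left (le_of_lt hv)]
      ring
    rw [max_eq_left h.le, mul_zero]
    exact (hasDerivAt_const u (0 : ℝ)).congr_of_eventuallyEq e
  · subst h
    rw [max_self, mul_zero, hasDerivAt_iff_tendsto_slope]
    have h1 : Tendsto (fun v : ℝ => max 0 v) (𝓝[≠] 0) (𝓝 0) := by
      have h2 : ContinuousAt (fun v : ℝ => max 0 v) 0 := by fun_prop
      have h3 := h2.tendsto
      simp only [max_self] at h3
      exact h3.mono_left nhdsWithin_le_nhds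
    refine h1.congr' ?_
    filter_upwards [self_mem_nhdsWithin] with v hv
    have hv' : v ≠ 0 := hv
    rw [slope_def_field]
    rcases le_total v 0 with h4 | h4
    · rw [max_eq_left h4]
      simp
    · rw [max_eq_right h4, max_self]
      field_simp
      ring
  · have e : (fun v : ℝ => (max 0 v) ^ 2) =ᶠ[𝓝 u] fun v => v ^ 2 := by
      filter_upwards [Ioi_mem_nhds h] with v hv
      rw [max_eq_right (le_of_lt hv)]
    rw [max_eq_right h.le]
    have h5 := (hasDerivAt_pow 2 u).congr_of_eventuallyEq e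
    simpa using h5

theorem contDiff_sqp : ContDiff ℝ 1 (fun v : ℝ => (max 0 v) ^ 2) := by
  rw [contDiff_one_iff_deriv]
  refine ⟨fun u => (hasDerivAt_sqp u).differentiableAt, ?_⟩
  have e : deriv (fun v : ℝ => (max 0 v) ^ 2) = fun u => 2 * max 0 u :=
    funext fun u => (hasDerivAt_sqp u).deriv
  rw [e]
  fun_prop

theorem one_le_yy {ρ : ℝ} (h : 0 < ρ) : 1 ≤ yy ρ := by
  unfold yy
  have h1 : 0 ≤ Real.log (1 + 1 / ρ) := Real.log_nonneg (by
    have : 0 < 1 / ρ := by positivity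
    linarith)
  linarith

theorem yy_pos {ρ : ℝ} (h : 0 < ρ) : 0 < yy ρ := lt_of_lt_of_le one_pos (one_le_yy h)

theorem hasDerivAt_yy {ρ : ℝ} (h : 0 < ρ) :
    HasDerivAt yy (-(1 / (2 * ρ * (1 + ρ)))) ρ := by
  unfold yy
  have h1 : HasDerivAt (fun r : ℝ => 1 + 1 / r) (-(1 / ρ ^ 2)) ρ := by
    have h2 := (hasDerivAt_inv h.ne').const_add 1
    simp only [one_div]
    convert h2 using 1
  have h3 : (1 : ℝ) + 1 / ρ ≠ 0 := by positivity
  have h4 := ((h1.log h3).div_const 2).const_add 1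
  refine h4.congr_deriv ?_
  field_simp
  ring

theorem contDiffAt_yy {ρ : ℝ} (h : 0 < ρ) : ContDiffAt ℝ 1 yy ρ := by
  unfold yy
  have h3 : (1 : ℝ) + 1 / ρ ≠ 0 := by positivity
  have h1 : ContDiffAt ℝ 1 (fun r : ℝ => 1 + 1 / r) ρ := by
    simp only [one_div]
    exact contDiffAt_const.add (contDiffAt_inv ℝ h.ne')
  exact contDiffAt_const.add ((h1.log h3).div_const 2)

/-- the truncated function -/
noncomputable def TM (M ρ : ℝ) : ℝ := if 0 < ρ then 1 / yy ρ * (max 0 (1 - yy ρ / M)) ^ 2 else 0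

/-- the coefficient of `dh` in its differential -/
noncomputable def T1 (M ρ : ℝ) : ℝ := max 0 (1 / yy ρ ^ 2 - 1 / M ^ 2) / (1 + ρ)

theorem TM_zero {M ρ : ℝ} (hM : 0 < M) (h : ρ < Real.exp (-(2 * M))) : TM M ρ = 0 := by
  unfold TM
  split_ifs with h0
  · have h1 : 2 * M ≤ Real.log (1 + 1 / ρ) := by
      rw [Real.le_log_iff_exp_le (by positivity)]
      have h2 : Real.exp (2 * M) ≤ 1 / ρ := by
        rw [le_div_iff₀ h0]
        have h3 := mul_le_mul_of_nonneg_left h.le (Real.exp_pos (2 * M)).le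
        rwa [← Real.exp_add, add_neg_cancel, Real.exp_zero] at h3
      linarith
    have h3 : M ≤ yy ρ := by
      unfold yy
      linarith
    have h4 : 1 - yy ρ / M ≤ 0 := by
      have : 1 ≤ yy ρ / M := (one_le_div hM).mpr h3
      linarith
    rw [max_eq_left h4]
    ring
  · rfl

theorem TM_nonneg (M ρ : ℝ) : 0 ≤ TM M ρ := by
  unfold TM
  split_ifs with h0
  · have := yy_pos h0
    positivity
  · exact le_rfl

theorem T1_nonneg {M ρ : ℝ} (h : 0 < ρ) : 0 ≤ T1 M ρ := by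
  unfold T1
  positivity

theorem T1_le {M ρ : ℝ} (h : 0 < ρ) : T1 M ρ ≤ 1 := by
  unfold T1
  rw [div_le_one (by positivity)]
  refine max_le (by positivity) ?_
  have h1 := one_le_yy h
  have h2 : 1 / yy ρ ^ 2 ≤ 1 := by
    rw [div_le_one (by positivity)]
    nlinarith
  have h3 : 0 ≤ 1 / M ^ 2 := by positivity
  linarith

theorem TM_sq_le {M ρ : ℝ} (hM : 0 < M) (h : 0 < ρ) : TM M ρ ^ 2 ≤ (1 + ρ) * T1 M ρ := by
  unfold TM T1
  rw [if_pos h, mul_div_cancel₀ _ (by positivity)]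
  have hy := yy_pos h
  generalize yy ρ = y at *
  rcases le_total (1 - y / M) 0 with h1 | h1
  · rw [max_eq_left h1]
    simp
  · rw [max_eq_right h1]
    have h2 : 1 - y / M ≤ 1 := by
      have : 0 ≤ y / M := by positivity
      linarith
    have h3 : (1 - y / M) ^ 4 ≤ 1 - y / M := by
      calc (1 - y / M) ^ 4 ≤ (1 - y / M) ^ 1 := pow_le_pow_of_le_one h1 h2 (by norm_num)
        _ = _ := pow_one _
    have h4 : 1 - y / M ≤ (1 - y / M) * (1 + y / M) := by
      have : 0 ≤ y / M := by positivity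
      nlinarith
    have h5 : (1 / y * (1 - y / M) ^ 2) ^ 2 = 1 / y ^ 2 * (1 - y / M) ^ 4 := by
      field_simp
    have h6 : 1 / y ^ 2 * ((1 - y / M) * (1 + y / M)) = 1 / y ^ 2 - 1 / M ^ 2 := by
      field_simp
      ring
    rw [h5]
    refine le_trans ?_ (le_max_right _ _)
    rw [← h6]
    exact mul_le_mul_of_nonneg_left (h3.trans h4) (by positivity)

theorem hasDerivAt_TM {M ρ : ℝ} (hM : 0 < M) (h : 0 < ρ) :
    HasDerivAt (TM M) (T1 M ρ / (2 * ρ)) ρ := by
  have e : TM M =ᶠ[𝓝 ρ] fun r => 1 / yy r * (max 0 (1 - yy r / M)) ^ 2 := by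
    filter_upwards [Ioi_mem_nhds h] with r hr
    exact if_pos hr
  have hy := yy_pos h
  have h1 := hasDerivAt_yy h
  have h2 : HasDerivAt (fun r => 1 / yy r) (-(-(1 / (2 * ρ * (1 + ρ)))) / yy ρ ^ 2) ρ := by
    have h := h1.fun_inv hy.ne'
    simp only [one_div] at h ⊢
    exact h
  have h3 : HasDerivAt (fun r => 1 - yy r / M) (-(-(1 / (2 * ρ * (1 + ρ))) / M)) ρ :=
    (h1.div_const M).const_sub 1
  have h4 : HasDerivAt (fun r => (max 0 (1 - yy r / M)) ^ 2)
      (2 * max 0 (1 - yy ρ / M) * (-(-(1 / (2 * ρ * (1 + ρ))) / M))) ρ :=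
    HasDerivAt.comp (h := fun r => 1 - yy r / M) (h₂ := fun v : ℝ => (max 0 v) ^ 2) ρ
      (hasDerivAt_sqp (1 - yy ρ / M)) h3
  have h5 := (h2.mul h4).congr_of_eventuallyEq e
  refine h5.congr_deriv ?_
  unfold T1
  generalize yy ρ = y at *
  rcases le_total (1 - y / M) 0 with h6 | h6
  · have h7 : 1 / y ^ 2 - 1 / M ^ 2 ≤ 0 := by
      have h8 : M ≤ y := by
        have : 1 ≤ y / M := by linarith
        rwa [one_le_div hM] at this
      have h9 : 1 / y ^ 2 ≤ 1 / M ^ 2 := by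
        apply one_div_le_one_div_of_le (by positivity)
        exact pow_le_pow_left₀ hM.le h8 2
      linarith
    rw [max_eq_left h6, max_eq_left h7]
    ring
  · have h7 : 0 ≤ 1 / y ^ 2 - 1 / M ^ 2 := by
      have h8 : y ≤ M := by
        have : y / M ≤ 1 := by linarith
        rwa [div_le_one hM] at this
      have h9 : 1 / M ^ 2 ≤ 1 / y ^ 2 := by
        apply one_div_le_one_div_of_le (by positivity)
        exact pow_le_pow_left₀ hy.le h8 2
      linarith
    rw [max_eq_right h6, max_eq_right h7]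
    field_simp
    ring

theorem contDiffAt_TM {M ρ : ℝ} (h : 0 < ρ) : ContDiffAt ℝ 1 (TM M) ρ := by
  have e : TM M =ᶠ[𝓝 ρ] fun r => 1 / yy r * (max 0 (1 - yy r / M)) ^ 2 := by
    filter_upwards [Ioi_mem_nhds h] with r hr
    exact if_pos hr
  refine ContDiffAt.congr_of_eventuallyEq ?_ e
  have h1 := contDiffAt_yy h
  have h2 : ContDiffAt ℝ 1 (fun r => 1 / yy r) ρ := contDiffAt_const.div h1 (yy_pos h).ne'
  have h3 : ContDiffAt ℝ 1 (fun r => 1 - yy r / M) ρ := contDiffAt_const.sub (h1.div_const M)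
  exact h2.mul (ContDiffAt.comp (g := fun v : ℝ => (max 0 v) ^ 2) ρ contDiff_sqp.contDiffAt h3)

/-! ### The cutoff -/

theorem cutoff {K V : Set (ℝ × ℝ)} (hK : IsCompact K) (hV : IsOpen V) (hKV : K ⊆ V) :
    ∃ φ : ℝ × ℝ → ℝ, ContDiff ℝ 1 φ ∧ HasCompactSupport φ ∧ tsupport φ ⊆ V ∧
      ∀ x ∈ K, φ x = 1 := by
  obtain ⟨L, hL, hKL, hLV⟩ := exists_compact_between hK hV hKV
  obtain ⟨f, hf1, hf0, -⟩ := exists_contMDiffMap_one_nhds_of_subset_interior
    (n := (1 : ℕ∞)) (I := 𝓘(ℝ, ℝ × ℝ)) (M := ℝ × ℝ) hK.isClosed hKL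
  have hsupp : tsupport (fun z => f z) ⊆ L := by
    refine closure_minimal (fun z hz => ?_) hL.isClosed
    by_contra hzL
    exact hz (hf0 z hzL)
  refine ⟨fun z => f z, contMDiff_iff_contDiff.1 f.contMDiff,
    hL.of_isClosed_subset (isClosed_tsupport _) hsupp, hsupp.trans hLV, fun x hx => ?_⟩
  have h2 : ∀ᶠ y in 𝓝 x, f y = 1 := hf1.filter_mono (nhds_le_nhdsSet hx)
  exact h2.self_of_nhds

/-! ### The test function -/

section

variable {p m M : ℝ} {P : Set (ℝ × ℝ)} {U φ : ℝ × ℝ → ℝ}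

/-- the test function -/
noncomputable def lam (M : ℝ) (U φ : ℝ × ℝ → ℝ) (x : ℝ × ℝ) : ℝ := φ x ^ 2 * TM M (rho U x)

/-- the part of the plane off the axis -/
def QQ (P : Set (ℝ × ℝ)) : Set (ℝ × ℝ) := {x | x ∈ P ∧ 0 < x.1}

theorem isOpen_QQ (hP : IsOpen P) : IsOpen (QQ P) :=
  hP.inter (isOpen_lt continuous_const continuous_fst)

theorem lam_off (hg : T_GOOD) (hU : Plan p m P U) (hM : 0 < M) (hs : tsupport φ ⊆ QQ P)
    {x : ℝ × ℝ} (hx : x ∉ Good P U) : lam M U φ =ᶠ[𝓝 x] fun _ => 0 := by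
  obtain ⟨-, hc, -⟩ := hg p m P U hU
  by_cases h : x ∈ tsupport φ
  · have hxQ := hs h
    have h0 : rho U x = 0 := by
      by_contra h1
      exact hx ⟨hxQ.1, hxQ.2, h1⟩
    have h2 : ContinuousAt (rho U) x := hc.continuousAt (hU.isOpen.mem_nhds hxQ.1)
    have h3 : ∀ᶠ y in 𝓝 x, rho U y < Real.exp (-(2 * M)) := by
      refine h2.eventually_lt continuousAt_const ?_
      rw [h0]
      exact Real.exp_pos _
    filter_upwards [h3] with y hy
    unfold lam
    rw [TM_zero hM hy, mul_zero]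
  · have h1 : ∀ᶠ y in 𝓝 x, y ∉ tsupport φ := (isClosed_tsupport φ).isOpen_compl.mem_nhds h
    filter_upwards [h1] with y hy
    unfold lam
    rw [image_eq_zero_of_notMem_tsupport hy]
    ring

theorem lam_contDiff (hg : T_GOOD) (hU : Plan p m P U) (hM : 0 < M) (hφ : ContDiff ℝ 1 φ)
    (hs : tsupport φ ⊆ QQ P) : ContDiff ℝ 1 (lam M U φ) := by
  rw [contDiff_iff_contDiffAt]
  intro x
  by_cases hx : x ∈ Good P U
  · obtain ⟨ho, -, hr, -⟩ := hg p m P U hU
    have h1 : ContDiffAt ℝ 1 (rho U) x := hr.contDiffAt (ho.mem_nhds hx)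
    have h2 : ContDiffAt ℝ 1 (fun y => TM M (rho U y)) x :=
      ContDiffAt.comp (g := TM M) x (contDiffAt_TM (rho_pos hx)) h1
    exact (hφ.contDiffAt.pow 2).mul h2
  · exact contDiffAt_const.congr_of_eventuallyEq (lam_off hg hU hM hs hx)

theorem lam_supp (hg : T_GOOD) (hU : Plan p m P U) (hM : 0 < M)
    (hs : tsupport φ ⊆ QQ P) : tsupport (lam M U φ) ⊆ Good P U := by
  intro x hx
  by_contra h
  exact notMem_tsupport_iff_eventuallyEq.mpr (lam_off hg hU hM hs h) hx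

theorem lam_compact (hc : HasCompactSupport φ) : HasCompactSupport (lam M U φ) := by
  refine hc.mono ?_
  intro x hx h
  apply hx
  have h' : φ x = 0 := h
  unfold lam
  rw [h']
  ring

theorem lam_deriv (hg : T_GOOD) (hU : Plan p m P U) (hM : 0 < M) (hφ : ContDiff ℝ 1 φ)
    {x : ℝ × ℝ} (hx : x ∈ Good P U) (v : ℝ × ℝ) : fderiv ℝ (lam M U φ) x v =
      2 * φ x * fderiv ℝ φ x v * TM M (rho U x) +
        φ x ^ 2 * (T1 M (rho U x) / (2 * rho U x) * fderiv ℝ (rho U) x v) := by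
  obtain ⟨ho, -, hr, -⟩ := hg p m P U hU
  have h1 : HasFDerivAt (rho U) (fderiv ℝ (rho U) x) x :=
    ((hr.contDiffAt (ho.mem_nhds hx)).differentiableAt one_ne_zero).hasFDerivAt
  have h2 : HasFDerivAt φ (fderiv ℝ φ x) x := (hφ.differentiable one_ne_zero x).hasFDerivAt
  have h3 := (hasDerivAt_TM hM (rho_pos hx)).comp_hasFDerivAt x h1
  have h4 := (h2.pow 2).mul h3
  have h5 : fderiv ℝ (lam M U φ) x = _ := h4.fderiv
  rw [h5]
  simp
  ring

/-- the pointwise estimate -/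
theorem pointwise {c C a b D σ2 φx T T1x ρ J e1 e2 τ1 τ2 : ℝ} (hc : 0 < c)
    (hT1 : 0 ≤ T1x) (hT1' : T1x ≤ 1) (hTT : T ^ 2 ≤ (1 + ρ) * T1x)
    (hρ : 0 < ρ) (hD : D = τ1 ^ 2 + τ2 ^ 2) (hσ : 0 ≤ σ2) (hC : 0 < C)
    (hJ : c * D ≤ J + C * σ2) (ha : a = e1 * τ2 - e2 * τ1) (hb : b = e1 ^ 2 + e2 ^ 2) :
    c / 2 * (φx ^ 2 * T1x * D) ≤ (2 * φx * T * a + φx ^ 2 * T1x * J) +
      (C * φx ^ 2 * σ2 + 2 / c * ((1 + ρ) * b)) := by
  have hD0 : 0 ≤ D := by rw [hD]; positivity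
  have hb0 : 0 ≤ b := by rw [hb]; positivity
  have h1 : a ^ 2 ≤ b * D := by
    rw [ha, hb, hD]
    nlinarith [sq_nonneg (e1 * τ1 + e2 * τ2)]
  -- `2 |φ T a| ≤ (c/2) φ² T1 D + (2/c) (1+ρ) b`
  have h2 : (φx * T * a) ^ 2 ≤ (φx ^ 2 * T1x * D) * ((1 + ρ) * b) := by
    have h3 : T ^ 2 * a ^ 2 ≤ ((1 + ρ) * T1x) * (b * D) :=
      mul_le_mul hTT h1 (sq_nonneg _) (by positivity)
    calc (φx * T * a) ^ 2 = φx ^ 2 * (T ^ 2 * a ^ 2) := by ring
      _ ≤ φx ^ 2 * (((1 + ρ) * T1x) * (b * D)) := mul_le_mul_of_nonneg_left h3 (sq_nonneg _)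
      _ = _ := by ring
  have hA : 0 ≤ φx ^ 2 * T1x * D := by positivity
  have hB : 0 ≤ (1 + ρ) * b := by positivity
  generalize hAA : φx ^ 2 * T1x * D = A at *
  generalize hBB : (1 + ρ) * b = B at *
  have h4 : |φx * T * a| ≤ c / 4 * A + 1 / c * B := by
    refine abs_le_of_sq_le_sq ?_ (by positivity)
    have h5 : A * B ≤ (c / 4 * A + 1 / c * B) ^ 2 := by
      have h6 : (c / 4 * A + 1 / c * B) ^ 2 = (c / 4 * A - 1 / c * B) ^ 2 + A * B := by
        field_simp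
        ring
      rw [h6]
      nlinarith [sq_nonneg (c / 4 * A - 1 / c * B)]
    exact h2.trans h5
  have h7 : -(c / 4 * A + 1 / c * B) ≤ φx * T * a := by
    have := neg_abs_le (φx * T * a)
    linarith
  have h8 : φx ^ 2 * T1x * (c * D) ≤ φx ^ 2 * T1x * (J + C * σ2) :=
    mul_le_mul_of_nonneg_left hJ (by positivity)
  have h9 : φx ^ 2 * T1x * (c * D) = c * A := by rw [← hAA]; ring
  have h10 : φx ^ 2 * T1x * (C * σ2) ≤ C * φx ^ 2 * σ2 := by
    have : φx ^ 2 * T1x * (C * σ2) = T1x * (C * φx ^ 2 * σ2) := by ring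
    rw [this]
    exact mul_le_of_le_one_left (by positivity) hT1'
  have h11 : 2 / c * B = 2 * (1 / c * B) := by ring
  rw [h11]
  nlinarith

/-! ### Integrals -/

/-- a function which is continuous on an open set and vanishes near the points outside is
continuous -/
theorem continuous_of_on {O : Set (ℝ × ℝ)} {f : ℝ × ℝ → ℝ} (hO : IsOpen O)
    (h1 : ContinuousOn f O) (h2 : ∀ x ∉ O, f =ᶠ[𝓝 x] fun _ => 0) : Continuous f := by
  rw [continuous_iff_continuousAt]
  intro x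
  by_cases hx : x ∈ O
  · exact h1.continuousAt (hO.mem_nhds hx)
  · exact (continuousAt_const (y := (0 : ℝ))).congr (h2 x hx).symm

/-- the integrand -/
noncomputable def FF (M : ℝ) (U φ : ℝ × ℝ → ℝ) (x : ℝ × ℝ) : ℝ :=
  d1 (lam M U φ) x * t2 U x - d2 (lam M U φ) x * t1 U x

/-- the bound -/
noncomputable def bd (c C : ℝ) (U φ : ℝ × ℝ → ℝ) (x : ℝ × ℝ) : ℝ :=
  C * φ x ^ 2 * (1 / x.1 ^ 2) + 2 / c * ((1 + rho U x) * (d1 φ x ^ 2 + d2 φ x ^ 2))

theorem FF_off (hg : T_GOOD) (hU : Plan p m P U) (hM : 0 < M) (hs : tsupport φ ⊆ QQ P)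
    {x : ℝ × ℝ} (hx : x ∉ Good P U) : FF M U φ =ᶠ[𝓝 x] fun _ => 0 := by
  have h := (lam_off hg hU hM hs hx).fderiv (𝕜 := ℝ)
  filter_upwards [h] with y hy
  unfold FF d1 d2
  rw [hy]
  simp

theorem FF_cont (hg : T_GOOD) (hU : Plan p m P U) (hM : 0 < M) (hφ : ContDiff ℝ 1 φ)
    (hs : tsupport φ ⊆ QQ P) : Continuous (FF M U φ) := by
  obtain ⟨ho, -, hr, -, -, ht1, ht2, -⟩ := hg p m P U hU
  refine continuous_of_on ho ?_ fun x hx => FF_off hg hU hM hs hx
  have h1 : Continuous (fderiv ℝ (lam M U φ)) :=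
    (lam_contDiff hg hU hM hφ hs).continuous_fderiv one_ne_zero
  have h2 : Continuous (d1 (lam M U φ)) := h1.clm_apply continuous_const
  have h3 : Continuous (d2 (lam M U φ)) := h1.clm_apply continuous_const
  exact (h2.continuousOn.mul ht2.continuousOn).sub (h3.continuousOn.mul ht1.continuousOn)

theorem FF_compact (hc : HasCompactSupport φ) : HasCompactSupport (FF M U φ) := by
  have h0 : HasCompactSupport (fderiv ℝ (lam M U φ)) := (lam_compact (M := M) (U := U) hc).fderiv ℝ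
  refine h0.mono ?_
  intro x hx h
  apply hx
  have h' : fderiv ℝ (lam M U φ) x = 0 := h
  unfold FF d1 d2
  rw [h']
  simp

theorem FF_int (hd : T_DIV) (hg : T_GOOD) (hU : Plan p m P U) (hM : 0 < M)
    (hφ : ContDiff ℝ 1 φ) (hc : HasCompactSupport φ) (hs : tsupport φ ⊆ QQ P) :
    ∫ x, FF M U φ x = 0 := by
  obtain ⟨ho, -, hr, -, -, ht1, ht2, -, -, H⟩ := hg p m P U hU
  have h := hd (Good P U) (lam M U φ) (t1 U) (t2 U) ho (lam_contDiff hg hU hM hφ hs)
    (lam_compact hc) (lam_supp hg hU hM hs) ht1 ht2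
  have e : (fun x => lam M U φ x * (d1 (t2 U) x - d2 (t1 U) x)) = fun _ => 0 := by
    funext x
    by_cases hx : x ∈ Good P U
    · obtain ⟨-, -, -, -, -, -, -, -, e, -⟩ := H x hx
      rw [e, sub_self, mul_zero]
    · rw [(lam_off hg hU hM hs hx).self_of_nhds, zero_mul]
  unfold FF
  rw [h, e]
  simp

theorem bd_cont (c C : ℝ) (hg : T_GOOD) (hU : Plan p m P U) (hφ : ContDiff ℝ 1 φ)
    (hs : tsupport φ ⊆ QQ P) : Continuous (bd c C U φ) := by
  obtain ⟨-, hr, -⟩ := hg p m P U hU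
  refine continuous_of_on (isOpen_QQ hU.isOpen) ?_ fun x hx => ?_
  · have h1 : Continuous (fderiv ℝ φ) := hφ.continuous_fderiv one_ne_zero
    have h2 : Continuous (d1 φ) := h1.clm_apply continuous_const
    have h3 : Continuous (d2 φ) := h1.clm_apply continuous_const
    have h4 : ContinuousOn (rho U) (QQ P) := hr.mono fun x hx => hx.1
    have h5 : ContinuousOn (fun x : ℝ × ℝ => 1 / x.1 ^ 2) (QQ P) := by
      refine continuousOn_const.div (by fun_prop) fun x hx => ?_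
      have := hx.2
      positivity
    have h6 := hφ.continuous
    exact ((continuousOn_const.mul (h6.continuousOn.pow 2)).mul h5).add
      (continuousOn_const.mul ((continuousOn_const.add h4).mul
        ((h2.continuousOn.pow 2).add (h3.continuousOn.pow 2))))
  · have h1 : x ∉ tsupport φ := fun h => hx (hs h)
    have h2 : φ =ᶠ[𝓝 x] fun _ => 0 := notMem_tsupport_iff_eventuallyEq.mp h1
    have h3 := h2.fderiv (𝕜 := ℝ)
    filter_upwards [h2, h3] with y hy hy'
    unfold bd d1 d2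
    rw [hy, hy']
    simp

theorem bd_compact (c C : ℝ) (hc : HasCompactSupport φ) : HasCompactSupport (bd c C U φ) := by
  have h0 : IsCompact (tsupport φ) := hc
  refine HasCompactSupport.intro h0 fun x hx => ?_
  have h2 : φ =ᶠ[𝓝 x] fun _ => 0 := notMem_tsupport_iff_eventuallyEq.mp hx
  have h3 := (h2.fderiv (𝕜 := ℝ)).self_of_nhds
  have h4 := h2.self_of_nhds
  unfold bd d1 d2
  rw [h3, h4]
  simp

theorem bd_nonneg {c C : ℝ} (hc : 0 < c) (hC : 0 < C) (x : ℝ × ℝ) : 0 ≤ bd c C U φ x := by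
  have := rho_nonneg U x
  unfold bd
  positivity

/-- the integrand on the left -/
noncomputable def II (c M : ℝ) (U φ : ℝ × ℝ → ℝ) (x : ℝ × ℝ) : ℝ :=
  c / 2 * (φ x ^ 2 * T1 M (rho U x) * (t1 U x ^ 2 + t2 U x ^ 2))

theorem II_le {c C : ℝ} (hg : T_GOOD) (hU : Plan p m P U) (hM : 0 < M) (hφ : ContDiff ℝ 1 φ)
    (hc : 0 < c) (hC : 0 < C)
    (hJ : ∀ x ∈ Good P U, c * (t1 U x ^ 2 + t2 U x ^ 2) ≤
      h1 U x * t2 U x - h2 U x * t1 U x + C * (sn U x / x.1) ^ 2)
    {x : ℝ × ℝ} (hx : x ∈ Good P U) : II c M U φ x ≤ FF M U φ x + bd c C U φ x := by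
  obtain ⟨-, -, -, -, -, -, -, -, -, H⟩ := hg p m P U hU
  obtain ⟨-, -, hr1, hr2, -⟩ := H x hx
  have hρ := rho_pos hx
  have h := pointwise (φx := φ x) (T := TM M (rho U x)) (T1x := T1 M (rho U x)) (ρ := rho U x)
    (e1 := d1 φ x) (e2 := d2 φ x) (τ1 := t1 U x) (τ2 := t2 U x)
    (σ2 := (sn U x / x.1) ^ 2) hc (T1_nonneg hρ) (T1_le hρ) (TM_sq_le hM hρ) hρ rfl
    (sq_nonneg _) hC (hJ x hx) rfl rfl
  have hr : x.1 ≠ 0 := hx.2.1.ne'
  have e1 : FF M U φ x = 2 * φ x * TM M (rho U x) * (d1 φ x * t2 U x - d2 φ x * t1 U x) +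
      φ x ^ 2 * T1 M (rho U x) * (h1 U x * t2 U x - h2 U x * t1 U x) := by
    have e2 : d1 (lam M U φ) x = 2 * φ x * d1 φ x * TM M (rho U x) +
        φ x ^ 2 * (T1 M (rho U x) * h1 U x) := by
      have := lam_deriv hg hU hM hφ hx (1, 0)
      have e3 : fderiv ℝ (rho U) x (1, 0) = 2 * rho U x * h1 U x := hr1
      rw [e3] at this
      unfold d1
      rw [this]
      field_simp
    have e4 : d2 (lam M U φ) x = 2 * φ x * d2 φ x * TM M (rho U x) +
        φ x ^ 2 * (T1 M (rho U x) * h2 U x) := by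
      have := lam_deriv hg hU hM hφ hx (0, 1)
      have e3 : fderiv ℝ (rho U) x (0, 1) = 2 * rho U x * h2 U x := hr2
      rw [e3] at this
      unfold d2
      rw [this]
      field_simp
    unfold FF
    rw [e2, e4]
    ring
  have h2 : C * φ x ^ 2 * (sn U x / x.1) ^ 2 ≤ C * φ x ^ 2 * (1 / x.1 ^ 2) := by
    refine mul_le_mul_of_nonneg_left ?_ (by positivity)
    rw [div_pow]
    exact div_le_div_of_nonneg_right (sn_sq_le hx) (by positivity)
  unfold II bd
  rw [e1]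
  linarith

theorem II_nonneg {c : ℝ} (hc : 0 < c) {x : ℝ × ℝ} (hx : x ∈ Good P U) : 0 ≤ II c M U φ x := by
  have := T1_nonneg (M := M) (rho_pos hx)
  unfold II
  positivity

theorem lintegral_II {c C : ℝ} (hd : T_DIV) (hg : T_GOOD) (hU : Plan p m P U) (hM : 0 < M)
    (hφ : ContDiff ℝ 1 φ) (hcs : HasCompactSupport φ) (hs : tsupport φ ⊆ QQ P)
    (hc : 0 < c) (hC : 0 < C)
    (hJ : ∀ x ∈ Good P U, c * (t1 U x ^ 2 + t2 U x ^ 2) ≤
      h1 U x * t2 U x - h2 U x * t1 U x + C * (sn U x / x.1) ^ 2) :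
    ∫⁻ x in Good P U, ENNReal.ofReal (II c M U φ x) ≤ ENNReal.ofReal (∫ x, bd c C U φ x) := by
  have ho : IsOpen (Good P U) := (hg p m P U hU).1
  have hF : Integrable (FF M U φ) :=
    (FF_cont hg hU hM hφ hs).integrable_of_hasCompactSupport (FF_compact hcs)
  have hB : Integrable (bd c C U φ) :=
    (bd_cont c C hg hU hφ hs).integrable_of_hasCompactSupport (bd_compact c C hcs)
  have hn : ∀ x, 0 ≤ FF M U φ x + bd c C U φ x := by
    intro x
    by_cases hx : x ∈ Good P U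
    · exact (II_nonneg hc hx).trans (II_le hg hU hM hφ hc hC hJ hx)
    · rw [(FF_off hg hU hM hs hx).self_of_nhds, zero_add]
      exact bd_nonneg hc hC x
  calc ∫⁻ x in Good P U, ENNReal.ofReal (II c M U φ x)
      ≤ ∫⁻ x in Good P U, ENNReal.ofReal (FF M U φ x + bd c C U φ x) := by
        refine setLIntegral_mono' ho.measurableSet fun x hx => ?_
        exact ENNReal.ofReal_le_ofReal (II_le hg hU hM hφ hc hC hJ hx)
    _ ≤ ∫⁻ x, ENNReal.ofReal (FF M U φ x + bd c C U φ x) := setLIntegral_le_lintegral _ _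
    _ = ENNReal.ofReal (∫ x, (FF M U φ x + bd c C U φ x)) :=
        (ofReal_integral_eq_lintegral_ofReal (hF.add hB) (Eventually.of_forall hn)).symm
    _ = ENNReal.ofReal (∫ x, bd c C U φ x) := by
        rw [integral_add hF hB, FF_int hd hg hU hM hφ hcs hs, zero_add]

/-- the limit of the integrand on the left -/
noncomputable def LLm (c : ℝ) (U φ : ℝ × ℝ → ℝ) (x : ℝ × ℝ) : ℝ :=
  c / 2 * (φ x ^ 2 * (1 / yy (rho U x) ^ 2 / (1 + rho U x)) * (t1 U x ^ 2 + t2 U x ^ 2))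

theorem tendsto_II (c : ℝ) {x : ℝ × ℝ} :
    Tendsto (fun n : ℕ => II c (n + 1 : ℝ) U φ x) atTop (𝓝 (LLm c U φ x)) := by
  have h1 : Tendsto (fun n : ℕ => 1 / ((n : ℝ) + 1) ^ 2) atTop (𝓝 0) := by
    have h2 := (tendsto_one_div_add_atTop_nhds_zero_nat (𝕜 := ℝ)).pow 2
    simp only [div_pow, one_pow] at h2
    simpa using h2
  have h3 : Tendsto (fun n : ℕ => max 0 (1 / yy (rho U x) ^ 2 - 1 / ((n : ℝ) + 1) ^ 2)) atTop
      (𝓝 (max 0 (1 / yy (rho U x) ^ 2 - 0))) := (tendsto_const_nhds (x := (0 : ℝ))).max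
        (tendsto_const_nhds.sub h1)
  have h4 : max 0 (1 / yy (rho U x) ^ 2 - 0) = 1 / yy (rho U x) ^ 2 := by
    rw [sub_zero]
    exact max_eq_right (by positivity)
  rw [h4] at h3
  exact (((h3.div_const _).const_mul _).mul_const _).const_mul _

theorem II_cont (c M : ℝ) (hg : T_GOOD) (hU : Plan p m P U) (hφ : ContDiff ℝ 1 φ) :
    ContinuousOn (II c M U φ) (Good P U) := by
  obtain ⟨ho, -, hr, -, -, ht1, ht2, -⟩ := hg p m P U hU
  have hy : ContinuousOn (fun x => yy (rho U x)) (Good P U) := by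
    intro x hx
    exact (ContinuousAt.comp_continuousWithinAt (g := yy) (contDiffAt_yy (rho_pos hx)).continuousAt
      (hr.continuousOn x hx))
  have hT : ContinuousOn (fun x => T1 M (rho U x)) (Good P U) := by
    unfold T1
    refine ContinuousOn.div ?_ (continuousOn_const.add hr.continuousOn) fun x hx => ?_
    · refine continuousOn_const.sup (ContinuousOn.sub ?_ continuousOn_const)
      refine continuousOn_const.div (hy.pow 2) fun x hx => ?_
      exact pow_ne_zero 2 (yy_pos (rho_pos hx)).ne'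
    · have := rho_pos hx
      positivity
  exact continuousOn_const.mul (((hφ.continuous.continuousOn.pow 2).mul hT).mul
    ((ht1.continuousOn.pow 2).add (ht2.continuousOn.pow 2)))

theorem lintegral_LLm {c C : ℝ} (hd : T_DIV) (hg : T_GOOD) (hU : Plan p m P U)
    (hφ : ContDiff ℝ 1 φ) (hcs : HasCompactSupport φ) (hs : tsupport φ ⊆ QQ P)
    (hc : 0 < c) (hC : 0 < C)
    (hJ : ∀ x ∈ Good P U, c * (t1 U x ^ 2 + t2 U x ^ 2) ≤
      h1 U x * t2 U x - h2 U x * t1 U x + C * (sn U x / x.1) ^ 2) :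
    ∫⁻ x in Good P U, ENNReal.ofReal (LLm c U φ x) ≤ ENNReal.ofReal (∫ x, bd c C U φ x) := by
  have ho : IsOpen (Good P U) := (hg p m P U hU).1
  have h1 : ∀ x, ENNReal.ofReal (LLm c U φ x) =
      liminf (fun n : ℕ => ENNReal.ofReal (II c (n + 1 : ℝ) U φ x)) atTop := by
    intro x
    exact (((ENNReal.continuous_ofReal.tendsto _).comp (tendsto_II c)).liminf_eq).symm
  calc ∫⁻ x in Good P U, ENNReal.ofReal (LLm c U φ x)
      = ∫⁻ x in Good P U, liminf (fun n : ℕ => ENNReal.ofReal (II c (n + 1 : ℝ) U φ x)) atTop := by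
        refine lintegral_congr fun x => h1 x
    _ ≤ liminf (fun n : ℕ => ∫⁻ x in Good P U, ENNReal.ofReal (II c (n + 1 : ℝ) U φ x)) atTop := by
        refine lintegral_liminf_le' fun n => ?_
        exact ((II_cont c (n + 1 : ℝ) hg hU hφ).aemeasurable ho.measurableSet).ennreal_ofReal
    _ ≤ liminf (fun _ : ℕ => ENNReal.ofReal (∫ x, bd c C U φ x)) atTop := by
        refine liminf_le_liminf (Eventually.of_forall fun n => ?_)
        exact lintegral_II hd hg hU (by positivity) hφ hcs hs hc hC hJ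
    _ = ENNReal.ofReal (∫ x, bd c C U φ x) := liminf_const _

end

end Cap

open Cap in
theorem p_CAP (hDIV : T_DIV) (hGOOD : T_GOOD) : T_CAP := by
  intro p m P K U hU hK hKP hK0
  obtain ⟨c, C, hc, hC, hJ⟩ := jac_ge hGOOD hU
  obtain ⟨C2, hC2, hH⟩ := hsq_le hGOOD hU
  obtain ⟨ho, hr, -⟩ := hGOOD p m P U hU
  obtain ⟨φ, hφ, hcs, hs, hφK⟩ := cutoff hK (isOpen_QQ hU.isOpen) fun x hx => ⟨hKP hx, hK0 x hx⟩
  have hfin := lintegral_LLm hDIV hGOOD hU hφ hcs hs hc hC hJ
  -- bounds on `K`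
  obtain ⟨R0, hR0⟩ := (hK.bddAbove_image (hr.mono hKP))
  have hR : ∀ x ∈ K, rho U x ≤ R0 := fun x hx => hR0 ⟨x, hx, rfl⟩
  have hcont : ContinuousOn (fun x : ℝ × ℝ => 1 / x.1 ^ 2) K := by
    refine continuousOn_const.div (by fun_prop) fun x hx => ?_
    have := hK0 x hx
    positivity
  obtain ⟨S0, hS0⟩ := (hK.bddAbove_image hcont)
  have hS : ∀ x ∈ K, 1 / x.1 ^ 2 ≤ S0 := fun x hx => hS0 ⟨x, hx, rfl⟩
  have key : ∀ x ∈ K ∩ Good P U, ENNReal.ofReal ((h1 U x ^ 2 + h2 U x ^ 2) / yy (rho U x) ^ 2) ≤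
      ENNReal.ofReal (C2 * (1 + R0) * (2 / c)) * ENNReal.ofReal (LLm c U φ x) +
        ENNReal.ofReal (C2 * S0) := by
    rintro x ⟨hxK, hx⟩
    have hρ := rho_pos hx
    have hR' := hR x hxK
    have hS' := hS x hxK
    have hy := one_le_yy hρ
    have hH' := hH x hx
    have hR1 : 0 ≤ R0 := hρ.le.trans hR'
    have hS1 : 0 ≤ S0 := le_trans (by positivity) hS'
    have hφ1 := hφK x hxK
    have hL : 0 ≤ LLm c U φ x := by
      have := yy_pos hρ
      unfold LLm
      positivity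
    rw [← ENNReal.ofReal_mul (by positivity), ← ENNReal.ofReal_add (by positivity) (by positivity)]
    refine ENNReal.ofReal_le_ofReal ?_
    have hs2 : (sn U x / x.1) ^ 2 ≤ S0 := by
      refine le_trans ?_ hS'
      rw [div_pow]
      exact div_le_div_of_nonneg_right (sn_sq_le hx) (by positivity)
    have hD : 0 ≤ t1 U x ^ 2 + t2 U x ^ 2 := by positivity
    unfold LLm
    rw [hφ1]
    generalize t1 U x ^ 2 + t2 U x ^ 2 = D at *
    generalize (sn U x / x.1) ^ 2 = σ at *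
    generalize h1 U x ^ 2 + h2 U x ^ 2 = H at *
    generalize yy (rho U x) = y at *
    generalize rho U x = ρ at *
    have hy0 : 0 < y := by linarith
    have hy2 : 1 ≤ y ^ 2 := by nlinarith
    have e1 : H / y ^ 2 ≤ C2 * (D + σ) / y ^ 2 := div_le_div_of_nonneg_right hH' (by positivity)
    have e2 : C2 * (D + σ) / y ^ 2 = C2 * (D / y ^ 2) + C2 * (σ / y ^ 2) := by ring
    have e3 : σ / y ^ 2 ≤ S0 := by
      rw [div_le_iff₀ (by positivity)]
      nlinarith
    have e4 : C2 * (1 + R0) * (2 / c) * (c / 2 * (1 ^ 2 * (1 / y ^ 2 / (1 + ρ)) * D)) =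
        C2 * (D / y ^ 2) * ((1 + R0) / (1 + ρ)) := by
      field_simp
    have e5 : 1 ≤ (1 + R0) / (1 + ρ) := by
      rw [one_le_div (by positivity)]
      linarith
    have e6 : C2 * (D / y ^ 2) ≤ C2 * (D / y ^ 2) * ((1 + R0) / (1 + ρ)) :=
      le_mul_of_one_le_right (by positivity) e5
    have e7 : C2 * (σ / y ^ 2) ≤ C2 * S0 := mul_le_mul_of_nonneg_left e3 hC2.le
    rw [e4]
    linarith
  have hm : MeasurableSet (K ∩ Good P U) := hK.measurableSet.inter ho.measurableSet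
  have hbound : ∫⁻ x in K ∩ Good P U,
      ENNReal.ofReal ((h1 U x ^ 2 + h2 U x ^ 2) / yy (rho U x) ^ 2) ≤
      ENNReal.ofReal (C2 * (1 + R0) * (2 / c)) * ENNReal.ofReal (∫ x, bd c C U φ x) +
        ENNReal.ofReal (C2 * S0) * volume K := by
    calc ∫⁻ x in K ∩ Good P U, ENNReal.ofReal ((h1 U x ^ 2 + h2 U x ^ 2) / yy (rho U x) ^ 2)
        ≤ ∫⁻ x in K ∩ Good P U, (ENNReal.ofReal (C2 * (1 + R0) * (2 / c)) *
            ENNReal.ofReal (LLm c U φ x) + ENNReal.ofReal (C2 * S0)) :=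
          setLIntegral_mono' hm key
      _ = ENNReal.ofReal (C2 * (1 + R0) * (2 / c)) *
            (∫⁻ x in K ∩ Good P U, ENNReal.ofReal (LLm c U φ x)) +
              ENNReal.ofReal (C2 * S0) * volume (K ∩ Good P U) := by
          rw [lintegral_add_right _ measurable_const, lintegral_const_mul' _ _ ENNReal.ofReal_ne_top,
            setLIntegral_const]
      _ ≤ _ := by
          gcongr
          · exact (lintegral_mono_set inter_subset_right).trans hfin
          · exact inter_subset_left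
  refine ne_top_of_le_ne_top ?_ hbound
  refine ENNReal.add_ne_top.mpr ⟨ENNReal.mul_ne_top ENNReal.ofReal_ne_top ENNReal.ofReal_ne_top,
    ENNReal.mul_ne_top ENNReal.ofReal_ne_top hK.measure_lt_top.ne⟩

end Pool.Agent.AXS
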