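import Pool.Agent.AXS.Targets

/-!
# CLOP: the interior of the critical set is closed
-/

set_option autoImplicit false

open Set MeasureTheory Filter Topology
open scoped RealInnerProductSpace
open Pool.Agent.SCP (E PHarm hs Eqn Sub)

namespace Pool.Agent.AXS

theorem p_CLOP : T_CLOP := by
  intro P U y hP hc hL hy hy1 hf
  -- a square in `P`
  obtain ⟨ε', hε', hball⟩ := Metric.isOpen_iff.1 hP y hy
  obtain ⟨ε, hε, hεε'⟩ := exists_between hε'
  have hsq : ∀ q : ℝ × ℝ, y.1 - ε ≤ q.1 → q.1 ≤ y.1 + ε → y.2 - ε ≤ q.2 → q.2 ≤ y.2 + ε →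
      q ∈ P := by
    intro q a1 a2 a3 a4
    apply hball
    rw [Metric.mem_ball, Prod.dist_eq, max_lt_iff, Real.dist_eq, Real.dist_eq]
    exact ⟨lt_of_le_of_lt (abs_le.2 ⟨by linarith, by linarith⟩) hεε',
      lt_of_le_of_lt (abs_le.2 ⟨by linarith, by linarith⟩) hεε'⟩
  -- a critical inner point in it
  obtain ⟨x, ⟨hx0, hxz⟩, hxb⟩ := (hf.and_eventually (Metric.ball_mem_nhds y hε)).exists
  rw [Prod.dist_eq, max_lt_iff, Real.dist_eq, Real.dist_eq, abs_lt, abs_lt] at hxb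
  obtain ⟨⟨b1, b2⟩, b3, b4⟩ := hxb
  obtain ⟨η, hη, hηz⟩ := Metric.eventually_nhds_iff.1 hxz
  -- the points off the axis
  have hpos : ∀ q : ℝ × ℝ, 0 < q.1 → y.1 - ε ≤ q.1 → q.1 ≤ y.1 + ε → y.2 - ε ≤ q.2 →
      q.2 ≤ y.2 + ε → rho U q = 0 := by
    intro q hq a1 a2 a3 a4
    have hm : 0 < min q.1 x.1 := lt_min hq hx0
    have hm1 : min q.1 x.1 / 2 < q.1 := by
      have := min_le_left q.1 x.1
      linarith
    have hm2 : min q.1 x.1 / 2 < x.1 := by
      have := min_le_right q.1 x.1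
      linarith
    have r1 : 0 < max (y.1 - ε) (min q.1 x.1 / 2) := lt_max_of_lt_right (by linarith)
    have r2 : max (y.1 - ε) (min q.1 x.1 / 2) < x.1 := max_lt (by linarith) hm2
    have r3 : max (y.1 - ε) (min q.1 x.1 / 2) ≤ q.1 := max_le a1 hm1.le
    rcases hL (max (y.1 - ε) (min q.1 x.1 / 2)) (y.1 + ε) (y.2 - ε) (y.2 + ε) r1 (by linarith)
      (by linarith) (fun w hw => hsq w (le_trans (le_max_left _ _) hw.1.1) hw.1.2 hw.2.1
        hw.2.2) with h | ⟨h, -⟩
    · exact h q ⟨⟨r3, a2⟩, ⟨a3, a4⟩⟩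
    · exfalso
      have hO : IsOpen (Ioo (max (x.2 - η) (y.2 - ε)) (min (x.2 + η) (y.2 + ε))) := isOpen_Ioo
      have hne : (Ioo (max (x.2 - η) (y.2 - ε)) (min (x.2 + η) (y.2 + ε))).Nonempty :=
        ⟨x.2, max_lt (by linarith) (by linarith), lt_min (by linarith) (by linarith)⟩
      have hpos := hO.measure_pos volume hne
      have hzero : volume (Ioo (max (x.2 - η) (y.2 - ε)) (min (x.2 + η) (y.2 + ε))) = 0 := by
        refine measure_mono_null ?_ (ae_iff.1 h)
        intro z hz hcon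
        obtain ⟨hz1, hz2⟩ := hz
        rw [max_lt_iff] at hz1
        rw [lt_min_iff] at hz2
        refine hcon ⟨by linarith, by linarith⟩ x.1 ⟨r2.le, by linarith⟩ ?_
        apply hηz
        rw [Prod.dist_eq, max_lt_iff, Real.dist_eq, Real.dist_eq]
        exact ⟨by simpa using hη, abs_lt.2 ⟨by linarith, by linarith⟩⟩
      rw [hzero] at hpos
      exact lt_irrefl _ hpos
  -- all points
  filter_upwards [Metric.ball_mem_nhds y hε] with q hq hq0
  rw [Metric.mem_ball, Prod.dist_eq, max_lt_iff, Real.dist_eq, Real.dist_eq, abs_lt,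
    abs_lt] at hq
  obtain ⟨⟨c1, c2⟩, c3, c4⟩ := hq
  rcases hq0.lt_or_eq with h | h
  · exact hpos q h (by linarith) (by linarith) (by linarith) (by linarith)
  · have hqP : q ∈ P := hsq q (by linarith) (by linarith) (by linarith) (by linarith)
    have hcq : ContinuousAt (rho U) q := hc.continuousAt (hP.mem_nhds hqP)
    have hpath : Tendsto (fun t : ℝ => ((t, q.2) : ℝ × ℝ)) (𝓝[>] 0) (𝓝 q) := by
      have h1 : Continuous (fun t : ℝ => ((t, q.2) : ℝ × ℝ)) := by fun_prop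
      have h2 := (h1.tendsto 0).mono_left (nhdsWithin_le_nhds (s := Ioi (0 : ℝ)))
      have h3 : ((0 : ℝ), q.2) = q := Prod.ext h rfl
      rwa [h3] at h2
    have hlim : Tendsto (fun t : ℝ => rho U (t, q.2)) (𝓝[>] 0) (𝓝 (rho U q)) :=
      hcq.tendsto.comp hpath
    have hev : (fun t : ℝ => rho U (t, q.2)) =ᶠ[𝓝[>] 0] fun _ => (0 : ℝ) := by
      have h1 : Ioo (0 : ℝ) (y.1 + ε) ∈ 𝓝[>] (0 : ℝ) := Ioo_mem_nhdsGT (by linarith)
      filter_upwards [h1] with t ht
      exact hpos (t, q.2) ht.1 (by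
        have := ht.1
        simp only []
        linarith) ht.2.le (by simp only []; linarith) (by simp only []; linarith)
    exact tendsto_nhds_unique hlim (tendsto_const_nhds.congr' hev.symm)

end Pool.Agent.AXS
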