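import Pool.Agent.AXS.Targets

/-!
# Comparison on `V`
-/

set_option autoImplicit false

open Set MeasureTheory Filter Topology
open scoped RealInnerProductSpace
open Pool.Agent.SCP (E PHarm hs Eqn Sub)

namespace Pool.Agent.AXS

theorem p_CMPV : T_CMPV := by
  intro n p Ω V S u v d hn hp hΩ hu hv hV hVΩ hS hSΩ hbd hcl hsph x hx
  have hclΩ : closure V ⊆ Ω := hcl.trans (union_subset hVΩ hSΩ)
  have hcpt : IsCompact (closure V) := hbd.isCompact_closure
  have key : ∀ δ' < d, u x + δ' ≤ v x := by
    intro δ' hδ'
    have hsub : Sub p V (fun y => u y + δ') :=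
      ((Pool.Agent.SCP.CMP_.sub_of_pharm Pool.Agent.SCP.test hp hΩ hu).mono hVΩ).add_const δ'
    have hvb : PHarm p V v := hv.mono hVΩ
    have huc : ContinuousOn u (closure V) := hu.1.continuousOn.mono hclΩ
    have hvc : ContinuousOn v (closure V) := hv.1.continuousOn.mono hclΩ
    have hfc : ContinuousOn (fun y => v y - (u y + δ')) (closure V) :=
      hvc.sub (huc.add continuousOn_const)
    have hclo : IsClosed (closure V ∩ (fun y => v y - (u y + δ')) ⁻¹' Iic 0) :=
      hfc.preimage_isClosed_of_isClosed isClosed_closure isClosed_Iic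
    have hcomp : IsCompact (closure V ∩ (fun y => v y - (u y + δ')) ⁻¹' Iic 0) :=
      hcpt.of_isClosed_subset hclo inter_subset_left
    refine Pool.Agent.SCP.cmpsub Pool.Agent.SCP.mono Pool.Agent.SCP.test n p V _
      (fun y => u y + δ') v hn hp hV hsub hvb hcomp ?_ ?_ x hx
    · rintro y ⟨hy1, hy2⟩
      rcases hcl hy1 with h | h
      · exact h
      · have h1 := hsph y h
        have h2 : v y - (u y + δ') ≤ 0 := hy2
        exact absurd h1 (by linarith)
    · intro y hy hyC
      by_contra hcon
      push Not at hcon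
      apply hyC
      refine ⟨subset_closure hy, ?_⟩
      show v y - (u y + δ') ≤ 0
      linarith
  by_contra hcon
  push Not at hcon
  have h1 := key ((v x - u x + d) / 2) (by linarith)
  linarith

end Pool.Agent.AXS
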