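import Pool.Agent.AXS.Targets

/-!
# The surface generated by a plane set
-/

set_option autoImplicit false

open Set MeasureTheory Filter Topology
open scoped RealInnerProductSpace
open Pool.Agent.SCP (E PHarm hs Eqn Sub)

namespace Pool.Agent.AXS

/-- the parametrisation -/
noncomputable def par {n : ℕ} (a e : E n) (z : (ℝ × ℝ) × (ℝ ∙ e)ᗮ) : E n :=
  a + z.1.1 • (z.2 : E n) + z.1.2 • e

theorem continuous_par {n : ℕ} (a e : E n) : Continuous (par a e) := by
  unfold par
  fun_prop

theorem prof_par {n : ℕ} {a e : E n} (he : ‖e‖ = 1) {r z : ℝ} (hr : 0 ≤ r) {σ : (ℝ ∙ e)ᗮ}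
    (hσ : ‖σ‖ = 1) : prof a e (par a e ((r, z), σ)) = (r, z) := by
  have h0 : ⟪(σ : E n), e⟫ = 0 := by
    rw [real_inner_comm]
    exact Submodule.mem_orthogonal_singleton_iff_inner_right.mp σ.2
  unfold prof par
  dsimp only
  have e1 : a + r • (σ : E n) + z • e - a = r • (σ : E n) + z • e := by abel
  have e2 : ⟪r • (σ : E n) + z • e, e⟫ = z := by
    rw [inner_add_left, inner_smul_left, inner_smul_left, h0,
      real_inner_self_eq_norm_sq, he]
    simp
  rw [e1, e2]
  have e3 : r • (σ : E n) + z • e - z • e = r • (σ : E n) := by abel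
  have hσ' : ‖(σ : E n)‖ = 1 := hσ
  rw [e3, norm_smul, hσ', mul_one, Real.norm_eq_abs, abs_of_nonneg hr]

theorem p_CONNS : T_CONNS := by
  intro n a e T hn he hT
  have he0 : e ≠ 0 := by
    intro h
    rw [h, norm_zero] at he
    exact zero_ne_one he
  have hfin : 1 < Module.finrank ℝ (ℝ ∙ e)ᗮ := by
    obtain ⟨k, rfl⟩ : ∃ k, n = k + 1 := ⟨n - 1, by omega⟩
    have : Fact (Module.finrank ℝ (E (k + 1)) = k + 1) := ⟨finrank_euclideanSpace_fin⟩
    have h1 : Module.finrank ℝ (ℝ ∙ e)ᗮ = k := Submodule.finrank_orthogonal_span_singleton he0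
    rw [h1]
    omega
  have hrank : 1 < Module.rank ℝ (ℝ ∙ e)ᗮ := by
    rw [← Module.finrank_eq_rank]
    exact_mod_cast hfin
  set S : Set (ℝ ∙ e)ᗮ := Metric.sphere 0 1 with hS
  have hSc : IsConnected S := isConnected_sphere hrank 0 zero_le_one
  have hSk : IsCompact S := isCompact_sphere 0 1
  have himg : prof a e ⁻¹' T = par a e '' (T ×ˢ S) := by
    ext x
    constructor
    · intro hx
      have hx' : prof a e x ∈ T := hx
      set g := x - a - ⟪x - a, e⟫ • e with hg
      have hgo : g ∈ (ℝ ∙ e)ᗮ := by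
        rw [Submodule.mem_orthogonal_singleton_iff_inner_right, hg, inner_sub_right,
          inner_smul_right, real_inner_self_eq_norm_sq, he, real_inner_comm]
        simp
      by_cases h0 : g = 0
      · obtain ⟨σ, hσ⟩ := hSc.nonempty
        refine ⟨(prof a e x, σ), ⟨hx', hσ⟩, ?_⟩
        unfold par prof
        dsimp only
        rw [← hg, h0, norm_zero, zero_smul, add_zero]
        have : x - a = ⟪x - a, e⟫ • e := sub_eq_zero.mp h0
        rw [← this]
        abel
      · have hg0 : ‖g‖ ≠ 0 := norm_ne_zero_iff.mpr h0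
        refine ⟨(prof a e x, ⟨‖g‖⁻¹ • g, Submodule.smul_mem _ _ hgo⟩), ⟨hx', ?_⟩, ?_⟩
        · rw [hS, mem_sphere_zero_iff_norm]
          change ‖‖g‖⁻¹ • g‖ = 1
          rw [norm_smul, norm_inv, norm_norm, inv_mul_cancel₀ hg0]
        · unfold par prof
          dsimp only
          rw [← hg, smul_smul, mul_inv_cancel₀ hg0, one_smul, hg]
          abel
    · rintro ⟨⟨⟨r, z⟩, σ⟩, ⟨hT1, hσ⟩, rfl⟩
      have hσ' : ‖σ‖ = 1 := mem_sphere_zero_iff_norm.mp hσ
      change prof a e (par a e ((r, z), σ)) ∈ T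
      rw [prof_par he (hT _ hT1) hσ']
      exact hT1
  rw [himg]
  exact ⟨fun h => (h.prod hSc.isPreconnected).image _ (continuous_par a e).continuousOn,
    fun h => (h.prod hSk).image (continuous_par a e)⟩

end Pool.Agent.AXS
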