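import Pool.Agent.AXS.Targets

/-!
# Inner critical points
-/

set_option autoImplicit false

open Set MeasureTheory Filter Topology
open scoped RealInnerProductSpace
open Pool.Agent.SCP (E PHarm hs Eqn Sub)

namespace Pool.Agent.AXS

section

variable {n : ℕ} {a e f : E n}

theorem CRIT_.continuous_prof (a e : E n) : Continuous (prof a e) := by
  unfold prof
  fun_prop

/-- every point near `prof x` is `prof` of a point near `x` -/
theorem CRIT_.map_prof (he : ‖e‖ = 1) {x : E n} (hx : 0 < (prof a e x).1) {p : E n → Prop}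
    (h : ∀ᶠ x' in 𝓝 x, p x') : ∀ᶠ y in 𝓝 (prof a e x), ∃ x', prof a e x' = y ∧ p x' := by
  set g := x - a - ⟪x - a, e⟫ • e with hg
  have hgn : (prof a e x).1 = ‖g‖ := rfl
  have hgz : (prof a e x).2 = ⟪x - a, e⟫ := rfl
  have hg0 : 0 < ‖g‖ := hx
  have hge : ⟪g, e⟫ = 0 := by
    rw [hg, inner_sub_left, inner_smul_left, real_inner_self_eq_norm_sq, he]
    simp
  set ψ : ℝ × ℝ → E n := fun y => a + (y.1 / ‖g‖) • g + y.2 • e with hψ
  have hψc : Continuous ψ := by
    rw [hψ]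
    fun_prop
  have hψx : ψ (prof a e x) = x := by
    rw [hψ]
    dsimp only
    rw [hgn, hgz, div_self hg0.ne', one_smul, hg]
    abel
  have h1 : ∀ᶠ y in 𝓝 (prof a e x), p (ψ y) := by
    have : Tendsto ψ (𝓝 (prof a e x)) (𝓝 x) := by
      have := hψc.tendsto (prof a e x)
      rwa [hψx] at this
    exact this.eventually h
  have h2 : ∀ᶠ y : ℝ × ℝ in 𝓝 (prof a e x), 0 < y.1 :=
    (continuous_fst.tendsto (prof a e x)).eventually (lt_mem_nhds hx)
  filter_upwards [h1, h2] with y hy1 hy2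
  refine ⟨ψ y, ?_, hy1⟩
  unfold prof
  have e1 : ψ y - a = (y.1 / ‖g‖) • g + y.2 • e := by
    rw [hψ]
    dsimp only
    abel
  have e2 : ⟪(y.1 / ‖g‖) • g + y.2 • e, e⟫ = y.2 := by
    rw [inner_add_left, inner_smul_left, inner_smul_left, hge,
      real_inner_self_eq_norm_sq, he]
    simp
  rw [e1, e2]
  have e3 : (y.1 / ‖g‖) • g + y.2 • e - y.2 • e = (y.1 / ‖g‖) • g := by abel
  rw [e3, norm_smul, Real.norm_eq_abs, abs_of_pos (by positivity), div_mul_cancel₀ _ hg0.ne']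

/-- points off the axis are dense -/
theorem CRIT_.dense_off (hn : 2 ≤ n) (he : ‖e‖ = 1) (hf : Frame f e) {x : E n} {O : Set (E n)}
    (hO : IsOpen O) (hx : x ∈ O) : ∃ x' ∈ O, 0 < (prof a e x').1 := by
  by_cases h0 : 0 < (prof a e x).1
  · exact ⟨x, hx, h0⟩
  · have hz : x - a - ⟪x - a, e⟫ • e = 0 := by
      have h1 : ‖x - a - ⟪x - a, e⟫ • e‖ = 0 := le_antisymm (not_lt.mp h0) (norm_nonneg _)
      exact norm_eq_zero.mp h1
    have hc : Continuous fun t : ℝ => x + t • f := by fun_prop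
    have h1 : ∀ᶠ t in 𝓝[>] (0 : ℝ), x + t • f ∈ O := by
      have h2 : Tendsto (fun t : ℝ => x + t • f) (𝓝 0) (𝓝 x) := by
        have := hc.tendsto 0
        simpa using this
      exact (h2.eventually (hO.mem_nhds hx)).filter_mono nhdsWithin_le_nhds
    obtain ⟨t, ht1, ht2⟩ := (h1.and self_mem_nhdsWithin).exists
    refine ⟨x + t • f, ht1, ?_⟩
    have e1 : ⟪x + t • f - a, e⟫ = ⟪x - a, e⟫ := by
      have : x + t • f - a = (x - a) + t • f := by abel
      rw [this, inner_add_left, inner_smul_left, hf.orth, mul_zero, add_zero]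
    have e2 : x + t • f - a - ⟪x - a, e⟫ • e = (x - a - ⟪x - a, e⟫ • e) + t • f := by abel
    have e3 : (prof a e (x + t • f)).1 = ‖t • f‖ := by
      unfold prof
      dsimp only
      rw [e1, e2, hz, zero_add]
    rw [e3, norm_smul, hf.norm_f, mul_one, Real.norm_eq_abs]
    exact abs_pos.mpr (ne_of_gt ht2)

end

theorem p_CRIT (hRG : T_REDG) (hCl : T_CLOP) : T_CRIT := by
  intro n Ω u a e f hn hΩ hc hu hf hinv hlines hex
  obtain ⟨g1, g2, g3, g4⟩ := hRG n Ω u a e f hn hΩ hu hf hinv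
  have he := hf.norm_e
  set P := axm a f e ⁻¹' Ω with hP
  set U := u ∘ axm a f e with hU
  have hcontaxm : Continuous (axm a f e) := by
    unfold axm
    fun_prop
  have hPo : IsOpen P := hΩ.preimage hcontaxm
  have hUc : ContDiffOn ℝ 1 U P := by
    have h1 : ContDiff ℝ 1 (axm a f e) := by
      unfold axm
      fun_prop
    exact hu.comp h1.contDiffOn (fun x hx => hx)
  have hrho : ContinuousOn (rho U) P := by
    have h1 : ContinuousOn (fderiv ℝ U) P := hUc.continuousOn_fderiv_of_isOpen hPo (le_refl 1)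
    have h2 : ContinuousOn (d1 U) P := h1.clm_apply continuousOn_const
    have h3 : ContinuousOn (d2 U) P := h1.clm_apply continuousOn_const
    exact (h2.pow 2).add (h3.pow 2)
  have hcritiff : ∀ x ∈ Ω, gradient u x = 0 ↔ rho U (prof a e x) = 0 := by
    intro x hx
    rw [← g4 x hx]
    simp
  set O : Set (E n) := {x | ∀ᶠ x' in 𝓝 x, gradient u x' = 0} with hO
  have hOo : IsOpen O := by
    rw [isOpen_iff_mem_nhds]
    intro x hx
    exact hx.eventually_nhds
  obtain ⟨x₀, hx₀Ω, hx₀⟩ := hex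
  have key : Ω ⊆ O := by
    refine hc.subset_of_closure_inter_subset hOo ⟨x₀, hx₀Ω, hx₀⟩ ?_
    rintro y ⟨hy1, hy2⟩
    have hyP : prof a e y ∈ P := (g2 y).mp hy2
    have hfreq : ∃ᶠ x in 𝓝 (prof a e y), 0 < x.1 ∧ ∀ᶠ x' in 𝓝 x, rho U x' = 0 := by
      rw [frequently_iff]
      intro N hN
      have h1 : prof a e ⁻¹' (interior N) ∩ Ω ∈ 𝓝 y :=
        inter_mem ((CRIT_.continuous_prof a e).continuousAt.preimage_mem_nhds
          (interior_mem_nhds.mpr hN)) (hΩ.mem_nhds hy2)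
      have h2 : (prof a e ⁻¹' (interior N) ∩ Ω ∩ O).Nonempty := by
        obtain ⟨W, hW1, hW2, hW3⟩ := mem_nhds_iff.mp h1
        obtain ⟨z, hz1, hz2⟩ := mem_closure_iff.mp hy1 W hW2 hW3
        exact ⟨z, hW1 hz1, hz2⟩
      obtain ⟨z, hz1, hz2⟩ := h2
      have hop : IsOpen (prof a e ⁻¹' (interior N) ∩ Ω ∩ O) :=
        ((isOpen_interior.preimage (CRIT_.continuous_prof a e)).inter hΩ).inter hOo
      obtain ⟨z', ⟨⟨hz3, hz4⟩, hz5⟩, hz6⟩ :=
        CRIT_.dense_off (a := a) (by omega : 2 ≤ n) he hf hop ⟨hz1, hz2⟩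
      refine ⟨prof a e z', interior_subset hz3, hz6, ?_⟩
      have h3 : ∀ᶠ x' in 𝓝 z', x' ∈ Ω ∧ gradient u x' = 0 :=
        Filter.Eventually.and (hΩ.mem_nhds hz4) hz5
      filter_upwards [CRIT_.map_prof he hz6 h3] with w hw
      obtain ⟨x', hx', hx'', hx'''⟩ := hw
      rw [← hx']
      exact (hcritiff x' hx'').mp hx'''
    have h4 := hCl P U (prof a e y) hPo hrho hlines hyP (norm_nonneg _) hfreq
    have h5 : ∀ᶠ x in 𝓝 y, 0 ≤ (prof a e x).1 → rho U (prof a e x) = 0 :=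
      (CRIT_.continuous_prof a e).continuousAt.eventually h4
    filter_upwards [h5, hΩ.mem_nhds hy2] with x hx hxΩ
    exact (hcritiff x hxΩ).mpr (hx (norm_nonneg _))
  intro x hx
  exact (key hx).self_of_nhds

end Pool.Agent.AXS
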