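import Pool.Agent.AXS.Targets

/-!
# The weights `ω` and `G`
-/

set_option autoImplicit false

open Set Filter Topology

namespace Pool.Agent.AXS

namespace OM_

theorem glue {F F' : ℝ → ℝ} (hF : ∀ t, HasDerivAt F (F' t) t) (h1 : F' 1 = 0) {δ : ℝ}
    (hδ : 0 < δ) (r : ℝ) :
    HasDerivAt (fun r => F (min (r / δ) 1)) (F' (min (r / δ) 1) / δ) r := by
  have hlin : ∀ r : ℝ, HasDerivAt (fun r => F (r / δ)) (F' (r / δ) / δ) r := by
    intro r
    have h2 : HasDerivAt (fun r : ℝ => r / δ) (1 / δ) r := (hasDerivAt_id r).div_const δ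
    have h3 := (hF (r / δ)).comp r h2
    rw [mul_one_div] at h3
    exact h3
  rcases lt_trichotomy r δ with h | h | h
  · have hle : r / δ < 1 := (div_lt_one hδ).2 h
    rw [min_eq_left hle.le]
    refine (hlin r).congr_of_eventuallyEq ?_
    filter_upwards [Iio_mem_nhds h] with s hs
    rw [min_eq_left ((div_lt_one hδ).2 hs).le]
  · subst h
    have he : r / r = 1 := div_self hδ.ne'
    rw [he, min_self, h1, zero_div]
    have ha : HasDerivWithinAt (fun s => F (min (s / r) 1)) 0 (Iic r) r := by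
      have h4 : HasDerivWithinAt (fun s => F (s / r)) 0 (Iic r) r := by
        have := (hlin r).hasDerivWithinAt (s := Iic r)
        rwa [he, h1, zero_div] at this
      refine h4.congr (fun s hs => ?_) ?_
      · rw [min_eq_left ((div_le_one hδ).2 hs)]
      · rw [he, min_self]
    have hb : HasDerivWithinAt (fun s => F (min (s / r) 1)) 0 (Ici r) r := by
      refine (hasDerivWithinAt_const r (Ici r) (F 1)).congr (fun s hs => ?_) ?_
      · rw [min_eq_right ((one_le_div hδ).2 hs)]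
      · rw [he, min_self]
    have h5 := ha.union hb
    rw [Iic_union_Ici] at h5
    exact h5.hasDerivAt univ_mem
  · have hle : 1 < r / δ := (one_lt_div hδ).2 h
    rw [min_eq_right hle.le, h1, zero_div]
    refine (hasDerivAt_const r (F 1)).congr_of_eventuallyEq ?_
    filter_upwards [Ioi_mem_nhds h] with s hs
    rw [min_eq_right ((one_lt_div hδ).2 hs).le]

theorem glue_contDiff {F F' : ℝ → ℝ} (hF : ∀ t, HasDerivAt F (F' t) t) (h1 : F' 1 = 0)
    (hc : Continuous F') {δ : ℝ} (hδ : 0 < δ) :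
    ContDiff ℝ 1 (fun r => F (min (r / δ) 1)) := by
  rw [contDiff_one_iff_deriv]
  refine ⟨fun r => (glue hF h1 hδ r).differentiableAt, ?_⟩
  have h2 : deriv (fun r => F (min (r / δ) 1)) = fun r => F' (min (r / δ) 1) / δ :=
    funext fun r => (glue hF h1 hδ r).deriv
  rw [h2]
  exact (hc.comp ((continuous_id.div_const δ).min continuous_const)).div_const δ

/-- the profile of `ω` -/
noncomputable def F1 (t : ℝ) : ℝ := t * Real.exp (3 / 2 - 2 * t + t ^ 2 / 2)

noncomputable def F1' (t : ℝ) : ℝ := (1 - t) ^ 2 * Real.exp (3 / 2 - 2 * t + t ^ 2 / 2)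

theorem hF1 (t : ℝ) : HasDerivAt F1 (F1' t) t := by
  have h1 : HasDerivAt (fun t : ℝ => 3 / 2 - 2 * t + t ^ 2 / 2) (-2 + t) t := by
    have ha : HasDerivAt (fun t : ℝ => 3 / 2 - 2 * t) (0 - 2 * 1) t :=
      (hasDerivAt_const t (3 / 2 : ℝ)).sub ((hasDerivAt_id t).const_mul 2)
    have hb : HasDerivAt (fun t : ℝ => t ^ 2 / 2) ((2 : ℕ) * t ^ (2 - 1) / 2) t :=
      (hasDerivAt_pow 2 t).div_const 2
    refine (ha.add hb).congr_deriv ?_
    norm_num
  refine ((hasDerivAt_id t).mul h1.exp).congr_deriv ?_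
  simp only [F1', id]
  ring

/-- the profile of `G` -/
def F2 (t : ℝ) : ℝ := 1 - (1 - t) ^ 2

def F2' (t : ℝ) : ℝ := 2 * (1 - t)

theorem hF2 (t : ℝ) : HasDerivAt F2 (F2' t) t := by
  have ha : HasDerivAt (fun t : ℝ => 1 - t) (0 - 1) t :=
    (hasDerivAt_const t (1 : ℝ)).sub (hasDerivAt_id t)
  have hb := (hasDerivAt_const t (1 : ℝ)).sub (ha.pow 2)
  refine hb.congr_deriv ?_
  simp only [F2']
  ring

end OM_

open OM_

/-- the weights -/
theorem p_OM : T_OM := by
  intro δ hδ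
  have e1 : om δ = fun r => F1 (min (r / δ) 1) := rfl
  have e2 : gg δ = fun r => F2 (min (r / δ) 1) := rfl
  have c1 : Continuous F1' := by unfold F1'; fun_prop
  have c2 : Continuous F2' := by unfold F2'; fun_prop
  have z1 : F1' 1 = 0 := by simp [F1']
  have z2 : F2' 1 = 0 := by simp [F2']
  refine ⟨?_, ?_, ?_⟩
  · rw [e1]; exact (glue_contDiff hF1 z1 c1 hδ).contDiffOn
  · rw [e2]; exact (glue_contDiff hF2 z2 c2 hδ).contDiffOn
  intro r hr
  have ht0 : 0 < tt δ r := lt_min (div_pos hr hδ) one_pos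
  have ht1 : tt δ r ≤ 1 := min_le_right _ _
  -- either `t = r / δ` or `t = 1`
  have hcase : tt δ r = r / δ ∨ tt δ r = 1 := by
    rcases le_total (r / δ) 1 with h | h
    · left; exact min_eq_left h
    · right; exact min_eq_right h
  refine ⟨?_, ?_, ht0, mul_pos ht0 (Real.exp_pos _), ?_⟩
  · rw [e1]
    refine (glue hF1 z1 hδ r).congr_deriv ?_
    show F1' (tt δ r) / δ = (1 - tt δ r) ^ 2 * F1 (tt δ r) / r
    rcases hcase with h | h
    · rw [h, F1', F1]
      field_simp
    · rw [h, z1]; simp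
  · rw [e2]
    refine (glue hF2 z2 hδ r).congr_deriv ?_
    show F2' (tt δ r) / δ = 2 * (1 - tt δ r) * tt δ r / r
    rcases hcase with h | h
    · rw [h, F2']
      field_simp
    · rw [h, z2]; simp
  · show tt δ r * Real.exp (3 / 2 - 2 * tt δ r + tt δ r ^ 2 / 2) ≤ 5 * tt δ r
    rw [mul_comm 5]
    apply mul_le_mul_of_nonneg_left _ ht0.le
    have h1 : 3 / 2 - 2 * tt δ r + tt δ r ^ 2 / 2 ≤ 3 / 2 := by nlinarith
    have h2 : Real.exp (3 / 2 : ℝ) ≤ 5 := by
      have h3 : Real.exp (3 / 2 : ℝ) ^ 2 = Real.exp 1 ^ 3 := by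
        rw [← Real.exp_nat_mul, ← Real.exp_nat_mul]
        norm_num
      have h4 := Real.exp_one_lt_d9
      have h5 : Real.exp 1 ^ 3 ≤ 2.7182818286 ^ 3 :=
        pow_le_pow_left₀ (Real.exp_pos 1).le h4.le 3
      have h6 : Real.exp (3 / 2 : ℝ) ^ 2 ≤ 5 ^ 2 := by
        rw [h3]; refine h5.trans ?_; norm_num
      exact le_of_pow_le_pow_left₀ (by norm_num) (by norm_num) h6
    exact (Real.exp_le_exp.2 h1).trans h2

end Pool.Agent.AXS
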