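import Pool.Agent.AXS.Targets

/-!
# The functions `Φ`, `Ψ` and `LL`
-/

set_option autoImplicit false

open Set Filter Topology

namespace Pool.Agent.AXS

namespace PP_

theorem glue {a a' b b' : ℝ → ℝ} (ha : ∀ w, 0 < w → HasDerivAt a (a' w) w)
    (hb : ∀ w, 0 < w → HasDerivAt b (b' w) w) (h0 : a 1 = b 1) (h1 : a' 1 = b' 1) {w : ℝ}
    (hw : 0 < w) :
    HasDerivAt (fun w => if w ≤ 1 then a w else b w) (if w ≤ 1 then a' w else b' w) w := by
  rcases lt_trichotomy w 1 with h | h | h
  · rw [if_pos h.le]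
    refine (ha w hw).congr_of_eventuallyEq ?_
    filter_upwards [Iio_mem_nhds h] with s hs
    rw [if_pos (le_of_lt hs)]
  · subst h
    rw [if_pos le_rfl]
    have h2 : HasDerivWithinAt (fun w => if w ≤ 1 then a w else b w) (a' 1) (Iic 1) 1 := by
      refine (ha 1 hw).hasDerivWithinAt.congr (fun s hs => ?_) ?_
      · exact if_pos hs
      · exact if_pos le_rfl
    have h3 : HasDerivWithinAt (fun w => if w ≤ 1 then a w else b w) (a' 1) (Ici 1) 1 := by
      rw [h1]
      refine (hb 1 hw).hasDerivWithinAt.congr (fun s hs => ?_) ?_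
      · by_cases hs1 : s ≤ 1
        · have h4 : s = 1 := le_antisymm hs1 hs
          subst h4
          rw [if_pos le_rfl, h0]
        · rw [if_neg hs1]
      · rw [if_pos le_rfl, h0]
    have h5 := h2.union h3
    rw [Iic_union_Ici] at h5
    exact h5.hasDerivAt univ_mem
  · rw [if_neg (not_le.2 h)]
    refine (hb w hw).congr_of_eventuallyEq ?_
    filter_upwards [Ioi_mem_nhds h] with s hs
    rw [if_neg (not_le.2 hs)]

theorem Psi_eq (w : ℝ) : Psi w = min w 1 + (1 - 1 / max w 1) := by
  unfold Psi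
  rcases le_or_gt w 1 with h | h
  · rw [if_pos h, min_eq_left h, max_eq_right h]; norm_num
  · rw [if_neg (not_le.2 h), min_eq_right h.le, max_eq_left h.le]; ring

theorem Psid_eq (w : ℝ) : Psid w = 1 / (max w 1) ^ 2 := by
  unfold Psid
  rcases le_or_gt w 1 with h | h
  · rw [if_pos h, max_eq_right h]; norm_num
  · rw [if_neg (not_le.2 h), max_eq_left h.le]

theorem LL_eq (w : ℝ) : LL w = min w 1 + ((1 + 2 * Real.log (max w 1)) ^ 2 - 1) := by
  unfold LL
  rcases le_or_gt w 1 with h | h
  · rw [if_pos h, min_eq_left h, max_eq_right h, Real.log_one]; norm_num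
  · rw [if_neg (not_le.2 h), min_eq_right h.le, max_eq_left h.le]; ring

theorem maxne (w : ℝ) : max w 1 ≠ 0 := (lt_of_lt_of_le one_pos (le_max_right w 1)).ne'

theorem cmax : Continuous fun w : ℝ => max w 1 := continuous_id.max continuous_const

theorem cPsi : Continuous Psi := by
  have h : Psi = fun w => min w 1 + (1 - 1 / max w 1) := funext Psi_eq
  rw [h]
  exact (continuous_id.min continuous_const).add
    (continuous_const.sub (continuous_const.div cmax maxne))

theorem cPsid : Continuous Psid := by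
  have h : Psid = fun w => 1 / (max w 1) ^ 2 := funext Psid_eq
  rw [h]
  exact continuous_const.div (cmax.pow 2) fun w => pow_ne_zero 2 (maxne w)

theorem cLL : Continuous LL := by
  have h : LL = fun w => min w 1 + ((1 + 2 * Real.log (max w 1)) ^ 2 - 1) := funext LL_eq
  rw [h]
  exact (continuous_id.min continuous_const).add
    (((continuous_const.add (continuous_const.mul (cmax.log maxne))).pow 2).sub continuous_const)

theorem hPhi {w : ℝ} (hw : 0 < w) : HasDerivAt Phi (Psi w / w) w := by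
  have ha : ∀ w : ℝ, 0 < w → HasDerivAt (fun w : ℝ => w) ((fun _ => (1 : ℝ)) w) w :=
    fun w _ => hasDerivAt_id w
  have hb : ∀ w : ℝ, 0 < w → HasDerivAt (fun w : ℝ => 2 * Real.log w + 1 / w)
      ((fun w : ℝ => (2 - 1 / w) / w) w) w := by
    intro w hw
    have h1 := (Real.hasDerivAt_log hw.ne').const_mul 2
    have h2 : HasDerivAt (fun w : ℝ => 1 / w) (-(w ^ 2)⁻¹) w := by
      have := hasDerivAt_inv hw.ne'
      simpa [one_div] using this
    refine (h1.add h2).congr_deriv ?_
    show 2 * w⁻¹ + -(w ^ 2)⁻¹ = (2 - 1 / w) / w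
    field_simp
    ring
  have h := glue ha hb (by simp) (by norm_num) hw
  refine h.congr_deriv ?_
  unfold Psi
  by_cases h1 : w ≤ 1
  · rw [if_pos h1, if_pos h1, div_self hw.ne']
  · rw [if_neg h1, if_neg h1]

theorem hPsi {w : ℝ} (hw : 0 < w) : HasDerivAt Psi (Psid w) w := by
  have ha : ∀ w : ℝ, 0 < w → HasDerivAt (fun w : ℝ => w) ((fun _ => (1 : ℝ)) w) w :=
    fun w _ => hasDerivAt_id w
  have hb : ∀ w : ℝ, 0 < w → HasDerivAt (fun w : ℝ => 2 - 1 / w)
      ((fun w : ℝ => 1 / w ^ 2) w) w := by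
    intro w hw
    have h2 : HasDerivAt (fun w : ℝ => 1 / w) (-(w ^ 2)⁻¹) w := by
      have := hasDerivAt_inv hw.ne'
      simpa [one_div] using this
    refine ((hasDerivAt_const w (2 : ℝ)).sub h2).congr_deriv ?_
    show 0 - -(w ^ 2)⁻¹ = 1 / w ^ 2
    rw [one_div]; ring
  exact glue ha hb (by norm_num) (by norm_num) hw

theorem cd1 {f f' : ℝ → ℝ} (hf : ∀ w, 0 < w → HasDerivAt f (f' w) w)
    (hc : ContinuousOn f' (Ioi 0)) : ContDiffOn ℝ 1 f (Ioi 0) := by
  have h : ContDiffOn ℝ (0 + 1) f (Ioi 0) := by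
    rw [contDiffOn_succ_iff_deriv_of_isOpen isOpen_Ioi]
    refine ⟨fun w hw => (hf w hw).differentiableAt.differentiableWithinAt, by simp, ?_⟩
    rw [contDiffOn_zero]
    exact hc.congr fun w hw => (hf w hw).deriv
  simpa using h

end PP_

open PP_

/-- the functions `Φ`, `Ψ` and `LL` -/
theorem p_PP : T_PP := by
  have hlog1 : ∀ w : ℝ, 1 < w → 0 < Real.log w := fun w hw => Real.log_pos hw
  have hinv1 : ∀ w : ℝ, 1 < w → 1 / w < 1 := fun w hw => by
    rw [div_lt_one (by linarith)]; exact hw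
  have hinv0 : ∀ w : ℝ, 1 < w → 0 < 1 / w := fun w hw => by positivity
  have hLLle : ∀ w w' : ℝ, w ≤ w' → LL w ≤ LL w' := by
    intro w w' h
    rw [LL_eq, LL_eq]
    have h1 : min w 1 ≤ min w' 1 := min_le_min_right _ h
    have h2 : max w 1 ≤ max w' 1 := max_le_max_right _ h
    have h3 : 0 < max w 1 := lt_of_lt_of_le one_pos (le_max_right _ _)
    have h4 : Real.log (max w 1) ≤ Real.log (max w' 1) := Real.log_le_log h3 h2
    have h5 : 0 ≤ Real.log (max w 1) := Real.log_nonneg (le_max_right _ _)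
    have h6 : (1 + 2 * Real.log (max w 1)) ^ 2 ≤ (1 + 2 * Real.log (max w' 1)) ^ 2 :=
      pow_le_pow_left₀ (by linarith) (by linarith) 2
    linarith
  refine ⟨cd1 (fun w hw => hPhi hw) ?_, cd1 (fun w hw => hPsi hw) cPsid.continuousOn,
    cLL.continuousOn, cPsi.continuousOn, ?_, fun w w' _ h => hLLle w w' h, ?_⟩
  · exact cPsi.continuousOn.div continuousOn_id fun w hw => ne_of_gt hw
  · intro w hw
    unfold LL
    by_cases h : w ≤ 1
    · rw [if_pos h]; exact hw
    · rw [if_neg h]; positivity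
  · intro w hw
    refine ⟨hPhi hw, hPsi hw, ?_⟩
    by_cases h : w ≤ 1
    · have e1 : Psi w = w := if_pos h
      have e2 : Phi w = w := if_pos h
      have e3 : Psid w = 1 := if_pos h
      have e4 : LL w = w := if_pos h
      rw [e1, e2, e3, e4]
      refine ⟨hw, le_rfl, by linarith, by linarith, by nlinarith, le_rfl, le_rfl, id⟩
    · have h1 : 1 < w := not_le.1 h
      have e1 : Psi w = 2 - 1 / w := if_neg h
      have e2 : Phi w = 2 * Real.log w + 1 / w := if_neg h
      have e3 : Psid w = 1 / w ^ 2 := if_neg h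
      have e4 : LL w = (1 + 2 * Real.log w) ^ 2 := if_neg h
      have a1 := hlog1 w h1
      have a2 := hinv1 w h1
      have a3 := hinv0 w h1
      have a4 : 1 - 1 / w ≤ Real.log w := by
        have := Real.one_sub_inv_le_log_of_pos hw
        rwa [← one_div] at this
      have a5 : w * (1 / w ^ 2) = 1 / w := by field_simp
      rw [e1, e2, e3, e4, a5]
      generalize Real.log w = L at *
      generalize 1 / w = u at *
      have b1 : 2 * L + u ≤ 1 + 2 * L := by linarith
      have b2 : (2 * L + u) ^ 2 ≤ (1 + 2 * L) ^ 2 := pow_le_pow_left₀ (by linarith) b1 2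
      have b3 : 0 ≤ (1 + 2 * L) ^ 2 := by positivity
      have b4 : 2 * L + u ≤ (1 + 2 * L) ^ 2 := by nlinarith
      refine ⟨by linarith, by linarith, a3, by linarith, by nlinarith, b4, by linarith,
        fun _ => by linarith⟩

end Pool.Agent.AXS
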