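import Pool.Agent.AXS.GOOD
import Pool.Agent.AXS.OM
import Pool.Agent.AXS.PP

/-!
# The derivative of the one form
-/

set_option autoImplicit false

open Set Filter Topology

namespace Pool.Agent.AXS

namespace DOM_

theorem dB {o g E1 E2 T s r : ℝ → ℝ} {o' g' E1' E2' T' s' r' : ℝ} (e : ℝ)
    (ho : HasDerivAt o o' 0) (hg : HasDerivAt g g' 0) (h1 : HasDerivAt E1 E1' 0)
    (h2 : HasDerivAt E2 E2' 0) (hT : HasDerivAt T T' 0) (hs : HasDerivAt s s' 0)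
    (hr : HasDerivAt r r' 0) (hr0 : r 0 ≠ 0) :
    HasDerivAt (fun t => o t * (E1 t * T t - (e * E1 t + g t * E2 t * s t ^ 2) / r t))
      (o' * (E1 0 * T 0 - (e * E1 0 + g 0 * E2 0 * s 0 ^ 2) / r 0) +
        o 0 * (E1' * T 0 + E1 0 * T' -
          (e * E1' + g' * E2 0 * s 0 ^ 2 + g 0 * E2' * s 0 ^ 2 + 2 * g 0 * E2 0 * s 0 * s') / r 0 +
          (e * E1 0 + g 0 * E2 0 * s 0 ^ 2) * r' / r 0 ^ 2)) 0 := by
  have a1 := h1.mul hT
  have a2 := (h1.const_mul e).add ((hg.mul h2).mul (hs.pow 2))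
  have a3 := a2.div hr hr0
  refine (ho.mul (a1.sub a3)).congr_deriv ?_
  simp only [Pi.mul_apply, Pi.add_apply, Pi.sub_apply, Pi.div_apply, Pi.pow_apply, Nat.cast_ofNat]
  field_simp
  ring

theorem dA {o g E1 E2 T s c r : ℝ → ℝ} {o' g' E1' E2' T' s' c' r' : ℝ}
    (ho : HasDerivAt o o' 0) (hg : HasDerivAt g g' 0) (h1 : HasDerivAt E1 E1' 0)
    (h2 : HasDerivAt E2 E2' 0) (hT : HasDerivAt T T' 0) (hs : HasDerivAt s s' 0)
    (hc : HasDerivAt c c' 0) (hr : HasDerivAt r r' 0) (hr0 : r 0 ≠ 0) :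
    HasDerivAt (fun t => o t * (E1 t * T t + g t * E2 t * s t * c t / r t))
      (o' * (E1 0 * T 0 + g 0 * E2 0 * s 0 * c 0 / r 0) +
        o 0 * (E1' * T 0 + E1 0 * T' +
          (g' * E2 0 * s 0 * c 0 + g 0 * E2' * s 0 * c 0 + g 0 * E2 0 * s' * c 0 +
            g 0 * E2 0 * s 0 * c') / r 0 -
          g 0 * E2 0 * s 0 * c 0 * r' / r 0 ^ 2)) 0 := by
  have a1 := h1.mul hT
  have a2 := ((hg.mul h2).mul hs).mul hc
  have a3 := a2.div hr hr0
  refine (ho.mul (a1.add a3)).congr_deriv ?_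
  simp only [Pi.mul_apply, Pi.add_apply, Pi.sub_apply, Pi.div_apply, Pi.pow_apply]
  field_simp
  ring

end DOM_

open DOM_ GOOD_

/-- the derivative of the one form -/
theorem p_DOM : T_DOM := by
  intro p m κ δ P U hU hκ hδ
  obtain ⟨hopen, hrc, Crho, Csn, Ccs, Ct1, Ct2, Ch1, Ch2, H⟩ := p_GOOD p m P U hU
  obtain ⟨Com, Cgg, HO⟩ := p_OM δ hδ
  obtain ⟨CPhi, CPsi, -, -, -, -, HP⟩ := p_PP
  have hp0 : p ≠ 0 := by have := hU.one_lt; intro h; linarith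
  have hm0 : m ≠ 0 := by have := hU.one_le; intro h; linarith
  have hwpos : ∀ x ∈ Good P U, 0 < ww p m κ U x := fun x hx =>
    div_pos (Real.rpow_pos_of_pos (H x hx).1 _) hκ
  have hmapr : MapsTo (fun x : ℝ × ℝ => x.1) (Good P U) (Ioi 0) := fun x hx => hx.2.1
  have hmapw : MapsTo (ww p m κ U) (Good P U) (Ioi 0) := hwpos
  have Cr : ContDiffOn ℝ 1 (fun x : ℝ × ℝ => x.1) (Good P U) := contDiff_fst.contDiffOn
  have Co : ContDiffOn ℝ 1 (fun x : ℝ × ℝ => om δ x.1) (Good P U) := Com.comp Cr hmapr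
  have Cg : ContDiffOn ℝ 1 (fun x : ℝ × ℝ => gg δ x.1) (Good P U) := Cgg.comp Cr hmapr
  have Cw : ContDiffOn ℝ 1 (ww p m κ U) (Good P U) := by
    have h1 : ContDiffOn ℝ 1 (fun x => rho U x ^ (p / (2 * m))) (Good P U) :=
      Crho.rpow_const_of_ne fun x hx => (H x hx).1.ne'
    exact h1.div_const κ
  have CPh : ContDiffOn ℝ 1 (fun x => Phi (ww p m κ U x)) (Good P U) := CPhi.comp Cw hmapw
  have CPs : ContDiffOn ℝ 1 (fun x => Psi (ww p m κ U x)) (Good P U) := CPsi.comp Cw hmapw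
  have hrne : ∀ x ∈ Good P U, x.1 ≠ 0 := fun x hx => hx.2.1.ne'
  have CA : ContDiffOn ℝ 1 (fA p m κ δ U) (Good P U) := by
    refine Co.mul (((contDiffOn_const.mul CPh).mul Ct1).add ?_)
    exact (((((Cg.mul contDiffOn_const).mul contDiffOn_const).mul CPs).mul Csn).mul Ccs).div Cr hrne
  have CB : ContDiffOn ℝ 1 (fB p m κ δ U) (Good P U) := by
    refine Co.mul (((contDiffOn_const.mul CPh).mul Ct2).sub ?_)
    exact ((contDiffOn_const.mul CPh).add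
      ((((Cg.mul contDiffOn_const).mul contDiffOn_const).mul CPs).mul (Csn.pow 2))).div Cr hrne
  refine ⟨CA, CB, ?_⟩
  intro x hx
  obtain ⟨hρ, hsc, e1r, e2r, e1s, e2s, e1c, e2c, ecl, eh1, eh2⟩ := H x hx
  obtain ⟨ho, hgd, ht0, -, -⟩ := HO x.1 hx.2.1
  have hw := hwpos x hx
  obtain ⟨hPhi, hPsi, -⟩ := HP _ hw
  have hnh : Good P U ∈ 𝓝 x := hopen.mem_nhds hx
  have one : (1 : WithTop ℕ∞) ≠ 0 := one_ne_zero
  have D : ∀ {f : ℝ × ℝ → ℝ}, ContDiffOn ℝ 1 f (Good P U) → DifferentiableAt ℝ f x :=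
    fun hf => (hf.contDiffAt hnh).differentiableAt one
  have z1 : x + (0 : ℝ) • ((1 : ℝ), (0 : ℝ)) = x := by rw [zero_smul, add_zero]
  have z2 : x + (0 : ℝ) • ((0 : ℝ), (1 : ℝ)) = x := by rw [zero_smul, add_zero]
  -- the coordinate `r` and its functions
  have r1 : HasDerivAt (fun t : ℝ => (x + t • ((1 : ℝ), (0 : ℝ))).1) 1 0 := by
    have h := ((hasDerivAt_id (0 : ℝ)).mul_const (1 : ℝ)).const_add x.1
    simpa using h
  have r2 : HasDerivAt (fun t : ℝ => (x + t • ((0 : ℝ), (1 : ℝ))).1) 0 0 := by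
    simpa using hasDerivAt_const (0 : ℝ) x.1
  have o1 : HasDerivAt (fun t : ℝ => om δ (x + t • ((1 : ℝ), (0 : ℝ))).1)
      ((1 - tt δ x.1) ^ 2 * om δ x.1 / x.1 * 1) 0 := by
    refine HasDerivAt.comp (h₂ := om δ) (0 : ℝ) ?_ r1
    rw [z1]; exact ho
  have o2 : HasDerivAt (fun t : ℝ => om δ (x + t • ((0 : ℝ), (1 : ℝ))).1)
      ((1 - tt δ x.1) ^ 2 * om δ x.1 / x.1 * 0) 0 := by
    refine HasDerivAt.comp (h₂ := om δ) (0 : ℝ) ?_ r2
    rw [z2]; exact ho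
  have g1 : HasDerivAt (fun t : ℝ => gg δ (x + t • ((1 : ℝ), (0 : ℝ))).1)
      (2 * (1 - tt δ x.1) * tt δ x.1 / x.1 * 1) 0 := by
    refine HasDerivAt.comp (h₂ := gg δ) (0 : ℝ) ?_ r1
    rw [z1]; exact hgd
  have g2 : HasDerivAt (fun t : ℝ => gg δ (x + t • ((0 : ℝ), (1 : ℝ))).1)
      (2 * (1 - tt δ x.1) * tt δ x.1 / x.1 * 0) 0 := by
    refine HasDerivAt.comp (h₂ := gg δ) (0 : ℝ) ?_ r2
    rw [z2]; exact hgd
  -- the function `w`
  have wd : ∀ (v : ℝ × ℝ) (hv : ℝ), fderiv ℝ (rho U) x v = 2 * rho U x * hv →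
      HasDerivAt (fun t : ℝ => ww p m κ U (x + t • v)) (p / m * ww p m κ U x * hv) 0 := by
    intro v hv hd
    have h1 := line v (D Crho)
    rw [hd] at h1
    have z : x + (0 : ℝ) • v = x := by rw [zero_smul, add_zero]
    have h2 := (h1.rpow_const (p := p / (2 * m)) (Or.inl (by rw [z]; exact hρ.ne'))).div_const κ
    refine h2.congr_deriv ?_
    rw [z]
    have h3 : rho U x ^ (p / (2 * m) - 1) = rho U x ^ (p / (2 * m)) / rho U x :=
      Real.rpow_sub_one hρ.ne' _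
    rw [h3, ww]
    field_simp
  have hE1 : ∀ (v : ℝ × ℝ) (hv : ℝ), fderiv ℝ (rho U) x v = 2 * rho U x * hv →
      HasDerivAt (fun t : ℝ => e1 p m * Phi (ww p m κ U (x + t • v)))
        (Psi (ww p m κ U x) * hv) 0 := by
    intro v hv hd
    have z : x + (0 : ℝ) • v = x := by rw [zero_smul, add_zero]
    have h1 : HasDerivAt (fun t : ℝ => Phi (ww p m κ U (x + t • v)))
        (Psi (ww p m κ U x) / ww p m κ U x * (p / m * ww p m κ U x * hv)) 0 := by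
      refine HasDerivAt.comp (h₂ := Phi) (0 : ℝ) ?_ (wd v hv hd)
      rw [z]; exact hPhi
    refine (h1.const_mul (e1 p m)).congr_deriv ?_
    unfold e1
    have := hw.ne'
    field_simp
  have hE2 : ∀ (v : ℝ × ℝ) (hv : ℝ), fderiv ℝ (rho U) x v = 2 * rho U x * hv →
      HasDerivAt (fun t : ℝ => y0 p m * e1 p m * Psi (ww p m κ U (x + t • v)))
        (y0 p m * (ww p m κ U x * Psid (ww p m κ U x)) * hv) 0 := by
    intro v hv hd
    have z : x + (0 : ℝ) • v = x := by rw [zero_smul, add_zero]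
    have h1 : HasDerivAt (fun t : ℝ => Psi (ww p m κ U (x + t • v)))
        (Psid (ww p m κ U x) * (p / m * ww p m κ U x * hv)) 0 := by
      refine HasDerivAt.comp (h₂ := Psi) (0 : ℝ) ?_ (wd v hv hd)
      rw [z]; exact hPsi
    refine (h1.const_mul (y0 p m * e1 p m)).congr_deriv ?_
    unfold e1
    field_simp
  -- the derivative of `fB` in the direction `r`
  have eB : ∀ y : ℝ × ℝ, fB p m κ δ U y = om δ y.1 * (e1 p m * Phi (ww p m κ U y) * t2 U y -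
      (e1 p m * (e1 p m * Phi (ww p m κ U y)) +
        gg δ y.1 * (y0 p m * e1 p m * Psi (ww p m κ U y)) * sn U y ^ 2) / y.1) := by
    intro y
    unfold fB
    ring
  have eA : ∀ y : ℝ × ℝ, fA p m κ δ U y = om δ y.1 * (e1 p m * Phi (ww p m κ U y) * t1 U y +
      gg δ y.1 * (y0 p m * e1 p m * Psi (ww p m κ U y)) * sn U y * cs U y / y.1) := by
    intro y
    unfold fA
    ring
  have hBd := dB (e1 p m) o1 g1 (hE1 (1, 0) _ e1r) (hE2 (1, 0) _ e1r) (line (1, 0) (D Ct2))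
    (line (1, 0) (D Csn)) r1 (by rw [z1]; exact hrne x hx)
  have hB := uniq (f := fB p m κ δ U) (1, 0) (D CB) (hBd.congr_of_eventuallyEq
    (Eventually.of_forall fun t => eB _))
  have hAd := dA o2 g2 (hE1 (0, 1) _ e2r) (hE2 (0, 1) _ e2r) (line (0, 1) (D Ct1))
    (line (0, 1) (D Csn)) (line (0, 1) (D Ccs)) r2 (by rw [z2]; exact hrne x hx)
  have hA := uniq (f := fA p m κ δ U) (0, 1) (D CA) (hAd.congr_of_eventuallyEq
    (Eventually.of_forall fun t => eA _))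
  rw [z1] at hB
  rw [z2] at hA
  have f1 : fderiv ℝ (t2 U) x (1, 0) = d1 (t2 U) x := rfl
  have f2 : fderiv ℝ (sn U) x (1, 0) = d1 (sn U) x := rfl
  have f3 : fderiv ℝ (t1 U) x (0, 1) = d2 (t1 U) x := rfl
  have f4 : fderiv ℝ (sn U) x (0, 1) = d2 (sn U) x := rfl
  have f5 : fderiv ℝ (cs U) x (0, 1) = d2 (cs U) x := rfl
  rw [f1, f2, e1s, ecl] at hB
  rw [f3, f4, f5, e2s, e2c] at hA
  have hgt : gg δ x.1 = 1 - (1 - tt δ x.1) ^ 2 := rfl
  -- algebra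
  have i1 : h1 U x * t2 U x - h2 U x * t1 U x = XX U x ^ 2 + YY U x ^ 2 / (p - 1) +
      m / (p - 1) * (sn U x / x.1) * YY U x := jac p_GOOD hU hx
  have i2 : sn U x * h1 U x + cs U x * h2 U x = -((YY U x + m * sn U x / x.1) / (p - 1)) := by
    rw [eh1, eh2]
    linear_combination (-((YY U x + m * sn U x / x.1) / (p - 1))) * hsc
  have i3 : 2 * sn U x * cs U x * t1 U x + (cs U x ^ 2 - sn U x ^ 2) * t2 U x =
      cs U x * XX U x + sn U x * YY U x := by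
    rw [t1_eq hx, t2_eq hx]
    linear_combination (cs U x * XX U x + sn U x * YY U x) * hsc
  have i4 := t2_eq hx
  show fderiv ℝ (fB p m κ δ U) x (1, 0) - fderiv ℝ (fA p m κ δ U) x (0, 1) = _
  rw [hA, hB]
  unfold QF
  rw [hgt]
  generalize Phi (ww p m κ U x) = Φ at *
  generalize Psi (ww p m κ U x) = Ψ at *
  generalize ww p m κ U x * Psid (ww p m κ U x) = Ψd at *
  generalize y0 p m = y at *
  generalize e1 p m = e at *
  generalize om δ x.1 = ω at *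
  generalize tt δ x.1 = t at *
  generalize d2 (t1 U) x = T at *
  clear hB hA hBd hAd eA eB hE1 hE2 wd
  have key : ω * (Ψ * (h1 U x * t2 U x - h2 U x * t1 U x) -
      (1 - (1 - t) ^ 2) * (y * Ψd) * sn U x * (sn U x * h1 U x + cs U x * h2 U x) / x.1 -
      (1 - (1 - t) ^ 2) * (y * e * Ψ) * (2 * sn U x * cs U x * t1 U x +
        (cs U x ^ 2 - sn U x ^ 2) * t2 U x) / x.1 +
      (1 - t) ^ 2 / x.1 * (e * Φ * t2 U x) - e * (Ψ * h1 U x) / x.1 +
      (1 - (1 - t) ^ 2) * (e * (e * Φ) + (1 - (1 - t) ^ 2) * (y * e * Ψ) * sn U x ^ 2) / x.1 ^ 2 -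
      2 * (1 - t) * t * (y * e * Ψ) * sn U x ^ 2 / x.1 ^ 2) =
      ω * (Ψ * (XX U x ^ 2 + YY U x ^ 2 / (p - 1) + m / (p - 1) * (sn U x / x.1) * YY U x) -
      (1 - (1 - t) ^ 2) * (y * Ψd) * sn U x * (-((YY U x + m * sn U x / x.1) / (p - 1))) / x.1 -
      (1 - (1 - t) ^ 2) * (y * e * Ψ) * (cs U x * XX U x + sn U x * YY U x) / x.1 +
      (1 - t) ^ 2 / x.1 * (e * Φ * (cs U x * XX U x - sn U x * YY U x)) -
      e * (Ψ * (cs U x * XX U x - sn U x * (YY U x + m * sn U x / x.1) / (p - 1))) / x.1 +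
      (1 - (1 - t) ^ 2) * (e * (e * Φ) + (1 - (1 - t) ^ 2) * (y * e * Ψ) * sn U x ^ 2) / x.1 ^ 2 -
      2 * (1 - t) * t * (y * e * Ψ) * sn U x ^ 2 / x.1 ^ 2) := by
    rw [i1, i2, i3]
    rw [← i4, ← eh1]
  have k2 := key
  refine Eq.trans ?_ (k2.trans ?_)
  · ring
  · ring

end Pool.Agent.AXS
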