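import Pool.Agent.AXS.Base

/-!
# ENERGY: the energy above a level
-/

set_option autoImplicit false

open Set MeasureTheory Filter Topology

namespace Pool.Agent.AXS

namespace ENERGY_

theorem st_contDiff : ContDiff ℝ 1 Real.smoothTransition :=
  Real.smoothTransition.contDiff (n := 1)

theorem st_neg {t : ℝ} (ht : t < 0) : deriv Real.smoothTransition t = 0 := by
  have h : Real.smoothTransition =ᶠ[𝓝 t] fun _ => (0 : ℝ) := by
    filter_upwards [Iio_mem_nhds ht] with s hs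
    exact Real.smoothTransition.zero_of_nonpos (le_of_lt hs)
  rw [h.deriv_eq, deriv_const]

theorem st_big {t : ℝ} (ht : 1 < t) : deriv Real.smoothTransition t = 0 := by
  have h : Real.smoothTransition =ᶠ[𝓝 t] fun _ => (1 : ℝ) := by
    filter_upwards [Ioi_mem_nhds ht] with s hs
    exact Real.smoothTransition.one_of_one_le (le_of_lt hs)
  rw [h.deriv_eq, deriv_const]

theorem st_bound : ∃ X : ℝ, 0 < X ∧ ∀ t, |deriv Real.smoothTransition t| ≤ X := by
  have hc : Continuous (deriv Real.smoothTransition) := st_contDiff.continuous_deriv le_rfl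
  obtain ⟨C, hC⟩ := isCompact_Icc.exists_bound_of_continuousOn (s := Icc (0 : ℝ) 1)
    hc.continuousOn
  refine ⟨max C 1, lt_max_of_lt_right one_pos, fun t => ?_⟩
  by_cases h0 : t < 0
  · rw [st_neg h0, abs_zero]
    exact le_max_of_le_right zero_le_one
  by_cases h1 : 1 < t
  · rw [st_big h1, abs_zero]
    exact le_max_of_le_right zero_le_one
  · exact (hC t ⟨not_lt.1 h0, not_lt.1 h1⟩).trans (le_max_left _ _)

/-- the cutoff in the radial direction -/
theorem cutoff (r₀ : ℝ) (hr : 0 < r₀) : ∃ X A : ℝ, 0 < X ∧ 0 < A ∧ ∀ N : ℝ, 0 < N →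
    ∃ g : ℝ → ℝ, ContDiff ℝ 1 g ∧ (∀ r, 0 ≤ g r) ∧ (∀ r, g r ≤ 1) ∧
      (∀ r, r ≤ 1 / N → g r = 0) ∧ (∀ r, 3 * r₀ / 4 ≤ r → g r = 0) ∧
      (∀ r, 2 / N ≤ r → r ≤ r₀ / 2 → g r = 1) ∧
      ∀ r, |deriv g r| ≤ (Icc (1 / N) (2 / N)).indicator (fun _ => X * N) r +
        (Icc (r₀ / 2) r₀).indicator (fun _ => A) r := by
  obtain ⟨X, hX, hb⟩ := st_bound
  refine ⟨X, X * (4 / r₀), hX, by positivity, fun N hN => ?_⟩
  have hd : ∀ t, HasDerivAt Real.smoothTransition (deriv Real.smoothTransition t) t :=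
    fun t => (st_contDiff.differentiable (by norm_num) t).hasDerivAt
  refine ⟨fun r => Real.smoothTransition (N * r - 1) * Real.smoothTransition (3 - 4 / r₀ * r),
    ?_, ?_, ?_, ?_, ?_, ?_, ?_⟩
  · exact (st_contDiff.comp (by fun_prop)).mul (st_contDiff.comp (by fun_prop))
  · intro r
    exact mul_nonneg (Real.smoothTransition.nonneg _) (Real.smoothTransition.nonneg _)
  · intro r
    exact mul_le_one₀ (Real.smoothTransition.le_one _) (Real.smoothTransition.nonneg _)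
      (Real.smoothTransition.le_one _)
  · intro r h
    have h1 : N * r - 1 ≤ 0 := by
      rw [le_div_iff₀ hN] at h
      linarith
    simp only [Real.smoothTransition.zero_of_nonpos h1, zero_mul]
  · intro r h
    have h1 : 3 - 4 / r₀ * r ≤ 0 := by
      have h2 : 4 / r₀ * (3 * r₀ / 4) ≤ 4 / r₀ * r :=
        mul_le_mul_of_nonneg_left h (by positivity)
      have h3 : 4 / r₀ * (3 * r₀ / 4) = 3 := by field_simp
      linarith
    simp only [Real.smoothTransition.zero_of_nonpos h1, mul_zero]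
  · intro r h h'
    have h1 : 1 ≤ N * r - 1 := by
      rw [div_le_iff₀ hN] at h
      linarith
    have h2 : 1 ≤ 3 - 4 / r₀ * r := by
      have h2 : 4 / r₀ * r ≤ 4 / r₀ * (r₀ / 2) := mul_le_mul_of_nonneg_left h' (by positivity)
      have h3 : 4 / r₀ * (r₀ / 2) = 2 := by
        field_simp
        norm_num
      linarith
    simp only [Real.smoothTransition.one_of_one_le h1, Real.smoothTransition.one_of_one_le h2,
      mul_one]
  · intro r
    have e1 : HasDerivAt (fun r : ℝ => N * r - 1) N r := by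
      simpa using ((hasDerivAt_id r).const_mul N).sub_const 1
    have e2 : HasDerivAt (fun r : ℝ => 3 - 4 / r₀ * r) (-(4 / r₀)) r := by
      simpa using ((hasDerivAt_id r).const_mul (4 / r₀)).const_sub 3
    have e3 := ((hd (N * r - 1)).comp r e1).mul ((hd (3 - 4 / r₀ * r)).comp r e2)
    have e4 : deriv (fun r => Real.smoothTransition (N * r - 1) *
        Real.smoothTransition (3 - 4 / r₀ * r)) r =
        deriv Real.smoothTransition (N * r - 1) * N * Real.smoothTransition (3 - 4 / r₀ * r) +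
        Real.smoothTransition (N * r - 1) * (deriv Real.smoothTransition (3 - 4 / r₀ * r) *
          (-(4 / r₀))) := e3.deriv
    rw [e4]
    refine (abs_add_le _ _).trans (add_le_add ?_ ?_)
    · rw [abs_mul, abs_mul, abs_of_pos hN, abs_of_nonneg (Real.smoothTransition.nonneg _)]
      have h1 : |deriv Real.smoothTransition (N * r - 1)| * N ≤
          (Icc (1 / N) (2 / N)).indicator (fun _ => X * N) r := by
        by_cases h : r ∈ Icc (1 / N) (2 / N)
        · rw [indicator_of_mem h]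
          exact mul_le_mul_of_nonneg_right (hb _) hN.le
        · rw [indicator_of_notMem h]
          have h2 : deriv Real.smoothTransition (N * r - 1) = 0 := by
            by_cases h3 : r < 1 / N
            · apply st_neg
              rw [lt_div_iff₀ hN] at h3
              linarith
            · have h4 : 2 / N < r := by
                by_contra h5
                exact h ⟨not_lt.1 h3, not_lt.1 h5⟩
              apply st_big
              rw [div_lt_iff₀ hN] at h4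
              linarith
          rw [h2, abs_zero, zero_mul]
      have h0 : 0 ≤ |deriv Real.smoothTransition (N * r - 1)| * N := by positivity
      calc _ ≤ |deriv Real.smoothTransition (N * r - 1)| * N * 1 :=
            mul_le_mul_of_nonneg_left (Real.smoothTransition.le_one _) h0
        _ ≤ _ := by rw [mul_one]; exact h1
    · rw [abs_mul, abs_mul, abs_neg, abs_of_pos (by positivity : 0 < 4 / r₀),
        abs_of_nonneg (Real.smoothTransition.nonneg _)]
      have h1 : |deriv Real.smoothTransition (3 - 4 / r₀ * r)| * (4 / r₀) ≤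
          (Icc (r₀ / 2) r₀).indicator (fun _ => X * (4 / r₀)) r := by
        by_cases h : r ∈ Icc (r₀ / 2) r₀
        · rw [indicator_of_mem h]
          exact mul_le_mul_of_nonneg_right (hb _) (by positivity)
        · rw [indicator_of_notMem h]
          have h2 : deriv Real.smoothTransition (3 - 4 / r₀ * r) = 0 := by
            by_cases h3 : r < r₀ / 2
            · apply st_big
              have h4 : 4 / r₀ * r < 4 / r₀ * (r₀ / 2) :=
                mul_lt_mul_of_pos_left h3 (by positivity)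
              have h5 : 4 / r₀ * (r₀ / 2) = 2 := by
                field_simp
                norm_num
              linarith
            · have h4 : r₀ < r := by
                by_contra h5
                exact h ⟨not_lt.1 h3, not_lt.1 h5⟩
              apply st_neg
              have h4 : 4 / r₀ * r₀ < 4 / r₀ * r := mul_lt_mul_of_pos_left h4 (by positivity)
              have h5 : 4 / r₀ * r₀ = 4 := by field_simp
              linarith
          rw [h2, abs_zero, zero_mul]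
      have h0 : 0 ≤ |deriv Real.smoothTransition (3 - 4 / r₀ * r)| * (4 / r₀) := by positivity
      calc _ ≤ 1 * (|deriv Real.smoothTransition (3 - 4 / r₀ * r)| * (4 / r₀)) :=
            mul_le_mul_of_nonneg_right (Real.smoothTransition.le_one _) h0
        _ ≤ _ := by rw [one_mul]; exact h1

/-- the cutoff in the axial direction -/
theorem cutoffz {z₁ z₂ z₁' z₂' : ℝ} (h1 : z₁ < z₁') (h2 : z₂' < z₂) :
    ∃ (η : ℝ → ℝ) (B c₁ c₂ : ℝ), 0 < B ∧ z₁ < c₁ ∧ c₂ < z₂ ∧ ContDiff ℝ 1 η ∧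
      (∀ z, 0 ≤ η z) ∧ (∀ z, η z ≤ 1) ∧ (∀ z ∈ Icc z₁' z₂', η z = 1) ∧
      (∀ z, z ∉ Icc c₁ c₂ → η z = 0) ∧ (∀ z, |deriv η z| ≤ B) ∧
      (∀ z, z ∉ Icc c₁ c₂ → deriv η z = 0) := by
  obtain ⟨c₁, hc1, hc1'⟩ := exists_between h1
  obtain ⟨c₂, hc2, hc2'⟩ := exists_between h2
  have p1 : 0 < z₁' - c₁ := by linarith
  have p2 : 0 < c₂ - z₂' := by linarith
  have hη : ContDiff ℝ 1 (fun z => Real.smoothTransition ((z - c₁) / (z₁' - c₁)) *
      Real.smoothTransition ((c₂ - z) / (c₂ - z₂'))) :=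
    (st_contDiff.comp (by fun_prop)).mul (st_contDiff.comp (by fun_prop))
  have hzero : ∀ z, z ∉ Icc c₁ c₂ → Real.smoothTransition ((z - c₁) / (z₁' - c₁)) *
      Real.smoothTransition ((c₂ - z) / (c₂ - z₂')) = 0 := by
    intro z hz
    by_cases h : z < c₁
    · rw [Real.smoothTransition.zero_of_nonpos (div_nonpos_of_nonpos_of_nonneg (by linarith)
        p1.le), zero_mul]
    · have h3 : c₂ < z := by
        by_contra h5
        exact hz ⟨not_lt.1 h, not_lt.1 h5⟩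
      rw [Real.smoothTransition.zero_of_nonpos (div_nonpos_of_nonpos_of_nonneg (by linarith)
        p2.le), mul_zero]
  have hdz : ∀ z, z ∉ Icc c₁ c₂ → deriv (fun z => Real.smoothTransition
      ((z - c₁) / (z₁' - c₁)) * Real.smoothTransition ((c₂ - z) / (c₂ - z₂'))) z = 0 := by
    intro z hz
    have h3 : (fun z => Real.smoothTransition ((z - c₁) / (z₁' - c₁)) *
        Real.smoothTransition ((c₂ - z) / (c₂ - z₂'))) =ᶠ[𝓝 z] fun _ => (0 : ℝ) := by
      filter_upwards [isClosed_Icc.isOpen_compl.mem_nhds hz] with s hs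
      exact hzero s hs
    rw [h3.deriv_eq, deriv_const]
  have hc := hη.continuous_deriv le_rfl
  obtain ⟨C, hC⟩ := isCompact_Icc.exists_bound_of_continuousOn (s := Icc c₁ c₂) hc.continuousOn
  refine ⟨_, max C 1, c₁, c₂, lt_max_of_lt_right one_pos, hc1, hc2', hη, ?_, ?_, ?_, hzero, ?_,
    hdz⟩
  · intro z
    exact mul_nonneg (Real.smoothTransition.nonneg _) (Real.smoothTransition.nonneg _)
  · intro z
    exact mul_le_one₀ (Real.smoothTransition.le_one _) (Real.smoothTransition.nonneg _)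
      (Real.smoothTransition.le_one _)
  · intro z hz
    have e1 : 1 ≤ (z - c₁) / (z₁' - c₁) := by
      rw [le_div_iff₀ p1]
      linarith [hz.1]
    have e2 : 1 ≤ (c₂ - z) / (c₂ - z₂') := by
      rw [le_div_iff₀ p2]
      linarith [hz.2]
    simp only [Real.smoothTransition.one_of_one_le e1, Real.smoothTransition.one_of_one_le e2,
      mul_one]
  · intro z
    by_cases h : z ∈ Icc c₁ c₂
    · exact (hC z h).trans (le_max_left _ _)
    · rw [hdz z h, abs_zero]
      exact le_max_of_le_right zero_le_one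

theorem d_phi {g η : ℝ → ℝ} (hg : ContDiff ℝ 1 g) (hη : ContDiff ℝ 1 η) (x : ℝ × ℝ) :
    d1 (fun x : ℝ × ℝ => g x.1 * η x.2) x = deriv g x.1 * η x.2 ∧
      d2 (fun x : ℝ × ℝ => g x.1 * η x.2) x = g x.1 * deriv η x.2 := by
  have e1 : HasDerivAt g (deriv g x.1) x.1 := (hg.differentiable (by norm_num) _).hasDerivAt
  have e2 : HasDerivAt η (deriv η x.2) x.2 := (hη.differentiable (by norm_num) _).hasDerivAt
  have e3 : HasFDerivAt (fun x : ℝ × ℝ => g x.1)
      (deriv g x.1 • ContinuousLinearMap.fst ℝ ℝ ℝ) x := e1.comp_hasFDerivAt x hasFDerivAt_fst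
  have e4 : HasFDerivAt (fun x : ℝ × ℝ => η x.2)
      (deriv η x.2 • ContinuousLinearMap.snd ℝ ℝ ℝ) x := e2.comp_hasFDerivAt x hasFDerivAt_snd
  have e5 : HasFDerivAt (fun x : ℝ × ℝ => g x.1 * η x.2)
      (g x.1 • (deriv η x.2 • ContinuousLinearMap.snd ℝ ℝ ℝ) +
        η x.2 • (deriv g x.1 • ContinuousLinearMap.fst ℝ ℝ ℝ)) x := e3.mul e4
  unfold d1 d2
  rw [e5.fderiv]
  constructor
  · simp
    ring
  · simp

theorem near_axis {F : ℝ × ℝ → ℝ} {r₀ z₁ z₂ : ℝ} (hr : 0 < r₀)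
    (hF : ContinuousOn F (Icc 0 r₀ ×ˢ Icc z₁ z₂)) (h0 : ∀ z ∈ Icc z₁ z₂, F (0, z) = 0) {ε : ℝ}
    (hε : 0 < ε) : ∃ δ, 0 < δ ∧ ∀ x ∈ Icc 0 r₀ ×ˢ Icc z₁ z₂, x.1 < δ → F x < ε := by
  have hK : IsCompact (Icc 0 r₀ ×ˢ Icc z₁ z₂) := isCompact_Icc.prod isCompact_Icc
  have hu := hK.uniformContinuousOn_of_continuous hF
  obtain ⟨δ, hδ, h⟩ := Metric.uniformContinuousOn_iff.1 hu ε hε
  refine ⟨δ, hδ, fun x hx hxd => ?_⟩
  have h1 := h x hx (0, x.2) ⟨⟨le_rfl, hr.le⟩, hx.2⟩ (by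
    rw [Prod.dist_eq, max_lt_iff, Real.dist_eq, Real.dist_eq]
    refine ⟨?_, by simpa using hδ⟩
    rw [sub_zero, abs_of_nonneg hx.1.1]
    exact hxd)
  rw [h0 _ hx.2, Real.dist_eq, sub_zero] at h1
  exact (le_abs_self _).trans_lt h1

theorem LL_ge_one {v : ℝ} (hv : 1 ≤ v) : LL v = (1 + 2 * Real.log v) ^ 2 := by
  unfold LL
  rcases hv.eq_or_lt with h | h
  · rw [← h, if_pos le_rfl, Real.log_one]
    norm_num
  · rw [if_neg (not_le.2 h)]

/-- the bound on `LL` -/
theorem LL_bound (hPP : T_PP) {ε M k r : ℝ} (hε : 0 < ε) (hM : 1 ≤ M) (hk : 0 < k) (hk1 : k < 1)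
    (hr0 : 0 ≤ r) (hr : r ≤ M) : LL (r ^ ε / k ^ ε) ≤
      (1 + 2 * ε * (Real.log M + 1)) ^ 2 * (1 + Real.log (1 / k)) ^ 2 := by
  obtain ⟨-, -, -, -, -, hmono, -⟩ := hPP
  have hkε : 0 < k ^ ε := Real.rpow_pos_of_pos hk ε
  have hM0 : 0 < M := by linarith
  have h1 : r ^ ε / k ^ ε ≤ M ^ ε / k ^ ε :=
    div_le_div_of_nonneg_right (Real.rpow_le_rpow hr0 hr hε.le) hkε.le
  have h2 : 1 ≤ M ^ ε / k ^ ε := by
    rw [le_div_iff₀ hkε, one_mul]
    exact Real.rpow_le_rpow hk.le (by linarith) hε.le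
  have hl : 0 ≤ Real.log (1 / k) := Real.log_nonneg (by
    rw [le_div_iff₀ hk]
    linarith)
  have hm : 0 ≤ Real.log M := Real.log_nonneg hM
  refine (hmono _ _ (div_nonneg (Real.rpow_nonneg hr0 _) hkε.le) h1).trans ?_
  rw [LL_ge_one h2, ← mul_pow]
  have h3 : Real.log (M ^ ε / k ^ ε) = ε * (Real.log M + Real.log (1 / k)) := by
    rw [Real.log_div (Real.rpow_pos_of_pos hM0 ε).ne' hkε.ne', Real.log_rpow hM0,
      Real.log_rpow hk, one_div, Real.log_inv]
    ring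
  rw [h3]
  refine pow_le_pow_left₀ (by positivity) ?_ 2
  nlinarith [mul_nonneg (mul_nonneg hε.le hm) hl, mul_nonneg hε.le hl]

/-- the pointwise bound on the right hand side -/
theorem point {ω L g g' h h' r a b σ Λ N δ X A B r₀ : ℝ} (hr : 0 < r) (hN : 0 < N) (hδ : 0 < δ)
    (hr0 : 0 < r₀) (hX : 0 < X) (hA : 0 < A) (hω : 0 ≤ ω) (hω5 : ω ≤ 5) (hωr : ω ≤ 5 * (r / δ))
    (hL : 0 ≤ L) (hLΛ : L ≤ Λ) (hg0 : 0 ≤ g) (hg1 : g ≤ 1) (hh0 : 0 ≤ h) (hh1 : h ≤ 1)
    (hh' : |h'| ≤ B) (hg' : |g'| ≤ a + b) (hb0 : 0 ≤ b) (hbA : b ≤ A)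
    (hbr : b / r ≤ 2 * A / r₀)
    (ha : a = 0 ∨ (a = X * N ∧ 1 / N ≤ r ∧ r ≤ 2 / N ∧ L ≤ σ)) (c : ℝ)
    (hc : c = if a = 0 then 0 else 10 * N / δ * σ * (2 * X ^ 2 + X)) :
    ω * L * ((g' * h) ^ 2 + (g * h') ^ 2 + |g * h| * |g' * h| / r) ≤
      5 * Λ * (2 * A ^ 2 + B ^ 2 + 2 * A / r₀) + c := by
  have ha0 : 0 ≤ a := by
    rcases ha with h | h
    · exact h.ge
    · rw [h.1]
      positivity
  have hΛ : 0 ≤ Λ := hL.trans hLΛ
  have k1 : (g' * h) ^ 2 ≤ 2 * a ^ 2 + 2 * b ^ 2 := by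
    have e1 : |g' * h| ≤ a + b := by
      rw [abs_mul, abs_of_nonneg hh0]
      calc |g'| * h ≤ |g'| * 1 := mul_le_mul_of_nonneg_left hh1 (abs_nonneg _)
        _ ≤ a + b := by rw [mul_one]; exact hg'
    have e2 : (g' * h) ^ 2 ≤ (a + b) ^ 2 := by
      rw [← sq_abs (g' * h)]
      exact pow_le_pow_left₀ (abs_nonneg _) e1 2
    nlinarith [sq_nonneg (a - b)]
  have k2 : (g * h') ^ 2 ≤ B ^ 2 := by
    rw [← sq_abs (g * h')]
    refine pow_le_pow_left₀ (abs_nonneg _) ?_ 2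
    rw [abs_mul, abs_of_nonneg hg0]
    calc g * |h'| ≤ 1 * |h'| := mul_le_mul_of_nonneg_right hg1 (abs_nonneg _)
      _ ≤ B := by rw [one_mul]; exact hh'
  have k3 : |g * h| * |g' * h| / r ≤ a / r + b / r := by
    rw [← add_div]
    refine div_le_div_of_nonneg_right ?_ hr.le
    have e1 : |g' * h| ≤ a + b := by
      rw [abs_mul, abs_of_nonneg hh0]
      calc |g'| * h ≤ |g'| * 1 := mul_le_mul_of_nonneg_left hh1 (abs_nonneg _)
        _ ≤ a + b := by rw [mul_one]; exact hg'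
    have e2 : |g * h| ≤ 1 := by
      rw [abs_of_nonneg (mul_nonneg hg0 hh0)]
      exact mul_le_one₀ hg1 hh0 hh1
    calc |g * h| * |g' * h| ≤ 1 * |g' * h| := mul_le_mul_of_nonneg_right e2 (abs_nonneg _)
      _ ≤ a + b := by rw [one_mul]; exact e1
  have k4 : b ^ 2 ≤ A ^ 2 := pow_le_pow_left₀ hb0 hbA 2
  have hωL : 0 ≤ ω * L := mul_nonneg hω hL
  have k5 : ω * L ≤ 5 * Λ := mul_le_mul hω5 hLΛ hL (by norm_num)
  have k6 : ω * L * (2 * a ^ 2 + a / r) ≤ c := by
    rcases ha with h | ⟨h, h2, h3, h4⟩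
    · rw [hc, if_pos h, h]
      simp
    · have h5 : a ≠ 0 := by
        rw [h]
        positivity
      have hσ : 0 ≤ σ := hL.trans h4
      rw [hc, if_neg h5, h]
      have h6 : ω ≤ 10 / (N * δ) := by
        refine hωr.trans ?_
        have : r / δ ≤ (2 / N) / δ := div_le_div_of_nonneg_right h3 hδ.le
        calc 5 * (r / δ) ≤ 5 * ((2 / N) / δ) := by linarith
          _ = 10 / (N * δ) := by
            field_simp
            norm_num
      have h7 : X * N / r ≤ X * N * N := by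
        rw [div_le_iff₀ hr]
        rw [div_le_iff₀ hN] at h2
        calc X * N = X * N * 1 := by ring
          _ ≤ X * N * (r * N) := mul_le_mul_of_nonneg_left h2 (by positivity)
          _ = X * N * N * r := by ring
      have h8 : ω * L ≤ 10 / (N * δ) * σ := mul_le_mul h6 h4 hL (by positivity)
      calc ω * L * (2 * (X * N) ^ 2 + X * N / r)
          ≤ (10 / (N * δ) * σ) * (2 * (X * N) ^ 2 + X * N * N) := by
            refine mul_le_mul h8 (by linarith) (by positivity) (by positivity)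
        _ = 10 * N / δ * σ * (2 * X ^ 2 + X) := by
            field_simp
  have k7 : ω * L * (2 * b ^ 2 + B ^ 2 + b / r) ≤ 5 * Λ * (2 * A ^ 2 + B ^ 2 + 2 * A / r₀) :=
    mul_le_mul k5 (by linarith) (by positivity) (by positivity)
  calc ω * L * ((g' * h) ^ 2 + (g * h') ^ 2 + |g * h| * |g' * h| / r)
      ≤ ω * L * ((2 * a ^ 2 + 2 * b ^ 2) + B ^ 2 + (a / r + b / r)) :=
        mul_le_mul_of_nonneg_left (by linarith) hωL
    _ = ω * L * (2 * b ^ 2 + B ^ 2 + b / r) + ω * L * (2 * a ^ 2 + a / r) := by ring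
    _ ≤ _ := add_le_add k7 k6

theorem vol_box {a b c d : ℝ} (h : a ≤ b) (h' : c ≤ d) :
    (volume : Measure (ℝ × ℝ)).real (Icc a b ×ˢ Icc c d) = (b - a) * (d - c) := by
  rw [Measure.volume_eq_prod, measureReal_prod_prod, Real.volume_real_Icc_of_le h,
    Real.volume_real_Icc_of_le h']

end ENERGY_

open ENERGY_ in
theorem p_ENERGY (hgood : T_GOOD) (hOM : T_OM) (hPP : T_PP) (hI : T_INEQ2) : T_ENERGY := by
  intro p m P U r₀ z₁ z₂ z₁' z₂' hU hr0 hz1 hz2 hz3 hKP haxis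
  obtain ⟨Ch, hCh, hh⟩ := hsq_le hgood hU
  obtain ⟨Ci, hCi, hineq⟩ := hI p m hU.one_lt hU.one_le
  obtain ⟨X, A, hX, hA, hcut⟩ := cutoff r₀ hr0
  obtain ⟨η, B, c₁, c₂, hB, hc1, hc2, hη, hη0, hη1, hηone, hηz, hηB, hηdz⟩ := cutoffz hz1 hz3
  have hp : 0 < p := by linarith [hU.one_lt]
  have hm : 0 < m := by linarith [hU.one_le]
  obtain ⟨ε, hεdef⟩ : ∃ ε, ε = p / (2 * m) := ⟨_, rfl⟩
  have hε : 0 < ε := by
    rw [hεdef]
    positivity
  have hrc : ContinuousOn (rho U) P := (hgood p m P U hU).2.1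
  have hz12 : z₁ < z₂ := by linarith
  have hK : IsCompact (Icc 0 r₀ ×ˢ Icc z₁ z₂) := isCompact_Icc.prod isCompact_Icc
  obtain ⟨M0, hM0⟩ := hK.exists_bound_of_continuousOn (hrc.mono hKP)
  obtain ⟨M, hM⟩ : ∃ M, M = max M0 1 := ⟨_, rfl⟩
  have hM1 : 1 ≤ M := by
    rw [hM]
    exact le_max_right _ _
  have hMK : ∀ x ∈ Icc 0 r₀ ×ˢ Icc z₁ z₂, rho U x ≤ M := by
    intro x hx
    rw [hM]
    exact (le_abs_self _).trans ((hM0 x hx).trans (le_max_left _ _))
  obtain ⟨C1, hC1⟩ : ∃ C1, C1 = (1 + 2 * ε * (Real.log M + 1)) ^ 2 := ⟨_, rfl⟩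
  have hC10 : 0 ≤ C1 := by
    rw [hC1]
    positivity
  obtain ⟨D, hD⟩ : ∃ D, D = 2 * A ^ 2 + B ^ 2 + 2 * A / r₀ := ⟨_, rfl⟩
  have hD0 : 0 < D := by
    rw [hD]
    positivity
  have hz0 : 0 < z₂ - z₁ := by linarith
  refine ⟨Ch * (Ci * ((z₂ - z₁) * (5 * r₀ * C1 * D + 1))), by positivity, fun k hk hk1 => ?_⟩
  obtain ⟨ℓ, hℓ⟩ : ∃ ℓ, ℓ = 1 + Real.log (1 / k) := ⟨_, rfl⟩
  have hℓ1 : 1 ≤ ℓ := by
    have h1 : 0 ≤ Real.log (1 / k) := Real.log_nonneg (by
      rw [le_div_iff₀ hk]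
      linarith)
    rw [hℓ]
    linarith
  obtain ⟨κ, hκdef⟩ : ∃ κ, κ = k ^ ε := ⟨_, rfl⟩
  have hκ : 0 < κ := by
    rw [hκdef]
    exact Real.rpow_pos_of_pos hk ε
  have hww : ∀ x, ww p m κ U x = rho U x ^ ε / k ^ ε := by
    intro x
    unfold ww
    rw [hκdef, hεdef]
  have hwc : ContinuousOn (fun x => ww p m κ U x) (Icc 0 r₀ ×ˢ Icc z₁ z₂) := by
    have h1 : ContinuousOn (fun x => rho U x ^ ε / k ^ ε) (Icc 0 r₀ ×ˢ Icc z₁ z₂) :=
      ((hrc.mono hKP).rpow_const (fun x _ => Or.inr hε.le)).div_const _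
    exact h1.congr (fun x _ => hww x)
  have hLLc : ContinuousOn (fun x => LL (ww p m κ U x)) (Icc 0 r₀ ×ˢ Icc z₁ z₂) :=
    hPP.2.2.1.comp hwc (fun x _ => ww_nonneg hκ x)
  have haxis2 : ∀ z ∈ Icc z₁ z₂, LL (ww p m κ U (0, z)) = 0 := by
    intro z hz
    rw [hww, haxis z hz, Real.zero_rpow hε.ne', zero_div]
    unfold LL
    rw [if_pos zero_le_one]
  obtain ⟨δ, hδ, hδk⟩ := near_axis hr0 (hrc.mono hKP) haxis hk
  obtain ⟨σ, hσdef⟩ : ∃ σ, σ = δ / (10 * (2 * X ^ 2 + X)) := ⟨_, rfl⟩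
  have hσ : 0 < σ := by
    rw [hσdef]
    positivity
  obtain ⟨δ', hδ', hδσ⟩ := near_axis hr0 hLLc haxis2 hσ
  obtain ⟨μ, hμdef⟩ : ∃ μ, μ = min (min δ δ') (r₀ / 2) := ⟨_, rfl⟩
  have hμ : 0 < μ := by
    rw [hμdef]
    exact lt_min (lt_min hδ hδ') (by linarith)
  have hμ1 : μ ≤ δ := by
    rw [hμdef]
    exact (min_le_left _ _).trans (min_le_left _ _)
  have hμ2 : μ ≤ δ' := by
    rw [hμdef]
    exact (min_le_left _ _).trans (min_le_right _ _)
  have hμ3 : μ ≤ r₀ / 2 := by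
    rw [hμdef]
    exact min_le_right _ _
  obtain ⟨N, hN, hN2⟩ : ∃ N : ℝ, 0 < N ∧ 2 / N = μ / 2 :=
    ⟨4 / μ, by positivity, by field_simp; norm_num⟩
  have hN1 : 0 < 1 / N := by positivity
  have hN12 : 1 / N < 2 / N := div_lt_div_of_pos_right (by norm_num) hN
  obtain ⟨g, hg, hg0, hg1, hgz, hgz', hgone, hgd⟩ := hcut N hN
  have hφ : ContDiff ℝ 1 (fun x : ℝ × ℝ => g x.1 * η x.2) :=
    (hg.comp contDiff_fst).mul (hη.comp contDiff_snd)
  have hsupp : Function.support (fun x : ℝ × ℝ => g x.1 * η x.2) ⊆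
      Icc (1 / N) (3 * r₀ / 4) ×ˢ Icc c₁ c₂ := by
    intro x hx
    rw [Function.mem_support] at hx
    refine ⟨⟨?_, ?_⟩, ?_⟩
    · by_contra h
      exact hx (by rw [hgz _ (not_le.1 h).le, zero_mul])
    · by_contra h
      exact hx (by rw [hgz' _ (not_le.1 h).le, zero_mul])
    · by_contra h
      exact hx (by rw [hηz _ h, mul_zero])
  have hts : tsupport (fun x : ℝ × ℝ => g x.1 * η x.2) ⊆
      Icc (1 / N) (3 * r₀ / 4) ×ˢ Icc c₁ c₂ :=
    closure_minimal hsupp (isClosed_Icc.prod isClosed_Icc)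
  have hcs : HasCompactSupport (fun x : ℝ × ℝ => g x.1 * η x.2) :=
    HasCompactSupport.intro (isCompact_Icc.prod isCompact_Icc) (fun x hx => by
      by_contra h
      exact hx (hsupp h))
  have hsub : Icc (1 / N) (3 * r₀ / 4) ×ˢ Icc c₁ c₂ ⊆ Icc 0 r₀ ×ˢ Icc z₁ z₂ := by
    rintro x ⟨⟨a1, a2⟩, a3, a4⟩
    exact ⟨⟨by linarith, by linarith⟩, by linarith, by linarith⟩
  have hlow : ∀ x ∈ Icc 0 r₀ ×ˢ Icc z₁ z₂, x.1 < δ → ww p m κ U x ≤ 1 := by
    intro x hx hxd
    rw [hww, div_le_one (Real.rpow_pos_of_pos hk ε)]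
    exact Real.rpow_le_rpow (rho_nonneg U x) (hδk x hx hxd).le hε.le
  have main := hineq κ δ P U (fun x : ℝ × ℝ => g x.1 * η x.2) hU hκ hδ hφ hcs
    (hts.trans (hsub.trans hKP)) (fun x hx => lt_of_lt_of_le hN1 (hts hx).1.1)
    (fun x hx hxd => hlow x (hsub (hts hx)) hxd)
  -- the right hand side
  have hR : ∫ x, om δ x.1 * LL (ww p m κ U x) *
      (d1 (fun x : ℝ × ℝ => g x.1 * η x.2) x ^ 2 + d2 (fun x : ℝ × ℝ => g x.1 * η x.2) x ^ 2 +
        |g x.1 * η x.2| * |d1 (fun x : ℝ × ℝ => g x.1 * η x.2) x| / x.1) ≤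
      (z₂ - z₁) * (5 * r₀ * C1 * D * ℓ ^ 2 + 1) := by
    have hK1 : IsCompact (Icc (1 / N) (2 / N) ×ˢ Icc z₁ z₂) :=
      isCompact_Icc.prod isCompact_Icc
    have hI1 : Integrable ((Icc 0 r₀ ×ˢ Icc z₁ z₂).indicator
        (fun _ : ℝ × ℝ => 5 * (C1 * ℓ ^ 2) * D)) :=
      (continuousOn_const.integrableOn_compact hK).integrable_indicator hK.measurableSet
    have hI2 : Integrable ((Icc (1 / N) (2 / N) ×ˢ Icc z₁ z₂).indicator
        (fun _ : ℝ × ℝ => 10 * N / δ * σ * (2 * X ^ 2 + X))) :=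
      (continuousOn_const.integrableOn_compact hK1).integrable_indicator hK1.measurableSet
    have hpt : ∀ x : ℝ × ℝ, 0 ≤ om δ x.1 * LL (ww p m κ U x) *
        (d1 (fun x : ℝ × ℝ => g x.1 * η x.2) x ^ 2 +
          d2 (fun x : ℝ × ℝ => g x.1 * η x.2) x ^ 2 +
          |g x.1 * η x.2| * |d1 (fun x : ℝ × ℝ => g x.1 * η x.2) x| / x.1) ∧
        om δ x.1 * LL (ww p m κ U x) *
        (d1 (fun x : ℝ × ℝ => g x.1 * η x.2) x ^ 2 +
          d2 (fun x : ℝ × ℝ => g x.1 * η x.2) x ^ 2 +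
          |g x.1 * η x.2| * |d1 (fun x : ℝ × ℝ => g x.1 * η x.2) x| / x.1) ≤
        (Icc 0 r₀ ×ˢ Icc z₁ z₂).indicator (fun _ : ℝ × ℝ => 5 * (C1 * ℓ ^ 2) * D) x +
        (Icc (1 / N) (2 / N) ×ˢ Icc z₁ z₂).indicator
          (fun _ : ℝ × ℝ => 10 * N / δ * σ * (2 * X ^ 2 + X)) x := by
      intro x
      obtain ⟨q1, q2⟩ := d_phi hg hη x
      rw [q1, q2]
      have hG1 : 0 ≤ (Icc 0 r₀ ×ˢ Icc z₁ z₂).indicator
          (fun _ : ℝ × ℝ => 5 * (C1 * ℓ ^ 2) * D) x :=
        indicator_nonneg (fun _ _ => by positivity) x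
      have hG2 : 0 ≤ (Icc (1 / N) (2 / N) ×ˢ Icc z₁ z₂).indicator
          (fun _ : ℝ × ℝ => 10 * N / δ * σ * (2 * X ^ 2 + X)) x :=
        indicator_nonneg (fun _ _ => by positivity) x
      by_cases hz : x.2 ∈ Icc c₁ c₂
      swap
      · rw [hηz _ hz, hηdz _ hz]
        simp only [mul_zero, abs_zero, zero_div, add_zero, ne_eq, OfNat.ofNat_ne_zero,
          not_false_eq_true, zero_pow]
        exact ⟨le_rfl, by linarith⟩
      by_cases hr : x.1 ∈ Icc (1 / N) r₀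
      swap
      · have e1 : g x.1 = 0 := by
          by_cases h : x.1 < 1 / N
          · exact hgz _ h.le
          · apply hgz'
            have : r₀ < x.1 := by
              by_contra h5
              exact hr ⟨not_lt.1 h, not_lt.1 h5⟩
            linarith
        have e2 : deriv g x.1 = 0 := by
          have h3 := hgd x.1
          rw [indicator_of_notMem, indicator_of_notMem, add_zero] at h3
          · exact abs_nonpos_iff.1 h3
          · intro h
            exact hr ⟨by linarith [h.1], h.2⟩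
          · intro h
            exact hr ⟨h.1, by linarith [h.2]⟩
        rw [e1, e2]
        simp only [zero_mul, mul_zero, abs_zero, zero_div, add_zero, ne_eq,
          OfNat.ofNat_ne_zero, not_false_eq_true, zero_pow]
        exact ⟨le_rfl, by linarith⟩
      have hr1 : 0 < x.1 := lt_of_lt_of_le hN1 hr.1
      have hxK : x ∈ Icc 0 r₀ ×ˢ Icc z₁ z₂ :=
        ⟨⟨hr1.le, hr.2⟩, by linarith [hz.1], by linarith [hz.2]⟩
      obtain ⟨-, -, hOM3⟩ := hOM δ hδ
      obtain ⟨-, -, o1, o2, o3⟩ := hOM3 x.1 hr1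
      have hL0 : 0 ≤ LL (ww p m κ U x) := hPP.2.2.2.2.1 _ (ww_nonneg hκ x)
      have hLΛ : LL (ww p m κ U x) ≤ C1 * ℓ ^ 2 := by
        rw [hww, hC1, hℓ]
        exact LL_bound hPP hε hM1 hk hk1 (rho_nonneg U x) (hMK x hxK)
      constructor
      · positivity
      · rw [indicator_of_mem hxK]
        by_cases hS : x.1 ∈ Icc (1 / N) (2 / N)
        · have hxS : x ∈ Icc (1 / N) (2 / N) ×ˢ Icc z₁ z₂ := ⟨hS, hxK.2⟩
          rw [indicator_of_mem hxS]
          have hT : x.1 ∉ Icc (r₀ / 2) r₀ := fun h => by linarith [h.1, hS.2]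
          have h3 := hgd x.1
          rw [indicator_of_mem hS, indicator_of_notMem hT] at h3
          rw [hD]
          refine point (a := X * N) (b := 0) (σ := σ) hr1 hN hδ hr0 hX hA o2.le
            (o3.trans ?_) (o3.trans ?_) hL0 hLΛ (hg0 _) (hg1 _) (hη0 _) (hη1 _) (hηB _) h3
            le_rfl hA.le ?_ (Or.inr ⟨rfl, hS.1, hS.2, ?_⟩) _ ?_
          · have := tt_le_one δ x.1
            linarith
          · have : tt δ x.1 ≤ x.1 / δ := min_le_left _ _
            linarith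
          · rw [zero_div]
            positivity
          · exact (hδσ x hxK (by linarith [hS.2])).le
          · rw [if_neg (by positivity)]
        · have hxS : x ∉ Icc (1 / N) (2 / N) ×ˢ Icc z₁ z₂ := fun h => hS h.1
          rw [indicator_of_notMem hxS]
          have h3 := hgd x.1
          rw [indicator_of_notMem hS] at h3
          rw [hD]
          refine point (a := 0) (b := (Icc (r₀ / 2) r₀).indicator (fun _ => A) x.1) (σ := σ)
            hr1 hN hδ hr0 hX hA o2.le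
            (o3.trans ?_) (o3.trans ?_) hL0 hLΛ (hg0 _) (hg1 _) (hη0 _) (hη1 _) (hηB _) h3
            ?_ ?_ ?_ (Or.inl rfl) _ ?_
          · have := tt_le_one δ x.1
            linarith
          · have : tt δ x.1 ≤ x.1 / δ := min_le_left _ _
            linarith
          · exact indicator_nonneg (fun _ _ => hA.le) _
          · exact indicator_le_self' (fun _ _ => hA.le) _
          · by_cases hT : x.1 ∈ Icc (r₀ / 2) r₀
            · rw [indicator_of_mem hT, div_le_div_iff₀ hr1 hr0]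
              have := hT.1
              nlinarith
            · rw [indicator_of_notMem hT, zero_div]
              positivity
          · rw [if_pos rfl]
    refine (integral_mono_of_nonneg (Eventually.of_forall fun x => (hpt x).1) (hI1.add hI2)
      (Eventually.of_forall fun x => (hpt x).2)).trans ?_
    have hint : ∫ x : ℝ × ℝ, ((Icc 0 r₀ ×ˢ Icc z₁ z₂).indicator
        (fun _ : ℝ × ℝ => 5 * (C1 * ℓ ^ 2) * D) x +
        (Icc (1 / N) (2 / N) ×ˢ Icc z₁ z₂).indicator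
          (fun _ : ℝ × ℝ => 10 * N / δ * σ * (2 * X ^ 2 + X)) x) =
        (r₀ - 0) * (z₂ - z₁) * (5 * (C1 * ℓ ^ 2) * D) +
        (2 / N - 1 / N) * (z₂ - z₁) * (10 * N / δ * σ * (2 * X ^ 2 + X)) := by
      rw [integral_add hI1 hI2, integral_indicator_const _ hK.measurableSet,
        integral_indicator_const _ hK1.measurableSet, vol_box hr0.le hz12.le,
        vol_box hN12.le hz12.le]
      rfl
    refine (le_of_eq hint).trans ?_
    have e1 : (2 / N - 1 / N) * (z₂ - z₁) * (10 * N / δ * σ * (2 * X ^ 2 + X)) =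
        z₂ - z₁ := by
      rw [hσdef]
      have : 0 < 2 * X ^ 2 + X := by positivity
      field_simp
      ring
    rw [e1]
    apply le_of_eq
    ring
  -- the left hand side
  have hSo : IsOpen ((Ioo 0 (r₀ / 2) ×ˢ Ioo z₁' z₂') ∩ {x | k < rho U x}) := by
    have hO : IsOpen (Ioo 0 (r₀ / 2) ×ˢ Ioo z₁' z₂') := isOpen_Ioo.prod isOpen_Ioo
    refine ContinuousOn.isOpen_inter_preimage (hrc.mono ?_) hO isOpen_Ioi
    rintro x ⟨⟨a1, a2⟩, a3, a4⟩
    exact hKP ⟨⟨a1.le, by linarith⟩, by linarith, by linarith⟩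
  have hSG : (Ioo 0 (r₀ / 2) ×ˢ Ioo z₁' z₂') ∩ {x | k < rho U x} ⊆ Good P U := by
    rintro x ⟨⟨⟨a1, a2⟩, a3, a4⟩, a5⟩
    exact ⟨hKP ⟨⟨a1.le, by linarith⟩, by linarith, by linarith⟩, a1,
      (hk.trans a5).ne'⟩
  calc ∫⁻ x in (Ioo 0 (r₀ / 2) ×ˢ Ioo z₁' z₂') ∩ {x | k < rho U x},
        ENNReal.ofReal (h1 U x ^ 2)
      ≤ ∫⁻ x in (Ioo 0 (r₀ / 2) ×ˢ Ioo z₁' z₂') ∩ {x | k < rho U x},
        ENNReal.ofReal Ch * ENNReal.ofReal ((g x.1 * η x.2) ^ 2 * om δ x.1 *
          Psi (ww p m κ U x) * (t1 U x ^ 2 + t2 U x ^ 2 + (sn U x / x.1) ^ 2)) := by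
        refine setLIntegral_mono' hSo.measurableSet fun x hx => ?_
        rw [← ENNReal.ofReal_mul hCh.le]
        apply ENNReal.ofReal_le_ofReal
        have hxG := hSG hx
        obtain ⟨⟨⟨a1, a2⟩, a3, a4⟩, a5⟩ := hx
        have hxK : x ∈ Icc 0 r₀ ×ˢ Icc z₁ z₂ := ⟨⟨a1.le, by linarith⟩, by linarith, by linarith⟩
        have hxδ : δ ≤ x.1 := by
          by_contra h
          have := hδk x hxK (not_le.1 h)
          exact absurd a5 (not_lt.2 this.le)
        have e1 : g x.1 = 1 := hgone _ (by linarith) a2.le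
        have e2 : η x.2 = 1 := hηone _ ⟨a3.le, a4.le⟩
        have e3 : om δ x.1 = 1 := om_eq_one hδ hxδ
        have hw1 : 1 ≤ ww p m κ U x := by
          rw [hww, one_le_div (Real.rpow_pos_of_pos hk ε)]
          exact Real.rpow_le_rpow hk.le (le_of_lt a5) hε.le
        have e4 : 1 ≤ Psi (ww p m κ U x) := by
          obtain ⟨-, -, -, -, -, -, hlast⟩ := hPP
          exact (hlast _ (lt_of_lt_of_le one_pos hw1)).2.2.2.2.2.2.2.2.2 hw1
        have e5 := hh x hxG
        have e6 : 0 ≤ t1 U x ^ 2 + t2 U x ^ 2 + (sn U x / x.1) ^ 2 := by positivity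
        rw [e1, e2, e3]
        have e7 : t1 U x ^ 2 + t2 U x ^ 2 + (sn U x / x.1) ^ 2 ≤
            (1 * 1) ^ 2 * 1 * Psi (ww p m κ U x) *
              (t1 U x ^ 2 + t2 U x ^ 2 + (sn U x / x.1) ^ 2) := by
          nlinarith
        have e8 := mul_le_mul_of_nonneg_left e7 hCh.le
        have e9 := sq_nonneg (h2 U x)
        linarith
    _ = ENNReal.ofReal Ch * ∫⁻ x in (Ioo 0 (r₀ / 2) ×ˢ Ioo z₁' z₂') ∩ {x | k < rho U x},
        ENNReal.ofReal ((g x.1 * η x.2) ^ 2 * om δ x.1 *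
          Psi (ww p m κ U x) * (t1 U x ^ 2 + t2 U x ^ 2 + (sn U x / x.1) ^ 2)) :=
        lintegral_const_mul' _ _ ENNReal.ofReal_ne_top
    _ ≤ ENNReal.ofReal Ch * ENNReal.ofReal (Ci * ((z₂ - z₁) *
          (5 * r₀ * C1 * D * ℓ ^ 2 + 1))) := by
        refine mul_le_mul_right ((lintegral_mono_set hSG).trans (main.trans ?_)) _
        exact ENNReal.ofReal_le_ofReal (mul_le_mul_of_nonneg_left hR hCi.le)
    _ ≤ ENNReal.ofReal (Ch * (Ci * ((z₂ - z₁) * (5 * r₀ * C1 * D + 1))) *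
          (1 + Real.log (1 / k)) ^ 2) := by
        rw [← ENNReal.ofReal_mul hCh.le]
        apply ENNReal.ofReal_le_ofReal
        rw [← hℓ]
        have hin : 5 * r₀ * C1 * D * ℓ ^ 2 + 1 ≤ (5 * r₀ * C1 * D + 1) * ℓ ^ 2 := by
          have : 1 ≤ ℓ ^ 2 := one_le_pow₀ hℓ1
          linarith
        calc Ch * (Ci * ((z₂ - z₁) * (5 * r₀ * C1 * D * ℓ ^ 2 + 1)))
            ≤ Ch * (Ci * ((z₂ - z₁) * ((5 * r₀ * C1 * D + 1) * ℓ ^ 2))) :=
              mul_le_mul_of_nonneg_left (mul_le_mul_of_nonneg_left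
                (mul_le_mul_of_nonneg_left hin hz0.le) hCi.le) hCh.le
          _ = _ := by ring

end Pool.Agent.AXS
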