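import Pool.Agent.AXS.Targets

/-!
# The strong comparison principle for axially symmetric functions
-/

set_option autoImplicit false

open Set MeasureTheory Filter Topology
open scoped RealInnerProductSpace
open Pool.Agent.SCP (E PHarm hs Eqn Sub)

namespace Pool.Agent.AXS

theorem continuous_prof {n : ℕ} (a e : E n) : Continuous (prof a e) := by
  unfold prof
  fun_prop

theorem continuous_axm {n : ℕ} (a f e : E n) : Continuous (axm a f e) := by
  unfold axm
  fun_prop

theorem prof_nonneg {n : ℕ} (a e x : E n) : 0 ≤ (prof a e x).1 := norm_nonneg _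

/-- a unit vector orthogonal to the axis -/
theorem exists_frame {n : ℕ} (hn : 2 ≤ n) {e : E n} (he : ‖e‖ = 1) : ∃ f : E n, Frame f e := by
  have he0 : e ≠ 0 := by
    intro h
    rw [h, norm_zero] at he
    exact zero_ne_one he
  obtain ⟨k, rfl⟩ : ∃ k, n = k + 1 := ⟨n - 1, by omega⟩
  haveI : Fact (Module.finrank ℝ (E (k + 1)) = k + 1) := ⟨finrank_euclideanSpace_fin⟩
  have h1 : Module.finrank ℝ (ℝ ∙ e)ᗮ = k := Submodule.finrank_orthogonal_span_singleton he0
  have h2 : Nontrivial (ℝ ∙ e)ᗮ := by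
    apply Module.nontrivial_of_finrank_pos (R := ℝ)
    rw [h1]
    omega
  obtain ⟨g, hg⟩ := exists_ne (0 : (ℝ ∙ e)ᗮ)
  have hg' : (g : E (k + 1)) ≠ 0 := fun h => hg (Subtype.ext h)
  refine ⟨‖(g : E (k + 1))‖⁻¹ • (g : E (k + 1)), ?_, he, ?_⟩
  · rw [norm_smul, norm_inv, norm_norm, inv_mul_cancel₀ (norm_ne_zero_iff.mpr hg')]
  · have h3 : ⟪e, (g : E (k + 1))⟫ = 0 := Submodule.mem_orthogonal_singleton_iff_inner_right.mp g.2
    rw [inner_smul_left, real_inner_comm, h3, mul_zero]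

/-- the case `u ≤ v` -/
theorem main_le (hG : T_GOOD) (hL : T_LINES) (hA : T_AXIS) (hN : T_NBHDP) (hRG : T_REDG)
    (hRP : T_REDP) (hCo : T_CONNS) (hCr : T_CRIT) (hS : T_STEP) {n : ℕ} {p : ℝ} {Ω : Set (E n)}
    {u v : E n → ℝ} {a e : E n} (hn : 3 ≤ n) (hp : 1 < p) (hΩ : IsOpen Ω)
    (hc : IsPreconnected Ω) (hu : PHarm p Ω u) (hv : PHarm p Ω v)
    (hreg : ∀ x ∈ Ω, gradient u x ≠ 0 → ContDiffAt ℝ 3 u x) (he : ‖e‖ = 1) (hinv : Inv a e Ω u)
    (huv : ∀ x ∈ Ω, u x ≤ v x) (hex : ∃ x ∈ Ω, u x = v x) : ∀ x ∈ Ω, u x = v x := by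
  obtain ⟨f, hf⟩ := exists_frame (by omega : 2 ≤ n) he
  set P := axm a f e ⁻¹' Ω with hP
  set U := u ∘ axm a f e with hU
  have hplan : Plan p ((n : ℝ) - 2) P U := hRP n p Ω u a e f hn hp hΩ hu hreg hf hinv
  have hlines : LinesProp P U := hL _ _ _ _ hplan
  have haxis : AxisProp P U := hA _ _ _ _ hplan
  obtain ⟨g1, g2, g3, g4⟩ := hRG n Ω u a e f hn hΩ hu.1 hf hinv
  obtain ⟨-, hrho, -⟩ := hG _ _ _ _ hplan
  have hcritiff : ∀ x ∈ Ω, gradient u x = 0 ↔ rho U (prof a e x) = 0 := by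
    intro x hx
    rw [← g4 x hx]
    simp
  by_cases hcr : ∃ x ∈ Ω, ∀ᶠ x' in 𝓝 x, gradient u x' = 0
  · -- `u` is constant
    have hz := hCr n Ω u a e f hn hΩ hc hu.1 hf hinv hlines hcr
    have hconst : ∀ x ∈ Ω, ∀ y ∈ Ω, u x = u y := by
      intro x hx y hy
      apply hΩ.is_const_of_fderiv_eq_zero hc (hu.1.differentiableOn (by norm_num)) _ hx hy
      intro z hz'
      have h1 := hz z hz'
      have h2 := toDual_gradient (f := u) (x := z)
      rw [h1, map_zero] at h2
      exact h2.symm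
    refine Pool.Agent.SCP.GLOBAL_.openClosed hΩ hu.1.continuousOn hv.1.continuousOn hc
      subset_rfl ?_ hex
    intro x hx hxe
    have h1 : ∀ᶠ y in 𝓝 x, v y = u x := by
      apply Pool.Agent.SCP.smp_ n p Ω v (u x) x (by omega) hp hΩ hv hx _ hxe.symm
      filter_upwards [hΩ.mem_nhds hx] with y hy
      rw [hconst x hx y hy]
      exact huv y hy
    filter_upwards [h1, hΩ.mem_nhds hx] with y hy hyΩ
    rw [hy, hconst y hyΩ x hx]
  · push Not at hcr
    refine Pool.Agent.SCP.GLOBAL_.openClosed hΩ hu.1.continuousOn hv.1.continuousOn hc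
      subset_rfl ?_ hex
    intro y hy hye
    -- no open set of critical points in the half plane
    have hno : ∀ x ∈ P, 0 < x.1 → ¬ ∀ᶠ x' in 𝓝 x, rho U x' = 0 := by
      intro x hx hx0 hcon
      have hxΩ : axm a f e x ∈ Ω := hx
      apply hcr (axm a f e x) hxΩ
      have hpx : prof a e (axm a f e x) = x := by
        unfold prof axm
        have e1 : a + x.1 • f + x.2 • e - a = x.1 • f + x.2 • e := by abel
        have e2 : ⟪x.1 • f + x.2 • e, e⟫ = x.2 := by
          rw [inner_add_left, inner_smul_left, inner_smul_left, hf.orth,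
            real_inner_self_eq_norm_sq, hf.norm_e]
          simp
        rw [e1, e2]
        have e3 : x.1 • f + x.2 • e - x.2 • e = x.1 • f := by abel
        rw [e3, norm_smul, hf.norm_f, mul_one, Real.norm_eq_abs, abs_of_pos hx0]
      have h1 : Tendsto (prof a e) (𝓝 (axm a f e x)) (𝓝 x) := by
        have := (continuous_prof a e).tendsto (axm a f e x)
        rwa [hpx] at this
      filter_upwards [h1.eventually hcon, hΩ.mem_nhds hxΩ] with z hz hzΩ
      exact not_not.mpr ((hcritiff z hzΩ).mpr hz)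
    have hyP : prof a e y ∈ P := (g2 y).mp hy
    obtain ⟨V, T, hVo, hVb, hyV, hTc, hTp, hT, hVP, hcl⟩ :=
      hN P U (prof a e y) hplan.isOpen hrho hlines haxis hno hyP (prof_nonneg a e y)
    have hT0 : ∀ x ∈ T, 0 ≤ x.1 := fun x hx => (hT x hx).1
    obtain ⟨hc1, hc2⟩ := hCo n a e T hn he hT0
    have hSΩ : prof a e ⁻¹' T ⊆ Ω := fun x hx => (g2 x).mpr (hT _ hx).2.1
    have hVbd : Bornology.IsBounded (prof a e ⁻¹' V) := by
      obtain ⟨C, hC⟩ := hVb.exists_norm_le
      apply (Metric.isBounded_closedBall (x := a) (r := 2 * C)).subset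
      intro x hx
      have h1 := hC _ hx
      rw [Metric.mem_closedBall, dist_eq_norm]
      have h2 : ‖x - a - ⟪x - a, e⟫ • e‖ ≤ C := by
        have := (norm_fst_le (prof a e x)).trans h1
        rwa [Real.norm_eq_abs, abs_of_nonneg (prof_nonneg a e x)] at this
      have h3 : ‖⟪x - a, e⟫ • e‖ ≤ C := by
        rw [norm_smul, he, mul_one]
        exact (norm_snd_le (prof a e x)).trans h1
      calc ‖x - a‖ = ‖(x - a - ⟪x - a, e⟫ • e) + ⟪x - a, e⟫ • e‖ := by rw [sub_add_cancel]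
        _ ≤ ‖x - a - ⟪x - a, e⟫ • e‖ + ‖⟪x - a, e⟫ • e‖ := norm_add_le _ _
        _ ≤ 2 * C := by linarith
    refine hS n p Ω (prof a e ⁻¹' V) (prof a e ⁻¹' T) u v y (by omega) hp hΩ hu hv ?_ huv
      (hVo.preimage (continuous_prof a e)) ?_ hyV (hc2 hTc) (hc1 hTp) hSΩ ?_ hVbd ?_ hye
    · intro x hx hgx
      exact (hreg x hx hgx).of_le (by norm_num)
    · intro x hx
      exact (g2 x).mpr (hVP _ hx (prof_nonneg a e x))
    · intro x hx hgx
      exact (hT _ hx).2.2 ((hcritiff x (hSΩ hx)).mp hgx)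
    · intro x hx
      have h1 : prof a e x ∈ closure V := by
        have := (continuous_prof a e).closure_preimage_subset V hx
        exact this
      exact hcl _ h1 (prof_nonneg a e x)

theorem p_MAIN (hG : T_GOOD) (hL : T_LINES) (hA : T_AXIS) (hN : T_NBHDP) (hRG : T_REDG)
    (hRP : T_REDP) (hCo : T_CONNS) (hCr : T_CRIT) (hS : T_STEP) : T_MAIN := by
  intro n p Ω u v a e hn hp hΩ hc hu hv hreg he hinv huv hex
  rcases huv with huv | huv
  · exact main_le hG hL hA hN hRG hRP hCo hCr hS hn hp hΩ hc hu hv hreg he hinv huv hex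
  · have hgn : ∀ x, gradient (fun x => - u x) x = - gradient u x :=
      (Pool.Agent.SCP.neg n p 0 Ω u).2.2
    have h1 := main_le hG hL hA hN hRG hRP hCo hCr hS (u := fun x => - u x)
      (v := fun x => - v x) (a := a) hn hp hΩ hc ((Pool.Agent.SCP.neg n p 0 Ω u).1 hu)
      ((Pool.Agent.SCP.neg n p 0 Ω v).1 hv) ?_ he ?_ ?_ ?_
    · intro x hx
      have := h1 x hx
      simpa using this
    · intro x hx hgx
      rw [hgn, neg_ne_zero] at hgx
      exact (hreg x hx hgx).neg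
    · intro x hx y hxy
      obtain ⟨h2, h3⟩ := hinv x hx y hxy
      exact ⟨h2, by simp only [h3]⟩
    · intro x hx
      exact neg_le_neg (huv x hx)
    · obtain ⟨x, hx, hxe⟩ := hex
      exact ⟨x, hx, by rw [hxe]⟩

end Pool.Agent.AXS
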