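import Pool.Agent.SCP.Statement

/-!
# Definitions of the statement for axially symmetric functions
-/

set_option autoImplicit false

open Pool.Agent.SCP.Statement

namespace Pool.Agent.AXS.Statement

variable {n : ℕ}

/-- `x` and `y` have the same height and the same distance from `a`, that is, they lie on the same
orbit of the rotations about the line through `a` with the direction `e` (here `‖e‖ = 1`). -/
def SameOrbit (a e x y : R n) : Prop :=
  inner ℝ (x - a) e = inner ℝ (y - a) e ∧ ‖x - a‖ = ‖y - a‖

/-- `Ω` and the restriction of `u` to `Ω` are invariant under the rotations about the line through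
`a` with the direction `e`. -/
def AxiallySymmetric (a e : R n) (Ω : Set (R n)) (u : R n → ℝ) : Prop :=
  ∀ x ∈ Ω, ∀ y, SameOrbit a e x y → y ∈ Ω ∧ u y = u x

/-- `u` is `C³` off its critical points. -/
def C3OffCritical (Ω : Set (R n)) (u : R n → ℝ) : Prop :=
  ∀ x ∈ Ω, grad u x ≠ 0 → ContDiffAt ℝ 3 u x

end Pool.Agent.AXS.Statement
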