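import Pool.Agent.AXS.Base
import Pool.Agent.AXS.Statement
import Pool.Agent.AXS.MAIN

/-!
# From `prof` to orbits
-/

set_option autoImplicit false

open Set MeasureTheory Filter Topology
open scoped RealInnerProductSpace
open Pool.Agent.SCP.Statement Pool.Agent.AXS.Statement
open Pool.Agent.SCP (E PHarm hs Eqn Sub)

namespace Pool.Agent.AXS

theorem norm_sq_prof {n : ℕ} {a e : E n} (he : ‖e‖ = 1) (x : E n) :
    ‖x - a‖ ^ 2 = (prof a e x).1 ^ 2 + (prof a e x).2 ^ 2 := by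
  unfold prof
  dsimp only
  have h : ‖x - a - ⟪x - a, e⟫ • e‖ ^ 2 = ‖x - a‖ ^ 2 - ⟪x - a, e⟫ ^ 2 := by
    rw [norm_sub_sq_real, inner_smul_right, norm_smul, he, mul_one, Real.norm_eq_abs, sq_abs]
    ring
  rw [h]
  ring

theorem inv_of_symm {n : ℕ} {a e : R n} {Ω : Set (R n)} {u : R n → ℝ} (he : ‖e‖ = 1)
    (h : AxiallySymmetric a e Ω u) : Inv a e Ω u := by
  intro x hx y hxy
  apply h x hx y
  have h1 : ⟪y - a, e⟫ = ⟪x - a, e⟫ := congrArg Prod.snd hxy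
  have h2 : ‖x - a‖ ^ 2 = ‖y - a‖ ^ 2 := by
    rw [norm_sq_prof he, norm_sq_prof he, hxy]
  have h3 := congrArg Real.sqrt h2
  rw [Real.sqrt_sq (norm_nonneg _), Real.sqrt_sq (norm_nonneg _)] at h3
  exact ⟨h1.symm, h3⟩

/-- the strong comparison principle, with the main theorem as a hypothesis -/
theorem final_of (hM : T_MAIN) (n : ℕ) (hn : 3 ≤ n) (p : ℝ) (hp : 1 < p) (Ω : Set (R n))
    (hΩ : IsOpen Ω) (hc : IsConnected Ω) (u v : R n → ℝ) (hu : PHarmonic p Ω u)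
    (hv : PHarmonic p Ω v) (huv : (∀ x ∈ Ω, u x ≤ v x) ∨ (∀ x ∈ Ω, v x ≤ u x))
    (hx : ∃ x₀ ∈ Ω, u x₀ = v x₀) (a e : R n) (he : ‖e‖ = 1)
    (hsym : AxiallySymmetric a e Ω u) (hreg : C3OffCritical Ω u) : ∀ x ∈ Ω, u x = v x :=
  hM n p Ω u v a e hn hp hΩ hc.isPreconnected hu hv hreg he (inv_of_symm he hsym) huv hx

end Pool.Agent.AXS
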