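import Pool.Agent.AXS.Base

/-!
# The calculus at noncritical points
-/

set_option autoImplicit false

open Set Filter Topology

namespace Pool.Agent.AXS

namespace GOOD_

variable {f : ℝ × ℝ → ℝ} {x : ℝ × ℝ}

theorem cdv {n : ℕ∞} (v : ℝ × ℝ) (h : ContDiffAt ℝ ((n : WithTop ℕ∞) + 1) f x) :
    ContDiffAt ℝ n (fun y => fderiv ℝ f y v) x :=
  (h.fderiv_right le_rfl).clm_apply contDiffAt_const

theorem cd1 {n : ℕ∞} (h : ContDiffAt ℝ ((n : WithTop ℕ∞) + 1) f x) : ContDiffAt ℝ n (d1 f) x :=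
  cdv (1, 0) h

theorem cd2 {n : ℕ∞} (h : ContDiffAt ℝ ((n : WithTop ℕ∞) + 1) f x) : ContDiffAt ℝ n (d2 f) x :=
  cdv (0, 1) h

/-- symmetry of the second derivative -/
theorem symm (h : ContDiffAt ℝ 2 f x) : d1 (d2 f) x = d2 (d1 f) x := by
  have hd : DifferentiableAt ℝ (fderiv ℝ f) x :=
    (h.fderiv_right (m := 1) (by norm_num)).differentiableAt (by norm_num)
  have key : ∀ v w : ℝ × ℝ, fderiv ℝ (fun y => fderiv ℝ f y v) x w =
      (fderiv ℝ (fderiv ℝ f) x w) v := by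
    intro v w
    have h1 : HasFDerivAt (fun y => fderiv ℝ f y v)
        ((ContinuousLinearMap.apply ℝ ℝ v).comp (fderiv ℝ (fderiv ℝ f) x)) x :=
      (ContinuousLinearMap.apply ℝ ℝ v).hasFDerivAt.comp x hd.hasFDerivAt
    rw [h1.fderiv]
    rfl
  have hs : IsSymmSndFDerivAt ℝ f x := h.isSymmSndFDerivAt (by simp)
  show fderiv ℝ (fun y => fderiv ℝ f y (0, 1)) x (1, 0) =
    fderiv ℝ (fun y => fderiv ℝ f y (1, 0)) x (0, 1)
  rw [key, key]
  exact hs.eq (1, 0) (0, 1)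

theorem line (v : ℝ × ℝ) (h : DifferentiableAt ℝ f x) :
    HasDerivAt (fun t : ℝ => f (x + t • v)) (fderiv ℝ f x v) 0 := by
  have h1 : HasDerivAt (fun t : ℝ => x + t • v) v 0 := by
    have := ((hasDerivAt_id (0 : ℝ)).smul_const v).const_add x
    simpa using this
  have h2 : HasFDerivAt f (fderiv ℝ f x) (x + (0 : ℝ) • v) := by
    rw [zero_smul, add_zero]; exact h.hasFDerivAt
  exact h2.comp_hasDerivAt 0 h1

theorem uniq (v : ℝ × ℝ) (h : DifferentiableAt ℝ f x) {c : ℝ}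
    (hc : HasDerivAt (fun t : ℝ => f (x + t • v)) c 0) : fderiv ℝ f x v = c :=
  (line v h).unique hc

/-- one variable: derivative of the square of the gradient -/
theorem rho1 {a b : ℝ → ℝ} {a' b' : ℝ} (ha : HasDerivAt a a' 0) (hb : HasDerivAt b b' 0) :
    HasDerivAt (fun t => a t ^ 2 + b t ^ 2) (2 * (a 0 * a' + b 0 * b')) 0 := by
  refine ((ha.pow 2).add (hb.pow 2)).congr_deriv ?_
  norm_num
  ring

theorem sn1 {a b : ℝ → ℝ} {a' b' : ℝ} (ha : HasDerivAt a a' 0) (hb : HasDerivAt b b' 0)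
    (h : 0 < a 0 ^ 2 + b 0 ^ 2) :
    HasDerivAt (fun t => a t / √(a t ^ 2 + b t ^ 2))
      (b 0 / √(a 0 ^ 2 + b 0 ^ 2) * ((b 0 * a' - a 0 * b') / (a 0 ^ 2 + b 0 ^ 2))) 0 := by
  have hs := (rho1 ha hb).sqrt h.ne'
  have hR : 0 < √(a 0 ^ 2 + b 0 ^ 2) := Real.sqrt_pos.2 h
  have hR2 : √(a 0 ^ 2 + b 0 ^ 2) ^ 2 = a 0 ^ 2 + b 0 ^ 2 := Real.sq_sqrt h.le
  refine (ha.div hs hR.ne').congr_deriv ?_
  rw [← hR2] at h
  have e : a 0 ^ 2 + b 0 ^ 2 = √(a 0 ^ 2 + b 0 ^ 2) ^ 2 := hR2.symm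
  generalize √(a 0 ^ 2 + b 0 ^ 2) = R at *
  rw [e]
  have hR0 : R ≠ 0 := hR.ne'
  field_simp
  linear_combination (-a') * e

theorem cs1 {a b : ℝ → ℝ} {a' b' : ℝ} (ha : HasDerivAt a a' 0) (hb : HasDerivAt b b' 0)
    (h : 0 < a 0 ^ 2 + b 0 ^ 2) :
    HasDerivAt (fun t => b t / √(a t ^ 2 + b t ^ 2))
      (-(a 0 / √(a 0 ^ 2 + b 0 ^ 2) * ((b 0 * a' - a 0 * b') / (a 0 ^ 2 + b 0 ^ 2)))) 0 := by
  have h' : 0 < b 0 ^ 2 + a 0 ^ 2 := by linarith
  have := sn1 hb ha h'
  have e : ∀ t, b t ^ 2 + a t ^ 2 = a t ^ 2 + b t ^ 2 := fun t => add_comm _ _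
  simp only [e] at this
  refine this.congr_deriv ?_
  ring

end GOOD_

open GOOD_

/-- the calculus at noncritical points -/
theorem p_GOOD : T_GOOD := by
  intro p m P U hU
  have hcd1 : ContinuousOn (d1 U) P :=
    (hU.c1.continuousOn_fderiv_of_isOpen hU.isOpen le_rfl).clm_apply continuousOn_const
  have hcd2 : ContinuousOn (d2 U) P :=
    (hU.c1.continuousOn_fderiv_of_isOpen hU.isOpen le_rfl).clm_apply continuousOn_const
  have hrc : ContinuousOn (rho U) P := (hcd1.pow 2).add (hcd2.pow 2)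
  have hopen : IsOpen (Good P U) := by
    have e : Good P U = (P ∩ rho U ⁻¹' {0}ᶜ) ∩ {x : ℝ × ℝ | 0 < x.1} := by
      ext x
      constructor
      · rintro ⟨h1, h2, h3⟩
        exact ⟨⟨h1, h3⟩, h2⟩
      · rintro ⟨⟨h1, h3⟩, h2⟩
        exact ⟨h1, h2, h3⟩
    rw [e]
    exact (hrc.isOpen_inter_preimage hU.isOpen isOpen_compl_singleton).inter
      (isOpen_lt continuous_const continuous_fst)
  -- smoothness
  have c3 : ∀ x ∈ Good P U, ContDiffAt ℝ 3 U x := hU.c3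
  have a2 : ∀ x ∈ Good P U, ContDiffAt ℝ 2 (d1 U) x := fun x hx =>
    cd1 (n := 2) ((c3 x hx).of_le (by norm_num))
  have b2 : ∀ x ∈ Good P U, ContDiffAt ℝ 2 (d2 U) x := fun x hx =>
    cd2 (n := 2) ((c3 x hx).of_le (by norm_num))
  have a11 : ∀ x ∈ Good P U, ContDiffAt ℝ 1 (d1 (d1 U)) x := fun x hx =>
    cd1 (n := 1) ((a2 x hx).of_le (by norm_num))
  have a12 : ∀ x ∈ Good P U, ContDiffAt ℝ 1 (d1 (d2 U)) x := fun x hx =>
    cd1 (n := 1) ((b2 x hx).of_le (by norm_num))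
  have a21 : ∀ x ∈ Good P U, ContDiffAt ℝ 1 (d2 (d1 U)) x := fun x hx =>
    cd2 (n := 1) ((a2 x hx).of_le (by norm_num))
  have a22 : ∀ x ∈ Good P U, ContDiffAt ℝ 1 (d2 (d2 U)) x := fun x hx =>
    cd2 (n := 1) ((b2 x hx).of_le (by norm_num))
  have a1 : ∀ x ∈ Good P U, ContDiffAt ℝ 1 (d1 U) x := fun x hx =>
    (a2 x hx).of_le (by norm_num)
  have b1 : ∀ x ∈ Good P U, ContDiffAt ℝ 1 (d2 U) x := fun x hx =>
    (b2 x hx).of_le (by norm_num)
  have r1 : ∀ x ∈ Good P U, ContDiffAt ℝ 1 (rho U) x := fun x hx =>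
    ((a1 x hx).pow 2).add ((b1 x hx).pow 2)
  have rne : ∀ x ∈ Good P U, rho U x ≠ 0 := fun x hx => hx.2.2
  have rpos : ∀ x ∈ Good P U, 0 < rho U x := fun x hx => rho_pos hx
  have sq1 : ∀ x ∈ Good P U, ContDiffAt ℝ 1 (fun y => √(rho U y)) x := fun x hx =>
    (r1 x hx).sqrt (rne x hx)
  have sqne : ∀ x ∈ Good P U, √(rho U x) ≠ 0 := fun x hx => (Real.sqrt_pos.2 (rpos x hx)).ne'
  have sn1' : ∀ x ∈ Good P U, ContDiffAt ℝ 1 (sn U) x := fun x hx =>
    (a1 x hx).div (sq1 x hx) (sqne x hx)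
  have cs1' : ∀ x ∈ Good P U, ContDiffAt ℝ 1 (cs U) x := fun x hx =>
    (b1 x hx).div (sq1 x hx) (sqne x hx)
  have t1' : ∀ x ∈ Good P U, ContDiffAt ℝ 1 (t1 U) x := fun x hx =>
    (((b1 x hx).mul (a11 x hx)).sub ((a1 x hx).mul (a12 x hx))).div (r1 x hx) (rne x hx)
  have t2' : ∀ x ∈ Good P U, ContDiffAt ℝ 1 (t2 U) x := fun x hx =>
    (((b1 x hx).mul (a21 x hx)).sub ((a1 x hx).mul (a22 x hx))).div (r1 x hx) (rne x hx)
  have h1' : ∀ x ∈ Good P U, ContDiffAt ℝ 1 (h1 U) x := fun x hx =>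
    (((a1 x hx).mul (a11 x hx)).add ((b1 x hx).mul (a12 x hx))).div (r1 x hx) (rne x hx)
  have h2' : ∀ x ∈ Good P U, ContDiffAt ℝ 1 (h2 U) x := fun x hx =>
    (((a1 x hx).mul (a21 x hx)).add ((b1 x hx).mul (a22 x hx))).div (r1 x hx) (rne x hx)
  refine ⟨hopen, hrc, fun x hx => (r1 x hx).contDiffWithinAt,
    fun x hx => (sn1' x hx).contDiffWithinAt, fun x hx => (cs1' x hx).contDiffWithinAt,
    fun x hx => (t1' x hx).contDiffWithinAt, fun x hx => (t2' x hx).contDiffWithinAt,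
    fun x hx => (h1' x hx).contDiffWithinAt, fun x hx => (h2' x hx).contDiffWithinAt, ?_⟩
  intro x hx
  have one : (1 : WithTop ℕ∞) ≠ 0 := one_ne_zero
  have da := (a1 x hx).differentiableAt one
  have db := (b1 x hx).differentiableAt one
  have dr := (r1 x hx).differentiableAt one
  have ds := (sn1' x hx).differentiableAt one
  have dc := (cs1' x hx).differentiableAt one
  have hρ := rpos x hx
  have hρ' : 0 < d1 U (x + (0 : ℝ) • (1, 0)) ^ 2 + d2 U (x + (0 : ℝ) • (1, 0)) ^ 2 := by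
    rw [zero_smul, add_zero]; exact hρ
  have hρ'' : 0 < d1 U (x + (0 : ℝ) • (0, 1)) ^ 2 + d2 U (x + (0 : ℝ) • (0, 1)) ^ 2 := by
    rw [zero_smul, add_zero]; exact hρ
  have sy : d1 (d2 U) x = d2 (d1 U) x := symm ((c3 x hx).of_le (by norm_num))
  have sya : d1 (d2 (d1 U)) x = d2 (d1 (d1 U)) x := symm (a2 x hx)
  have syb : d1 (d2 (d2 U)) x = d2 (d1 (d2 U)) x := symm (b2 x hx)
  -- derivatives of rho
  have R1 : d1 (rho U) x = 2 * (d1 U x * d1 (d1 U) x + d2 U x * d1 (d2 U) x) := by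
    have h := uniq (f := rho U) (1, 0) dr (rho1 (line (1, 0) da) (line (1, 0) db))
    rw [zero_smul, add_zero] at h
    exact h
  have R2 : d2 (rho U) x = 2 * (d1 U x * d2 (d1 U) x + d2 U x * d2 (d2 U) x) := by
    have h := uniq (f := rho U) (0, 1) dr (rho1 (line (0, 1) da) (line (0, 1) db))
    rw [zero_smul, add_zero] at h
    exact h
  refine ⟨hρ, sn_sq_add_cs_sq hx, ?_, ?_, ?_, ?_, ?_, ?_, ?_, ?_, ?_⟩
  · rw [R1, h1]; field_simp
  · rw [R2, h2]; field_simp
  · have h := uniq (f := sn U) (1, 0) ds (sn1 (line (1, 0) da) (line (1, 0) db) hρ')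
    rw [zero_smul, add_zero] at h
    exact h
  · have h := uniq (f := sn U) (0, 1) ds (sn1 (line (0, 1) da) (line (0, 1) db) hρ'')
    rw [zero_smul, add_zero] at h
    exact h
  · have h := uniq (f := cs U) (1, 0) dc (cs1 (line (1, 0) da) (line (1, 0) db) hρ')
    rw [zero_smul, add_zero] at h
    exact h
  · have h := uniq (f := cs U) (0, 1) dc (cs1 (line (0, 1) da) (line (0, 1) db) hρ'')
    rw [zero_smul, add_zero] at h
    exact h
  · -- closedness of `d θ`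
    have k1 := line (1, 0) ((a21 x hx).differentiableAt one)
    have k2 := line (1, 0) ((a22 x hx).differentiableAt one)
    have l1 := line (0, 1) ((a11 x hx).differentiableAt one)
    have l2 := line (0, 1) ((a12 x hx).differentiableAt one)
    have A := uniq (f := t2 U) (1, 0) ((t2' x hx).differentiableAt one)
      ((((line (1, 0) db).mul k1).sub ((line (1, 0) da).mul k2)).div (line (1, 0) dr)
        (by rw [zero_smul, add_zero]; exact hρ.ne'))
    have B := uniq (f := t1 U) (0, 1) ((t1' x hx).differentiableAt one)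
      ((((line (0, 1) db).mul l1).sub ((line (0, 1) da).mul l2)).div (line (0, 1) dr)
        (by rw [zero_smul, add_zero]; exact hρ.ne'))
    simp only [zero_smul, add_zero, Pi.mul_apply, Pi.sub_apply] at A B
    change d1 (t2 U) x = ((d1 (d2 U) x * d2 (d1 U) x + d2 U x * d1 (d2 (d1 U)) x -
      (d1 (d1 U) x * d2 (d2 U) x + d1 U x * d1 (d2 (d2 U)) x)) * rho U x -
      (d2 U x * d2 (d1 U) x - d1 U x * d2 (d2 U) x) * d1 (rho U) x) / rho U x ^ 2 at A
    change d2 (t1 U) x = ((d2 (d2 U) x * d1 (d1 U) x + d2 U x * d2 (d1 (d1 U)) x -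
      (d2 (d1 U) x * d1 (d2 U) x + d1 U x * d2 (d1 (d2 U)) x)) * rho U x -
      (d2 U x * d1 (d1 U) x - d1 U x * d1 (d2 U) x) * d2 (rho U) x) / rho U x ^ 2 at B
    rw [A, B, R1, R2, sya, syb, sy]
    congr 1
    have e : rho U x = d1 U x ^ 2 + d2 U x ^ 2 := rfl
    rw [e]
    ring
  all_goals
    have hpde : rho U x * (d1 (d1 U) x + d2 (d2 U) x + m * d1 U x / x.1) +
      (p - 2) * (d1 (d1 U) x * d1 U x ^ 2 + 2 * d1 (d2 U) x * d1 U x * d2 U x +
      d2 (d2 U) x * d2 U x ^ 2) = 0 := hU.pde x hx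
    have hp : p - 1 ≠ 0 := by have := hU.one_lt; intro h; linarith
    have hr : x.1 ≠ 0 := hx.2.1.ne'
    have hR : 0 < √(rho U x) := Real.sqrt_pos.2 hρ
    have hR2 : √(rho U x) ^ 2 = rho U x := Real.sq_sqrt hρ.le
    have e : rho U x = d1 U x ^ 2 + d2 U x ^ 2 := rfl
    have hρ0 : rho U x ≠ 0 := hρ.ne'
  · have hc : cs U x * XX U x = d2 U x * (d1 U x * t1 U x + d2 U x * t2 U x) / rho U x := by
      rw [← hR2]
      unfold XX sn cs
      field_simp
    have hs : sn U x * YY U x = d1 U x * (d2 U x * t1 U x - d1 U x * t2 U x) / rho U x := by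
      rw [← hR2]
      unfold YY sn cs
      field_simp
    have hss : sn U x * sn U x = d1 U x ^ 2 / rho U x := by
      rw [← hR2]
      unfold sn
      field_simp
    have h0 : sn U x * (YY U x + m * sn U x / x.1) / (p - 1) =
        (sn U x * YY U x + m * (sn U x * sn U x) / x.1) / (p - 1) := by ring
    rw [h0, hc, hs, hss]
    unfold h1 t1 t2
    rw [sy] at *
    generalize d1 (d1 U) x = k at *
    generalize d2 (d1 U) x = l at *
    generalize d2 (d2 U) x = s at *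
    generalize rho U x = ρ at *
    generalize d1 U x = a at *
    generalize d2 U x = b at *
    subst e
    field_simp
    field_simp at hpde
    linear_combination a * hpde
  · have hc : sn U x * XX U x = d1 U x * (d1 U x * t1 U x + d2 U x * t2 U x) / rho U x := by
      rw [← hR2]
      unfold XX sn cs
      field_simp
    have hs : cs U x * YY U x = d2 U x * (d2 U x * t1 U x - d1 U x * t2 U x) / rho U x := by
      rw [← hR2]
      unfold YY sn cs
      field_simp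
    have hss : cs U x * sn U x = d1 U x * d2 U x / rho U x := by
      rw [← hR2]
      unfold sn cs
      field_simp
    have h0 : cs U x * (YY U x + m * sn U x / x.1) / (p - 1) =
        (cs U x * YY U x + m * (cs U x * sn U x) / x.1) / (p - 1) := by ring
    rw [h0, hc, hs, hss]
    unfold h2 t1 t2
    rw [sy] at *
    generalize d1 (d1 U) x = k at *
    generalize d2 (d1 U) x = l at *
    generalize d2 (d2 U) x = s at *
    generalize rho U x = ρ at *
    generalize d1 U x = a at *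
    generalize d2 U x = b at *
    subst e
    field_simp
    field_simp at hpde
    linear_combination b * hpde

end Pool.Agent.AXS
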