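import Pool.Agent.AXS.Base

/-!
# The main inequality for test functions which vanish near the critical set
-/

set_option autoImplicit false

open Set MeasureTheory Filter Topology

namespace Pool.Agent.AXS

namespace INEQ_

lemma amgm (a b t F Q L η : ℝ) (hQ : 0 < Q) (hη : 0 < η) (h : F ^ 2 ≤ Q * L) :
    2 * a * b * F * t ≤ η * (a ^ 2 * Q * t ^ 2) + b ^ 2 * L / η := by
  have h1 : 0 ≤ (η * a * Q * t - b * F) ^ 2 := sq_nonneg _
  have h2 : b ^ 2 * F ^ 2 ≤ b ^ 2 * (Q * L) := mul_le_mul_of_nonneg_left h (sq_nonneg _)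
  have h3 : 0 < η * Q := mul_pos hη hQ
  have h5 : (η * (a ^ 2 * Q * t ^ 2) + b ^ 2 * L / η) * (η * Q) =
      η ^ 2 * a ^ 2 * Q ^ 2 * t ^ 2 + b ^ 2 * (Q * L) := by
    field_simp
  have h4 : (2 * a * b * F * t) * (η * Q) ≤
      (η * (a ^ 2 * Q * t ^ 2) + b ^ 2 * L / η) * (η * Q) := by
    rw [h5]
    nlinarith
  exact le_of_mul_le_mul_right h4 h3

lemma pointwise (c0 E y φ a1 a2 t1 t2 s c r F Q L G : ℝ) (hc0 : 0 < c0)
    (hE : 0 < E) (hy : 0 < y) (hr : 0 < r) (hQ : 0 < Q) (hF : 0 < F)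
    (hL1 : F ^ 2 ≤ Q * L) (hL2 : F ≤ L) (hL3 : Q ≤ L) (hG0 : 0 ≤ G) (hG1 : G ≤ 1)
    (hsc : s ^ 2 + c ^ 2 = 1) :
    -(2 * φ * (a1 * (E * F * t2 - (E ^ 2 * F + G * y * E * Q * s ^ 2) / r) -
      a2 * (E * F * t1 + G * y * E * Q * s * c / r))) ≤
      c0 / 2 * (φ ^ 2 * Q * (t1 ^ 2 + t2 ^ 2 + (s / r) ^ 2)) +
      (2 * E ^ 2 / c0 + 2 * (y * E) ^ 2 / c0 + 2 * (E ^ 2 + y * E)) *
        (L * (a1 ^ 2 + a2 ^ 2 + |φ| * |a1| / r)) := by
  have hη : 0 < c0 / 2 := by positivity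
  have hL : 0 < L := lt_of_lt_of_le hF hL2
  have hQQ : Q ^ 2 ≤ Q * L := by
    rw [pow_two]
    exact mul_le_mul_of_nonneg_left hL3 hQ.le
  have e1 := amgm φ (-(E * a1)) t2 F Q L (c0 / 2) hQ hη hL1
  have e2 := amgm φ (E * a2) t1 F Q L (c0 / 2) hQ hη hL1
  have e3 := amgm φ (G * y * E * a2 * c) (s / r) Q Q L (c0 / 2) hQ hη hQQ
  have hs2 : s ^ 2 ≤ 1 := by nlinarith [sq_nonneg c]
  have hc2 : c ^ 2 ≤ 1 := by nlinarith [sq_nonneg s]
  have e4 : (G * y * E * a2 * c) ^ 2 ≤ (y * E) ^ 2 * a2 ^ 2 := by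
    have h1 : G ^ 2 ≤ 1 := by nlinarith
    have h2 : G ^ 2 * c ^ 2 ≤ 1 * 1 := mul_le_mul h1 hc2 (sq_nonneg _) zero_le_one
    calc (G * y * E * a2 * c) ^ 2 = (G ^ 2 * c ^ 2) * ((y * E) ^ 2 * a2 ^ 2) := by ring
      _ ≤ (1 * 1) * ((y * E) ^ 2 * a2 ^ 2) :=
        mul_le_mul_of_nonneg_right h2 (by positivity)
      _ = (y * E) ^ 2 * a2 ^ 2 := by ring
  have e5 : (G * y * E * a2 * c) ^ 2 * L / (c0 / 2) ≤ 2 * (y * E) ^ 2 / c0 * (L * a2 ^ 2) := by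
    calc (G * y * E * a2 * c) ^ 2 * L / (c0 / 2) ≤ ((y * E) ^ 2 * a2 ^ 2) * L / (c0 / 2) := by
          apply div_le_div_of_nonneg_right _ hη.le
          exact mul_le_mul_of_nonneg_right e4 hL.le
      _ = 2 * (y * E) ^ 2 / c0 * (L * a2 ^ 2) := by field_simp
  have e6 : 2 * φ * a1 * ((E ^ 2 * F + G * y * E * Q * s ^ 2) / r) ≤
      2 * (E ^ 2 + y * E) * (L * (|φ| * |a1| / r)) := by
    have h1 : φ * a1 ≤ |φ| * |a1| := by
      rw [← abs_mul]
      exact le_abs_self _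
    have h2 : E ^ 2 * F + G * y * E * Q * s ^ 2 ≤ (E ^ 2 + y * E) * L := by
      have h3 : E ^ 2 * F ≤ E ^ 2 * L := mul_le_mul_of_nonneg_left hL2 (by positivity)
      have h4 : G * s ^ 2 ≤ 1 * 1 := mul_le_mul hG1 hs2 (sq_nonneg _) zero_le_one
      have h5 : (G * s ^ 2) * Q ≤ (1 * 1) * L :=
        mul_le_mul h4 hL3 hQ.le (by norm_num)
      have h6 : (y * E) * ((G * s ^ 2) * Q) ≤ (y * E) * ((1 * 1) * L) :=
        mul_le_mul_of_nonneg_left h5 (by positivity)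
      nlinarith
    have h3 : 0 ≤ E ^ 2 * F + G * y * E * Q * s ^ 2 := by positivity
    have h4 : φ * a1 * (E ^ 2 * F + G * y * E * Q * s ^ 2) ≤
        (|φ| * |a1|) * ((E ^ 2 + y * E) * L) :=
      mul_le_mul h1 h2 h3 (by positivity)
    have h5 : φ * a1 * (E ^ 2 * F + G * y * E * Q * s ^ 2) / r ≤
        (|φ| * |a1|) * ((E ^ 2 + y * E) * L) / r := div_le_div_of_nonneg_right h4 hr.le
    calc 2 * φ * a1 * ((E ^ 2 * F + G * y * E * Q * s ^ 2) / r)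
        = 2 * (φ * a1 * (E ^ 2 * F + G * y * E * Q * s ^ 2) / r) := by ring
      _ ≤ 2 * ((|φ| * |a1|) * ((E ^ 2 + y * E) * L) / r) := by linarith
      _ = 2 * (E ^ 2 + y * E) * (L * (|φ| * |a1| / r)) := by ring
  have k1 : (-(E * a1)) ^ 2 * L / (c0 / 2) = 2 * E ^ 2 / c0 * (L * a1 ^ 2) := by
    field_simp
  have k2 : (E * a2) ^ 2 * L / (c0 / 2) = 2 * E ^ 2 / c0 * (L * a2 ^ 2) := by
    field_simp
  rw [k1] at e1
  rw [k2] at e2
  have n1 : 0 ≤ 2 * (y * E) ^ 2 / c0 * (L * a1 ^ 2) := by positivity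
  have n2 : 0 ≤ (2 * E ^ 2 / c0 + 2 * (y * E) ^ 2 / c0) * (L * (|φ| * |a1| / r)) := by positivity
  have n3 : 0 ≤ 2 * (E ^ 2 + y * E) * (L * (a1 ^ 2 + a2 ^ 2)) := by positivity
  have hl : -(2 * φ * (a1 * (E * F * t2 - (E ^ 2 * F + G * y * E * Q * s ^ 2) / r) -
      a2 * (E * F * t1 + G * y * E * Q * s * c / r))) =
      2 * φ * (-(E * a1)) * F * t2 + 2 * φ * (E * a2) * F * t1 +
      2 * φ * (G * y * E * a2 * c) * Q * (s / r) +
      2 * φ * a1 * ((E ^ 2 * F + G * y * E * Q * s ^ 2) / r) := by ring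
  rw [hl]
  have hr' : c0 / 2 * (φ ^ 2 * Q * (t1 ^ 2 + t2 ^ 2 + (s / r) ^ 2)) +
      (2 * E ^ 2 / c0 + 2 * (y * E) ^ 2 / c0 + 2 * (E ^ 2 + y * E)) *
        (L * (a1 ^ 2 + a2 ^ 2 + |φ| * |a1| / r)) =
      c0 / 2 * (φ ^ 2 * Q * t2 ^ 2) + 2 * E ^ 2 / c0 * (L * a1 ^ 2) +
      (c0 / 2 * (φ ^ 2 * Q * t1 ^ 2) + 2 * E ^ 2 / c0 * (L * a2 ^ 2)) +
      (c0 / 2 * (φ ^ 2 * Q * (s / r) ^ 2) + 2 * (y * E) ^ 2 / c0 * (L * a2 ^ 2)) +
      2 * (E ^ 2 + y * E) * (L * (|φ| * |a1| / r)) + (2 * (y * E) ^ 2 / c0 * (L * a1 ^ 2) +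
      (2 * E ^ 2 / c0 + 2 * (y * E) ^ 2 / c0) * (L * (|φ| * |a1| / r)) +
      2 * (E ^ 2 + y * E) * (L * (a1 ^ 2 + a2 ^ 2))) := by ring
  rw [hr']
  linarith

lemma integ {O K : Set (ℝ × ℝ)} {f : ℝ × ℝ → ℝ} (hO : IsOpen O) (hK : IsCompact K)
    (hKO : K ⊆ O) (hf : ContinuousOn f O) (h0 : ∀ x, x ∉ K → f x = 0) : Integrable f := by
  have hc : Continuous f := by
    rw [continuous_iff_continuousAt]
    intro x
    by_cases hx : x ∈ O
    · exact hf.continuousAt (hO.mem_nhds hx)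
    · have hx' : x ∈ Kᶜ := fun h => hx (hKO h)
      have h1 : f =ᶠ[𝓝 x] fun _ => 0 := by
        filter_upwards [hK.isClosed.isOpen_compl.mem_nhds hx'] with y hy
        exact h0 y hy
      exact continuousAt_const.congr h1.symm
  exact hc.integrable_of_hasCompactSupport (HasCompactSupport.intro hK h0)

lemma continuous_d1 {φ : ℝ × ℝ → ℝ} (h : ContDiff ℝ 1 φ) : Continuous (d1 φ) :=
  (h.continuous_fderiv (by norm_num)).clm_apply continuous_const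

lemma continuous_d2 {φ : ℝ × ℝ → ℝ} (h : ContDiff ℝ 1 φ) : Continuous (d2 φ) :=
  (h.continuous_fderiv (by norm_num)).clm_apply continuous_const

lemma continuousOn_d1 {O : Set (ℝ × ℝ)} {f : ℝ × ℝ → ℝ} (hO : IsOpen O)
    (h : ContDiffOn ℝ 1 f O) : ContinuousOn (d1 f) O :=
  (h.continuousOn_fderiv_of_isOpen hO (by norm_num)).clm_apply continuousOn_const

lemma continuousOn_d2 {O : Set (ℝ × ℝ)} {f : ℝ × ℝ → ℝ} (hO : IsOpen O)
    (h : ContDiffOn ℝ 1 f O) : ContinuousOn (d2 f) O :=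
  (h.continuousOn_fderiv_of_isOpen hO (by norm_num)).clm_apply continuousOn_const

lemma d1_zero {φ : ℝ × ℝ → ℝ} {x : ℝ × ℝ} (hx : x ∉ tsupport φ) : d1 φ x = 0 := by
  have h : fderiv ℝ φ x = 0 := by
    have := (notMem_tsupport_iff_eventuallyEq.mp hx).fderiv_eq (𝕜 := ℝ)
    rw [this]
    simp
  unfold d1
  rw [h]
  rfl

lemma d2_zero {φ : ℝ × ℝ → ℝ} {x : ℝ × ℝ} (hx : x ∉ tsupport φ) : d2 φ x = 0 := by
  have h : fderiv ℝ φ x = 0 := by
    have := (notMem_tsupport_iff_eventuallyEq.mp hx).fderiv_eq (𝕜 := ℝ)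
    rw [this]
    simp
  unfold d2
  rw [h]
  rfl

lemma fderiv_sq {φ : ℝ × ℝ → ℝ} (h : ContDiff ℝ 1 φ) (x v : ℝ × ℝ) :
    fderiv ℝ (fun y => φ y ^ 2) x v = 2 * φ x * fderiv ℝ φ x v := by
  have h1 : HasFDerivAt φ (fderiv ℝ φ x) x :=
    ((h.differentiable (by norm_num)) x).hasFDerivAt
  have h2 := (h1.pow 2).fderiv
  rw [h2]
  simp

end INEQ_

open INEQ_ in
/-- INEQ: the main inequality for test functions which vanish near the critical set -/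
theorem p_INEQ (hdiv : T_DIV) (hg : T_GOOD) (hom : T_OM) (hpp : T_PP) (hdom : T_DOM)
    (hpos : T_POS) : T_INEQ := by
  intro p m hp hm
  obtain ⟨c0, hc0, hq⟩ := hpos p m hp hm
  have hE : 0 < e1 p m := by
    unfold e1
    positivity
  have hy : 0 < y0 p m := by
    unfold y0
    have h1 : 0 < p - 1 := by linarith
    have h2 : 0 < m := by linarith
    positivity
  obtain ⟨-, hPsiC, hLLc, -, hLL0, -, hppw⟩ := hpp
  set C1 : ℝ := 2 * e1 p m ^ 2 / c0 + 2 * (y0 p m * e1 p m) ^ 2 / c0 +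
    2 * (e1 p m ^ 2 + y0 p m * e1 p m) with hC1
  have hC1p : 0 < C1 := by positivity
  refine ⟨2 * C1 / c0, by positivity, ?_⟩
  intro κ δ P U φ hU hκ hδ hφ hφc hφG hlow
  obtain ⟨hGo, hrc, -, hsnC, hcsC, ht1C, ht2C, -, -, hgx⟩ := hg p m P U hU
  obtain ⟨hfA, hfB, hdomx⟩ := hdom p m κ δ P U hU hκ hδ
  obtain ⟨homC, hggC, homx⟩ := hom δ hδ
  set G := Good P U with hGdef
  set K := tsupport φ with hKdef
  have hK : IsCompact K := hφc
  have hφ0 : ∀ x, x ∉ K → φ x = 0 := fun x hx => image_eq_zero_of_notMem_tsupport hx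
  have hfst : ∀ x ∈ G, x.1 ∈ Ioi (0 : ℝ) := fun x hx => hx.2.1
  have hr0 : ∀ x ∈ G, x.1 ≠ 0 := fun x hx => (hfst x hx).ne'
  -- continuity
  have cφ : ContinuousOn φ G := hφ.continuous.continuousOn
  have cd1 : ContinuousOn (d1 φ) G := (continuous_d1 hφ).continuousOn
  have cd2 : ContinuousOn (d2 φ) G := (continuous_d2 hφ).continuousOn
  have cx : ContinuousOn (fun x : ℝ × ℝ => x.1) G := continuousOn_fst
  have cdiv : ∀ f : ℝ × ℝ → ℝ, ContinuousOn f G → ContinuousOn (fun x => f x / x.1) G :=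
    fun f hf => hf.div cx hr0
  have com : ContinuousOn (fun x : ℝ × ℝ => om δ x.1) G :=
    homC.continuousOn.comp cx hfst
  have cww : ContinuousOn (ww p m κ U) G := by
    have h1 : ContinuousOn (rho U) G := hrc.mono fun x hx => hx.1
    have h2 : ContinuousOn (fun x => rho U x ^ (p / (2 * m))) G :=
      h1.rpow_const fun x hx => Or.inl hx.2.2
    exact h2.div_const κ
  have cPsi : ContinuousOn (fun x => Psi (ww p m κ U x)) G :=
    hPsiC.continuousOn.comp cww fun x hx => ww_pos hκ hx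
  have cLL : ContinuousOn (fun x => LL (ww p m κ U x)) G :=
    hLLc.comp cww fun x hx => (ww_pos hκ hx).le
  have cF : ContinuousOn (fun x => φ x ^ 2 * om δ x.1 * Psi (ww p m κ U x) *
      (t1 U x ^ 2 + t2 U x ^ 2 + (sn U x / x.1) ^ 2)) G :=
    (((cφ.pow 2).mul com).mul cPsi).mul (((ht1C.continuousOn.pow 2).add
      (ht2C.continuousOn.pow 2)).add ((cdiv _ hsnC.continuousOn).pow 2))
  have cH : ContinuousOn (fun x => om δ x.1 * LL (ww p m κ U x) *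
      (d1 φ x ^ 2 + d2 φ x ^ 2 + |φ x| * |d1 φ x| / x.1)) G :=
    (com.mul cLL).mul (((cd1.pow 2).add (cd2.pow 2)).add (cdiv _ (cφ.abs.mul cd1.abs)))
  have cD : ContinuousOn (fun x => φ x ^ 2 *
      (d1 (fB p m κ δ U) x - d2 (fA p m κ δ U) x)) G :=
    (cφ.pow 2).mul ((continuousOn_d1 hGo hfB).sub (continuousOn_d2 hGo hfA))
  have cN : ContinuousOn (fun x => -(2 * φ x * (d1 φ x * fB p m κ δ U x -
      d2 φ x * fA p m κ δ U x))) G :=
    ((continuousOn_const.mul cφ).mul ((cd1.mul hfB.continuousOn).sub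
      (cd2.mul hfA.continuousOn))).neg
  have iF := integ hGo hK hφG cF (fun x hx => by simp [hφ0 x hx])
  have iH := integ hGo hK hφG cH (fun x hx => by simp [hφ0 x hx, d1_zero hx, d2_zero hx])
  have iD := integ hGo hK hφG cD (fun x hx => by simp [hφ0 x hx])
  have iN := integ hGo hK hφG cN (fun x hx => by simp [hφ0 x hx])
  -- integration by parts
  have hparts : ∫ x, -(2 * φ x * (d1 φ x * fB p m κ δ U x - d2 φ x * fA p m κ δ U x)) =
      ∫ x, φ x ^ 2 * (d1 (fB p m κ δ U) x - d2 (fA p m κ δ U) x) := by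
    have h1 := hdiv G (fun x => φ x ^ 2) (fA p m κ δ U) (fB p m κ δ U) hGo (hφ.pow 2)
      (hφc.comp_left (g := fun y : ℝ => y ^ 2) (by norm_num))
      ((closure_mono (Function.support_comp_subset (g := fun y : ℝ => y ^ 2) (by norm_num)
        φ)).trans hφG) hfA hfB
    have h2 : ∀ x, d1 (fun x => φ x ^ 2) x * fB p m κ δ U x -
        d2 (fun x => φ x ^ 2) x * fA p m κ δ U x =
        2 * φ x * (d1 φ x * fB p m κ δ U x - d2 φ x * fA p m κ δ U x) := by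
      intro x
      unfold d1 d2
      rw [fderiv_sq hφ, fderiv_sq hφ]
      ring
    simp_rw [h2] at h1
    rw [integral_neg, h1, neg_neg]
  -- lower bound
  have hlower : ∫ x, c0 * (φ x ^ 2 * om δ x.1 * Psi (ww p m κ U x) *
      (t1 U x ^ 2 + t2 U x ^ 2 + (sn U x / x.1) ^ 2)) ≤
      ∫ x, φ x ^ 2 * (d1 (fB p m κ δ U) x - d2 (fA p m κ δ U) x) := by
    apply integral_mono (iF.const_mul c0) iD
    intro x
    by_cases hx : x ∈ K
    · have hxG := hφG hx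
      have hr : 0 < x.1 := hfst x hxG
      have h1 := hq (ww p m κ U x) (tt δ x.1) (sn U x) (cs U x) (XX U x) (YY U x) (1 / x.1)
        (ww_pos hκ hxG) (tt_pos hδ hr) (tt_le_one _ _) (low hδ (hlow x hx))
        (sn_sq_add_cs_sq hxG)
      have h2 : 0 ≤ φ x ^ 2 * om δ x.1 := mul_nonneg (sq_nonneg _) (homx x.1 hr).2.2.2.1.le
      have h3 := mul_le_mul_of_nonneg_left h1 h2
      change c0 * (φ x ^ 2 * om δ x.1 * Psi (ww p m κ U x) *
        (t1 U x ^ 2 + t2 U x ^ 2 + (sn U x / x.1) ^ 2)) ≤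
        φ x ^ 2 * (d1 (fB p m κ δ U) x - d2 (fA p m κ δ U) x)
      rw [hdomx x hxG, t_sq hxG]
      calc c0 * (φ x ^ 2 * om δ x.1 * Psi (ww p m κ U x) *
            (XX U x ^ 2 + YY U x ^ 2 + (sn U x / x.1) ^ 2))
          = φ x ^ 2 * om δ x.1 * (c0 * Psi (ww p m κ U x) *
            (XX U x ^ 2 + YY U x ^ 2 + (sn U x * (1 / x.1)) ^ 2)) := by ring
        _ ≤ _ := h3
        _ = _ := by ring
    · simp [hφ0 x hx]
  -- upper bound
  have hupper : ∫ x, -(2 * φ x * (d1 φ x * fB p m κ δ U x - d2 φ x * fA p m κ δ U x)) ≤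
      ∫ x, (c0 / 2 * (φ x ^ 2 * om δ x.1 * Psi (ww p m κ U x) *
        (t1 U x ^ 2 + t2 U x ^ 2 + (sn U x / x.1) ^ 2)) +
        C1 * (om δ x.1 * LL (ww p m κ U x) *
          (d1 φ x ^ 2 + d2 φ x ^ 2 + |φ x| * |d1 φ x| / x.1))) := by
    apply integral_mono iN ((iF.const_mul _).add (iH.const_mul _))
    intro x
    by_cases hx : x ∈ K
    · have hxG := hφG hx
      have hr : 0 < x.1 := hfst x hxG
      obtain ⟨-, -, hPs, hPP, -, -, hP2, hPL, hQL, -⟩ := hppw (ww p m κ U x) (ww_pos hκ hxG)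
      have ht0 := tt_pos hδ hr
      have ht1 := tt_le_one δ x.1
      have hgg0 : 0 ≤ gg δ x.1 := by
        unfold gg
        nlinarith
      have hgg1 : gg δ x.1 ≤ 1 := by
        unfold gg
        nlinarith [sq_nonneg (1 - tt δ x.1)]
      have h1 := pointwise c0 (e1 p m) (y0 p m) (φ x) (d1 φ x) (d2 φ x) (t1 U x) (t2 U x)
        (sn U x) (cs U x) x.1 (Phi (ww p m κ U x)) (Psi (ww p m κ U x)) (LL (ww p m κ U x))
        (gg δ x.1) hc0 hE hy hr hPs (lt_of_lt_of_le hPs hPP) hP2 hPL hQL hgg0 hgg1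
        (sn_sq_add_cs_sq hxG)
      have h2 : 0 ≤ om δ x.1 := (homx x.1 hr).2.2.2.1.le
      have h3 := mul_le_mul_of_nonneg_left h1 h2
      change -(2 * φ x * (d1 φ x * fB p m κ δ U x - d2 φ x * fA p m κ δ U x)) ≤
        c0 / 2 * (φ x ^ 2 * om δ x.1 * Psi (ww p m κ U x) *
        (t1 U x ^ 2 + t2 U x ^ 2 + (sn U x / x.1) ^ 2)) +
        C1 * (om δ x.1 * LL (ww p m κ U x) *
          (d1 φ x ^ 2 + d2 φ x ^ 2 + |φ x| * |d1 φ x| / x.1))
      unfold fA fB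
      calc _ = _ := by ring
        _ ≤ _ := h3
        _ = _ := by ring
    · change -(2 * φ x * (d1 φ x * fB p m κ δ U x - d2 φ x * fA p m κ δ U x)) ≤
        c0 / 2 * (φ x ^ 2 * om δ x.1 * Psi (ww p m κ U x) *
        (t1 U x ^ 2 + t2 U x ^ 2 + (sn U x / x.1) ^ 2)) +
        C1 * (om δ x.1 * LL (ww p m κ U x) *
          (d1 φ x ^ 2 + d2 φ x ^ 2 + |φ x| * |d1 φ x| / x.1))
      simp [hφ0 x hx, d1_zero hx, d2_zero hx]
  rw [integral_const_mul] at hlower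
  rw [integral_add (iF.const_mul _) (iH.const_mul _), integral_const_mul,
    integral_const_mul] at hupper
  rw [hparts] at hupper
  set IF := ∫ x, φ x ^ 2 * om δ x.1 * Psi (ww p m κ U x) *
        (t1 U x ^ 2 + t2 U x ^ 2 + (sn U x / x.1) ^ 2) with hIF
  set IH := ∫ x, om δ x.1 * LL (ww p m κ U x) *
          (d1 φ x ^ 2 + d2 φ x ^ 2 + |φ x| * |d1 φ x| / x.1) with hIH
  have h4 : c0 * IF ≤ 2 * (C1 * IH) := by linarith
  have h5 : IF ≤ 2 * (C1 * IH) / c0 := by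
    rw [le_div_iff₀ hc0]
    linarith
  calc IF ≤ 2 * (C1 * IH) / c0 := h5
    _ = 2 * C1 / c0 * IH := by ring

end Pool.Agent.AXS
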