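import Pool.Agent.AXS.Targets

/-!
# Integration by parts in the plane
-/

set_option autoImplicit false

open Set MeasureTheory Filter Topology

namespace Pool.Agent.AXS

namespace DIV_

/-- product of a continuous function with compact support in `O` and a function continuous on `O` -/
theorem cont_mul {O : Set (ℝ × ℝ)} {f g : ℝ × ℝ → ℝ} (hO : IsOpen O) (hf : Continuous f)
    (hs : tsupport f ⊆ O) (hg : ContinuousOn g O) : Continuous (fun x => f x * g x) := by
  rw [continuous_iff_continuousAt]
  intro x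
  by_cases hx : x ∈ tsupport f
  · exact hf.continuousAt.mul (hg.continuousAt (hO.mem_nhds (hs hx)))
  · have h1 : (fun x => f x * g x) =ᶠ[𝓝 x] fun _ => 0 := by
      have h2 := notMem_tsupport_iff_eventuallyEq.mp hx
      filter_upwards [h2] with y hy
      rw [hy]
      simp
    exact (continuousAt_const (y := (0 : ℝ))).congr h1.symm

theorem integrable_mul {O : Set (ℝ × ℝ)} {f g : ℝ × ℝ → ℝ} (hO : IsOpen O) (hf : Continuous f)
    (hc : HasCompactSupport f) (hs : tsupport f ⊆ O) (hg : ContinuousOn g O) :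
    Integrable (fun x => f x * g x) :=
  (cont_mul hO hf hs hg).integrable_of_hasCompactSupport hc.mul_right

theorem contDiff_mul {O : Set (ℝ × ℝ)} {f g : ℝ × ℝ → ℝ} (hO : IsOpen O) (hf : ContDiff ℝ 1 f)
    (hs : tsupport f ⊆ O) (hg : ContDiffOn ℝ 1 g O) : ContDiff ℝ 1 (fun x => f x * g x) := by
  rw [contDiff_iff_contDiffAt]
  intro x
  by_cases hx : x ∈ tsupport f
  · exact hf.contDiffAt.mul (hg.contDiffAt (hO.mem_nhds (hs hx)))
  · have h1 : (fun x => f x * g x) =ᶠ[𝓝 x] fun _ => 0 := by
      have h2 := notMem_tsupport_iff_eventuallyEq.mp hx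
      filter_upwards [h2] with y hy
      rw [hy]
      simp
    exact (contDiffAt_const (c := (0 : ℝ))).congr_of_eventuallyEq h1

/-- the integral of a directional derivative of a `C^1` function with compact support is `0` -/
theorem integral_fderiv_zero {f : ℝ × ℝ → ℝ} (hf : ContDiff ℝ 1 f) (hc : HasCompactSupport f)
    (v : ℝ × ℝ) : ∫ x, fderiv ℝ f x v = 0 := by
  have hcont : Continuous (fun x => fderiv ℝ f x v) :=
    (hf.continuous_fderiv (by norm_num)).clm_apply continuous_const
  have hcs : HasCompactSupport (fun x => fderiv ℝ f x v) := hc.fderiv_apply ℝ v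
  have hi : Integrable (fun x => fderiv ℝ f x v) := hcont.integrable_of_hasCompactSupport hcs
  have h := integral_mul_fderiv_eq_neg_fderiv_mul_of_integrable (𝕜 := ℝ) (μ := volume)
    (f := f) (g := fun _ => (1 : ℝ)) (v := v) (by simpa using hi) (by simp)
    (by simpa using hf.continuous.integrable_of_hasCompactSupport hc)
    (fun x _ => hf.differentiable (by norm_num) x) (fun x _ => differentiableAt_const _)
  simp at h
  exact h

theorem fderiv_mul_eq {O : Set (ℝ × ℝ)} {f g : ℝ × ℝ → ℝ} (hO : IsOpen O) (hf : ContDiff ℝ 1 f)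
    (hs : tsupport f ⊆ O) (hg : ContDiffOn ℝ 1 g O) (v x : ℝ × ℝ) :
    fderiv ℝ (fun x => f x * g x) x v = fderiv ℝ f x v * g x + f x * fderiv ℝ g x v := by
  by_cases hx : x ∈ tsupport f
  · have h1 : DifferentiableAt ℝ f x := hf.differentiable (by norm_num) x
    have h2 : DifferentiableAt ℝ g x :=
      (hg.contDiffAt (hO.mem_nhds (hs hx))).differentiableAt (by norm_num)
    have h3 := fderiv_fun_mul h1 h2
    rw [h3]
    simp only [add_apply, smul_apply, smul_eq_mul]
    ring
  · have h2 := notMem_tsupport_iff_eventuallyEq.mp hx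
    have h1 : (fun x => f x * g x) =ᶠ[𝓝 x] fun _ => 0 := by
      filter_upwards [h2] with y hy
      rw [hy]
      simp
    have h3 : fderiv ℝ (fun x => f x * g x) x = 0 := by
      rw [h1.fderiv_eq]
      simp
    have h4 : fderiv ℝ f x = 0 := by
      rw [h2.fderiv_eq]
      simp
    have h5 : f x = 0 := h2.self_of_nhds
    rw [h3, h4, h5]
    simp

end DIV_

open DIV_ in
theorem p_DIV : T_DIV := by
  intro O Λ A B hO hΛ hc hs hA hB
  have hA0 : ContinuousOn A O := hA.continuousOn
  have hB0 : ContinuousOn B O := hB.continuousOn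
  have hdA : ContinuousOn (fun x => d2 A x) O :=
    (hA.continuousOn_fderiv_of_isOpen hO (by norm_num)).clm_apply continuousOn_const
  have hdB : ContinuousOn (fun x => d1 B x) O :=
    (hB.continuousOn_fderiv_of_isOpen hO (by norm_num)).clm_apply continuousOn_const
  have hd1 : Continuous (fun x => d1 Λ x) :=
    (hΛ.continuous_fderiv (by norm_num)).clm_apply continuous_const
  have hd2 : Continuous (fun x => d2 Λ x) :=
    (hΛ.continuous_fderiv (by norm_num)).clm_apply continuous_const
  have hc1 : HasCompactSupport (fun x => d1 Λ x) := hc.fderiv_apply ℝ (1, 0)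
  have hc2 : HasCompactSupport (fun x => d2 Λ x) := hc.fderiv_apply ℝ (0, 1)
  have hs1 : tsupport (fun x => d1 Λ x) ⊆ O := (tsupport_fderiv_apply_subset ℝ (1, 0)).trans hs
  have hs2 : tsupport (fun x => d2 Λ x) ⊆ O := (tsupport_fderiv_apply_subset ℝ (0, 1)).trans hs
  have i1 := integrable_mul hO hd1 hc1 hs1 hB0
  have i2 := integrable_mul hO hd2 hc2 hs2 hA0
  have i3 := integrable_mul hO hΛ.continuous hc hs hdB
  have i4 := integrable_mul hO hΛ.continuous hc hs hdA
  have z1 := integral_fderiv_zero (contDiff_mul hO hΛ hs hB) hc.mul_right (1, 0)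
  have z2 := integral_fderiv_zero (contDiff_mul hO hΛ hs hA) hc.mul_right (0, 1)
  simp_rw [fderiv_mul_eq hO hΛ hs hB (1, 0)] at z1
  simp_rw [fderiv_mul_eq hO hΛ hs hA (0, 1)] at z2
  have z1' : ∫ x, d1 Λ x * B x + Λ x * d1 B x = 0 := z1
  have z2' : ∫ x, d2 Λ x * A x + Λ x * d2 A x = 0 := z2
  rw [integral_add i1 i3] at z1'
  rw [integral_add i2 i4] at z2'
  rw [integral_sub i1 i2]
  have h5 : ∫ x, Λ x * (d1 B x - d2 A x) = (∫ x, Λ x * d1 B x) - ∫ x, Λ x * d2 A x := by
    rw [← integral_sub i3 i4]
    congr 1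
    ext x
    ring
  rw [h5]
  linarith

end Pool.Agent.AXS
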