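import Pool.Agent.AXS.CAP
import Pool.Agent.AXS.DIV

/-!
# Axially symmetric `p`-harmonic functions: the main inequality
-/

set_option autoImplicit false

open Set MeasureTheory Filter Topology
open scoped RealInnerProductSpace ENNReal

namespace Pool.Agent.AXS

namespace Ineq2

open Pool.Agent.AXS.Cap

/-! ### One variable -/

theorem deriv_bound : ∃ M : ℝ, 0 < M ∧ ∀ x, |deriv Real.smoothTransition x| ≤ M := by
  have h1 : Continuous (deriv Real.smoothTransition) :=
    (Real.smoothTransition.contDiff (n := 1)).continuous_deriv le_rfl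
  have h2 : HasCompactSupport (deriv Real.smoothTransition) := by
    refine HasCompactSupport.intro (isCompact_Icc (a := (0 : ℝ)) (b := 1)) ?_
    intro x hx
    rw [mem_Icc, not_and_or, not_le, not_le] at hx
    rcases hx with hx | hx
    · have h3 : Real.smoothTransition =ᶠ[𝓝 x] fun _ => 0 := by
        filter_upwards [eventually_lt_nhds hx] with y hy
        exact Real.smoothTransition.zero_of_nonpos hy.le
      rw [h3.deriv_eq]
      simp
    · have h3 : Real.smoothTransition =ᶠ[𝓝 x] fun _ => 1 := by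
        filter_upwards [eventually_gt_nhds hx] with y hy
        exact Real.smoothTransition.one_of_one_le hy.le
      rw [h3.deriv_eq]
      simp
  obtain ⟨C, hC⟩ := h1.bounded_above_of_compact_support h2
  refine ⟨max C 1, lt_max_of_lt_right one_pos, fun x => ?_⟩
  exact (hC x).trans (le_max_left _ _)

/-- the cutoff -/
noncomputable def qq (k ρ : ℝ) : ℝ :=
  if 0 < ρ then Real.smoothTransition (2 - Real.log (yy ρ) / k) else 0

/-- its derivative -/
noncomputable def qd (k ρ : ℝ) : ℝ :=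
  deriv Real.smoothTransition (2 - Real.log (yy ρ) / k) / (2 * ρ * (1 + ρ) * yy ρ * k)

theorem qq_nonneg (k ρ : ℝ) : 0 ≤ qq k ρ := by
  unfold qq
  split_ifs
  · exact Real.smoothTransition.nonneg _
  · exact le_rfl

theorem qq_le_one (k ρ : ℝ) : qq k ρ ≤ 1 := by
  unfold qq
  split_ifs
  · exact Real.smoothTransition.le_one _
  · exact zero_le_one

theorem qq_zero {k ρ : ℝ} (hk : 0 < k) (h : ρ < Real.exp (-(2 * Real.exp (2 * k)))) :
    qq k ρ = 0 := by
  unfold qq
  split_ifs with h0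
  · have h1 : 2 * Real.exp (2 * k) ≤ Real.log (1 + 1 / ρ) := by
      rw [Real.le_log_iff_exp_le (by positivity)]
      have h2 : Real.exp (2 * Real.exp (2 * k)) ≤ 1 / ρ := by
        rw [le_div_iff₀ h0]
        have h3 := mul_le_mul_of_nonneg_left h.le (Real.exp_pos (2 * Real.exp (2 * k))).le
        rwa [← Real.exp_add, add_neg_cancel, Real.exp_zero] at h3
      linarith
    have h3 : Real.exp (2 * k) ≤ yy ρ := by
      unfold yy
      linarith
    have h4 : 2 * k ≤ Real.log (yy ρ) := by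
      rw [Real.le_log_iff_exp_le (yy_pos h0)]
      exact h3
    apply Real.smoothTransition.zero_of_nonpos
    have h5 : 2 ≤ Real.log (yy ρ) / k := by
      rw [le_div_iff₀ hk]
      linarith
    linarith
  · rfl

theorem qq_one {k ρ : ℝ} (hk : 0 < k) (h0 : 0 < ρ) (h : Real.log (yy ρ) ≤ k) : qq k ρ = 1 := by
  unfold qq
  rw [if_pos h0]
  apply Real.smoothTransition.one_of_one_le
  have h1 : Real.log (yy ρ) / k ≤ 1 := by
    rw [div_le_iff₀ hk]
    linarith
  linarith

theorem qq_ev (k : ℝ) {ρ : ℝ} (h : 0 < ρ) :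
    qq k =ᶠ[𝓝 ρ] fun r => Real.smoothTransition (2 - Real.log (yy r) / k) := by
  filter_upwards [eventually_gt_nhds h] with r hr
  unfold qq
  rw [if_pos hr]

theorem contDiffAt_qq (k : ℝ) {ρ : ℝ} (h : 0 < ρ) : ContDiffAt ℝ 1 (qq k) ρ := by
  refine ContDiffAt.congr_of_eventuallyEq ?_ (qq_ev k h)
  have h1 : ContDiffAt ℝ 1 (fun r => 2 - Real.log (yy r) / k) ρ :=
    contDiffAt_const.sub (((contDiffAt_yy h).log (yy_pos h).ne').div_const k)
  exact ContDiffAt.comp (g := Real.smoothTransition) ρ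
    (Real.smoothTransition.contDiff (n := 1)).contDiffAt h1

theorem hasDerivAt_qq {k ρ : ℝ} (hk : 0 < k) (h : 0 < ρ) : HasDerivAt (qq k) (qd k ρ) ρ := by
  have hy := yy_pos h
  have h1 : HasDerivAt (fun r => 2 - Real.log (yy r) / k)
      (-((-(1 / (2 * ρ * (1 + ρ)))) / yy ρ / k)) ρ :=
    (((hasDerivAt_yy h).log hy.ne').div_const k).const_sub 2
  have h2 : HasDerivAt Real.smoothTransition
      (deriv Real.smoothTransition (2 - Real.log (yy ρ) / k)) (2 - Real.log (yy ρ) / k) :=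
    (((Real.smoothTransition.contDiff (n := 1)).differentiable one_ne_zero) _).hasDerivAt
  have h3 := h2.comp ρ h1
  refine (h3.congr_of_eventuallyEq (qq_ev k h)).congr_deriv ?_
  unfold qd
  have h4 : (1 : ℝ) + ρ ≠ 0 := by positivity
  field_simp

/-! ### The test function -/

section

variable {p m k κ δ : ℝ} {P : Set (ℝ × ℝ)} {U φ : ℝ × ℝ → ℝ}

/-- the test function -/
noncomputable def psi (k : ℝ) (U φ : ℝ × ℝ → ℝ) (x : ℝ × ℝ) : ℝ := φ x * qq k (rho U x)

theorem psi_off (hg : T_GOOD) (hU : Plan p m P U) (hk : 0 < k) (hs : tsupport φ ⊆ QQ P)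
    {x : ℝ × ℝ} (hx : x ∉ Good P U) : psi k U φ =ᶠ[𝓝 x] fun _ => 0 := by
  obtain ⟨-, hc, -⟩ := hg p m P U hU
  by_cases h : x ∈ tsupport φ
  · have hxQ := hs h
    have h0 : rho U x = 0 := by
      by_contra h1
      exact hx ⟨hxQ.1, hxQ.2, h1⟩
    have h2 : ContinuousAt (rho U) x := hc.continuousAt (hU.isOpen.mem_nhds hxQ.1)
    have h3 : ∀ᶠ y in 𝓝 x, rho U y < Real.exp (-(2 * Real.exp (2 * k))) := by
      refine h2.eventually_lt continuousAt_const ?_
      rw [h0]
      exact Real.exp_pos _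
    filter_upwards [h3] with y hy
    unfold psi
    rw [qq_zero hk hy, mul_zero]
  · have h1 : ∀ᶠ y in 𝓝 x, y ∉ tsupport φ := (isClosed_tsupport φ).isOpen_compl.mem_nhds h
    filter_upwards [h1] with y hy
    unfold psi
    rw [image_eq_zero_of_notMem_tsupport hy]
    ring

theorem psi_off' {x : ℝ × ℝ} (hx : x ∉ tsupport φ) : psi k U φ =ᶠ[𝓝 x] fun _ => 0 := by
  have h1 : ∀ᶠ y in 𝓝 x, y ∉ tsupport φ := (isClosed_tsupport φ).isOpen_compl.mem_nhds hx
  filter_upwards [h1] with y hy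
  unfold psi
  rw [image_eq_zero_of_notMem_tsupport hy]
  ring

theorem psi_contDiff (hg : T_GOOD) (hU : Plan p m P U) (hk : 0 < k) (hφ : ContDiff ℝ 1 φ)
    (hs : tsupport φ ⊆ QQ P) : ContDiff ℝ 1 (psi k U φ) := by
  rw [contDiff_iff_contDiffAt]
  intro x
  by_cases hx : x ∈ Good P U
  · obtain ⟨ho, -, hr, -⟩ := hg p m P U hU
    have h1 : ContDiffAt ℝ 1 (rho U) x := hr.contDiffAt (ho.mem_nhds hx)
    have h2 : ContDiffAt ℝ 1 (fun y => qq k (rho U y)) x :=
      ContDiffAt.comp (g := qq k) x (contDiffAt_qq k (rho_pos hx)) h1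
    exact hφ.contDiffAt.mul h2
  · exact contDiffAt_const.congr_of_eventuallyEq (psi_off hg hU hk hs hx)

theorem psi_supp (hg : T_GOOD) (hU : Plan p m P U) (hk : 0 < k)
    (hs : tsupport φ ⊆ QQ P) : tsupport (psi k U φ) ⊆ Good P U := by
  intro x hx
  by_contra h
  exact notMem_tsupport_iff_eventuallyEq.mpr (psi_off hg hU hk hs h) hx

theorem psi_supp' : tsupport (psi k U φ) ⊆ tsupport φ := by
  intro x hx
  by_contra h
  exact notMem_tsupport_iff_eventuallyEq.mpr (psi_off' h) hx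

theorem psi_compact (hc : HasCompactSupport φ) : HasCompactSupport (psi k U φ) :=
  hc.of_isClosed_subset (isClosed_tsupport _) psi_supp'

theorem psi_deriv (hg : T_GOOD) (hU : Plan p m P U) (hk : 0 < k) (hφ : ContDiff ℝ 1 φ)
    {x : ℝ × ℝ} (hx : x ∈ Good P U) (v : ℝ × ℝ) : fderiv ℝ (psi k U φ) x v =
      fderiv ℝ φ x v * qq k (rho U x) +
        φ x * (qd k (rho U x) * fderiv ℝ (rho U) x v) := by
  obtain ⟨ho, -, hr, -⟩ := hg p m P U hU
  have h1 : HasFDerivAt (rho U) (fderiv ℝ (rho U) x) x :=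
    ((hr.contDiffAt (ho.mem_nhds hx)).differentiableAt one_ne_zero).hasFDerivAt
  have h2 : HasFDerivAt φ (fderiv ℝ φ x) x := (hφ.differentiable one_ne_zero x).hasFDerivAt
  have h3 := (hasDerivAt_qq hk (rho_pos hx)).comp_hasFDerivAt x h1
  have h4 := h2.mul h3
  have h5 : fderiv ℝ (psi k U φ) x = _ := h4.fderiv
  rw [h5]
  simp
  ring

/-! ### The integrands -/

/-- the right integrand -/
noncomputable def RR (p m κ δ : ℝ) (U φ : ℝ × ℝ → ℝ) (x : ℝ × ℝ) : ℝ :=
  om δ x.1 * LL (ww p m κ U x) * (d1 φ x ^ 2 + d2 φ x ^ 2 + |φ x| * |d1 φ x| / x.1)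

/-- the left integrand -/
noncomputable def EE (p m κ δ : ℝ) (U φ : ℝ × ℝ → ℝ) (x : ℝ × ℝ) : ℝ :=
  φ x ^ 2 * om δ x.1 * Psi (ww p m κ U x) * (t1 U x ^ 2 + t2 U x ^ 2 + (sn U x / x.1) ^ 2)

theorem om_nonneg' (hom : T_OM) (hδ : 0 < δ) {r : ℝ} (hr : 0 < r) : 0 ≤ om δ r :=
  ((hom δ hδ).2.2 r hr).2.2.2.1.le

theorem LL_nonneg' (hpp : T_PP) (hκ : 0 < κ) (x : ℝ × ℝ) : 0 ≤ LL (ww p m κ U x) :=
  hpp.2.2.2.2.1 _ (ww_nonneg hκ x)

theorem off_zero {x : ℝ × ℝ} (hx : x ∉ tsupport φ) : φ x = 0 ∧ d1 φ x = 0 ∧ d2 φ x = 0 := by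
  have h1 : φ =ᶠ[𝓝 x] fun _ => 0 := notMem_tsupport_iff_eventuallyEq.mp hx
  refine ⟨h1.self_of_nhds, ?_, ?_⟩
  · unfold d1
    rw [h1.fderiv_eq]
    simp
  · unfold d2
    rw [h1.fderiv_eq]
    simp

theorem RR_nonneg (hpp : T_PP) (hom : T_OM) (hκ : 0 < κ) (hδ : 0 < δ)
    (hs : tsupport φ ⊆ QQ P) (x : ℝ × ℝ) : 0 ≤ RR p m κ δ U φ x := by
  unfold RR
  by_cases hx : x ∈ tsupport φ
  · have h0 : 0 < x.1 := (hs hx).2
    have h1 := om_nonneg' hom hδ h0
    have h2 := LL_nonneg' (p := p) (m := m) (U := U) hpp hκ x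
    positivity
  · obtain ⟨h1, h2, h3⟩ := off_zero hx
    rw [h1, h2, h3]
    simp

theorem EE_nonneg (hpp : T_PP) (hom : T_OM) (hκ : 0 < κ) (hδ : 0 < δ)
    {x : ℝ × ℝ} (hx : x ∈ Good P U) : 0 ≤ EE p m κ δ U φ x := by
  unfold EE
  have h1 := om_nonneg' hom hδ hx.2.1
  have h2 : 0 < Psi (ww p m κ U x) := (hpp.2.2.2.2.2.2 _ (ww_pos hκ hx)).2.2.1
  positivity

theorem ww_cont (hg : T_GOOD) (hU : Plan p m P U) (κ : ℝ) :
    ContinuousOn (fun x => ww p m κ U x) P := by
  obtain ⟨-, hc, -⟩ := hg p m P U hU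
  unfold ww
  refine ContinuousOn.div_const (hc.rpow_const fun x _ => Or.inr ?_) κ
  have h1 := hU.one_lt
  have h2 := hU.one_le
  positivity

theorem om_cont (hom : T_OM) (hδ : 0 < δ) {S : Set (ℝ × ℝ)} (hS : ∀ x ∈ S, 0 < x.1) :
    ContinuousOn (fun x : ℝ × ℝ => om δ x.1) S :=
  (hom δ hδ).1.continuousOn.comp continuous_fst.continuousOn hS

theorem LLw_cont (hpp : T_PP) (hg : T_GOOD) (hU : Plan p m P U) (hκ : 0 < κ) :
    ContinuousOn (fun x => LL (ww p m κ U x)) P :=
  hpp.2.2.1.comp (ww_cont hg hU κ) fun x _ => ww_nonneg hκ x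

theorem Psiw_cont (hpp : T_PP) (hg : T_GOOD) (hU : Plan p m P U) (hκ : 0 < κ) :
    ContinuousOn (fun x => Psi (ww p m κ U x)) P :=
  hpp.2.2.2.1.comp (ww_cont hg hU κ) fun x _ => ww_nonneg hκ x

theorem d1_cont (hφ : ContDiff ℝ 1 φ) : Continuous (d1 φ) :=
  (hφ.continuous_fderiv one_ne_zero).clm_apply continuous_const

theorem d2_cont (hφ : ContDiff ℝ 1 φ) : Continuous (d2 φ) :=
  (hφ.continuous_fderiv one_ne_zero).clm_apply continuous_const

theorem RR_cont (hpp : T_PP) (hom : T_OM) (hg : T_GOOD) (hU : Plan p m P U) (hκ : 0 < κ)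
    (hδ : 0 < δ) (hφ : ContDiff ℝ 1 φ) (hs : tsupport φ ⊆ QQ P) :
    Continuous (RR p m κ δ U φ) := by
  refine continuous_of_on (isOpen_QQ hU.isOpen) ?_ ?_
  · have h1 : ContinuousOn (fun x : ℝ × ℝ => om δ x.1) (QQ P) := om_cont hom hδ fun x hx => hx.2
    have h2 : ContinuousOn (fun x => LL (ww p m κ U x)) (QQ P) :=
      (LLw_cont hpp hg hU hκ).mono fun x hx => hx.1
    have h3 := d1_cont hφ
    have h4 := d2_cont hφ
    have h5 := hφ.continuous
    refine (h1.mul h2).mul (((h3.pow 2).add (h4.pow 2)).continuousOn.add ?_)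
    exact (h5.abs.mul h3.abs).continuousOn.div continuous_fst.continuousOn
      fun x hx => hx.2.ne'
  · intro x hx
    have h0 : x ∉ tsupport φ := fun h => hx (hs h)
    have h1 : ∀ᶠ y in 𝓝 x, y ∉ tsupport φ := (isClosed_tsupport φ).isOpen_compl.mem_nhds h0
    filter_upwards [h1] with y hy
    obtain ⟨h1, h2, h3⟩ := off_zero hy
    unfold RR
    rw [h1, h2, h3]
    simp

theorem RR_compact (hc : HasCompactSupport φ) : HasCompactSupport (RR p m κ δ U φ) := by
  refine hc.mono' ?_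
  intro x hx
  by_contra h
  apply hx
  obtain ⟨h1, h2, h3⟩ := off_zero h
  unfold RR
  rw [h1, h2, h3]
  simp

theorem EE_cont (hpp : T_PP) (hom : T_OM) (hg : T_GOOD) (hU : Plan p m P U) (hκ : 0 < κ)
    (hδ : 0 < δ) (hφ : ContDiff ℝ 1 φ) (hs : tsupport φ ⊆ Good P U) :
    Continuous (EE p m κ δ U φ) := by
  obtain ⟨ho, -, -, hsn, -, ht1, ht2, -⟩ := hg p m P U hU
  refine continuous_of_on ho ?_ ?_
  · have h1 : ContinuousOn (fun x : ℝ × ℝ => om δ x.1) (Good P U) :=
      om_cont hom hδ fun x hx => hx.2.1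
    have h2 : ContinuousOn (fun x => Psi (ww p m κ U x)) (Good P U) :=
      (Psiw_cont hpp hg hU hκ).mono fun x hx => hx.1
    have h5 := hφ.continuous
    refine (((h5.pow 2).continuousOn.mul h1).mul h2).mul (((ht1.continuousOn.pow 2).add
      (ht2.continuousOn.pow 2)).add ?_)
    exact (hsn.continuousOn.div continuous_fst.continuousOn fun x hx => hx.2.1.ne').pow 2
  · intro x hx
    have h0 : x ∉ tsupport φ := fun h => hx (hs h)
    have h1 : ∀ᶠ y in 𝓝 x, y ∉ tsupport φ := (isClosed_tsupport φ).isOpen_compl.mem_nhds h0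
    filter_upwards [h1] with y hy
    obtain ⟨h1, h2, h3⟩ := off_zero hy
    unfold EE
    rw [h1]
    simp

theorem EE_compact (hc : HasCompactSupport φ) : HasCompactSupport (EE p m κ δ U φ) := by
  refine hc.mono' ?_
  intro x hx
  by_contra h
  apply hx
  obtain ⟨h1, h2, h3⟩ := off_zero h
  unfold EE
  rw [h1]
  simp

/-! ### The pointwise estimate -/

/-- the error density -/
noncomputable def GG (U : ℝ × ℝ → ℝ) (x : ℝ × ℝ) : ℝ :=
  (h1 U x ^ 2 + h2 U x ^ 2) / yy (rho U x) ^ 2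

theorem pointwise2 {a1 a2 f e1 e2 q r k M y η1 η2 : ℝ} (hq0 : 0 ≤ q) (hq1 : q ≤ 1)
    (hr : 0 < r) (hk : 1 ≤ k) (hM : 0 < M) (hy : 1 ≤ y)
    (he1 : |e1| ≤ M / k * (|η1| / y)) (he2 : |e2| ≤ M / k * (|η2| / y)) :
    (a1 * q + f * e1) ^ 2 + (a2 * q + f * e2) ^ 2 + |f * q| * |a1 * q + f * e1| / r ≤
      2 * (a1 ^ 2 + a2 ^ 2 + |f| * |a1| / r) +
        1 / k * (f ^ 2 * (2 * M ^ 2 + M / r) * (1 + (η1 ^ 2 + η2 ^ 2) / y ^ 2)) := by
  have hk0 : 0 < k := by linarith
  have hy0 : 0 < y := by linarith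
  have hq2 : q ^ 2 ≤ 1 := by nlinarith
  -- squares
  have s1 : ∀ a e η : ℝ, |e| ≤ M / k * (|η| / y) →
      (a * q + f * e) ^ 2 ≤ 2 * a ^ 2 + 1 / k * (f ^ 2 * (2 * M ^ 2) * (η ^ 2 / y ^ 2)) := by
    intro a e η he
    have h1 : e ^ 2 ≤ (M / k * (|η| / y)) ^ 2 := by
      rw [← sq_abs e]
      exact pow_le_pow_left₀ (abs_nonneg e) he 2
    have h2 : (M / k * (|η| / y)) ^ 2 = 1 / k ^ 2 * (M ^ 2 * (η ^ 2 / y ^ 2)) := by
      rw [mul_pow, div_pow, div_pow, sq_abs]
      ring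
    have h3 : 1 / k ^ 2 ≤ 1 / k := by
      apply one_div_le_one_div_of_le hk0
      nlinarith
    have h4 : 0 ≤ M ^ 2 * (η ^ 2 / y ^ 2) := by positivity
    have h5 : e ^ 2 ≤ 1 / k * (M ^ 2 * (η ^ 2 / y ^ 2)) := by
      rw [h2] at h1
      exact h1.trans (mul_le_mul_of_nonneg_right h3 h4)
    have h6 : (a * q + f * e) ^ 2 ≤ 2 * (a ^ 2 * q ^ 2) + 2 * (f ^ 2 * e ^ 2) := by
      nlinarith [sq_nonneg (a * q - f * e)]
    have h7 : a ^ 2 * q ^ 2 ≤ a ^ 2 := mul_le_of_le_one_right (sq_nonneg a) hq2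
    have h8 : f ^ 2 * e ^ 2 ≤ f ^ 2 * (1 / k * (M ^ 2 * (η ^ 2 / y ^ 2))) :=
      mul_le_mul_of_nonneg_left h5 (sq_nonneg f)
    have h9 : 1 / k * (f ^ 2 * (2 * M ^ 2) * (η ^ 2 / y ^ 2)) =
        2 * (f ^ 2 * (1 / k * (M ^ 2 * (η ^ 2 / y ^ 2)))) := by ring
    rw [h9]
    linarith
  have t1 := s1 a1 e1 η1 he1
  have t2 := s1 a2 e2 η2 he2
  -- the last term
  have h1 : |f * q| ≤ |f| := by
    rw [abs_mul, abs_of_nonneg hq0]
    exact mul_le_of_le_one_right (abs_nonneg f) hq1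
  have h2 : |a1 * q + f * e1| ≤ |a1| + |f| * |e1| := by
    refine (abs_add_le _ _).trans ?_
    rw [abs_mul, abs_mul, abs_of_nonneg hq0]
    have : |a1| * q ≤ |a1| := mul_le_of_le_one_right (abs_nonneg a1) hq1
    linarith
  have h3 : |f * q| * |a1 * q + f * e1| ≤ |f| * (|a1| + |f| * |e1|) :=
    mul_le_mul h1 h2 (abs_nonneg _) (abs_nonneg _)
  have h4 : |η1| / y ≤ 1 + (η1 ^ 2 + η2 ^ 2) / y ^ 2 := by
    have h5 : |η1| / y ≤ 1 + (|η1| / y) ^ 2 := by nlinarith [sq_nonneg (|η1| / y - 1)]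
    have h6 : (|η1| / y) ^ 2 = η1 ^ 2 / y ^ 2 := by rw [div_pow, sq_abs]
    have h7 : η1 ^ 2 / y ^ 2 ≤ (η1 ^ 2 + η2 ^ 2) / y ^ 2 := by
      apply div_le_div_of_nonneg_right _ (by positivity)
      nlinarith [sq_nonneg η2]
    linarith
  have h5 : |e1| ≤ M / k * (1 + (η1 ^ 2 + η2 ^ 2) / y ^ 2) :=
    he1.trans (mul_le_mul_of_nonneg_left h4 (by positivity))
  have h6 : |f * q| * |a1 * q + f * e1| / r ≤
      |f| * |a1| / r + 1 / k * (f ^ 2 * (M / r) * (1 + (η1 ^ 2 + η2 ^ 2) / y ^ 2)) := by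
    calc |f * q| * |a1 * q + f * e1| / r ≤ |f| * (|a1| + |f| * |e1|) / r :=
          div_le_div_of_nonneg_right h3 hr.le
      _ = |f| * |a1| / r + f ^ 2 * |e1| / r := by
          rw [← sq_abs f]
          ring
      _ ≤ |f| * |a1| / r + f ^ 2 * (M / k * (1 + (η1 ^ 2 + η2 ^ 2) / y ^ 2)) / r := by
          have := mul_le_mul_of_nonneg_left h5 (sq_nonneg f)
          have := div_le_div_of_nonneg_right this hr.le
          linarith
      _ = _ := by ring
  have h7 : 0 ≤ |f| * |a1| / r := by positivity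
  have h8 : 1 / k * (f ^ 2 * (2 * M ^ 2 + M / r) * (1 + (η1 ^ 2 + η2 ^ 2) / y ^ 2)) =
      1 / k * (f ^ 2 * (2 * M ^ 2)) + 1 / k * (f ^ 2 * (2 * M ^ 2) * (η1 ^ 2 / y ^ 2)) +
      1 / k * (f ^ 2 * (2 * M ^ 2) * (η2 ^ 2 / y ^ 2)) +
      1 / k * (f ^ 2 * (M / r) * (1 + (η1 ^ 2 + η2 ^ 2) / y ^ 2)) := by ring
  have h9 : 0 ≤ 1 / k * (f ^ 2 * (2 * M ^ 2)) := by positivity
  rw [h8]
  linarith

theorem qd_bound {M : ℝ} (hM : ∀ x, |deriv Real.smoothTransition x| ≤ M) (hk : 0 < k)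
    {x : ℝ × ℝ} (hx : x ∈ Good P U) (η : ℝ) :
    |qd k (rho U x) * (2 * rho U x * η)| ≤ M / k * (|η| / yy (rho U x)) := by
  have hr := rho_pos hx
  have hy := yy_pos hr
  generalize rho U x = ρ at *
  have h1 : qd k ρ * (2 * ρ * η) =
      deriv Real.smoothTransition (2 - Real.log (yy ρ) / k) / k * (η / yy ρ) / (1 + ρ) := by
    unfold qd
    field_simp
  rw [h1, abs_div, abs_mul, abs_div, abs_div, abs_of_pos hk, abs_of_pos hy,
    abs_of_pos (by linarith : 0 < 1 + ρ)]
  have h2 : |deriv Real.smoothTransition (2 - Real.log (yy ρ) / k)| / k * (|η| / yy ρ) ≤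
      M / k * (|η| / yy ρ) :=
    mul_le_mul_of_nonneg_right (div_le_div_of_nonneg_right (hM _) hk.le) (by positivity)
  refine le_trans (div_le_self (by positivity) (by linarith)) h2

theorem RR_psi_le {M B : ℝ} (hM0 : 0 < M) (hM : ∀ x, |deriv Real.smoothTransition x| ≤ M)
    (hpp : T_PP) (hom : T_OM) (hg : T_GOOD) (hU : Plan p m P U) (hκ : 0 < κ) (hδ : 0 < δ)
    (hφ : ContDiff ℝ 1 φ) (hs : tsupport φ ⊆ QQ P) (hk : 1 ≤ k)
    (hB : ∀ x ∈ tsupport φ, om δ x.1 * LL (ww p m κ U x) *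
      (φ x ^ 2 * (2 * M ^ 2 + M / x.1)) ≤ B) (x : ℝ × ℝ) :
    RR p m κ δ U (psi k U φ) x ≤ 2 * RR p m κ δ U φ x +
      (tsupport φ ∩ Good P U).indicator (fun x => B / k * (1 + GG U x)) x := by
  have hk0 : 0 < k := by linarith
  by_cases hx : x ∈ tsupport φ ∩ Good P U
  · rw [indicator_of_mem hx]
    obtain ⟨-, -, -, -, -, -, -, -, -, H⟩ := hg p m P U hU
    obtain ⟨hr, -, e1, e2, -⟩ := H x hx.2
    have f1 : d1 (psi k U φ) x = d1 φ x * qq k (rho U x) +
        φ x * (qd k (rho U x) * (2 * rho U x * h1 U x)) := by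
      have := psi_deriv hg hU hk0 hφ hx.2 (1, 0)
      unfold d1 at e1 ⊢
      rw [this, e1]
    have f2 : d2 (psi k U φ) x = d2 φ x * qq k (rho U x) +
        φ x * (qd k (rho U x) * (2 * rho U x * h2 U x)) := by
      have := psi_deriv hg hU hk0 hφ hx.2 (0, 1)
      unfold d2 at e2 ⊢
      rw [this, e2]
    have hx1 : 0 < x.1 := hx.2.2.1
    have h1' := om_nonneg' hom hδ hx1
    have h2' := LL_nonneg' (p := p) (m := m) (U := U) hpp hκ x
    have h3' := pointwise2 (a1 := d1 φ x) (a2 := d2 φ x) (f := φ x)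
      (qq_nonneg k (rho U x)) (qq_le_one k (rho U x)) hx1 hk hM0 (one_le_yy hr)
      (qd_bound hM hk0 hx.2 (h1 U x)) (qd_bound hM hk0 hx.2 (h2 U x))
    have h4' := mul_le_mul_of_nonneg_left h3' (mul_nonneg h1' h2')
    have h5' : RR p m κ δ U (psi k U φ) x = om δ x.1 * LL (ww p m κ U x) *
      ((d1 φ x * qq k (rho U x) + φ x * (qd k (rho U x) * (2 * rho U x * h1 U x))) ^ 2 +
        (d2 φ x * qq k (rho U x) + φ x * (qd k (rho U x) * (2 * rho U x * h2 U x))) ^ 2 +
        |φ x * qq k (rho U x)| * |d1 φ x * qq k (rho U x) +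
          φ x * (qd k (rho U x) * (2 * rho U x * h1 U x))| / x.1) := by
      unfold RR
      rw [f1, f2]
      rfl
    rw [h5']
    refine h4'.trans ?_
    have h6' : 0 ≤ 1 / k * (1 + GG U x) := by
      unfold GG
      have := yy_pos hr
      positivity
    have h7' := mul_le_mul_of_nonneg_left (hB x hx.1) h6'
    unfold RR GG at *
    have h8' : B / k * (1 + (h1 U x ^ 2 + h2 U x ^ 2) / yy (rho U x) ^ 2) =
        1 / k * (1 + (h1 U x ^ 2 + h2 U x ^ 2) / yy (rho U x) ^ 2) * B := by ring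
    rw [h8']
    refine le_trans (le_of_eq ?_) (add_le_add_right h7' _)
    ring
  · rw [indicator_of_notMem hx, add_zero]
    have h0 : psi k U φ =ᶠ[𝓝 x] fun _ => 0 := by
      by_cases h : x ∈ tsupport φ
      · exact psi_off hg hU hk0 hs fun h' => hx ⟨h, h'⟩
      · exact psi_off' h
    have h1' : psi k U φ x = 0 := h0.self_of_nhds
    have h2' : fderiv ℝ (psi k U φ) x = 0 := by
      rw [h0.fderiv_eq]
      simp
    have h3' : RR p m κ δ U (psi k U φ) x = 0 := by
      unfold RR d1 d2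
      rw [h1', h2']
      simp
    rw [h3']
    have := RR_nonneg (p := p) (m := m) (U := U) hpp hom hκ hδ hs x
    linarith

/-- the integral and the lower integral -/
theorem ofReal_integral_le {f : ℝ × ℝ → ℝ} (hf : ∀ x, 0 ≤ f x) :
    ENNReal.ofReal (∫ x, f x) ≤ ∫⁻ x, ENNReal.ofReal (f x) := by
  by_cases h : Integrable f
  · exact (ofReal_integral_eq_lintegral_ofReal h (Eventually.of_forall hf)).le
  · rw [integral_undef h]
    simp

end

end Ineq2

open Ineq2 Cap in
theorem p_INEQ2 (hpp : T_PP) (hom : T_OM) (hg : T_GOOD) (hcap : T_CAP) (hineq : T_INEQ) :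
    T_INEQ2 := by
  intro p m hp hm
  obtain ⟨C, hC, hI⟩ := hineq p m hp hm
  obtain ⟨M, hM0, hM⟩ := deriv_bound
  refine ⟨2 * C, by positivity, ?_⟩
  intro κ δ P U φ hU hκ hδ hφ hc hs0 hpos hlow
  have hs : tsupport φ ⊆ QQ P := fun x hx => ⟨hs0 hx, hpos x hx⟩
  have hK : IsCompact (tsupport φ) := hc
  obtain ⟨ho, -⟩ := hg p m P U hU
  have hmeas : MeasurableSet (tsupport φ ∩ Good P U) :=
    (isClosed_tsupport φ).measurableSet.inter ho.measurableSet
  -- the capacity
  set A : ℝ≥0∞ := volume (tsupport φ ∩ Good P U) +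
    ∫⁻ x in tsupport φ ∩ Good P U, ENNReal.ofReal (GG U x) with hA
  have hAfin : A ≠ ⊤ := by
    refine ENNReal.add_ne_top.2 ⟨?_, hcap p m P (tsupport φ) U hU hK hs0 hpos⟩
    exact ((measure_mono inter_subset_left).trans_lt hK.measure_lt_top).ne
  -- the bound
  obtain ⟨B, hB0, hB⟩ : ∃ B : ℝ, 0 ≤ B ∧ ∀ x ∈ tsupport φ, om δ x.1 * LL (ww p m κ U x) *
      (φ x ^ 2 * (2 * M ^ 2 + M / x.1)) ≤ B := by
    have h1 : ContinuousOn (fun x : ℝ × ℝ => om δ x.1 * LL (ww p m κ U x) *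
        (φ x ^ 2 * (2 * M ^ 2 + M / x.1))) (tsupport φ) := by
      have h2 : ContinuousOn (fun x : ℝ × ℝ => om δ x.1) (tsupport φ) := om_cont hom hδ hpos
      have h3 : ContinuousOn (fun x => LL (ww p m κ U x)) (tsupport φ) :=
        (LLw_cont hpp hg hU hκ).mono hs0
      refine (h2.mul h3).mul ((hφ.continuous.pow 2).continuousOn.mul
        (continuousOn_const.add (continuousOn_const.div continuous_fst.continuousOn ?_)))
      intro x hx
      exact (hpos x hx).ne'
    obtain ⟨B, hB⟩ := hK.exists_bound_of_continuousOn h1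
    exact ⟨max B 0, le_max_right _ _, fun x hx =>
      (le_abs_self _).trans ((hB x hx).trans (le_max_left _ _))⟩
  have hRc := RR_cont hpp hom hg hU hκ hδ hφ hs
  have hRi : Integrable (RR p m κ δ U φ) :=
    hRc.integrable_of_hasCompactSupport (RR_compact hc)
  have hR0 := RR_nonneg (p := p) (m := m) (U := U) hpp hom hκ hδ hs
  -- the inequality for every `k`
  have key : ∀ k : ℝ, 1 ≤ k → ∫⁻ x in Good P U, ENNReal.ofReal (EE p m κ δ U (psi k U φ) x) ≤
      ENNReal.ofReal C * (ENNReal.ofReal (2 * ∫ x, RR p m κ δ U φ x) +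
        ENNReal.ofReal (B / k) * A) := by
    intro k hk
    have hk0 : 0 < k := by linarith
    have hψ := psi_contDiff (U := U) hg hU hk0 hφ hs
    have hψc : HasCompactSupport (psi k U φ) := psi_compact hc
    have hψs : tsupport (psi k U φ) ⊆ Good P U := psi_supp hg hU hk0 hs
    have h1 := hI κ δ P U (psi k U φ) hU hκ hδ hψ hψc hψs
      (fun x hx => hlow x (psi_supp' hx))
    have hEc := EE_cont hpp hom hg hU hκ hδ hψ hψs
    have hEi : Integrable (EE p m κ δ U (psi k U φ)) :=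
      hEc.integrable_of_hasCompactSupport (EE_compact hψc)
    have hE0 : ∀ x, 0 ≤ EE p m κ δ U (psi k U φ) x := by
      intro x
      by_cases hx : x ∈ Good P U
      · exact EE_nonneg hpp hom hκ hδ hx
      · have : psi k U φ x = 0 := (psi_off hg hU hk0 hs hx).self_of_nhds
        unfold EE
        rw [this]
        simp
    have hF0 := RR_nonneg (p := p) (m := m) (U := U) hpp hom hκ hδ
      (φ := psi k U φ) (P := P) (fun x hx => hs (psi_supp' hx))
    calc ∫⁻ x in Good P U, ENNReal.ofReal (EE p m κ δ U (psi k U φ) x)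
        ≤ ∫⁻ x, ENNReal.ofReal (EE p m κ δ U (psi k U φ) x) := setLIntegral_le_lintegral _ _
      _ = ENNReal.ofReal (∫ x, EE p m κ δ U (psi k U φ) x) :=
          (ofReal_integral_eq_lintegral_ofReal hEi (Eventually.of_forall hE0)).symm
      _ ≤ ENNReal.ofReal (C * ∫ x, RR p m κ δ U (psi k U φ) x) := ENNReal.ofReal_le_ofReal h1
      _ = ENNReal.ofReal C * ENNReal.ofReal (∫ x, RR p m κ δ U (psi k U φ) x) :=
          ENNReal.ofReal_mul hC.le
      _ ≤ _ := by
          gcongr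
          refine (ofReal_integral_le hF0).trans ?_
          calc ∫⁻ x, ENNReal.ofReal (RR p m κ δ U (psi k U φ) x)
              ≤ ∫⁻ x, (ENNReal.ofReal (2 * RR p m κ δ U φ x) +
                (tsupport φ ∩ Good P U).indicator
                  (fun x => ENNReal.ofReal (B / k) * (1 + ENNReal.ofReal (GG U x))) x) := by
                apply lintegral_mono
                intro x
                refine (ENNReal.ofReal_le_ofReal (RR_psi_le hM0 hM hpp hom hg hU hκ hδ hφ hs hk hB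
                  x)).trans (ENNReal.ofReal_add_le.trans (add_le_add_right ?_ _))
                by_cases hx : x ∈ tsupport φ ∩ Good P U
                · rw [indicator_of_mem hx, indicator_of_mem hx, ENNReal.ofReal_mul (by positivity),
                    ENNReal.ofReal_add zero_le_one (by unfold GG; positivity), ENNReal.ofReal_one]
                · rw [indicator_of_notMem hx, indicator_of_notMem hx]
                  simp
            _ = (∫⁻ x, ENNReal.ofReal (2 * RR p m κ δ U φ x)) +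
                ∫⁻ x, (tsupport φ ∩ Good P U).indicator
                  (fun x => ENNReal.ofReal (B / k) * (1 + ENNReal.ofReal (GG U x))) x :=
                lintegral_add_left (hRc.const_mul 2).measurable.ennreal_ofReal _
            _ = _ := by
                congr 1
                · rw [← ofReal_integral_eq_lintegral_ofReal (hRi.const_mul 2)
                    (Eventually.of_forall fun x => mul_nonneg zero_le_two (hR0 x)),
                    integral_const_mul]
                · rw [lintegral_indicator hmeas,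
                    lintegral_const_mul' _ _ ENNReal.ofReal_ne_top,
                    lintegral_add_left measurable_const, setLIntegral_one, hA]
  -- the limit
  have hlim : Tendsto (fun n : ℕ => ENNReal.ofReal C * (ENNReal.ofReal
      (2 * ∫ x, RR p m κ δ U φ x) + ENNReal.ofReal (B / ((n : ℝ) + 1)) * A)) atTop
      (𝓝 (ENNReal.ofReal (2 * C * ∫ x, RR p m κ δ U φ x))) := by
    have h1 : Tendsto (fun n : ℕ => B / ((n : ℝ) + 1)) atTop (𝓝 0) := by
      have := tendsto_one_div_add_atTop_nhds_zero_nat (𝕜 := ℝ)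
      have h2 := this.const_mul B
      simpa [div_eq_mul_inv] using h2
    have h2 : Tendsto (fun n : ℕ => ENNReal.ofReal (B / ((n : ℝ) + 1)) * A) atTop (𝓝 0) := by
      have h3 := ENNReal.tendsto_ofReal h1
      rw [ENNReal.ofReal_zero] at h3
      have h4 := ENNReal.Tendsto.mul_const h3 (Or.inr hAfin)
      simpa using h4
    have h3 := ENNReal.Tendsto.const_mul (a := ENNReal.ofReal C)
      (tendsto_const_nhds (x := ENNReal.ofReal (2 * ∫ x, RR p m κ δ U φ x)).add h2)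
      (Or.inr ENNReal.ofReal_ne_top)
    have h4 : ENNReal.ofReal C * (ENNReal.ofReal (2 * ∫ x, RR p m κ δ U φ x) + 0) =
        ENNReal.ofReal (2 * C * ∫ x, RR p m κ δ U φ x) := by
      rw [add_zero, ← ENNReal.ofReal_mul hC.le]
      congr 1
      ring
    rwa [h4] at h3
  -- Fatou
  have hfat : ∫⁻ x in Good P U, ENNReal.ofReal (EE p m κ δ U φ x) ≤
      liminf (fun n : ℕ => ∫⁻ x in Good P U,
        ENNReal.ofReal (EE p m κ δ U (psi ((n : ℝ) + 1) U φ) x)) atTop := by
    refine le_trans ?_ (lintegral_liminf_le' (fun n => ?_))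
    · apply setLIntegral_mono' ho.measurableSet
      intro x hx
      have hr := rho_pos hx
      have h1 : ∀ᶠ n : ℕ in atTop, ENNReal.ofReal (EE p m κ δ U (psi ((n : ℝ) + 1) U φ) x) =
          ENNReal.ofReal (EE p m κ δ U φ x) := by
        obtain ⟨N, hN⟩ := exists_nat_ge (Real.log (yy (rho U x)))
        filter_upwards [eventually_ge_atTop N] with n hn
        have h2 : qq ((n : ℝ) + 1) (rho U x) = 1 := by
          apply qq_one (by positivity) hr
          have : (N : ℝ) ≤ n := by exact_mod_cast hn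
          linarith
        have h3 : psi ((n : ℝ) + 1) U φ x = φ x := by
          unfold psi
          rw [h2, mul_one]
        unfold EE
        rw [h3]
      have h2 := (tendsto_congr' h1).2 tendsto_const_nhds
      rw [h2.liminf_eq]
    · have hk0 : (0 : ℝ) < (n : ℝ) + 1 := by positivity
      have hψ := psi_contDiff (U := U) hg hU hk0 hφ hs
      have hψs : tsupport (psi ((n : ℝ) + 1) U φ) ⊆ Good P U := psi_supp hg hU hk0 hs
      exact ((EE_cont hpp hom hg hU hκ hδ hψ hψs).measurable.ennreal_ofReal).aemeasurable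
  refine hfat.trans ?_
  change _ ≤ ENNReal.ofReal (2 * C * ∫ x, RR p m κ δ U φ x)
  rw [← hlim.liminf_eq]
  exact liminf_le_liminf (Eventually.of_forall fun n => key ((n : ℝ) + 1) (by
    have : (0 : ℝ) ≤ n := Nat.cast_nonneg n
    linarith))

end Pool.Agent.AXS
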