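import Pool.Agent.AXS.Targets

/-!
# Almost all segments avoid the critical set
-/

set_option autoImplicit false

open Set MeasureTheory Filter Topology

namespace Pool.Agent.AXS

namespace LINES_

/-- finite slices of a finite integral -/
theorem slices {A : Set (ℝ × ℝ)} (hA : MeasurableSet A) {φ : ℝ × ℝ → ℝ}
    (hφ : AEMeasurable φ (volume.restrict A)) (hfin : ∫⁻ x in A, ENNReal.ofReal (φ x) ≠ ⊤) :
    (∀ᵐ r : ℝ, ∫⁻ z in {z | (r, z) ∈ A}, ENNReal.ofReal (φ (r, z)) ≠ ⊤) ∧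
      ∀ᵐ z : ℝ, ∫⁻ r in {r | (r, z) ∈ A}, ENNReal.ofReal (φ (r, z)) ≠ ⊤ := by
  set F : ℝ × ℝ → ENNReal := A.indicator (fun x => ENNReal.ofReal (φ x)) with hF
  have hFm : AEMeasurable F ((volume : Measure ℝ).prod (volume : Measure ℝ)) := by
    rw [← Measure.volume_eq_prod, hF, aemeasurable_indicator_iff hA]
    exact hφ.ennreal_ofReal
  have hI : ∫⁻ x, F x ∂((volume : Measure ℝ).prod (volume : Measure ℝ)) ≠ ⊤ := by
    rw [← Measure.volume_eq_prod, hF, lintegral_indicator hA]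
    exact hfin
  constructor
  · rw [lintegral_prod _ hFm] at hI
    filter_upwards [ae_lt_top' hFm.lintegral_prod_right' hI] with r hr
    have hm : MeasurableSet {z : ℝ | (r, z) ∈ A} := measurable_prodMk_left hA
    rw [← lintegral_indicator hm]
    exact hr.ne
  · rw [lintegral_prod_symm _ hFm] at hI
    filter_upwards [ae_lt_top' hFm.lintegral_prod_left' hI] with z hz
    have hm : MeasurableSet {r : ℝ | (r, z) ∈ A} := measurable_prodMk_right hA
    rw [← lintegral_indicator hm]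
    exact hz.ne

theorem deriv1 {f : ℝ × ℝ → ℝ} {r z c : ℝ} (h : DifferentiableAt ℝ f (r, z))
    (hc : d1 f (r, z) = c) : HasDerivAt (fun t => f (t, z)) c r := by
  have h1 : HasDerivAt (fun t : ℝ => (t, z)) ((1, 0) : ℝ × ℝ) r :=
    (hasDerivAt_id r).prodMk (hasDerivAt_const r z)
  have h2 := h.hasFDerivAt.comp_hasDerivAt r h1
  rw [← hc]
  exact h2

theorem deriv2 {f : ℝ × ℝ → ℝ} {r z c : ℝ} (h : DifferentiableAt ℝ f (r, z))
    (hc : d2 f (r, z) = c) : HasDerivAt (fun t => f (r, t)) c z := by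
  have h1 : HasDerivAt (fun t : ℝ => (r, t)) ((0, 1) : ℝ × ℝ) z :=
    (hasDerivAt_const z r).prodMk (hasDerivAt_id z)
  have h2 := h.hasFDerivAt.comp_hasDerivAt z h1
  rw [← hc]
  exact h2

theorem yy_meas : Measurable yy := by
  unfold yy
  fun_prop

/-- a continuous function on a segment which vanishes almost everywhere vanishes -/
theorem dens {a b : ℝ} (hab : a < b) {f : ℝ → ℝ} (hf : ContinuousOn f (Icc a b))
    (h : ∀ᵐ x : ℝ, x ∈ Icc a b → f x = 0) : ∀ x ∈ Icc a b, f x = 0 := by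
  have h1 : f =ᵐ[volume.restrict (Icc a b)] fun _ => 0 := by
    rw [EventuallyEq, ae_restrict_iff' measurableSet_Icc]
    exact h
  exact Measure.eqOn_Icc_of_ae_eq volume hab.ne h1 hf continuousOn_const

end LINES_

open LINES_ in
/-- LINES: almost all segments avoid the critical set -/
theorem p_LINES (hGOOD : T_GOOD) (hCAP : T_CAP) (hSEG : T_SEG) : T_LINES := by
  intro p m P U hP r₁ r₂ z₁ z₂ hr₁ hr hz hK
  obtain ⟨hGo, hrc, hr1, -, -, -, -, hh1, hh2, hx⟩ := hGOOD p m P U hP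
  set K : Set (ℝ × ℝ) := Icc r₁ r₂ ×ˢ Icc z₁ z₂ with hKdef
  have hKc : IsCompact K := isCompact_Icc.prod isCompact_Icc
  have hKpos : ∀ x ∈ K, 0 < x.1 := fun x hx => lt_of_lt_of_le hr₁ hx.1.1
  have hfin := hCAP p m P K U hP hKc hK hKpos
  set A : Set (ℝ × ℝ) := K ∩ Good P U with hAdef
  have hA : MeasurableSet A := hKc.isClosed.measurableSet.inter hGo.measurableSet
  have hAG : A ⊆ Good P U := inter_subset_right
  have hcont : ∀ f : ℝ × ℝ → ℝ, ContDiffOn ℝ 1 f (Good P U) →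
      AEMeasurable f (volume.restrict A) := fun f hf =>
    (hf.continuousOn.mono hAG).aemeasurable hA
  have hyy : AEMeasurable (fun x => yy (rho U x)) (volume.restrict A) :=
    yy_meas.comp_aemeasurable (hcont _ hr1)
  have hfin1 : ∫⁻ x in A, ENNReal.ofReal (h1 U x ^ 2 / yy (rho U x) ^ 2) ≠ ⊤ := by
    refine ne_top_of_le_ne_top hfin (lintegral_mono fun x => ENNReal.ofReal_le_ofReal ?_)
    exact div_le_div_of_nonneg_right (by nlinarith [sq_nonneg (h2 U x)]) (sq_nonneg _)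
  have hfin2 : ∫⁻ x in A, ENNReal.ofReal (h2 U x ^ 2 / yy (rho U x) ^ 2) ≠ ⊤ := by
    refine ne_top_of_le_ne_top hfin (lintegral_mono fun x => ENNReal.ofReal_le_ofReal ?_)
    exact div_le_div_of_nonneg_right (by nlinarith [sq_nonneg (h1 U x)]) (sq_nonneg _)
  have hs1 := (slices hA (((hcont _ hh1).pow_const 2).div (hyy.pow_const 2)) hfin1).2
  have hs2 := (slices hA (((hcont _ hh2).pow_const 2).div (hyy.pow_const 2)) hfin2).1
  have hrho : ∀ x, 0 ≤ rho U x := fun x => by unfold rho; positivity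
  have hgood : ∀ x ∈ K, rho U x ≠ 0 → x ∈ Good P U := fun x hxK h =>
    ⟨hK hxK, hKpos x hxK, h⟩
  have hdiff : ∀ x ∈ Good P U, DifferentiableAt ℝ (rho U) x := fun x hxG =>
    (hr1.differentiableOn (by norm_num)).differentiableAt (hGo.mem_nhds hxG)
  -- horizontal segments
  have hcH : ∀ z ∈ Icc z₁ z₂, ContinuousOn (fun r => rho U (r, z)) (Icc r₁ r₂) := by
    intro z hz'
    exact hrc.comp (by fun_prop) (fun r hr' => hK ⟨hr', hz'⟩)
  have hcV : ∀ r ∈ Icc r₁ r₂, ContinuousOn (fun z => rho U (r, z)) (Icc z₁ z₂) := by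
    intro r hr'
    exact hrc.comp (by fun_prop) (fun z hz' => hK ⟨hr', hz'⟩)
  have hH : ∀ᵐ z : ℝ, z ∈ Icc z₁ z₂ →
      (∀ r ∈ Icc r₁ r₂, rho U (r, z) = 0) ∨ ∀ r ∈ Icc r₁ r₂, rho U (r, z) ≠ 0 := by
    filter_upwards [hs1] with z hzf hz'
    refine hSEG r₁ r₂ (fun r => rho U (r, z)) (fun r => h1 U (r, z)) hr (hcH z hz')
      (fun r _ => hrho _) (fun r hr' hne => ?_) ?_ ?_
    · have hg := hgood (r, z) ⟨hr', hz'⟩ hne
      exact deriv1 (hdiff _ hg) (hx _ hg).2.2.1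
    · exact hh1.continuousOn.comp (by fun_prop)
        (fun r hr' => hgood (r, z) ⟨hr'.1, hz'⟩ hr'.2)
    · have e : Icc r₁ r₂ ∩ {x | rho U (x, z) ≠ 0} = {r | (r, z) ∈ A} := by
        ext r
        constructor
        · intro h
          exact ⟨⟨h.1, hz'⟩, hgood (r, z) ⟨h.1, hz'⟩ h.2⟩
        · intro h
          exact ⟨h.1.1, h.2.2.2⟩
      rw [e]
      exact hzf
  have hV : ∀ᵐ r : ℝ, r ∈ Icc r₁ r₂ →
      (∀ z ∈ Icc z₁ z₂, rho U (r, z) = 0) ∨ ∀ z ∈ Icc z₁ z₂, rho U (r, z) ≠ 0 := by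
    filter_upwards [hs2] with r hrf hr'
    refine hSEG z₁ z₂ (fun z => rho U (r, z)) (fun z => h2 U (r, z)) hz (hcV r hr')
      (fun z _ => hrho _) (fun z hz' hne => ?_) ?_ ?_
    · have hg := hgood (r, z) ⟨hr', hz'⟩ hne
      exact deriv2 (hdiff _ hg) (hx _ hg).2.2.2.1
    · exact hh2.continuousOn.comp (by fun_prop)
        (fun z hz' => hgood (r, z) ⟨hr', hz'.1⟩ hz'.2)
    · have e : Icc z₁ z₂ ∩ {x | rho U (r, x) ≠ 0} = {z | (r, z) ∈ A} := by
        ext z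
        constructor
        · intro h
          exact ⟨⟨hr', h.1⟩, hgood (r, z) ⟨hr', h.1⟩ h.2⟩
        · intro h
          exact ⟨h.1.2, h.2.2.2⟩
      rw [e]
      exact hrf
  by_cases c1 : ∀ᵐ z : ℝ, z ∈ Icc z₁ z₂ → ∀ r ∈ Icc r₁ r₂, rho U (r, z) ≠ 0
  · by_cases c2 : ∀ᵐ r : ℝ, r ∈ Icc r₁ r₂ → ∀ z ∈ Icc z₁ z₂, rho U (r, z) ≠ 0
    · exact Or.inr ⟨c1, c2⟩
    · left
      have h0 : ∃ r ∈ Icc r₁ r₂, ∀ z ∈ Icc z₁ z₂, rho U (r, z) = 0 := by
        by_contra hcon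
        push Not at hcon
        refine c2 ?_
        filter_upwards [hV] with r h3 hr'
        rcases h3 hr' with h4 | h4
        · obtain ⟨z, hz', h5⟩ := hcon r hr'
          exact absurd (h4 z hz') h5
        · exact h4
      obtain ⟨r0, hr0, h6⟩ := h0
      have h7 : ∀ᵐ z : ℝ, z ∈ Icc z₁ z₂ → ∀ r ∈ Icc r₁ r₂, rho U (r, z) = 0 := by
        filter_upwards [hH] with z h8 hz'
        rcases h8 hz' with h9 | h9
        · exact h9
        · exact absurd (h6 z hz') (h9 r0 hr0)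
      rintro ⟨r, z⟩ ⟨hr', hz'⟩
      refine dens hz (hcV r hr') ?_ z hz'
      filter_upwards [h7] with w hw hw'
      exact hw hw' r hr'
  · left
    have h0 : ∃ z ∈ Icc z₁ z₂, ∀ r ∈ Icc r₁ r₂, rho U (r, z) = 0 := by
      by_contra hcon
      push Not at hcon
      refine c1 ?_
      filter_upwards [hH] with z h3 hz'
      rcases h3 hz' with h4 | h4
      · obtain ⟨r, hr', h5⟩ := hcon z hz'
        exact absurd (h4 r hr') h5
      · exact h4
    obtain ⟨z0, hz0, h6⟩ := h0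
    have h7 : ∀ᵐ r : ℝ, r ∈ Icc r₁ r₂ → ∀ z ∈ Icc z₁ z₂, rho U (r, z) = 0 := by
      filter_upwards [hV] with r h8 hr'
      rcases h8 hr' with h9 | h9
      · exact h9
      · exact absurd (h6 r hr') (h9 z0 hz0)
    rintro ⟨r, z⟩ ⟨hr', hz'⟩
    refine dens hr (hcH z hz') ?_ r hr'
    filter_upwards [h7] with w hw hw'
    exact hw hw' z hz'

end Pool.Agent.AXS
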