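import Pool.Agent.AXS.Targets

/-!
# Neighbourhoods with a boundary free of critical points
-/

set_option autoImplicit false

open Set MeasureTheory Filter Topology

namespace Pool.Agent.AXS

theorem exists_of_ae {q : ℝ → Prop} (h : ∀ᵐ z : ℝ, q z) {a b : ℝ} (hab : a < b) :
    ∃ z, a < z ∧ z < b ∧ q z := by
  have h1 : Dense {z | q z} := Measure.dense_of_ae h
  obtain ⟨z, hz1, hz2⟩ := h1.inter_open_nonempty (Ioo a b) isOpen_Ioo (nonempty_Ioo.mpr hab)
  exact ⟨z, hz1.1, hz1.2, hz2⟩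

theorem exists_box {P : Set (ℝ × ℝ)} (hP : IsOpen P) {y : ℝ × ℝ} (hy : y ∈ P) {b : ℝ}
    (hb : 0 < b) : ∃ ε, 0 < ε ∧ ε < b ∧
      Icc (y.1 - ε) (y.1 + ε) ×ˢ Icc (y.2 - ε) (y.2 + ε) ⊆ P := by
  obtain ⟨ε, hε, hsub⟩ := Metric.nhds_basis_closedBall.mem_iff.1 (hP.mem_nhds hy)
  refine ⟨min ε (b / 2), by positivity, (min_le_right _ _).trans_lt (by linarith), ?_⟩
  intro x hx
  apply hsub
  rw [Metric.mem_closedBall, Prod.dist_eq, max_le_iff, Real.dist_eq, Real.dist_eq, abs_le,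
    abs_le]
  have h1 : min ε (b / 2) ≤ ε := min_le_left _ _
  obtain ⟨⟨h2, h3⟩, h4, h5⟩ := hx
  refine ⟨⟨by linarith, by linarith⟩, by linarith, by linarith⟩

/-- a rectangle of critical points is excluded -/
theorem no_rect {P : Set (ℝ × ℝ)} {U : ℝ × ℝ → ℝ}
    (hno : ∀ x ∈ P, 0 < x.1 → ¬ ∀ᶠ x' in 𝓝 x, rho U x' = 0) {r₁ r₂ z₁ z₂ : ℝ} (hr1 : 0 < r₁)
    (hr : r₁ < r₂) (hz : z₁ < z₂) (hP : Icc r₁ r₂ ×ˢ Icc z₁ z₂ ⊆ P) :
    ¬ ∀ x ∈ Icc r₁ r₂ ×ˢ Icc z₁ z₂, rho U x = 0 := by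
  intro hcon
  have hm : ((r₁ + r₂) / 2, (z₁ + z₂) / 2) ∈ Ioo r₁ r₂ ×ˢ Ioo z₁ z₂ :=
    ⟨⟨by dsimp only; linarith, by dsimp only; linarith⟩,
      ⟨by dsimp only; linarith, by dsimp only; linarith⟩⟩
  have hsub : Ioo r₁ r₂ ×ˢ Ioo z₁ z₂ ⊆ Icc r₁ r₂ ×ˢ Icc z₁ z₂ :=
    prod_mono Ioo_subset_Icc_self Ioo_subset_Icc_self
  refine hno _ (hP (hsub hm)) (by dsimp only; linarith) ?_
  filter_upwards [(isOpen_Ioo.prod isOpen_Ioo).mem_nhds hm] with x hx
  exact hcon x (hsub hx)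

theorem p_NBHDP : T_NBHDP := by
  intro P U y hP hrho hlines haxis hno hy hy0
  rcases hy0.lt_or_eq with hy0 | hy0
  · -- off the axis
    obtain ⟨ε, hε, hεy, hbox⟩ := exists_box hP hy hy0
    rcases hlines (y.1 - ε) (y.1 + ε) (y.2 - ε) (y.2 + ε) (by linarith) (by linarith)
      (by linarith) hbox with h | ⟨hz, hr⟩
    · exact absurd h (no_rect hno (by linarith) (by linarith) (by linarith) hbox)
    · obtain ⟨z₁, hz1a, hz1b, hz1⟩ := exists_of_ae hz (by linarith : y.2 - ε < y.2)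
      obtain ⟨z₂, hz2a, hz2b, hz2⟩ := exists_of_ae hz (by linarith : y.2 < y.2 + ε)
      obtain ⟨r₁, hr1a, hr1b, hr1⟩ := exists_of_ae hr (by linarith : y.1 - ε < y.1)
      obtain ⟨r₂, hr2a, hr2b, hr2⟩ := exists_of_ae hr (by linarith : y.1 < y.1 + ε)
      replace hz1 := hz1 ⟨by linarith, by linarith⟩
      replace hz2 := hz2 ⟨by linarith, by linarith⟩
      replace hr1 := hr1 ⟨by linarith, by linarith⟩
      replace hr2 := hr2 ⟨by linarith, by linarith⟩
      set A : Set (ℝ × ℝ) := {r₁} ×ˢ Icc z₁ z₂ with hA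
      set B : Set (ℝ × ℝ) := Icc r₁ r₂ ×ˢ {z₁} with hB
      set C : Set (ℝ × ℝ) := {r₂} ×ˢ Icc z₁ z₂ with hC
      set D : Set (ℝ × ℝ) := Icc r₁ r₂ ×ˢ {z₂} with hD
      have hrr : r₁ ≤ r₂ := by linarith
      have hzz : z₁ ≤ z₂ := by linarith
      refine ⟨Ioo r₁ r₂ ×ˢ Ioo z₁ z₂, A ∪ B ∪ C ∪ D, isOpen_Ioo.prod isOpen_Ioo,
        (Metric.isBounded_Ioo _ _).prod (Metric.isBounded_Ioo _ _),
        ⟨⟨hr1b, hr2a⟩, ⟨hz1b, hz2a⟩⟩, ?_, ?_, ?_, ?_, ?_⟩
      · exact (((isCompact_singleton.prod isCompact_Icc).union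
          (isCompact_Icc.prod isCompact_singleton)).union
          (isCompact_singleton.prod isCompact_Icc)).union
          (isCompact_Icc.prod isCompact_singleton)
      · have cA : IsPreconnected A := isPreconnected_singleton.prod isPreconnected_Icc
        have cB : IsPreconnected B := isPreconnected_Icc.prod isPreconnected_singleton
        have cC : IsPreconnected C := isPreconnected_singleton.prod isPreconnected_Icc
        have cD : IsPreconnected D := isPreconnected_Icc.prod isPreconnected_singleton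
        have c1 : IsPreconnected (A ∪ B) :=
          cA.union (r₁, z₁) ⟨rfl, left_mem_Icc.mpr hzz⟩ ⟨left_mem_Icc.mpr hrr, rfl⟩ cB
        have c2 : IsPreconnected (A ∪ B ∪ C) :=
          c1.union (r₂, z₁) (Or.inr ⟨right_mem_Icc.mpr hrr, rfl⟩)
            ⟨rfl, left_mem_Icc.mpr hzz⟩ cC
        exact c2.union (r₂, z₂) (Or.inr ⟨rfl, right_mem_Icc.mpr hzz⟩)
          ⟨right_mem_Icc.mpr hrr, rfl⟩ cD
      · rintro ⟨r, z⟩ hx
        have hbx : r ∈ Icc r₁ r₂ ∧ z ∈ Icc z₁ z₂ := by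
          rcases hx with ((⟨h1, h2⟩ | ⟨h1, h2⟩) | ⟨h1, h2⟩) | ⟨h1, h2⟩
          · rw [mem_singleton_iff] at h1
            dsimp only at h1 h2
            rw [h1]
            exact ⟨left_mem_Icc.mpr hrr, h2⟩
          · rw [mem_singleton_iff] at h2
            dsimp only at h1 h2
            rw [h2]
            exact ⟨h1, left_mem_Icc.mpr hzz⟩
          · rw [mem_singleton_iff] at h1
            dsimp only at h1 h2
            rw [h1]
            exact ⟨right_mem_Icc.mpr hrr, h2⟩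
          · rw [mem_singleton_iff] at h2
            dsimp only at h1 h2
            rw [h2]
            exact ⟨h1, right_mem_Icc.mpr hzz⟩
        have hbr : r ∈ Icc (y.1 - ε) (y.1 + ε) := ⟨by linarith [hbx.1.1], by linarith [hbx.1.2]⟩
        have hbz : z ∈ Icc (y.2 - ε) (y.2 + ε) := ⟨by linarith [hbx.2.1], by linarith [hbx.2.2]⟩
        refine ⟨by dsimp only; linarith [hbr.1], hbox ⟨hbr, hbz⟩, ?_⟩
        rcases hx with ((⟨h1, h2⟩ | ⟨h1, h2⟩) | ⟨h1, h2⟩) | ⟨h1, h2⟩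
        · rw [mem_singleton_iff] at h1
          dsimp only at h1 h2
          rw [h1]
          exact hr1 z hbz
        · rw [mem_singleton_iff] at h2
          dsimp only at h1 h2
          rw [h2]
          exact hz1 r hbr
        · rw [mem_singleton_iff] at h1
          dsimp only at h1 h2
          rw [h1]
          exact hr2 z hbz
        · rw [mem_singleton_iff] at h2
          dsimp only at h1 h2
          rw [h2]
          exact hz2 r hbr
      · rintro ⟨r, z⟩ ⟨h1, h2⟩ _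
        dsimp only at h1 h2
        exact hbox ⟨⟨by dsimp only; linarith [h1.1], by dsimp only; linarith [h1.2]⟩,
          ⟨by dsimp only; linarith [h2.1], by dsimp only; linarith [h2.2]⟩⟩
      · rintro ⟨r, z⟩ hx _
        have h1 : closure (Ioo r₁ r₂ ×ˢ Ioo z₁ z₂) ⊆ Icc r₁ r₂ ×ˢ Icc z₁ z₂ :=
          closure_minimal (prod_mono Ioo_subset_Icc_self Ioo_subset_Icc_self)
            (isClosed_Icc.prod isClosed_Icc)
        obtain ⟨h2, h3⟩ := h1 hx
        dsimp only at h2 h3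
        by_cases e1 : r = r₁
        · exact Or.inr (Or.inl (Or.inl (Or.inl ⟨e1, h3⟩)))
        by_cases e2 : r = r₂
        · exact Or.inr (Or.inl (Or.inr ⟨e2, h3⟩))
        by_cases e3 : z = z₁
        · exact Or.inr (Or.inl (Or.inl (Or.inr ⟨h2, e3⟩)))
        by_cases e4 : z = z₂
        · exact Or.inr (Or.inr ⟨h2, e4⟩)
        left
        exact ⟨⟨lt_of_le_of_ne h2.1 (Ne.symm e1), lt_of_le_of_ne h2.2 e2⟩,
          ⟨lt_of_le_of_ne h3.1 (Ne.symm e3), lt_of_le_of_ne h3.2 e4⟩⟩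
  · -- on the axis
    obtain ⟨ε, hε, -, hbox⟩ := exists_box hP hy one_pos
    rw [← hy0] at hbox
    -- noncritical points of the axis
    have hax : ∀ z₁ z₂ : ℝ, z₁ < z₂ → y.2 - ε ≤ z₁ → z₂ ≤ y.2 + ε →
        ∃ z ∈ Icc z₁ z₂, rho U (0, z) ≠ 0 := by
      intro z₁ z₂ h12 h1 h2
      by_contra hcon
      push Not at hcon
      have hsub : Icc 0 ε ×ˢ Icc z₁ z₂ ⊆ P := by
        rintro ⟨r, z⟩ ⟨h3, h4⟩
        dsimp only at h3 h4
        exact hbox ⟨⟨by dsimp only; linarith [h3.1], by dsimp only; linarith [h3.2]⟩,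
          ⟨by dsimp only; linarith [h4.1], by dsimp only; linarith [h4.2]⟩⟩
      obtain ⟨r₁, hr1, hr2, hr3⟩ := haxis ε z₁ z₂ hε h12 hsub hcon
      refine no_rect hno hr1 hr2 h12 ?_ hr3
      refine Subset.trans (prod_mono ?_ subset_rfl) hsub
      exact Icc_subset_Icc_left hr1.le
    obtain ⟨z₁, ⟨hz1a, hz1b⟩, hz1⟩ := hax (y.2 - ε) (y.2 - ε / 2) (by linarith) le_rfl
      (by linarith)
    obtain ⟨z₂, ⟨hz2a, hz2b⟩, hz2⟩ := hax (y.2 + ε / 2) (y.2 + ε) (by linarith) (by linarith)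
      le_rfl
    have hnear : ∀ z : ℝ, y.2 - ε ≤ z → z ≤ y.2 + ε → rho U (0, z) ≠ 0 →
        ∃ η, 0 < η ∧ ∀ r, 0 ≤ r → r < η → rho U (r, z) ≠ 0 := by
      intro z h1 h2 h3
      have hmem : ((0 : ℝ), z) ∈ P := hbox ⟨⟨by dsimp only; linarith, by dsimp only; linarith⟩,
        ⟨h1, h2⟩⟩
      have hcz : ContinuousAt (rho U) (0, z) := hrho.continuousAt (hP.mem_nhds hmem)
      have h4 : ∀ᶠ x in 𝓝 ((0 : ℝ), z), rho U x ≠ 0 := hcz.eventually_ne h3
      have h5 : Tendsto (fun r : ℝ => (r, z)) (𝓝 0) (𝓝 ((0 : ℝ), z)) :=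
        (Continuous.prodMk_left z).tendsto 0
      obtain ⟨η, hη, h6⟩ := Metric.eventually_nhds_iff.mp (h5.eventually h4)
      refine ⟨η, hη, fun r hr0 hr1 => h6 ?_⟩
      rw [Real.dist_eq, sub_zero, abs_of_nonneg hr0]
      exact hr1
    obtain ⟨η₁, hη1, hn1⟩ := hnear z₁ hz1a (by linarith) hz1
    obtain ⟨η₂, hη2, hn2⟩ := hnear z₂ (by linarith) hz2b hz2
    set R := min ε (min η₁ η₂) with hR
    have hR0 : 0 < R := by positivity
    have hRε : R ≤ ε := min_le_left _ _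
    have hR1 : R ≤ η₁ := (min_le_right _ _).trans (min_le_left _ _)
    have hR2 : R ≤ η₂ := (min_le_right _ _).trans (min_le_right _ _)
    have hzz' : z₁ < z₂ := by linarith
    have hsubP : Icc (R / 2) R ×ˢ Icc z₁ z₂ ⊆ P := by
      rintro ⟨r, z⟩ ⟨h3, h4⟩
      dsimp only at h3 h4
      exact hbox ⟨⟨by dsimp only; linarith [h3.1], by dsimp only; linarith [h3.2]⟩,
        ⟨by dsimp only; linarith [h4.1], by dsimp only; linarith [h4.2]⟩⟩
    rcases hlines (R / 2) R z₁ z₂ (by linarith) (by linarith) hzz' hsubP with h | ⟨-, hr⟩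
    · exact absurd h (no_rect hno (by linarith) (by linarith) hzz' hsubP)
    · obtain ⟨r₂, hr2a, hr2b, hr2⟩ := exists_of_ae hr (by linarith : R / 2 < R)
      replace hr2 := hr2 ⟨by linarith, by linarith⟩
      set B : Set (ℝ × ℝ) := Icc 0 r₂ ×ˢ {z₁} with hB
      set C : Set (ℝ × ℝ) := {r₂} ×ˢ Icc z₁ z₂ with hC
      set D : Set (ℝ × ℝ) := Icc 0 r₂ ×ˢ {z₂} with hD
      have hrr : 0 ≤ r₂ := by linarith
      have hzz : z₁ ≤ z₂ := by linarith
      refine ⟨Ioo (-1) r₂ ×ˢ Ioo z₁ z₂, B ∪ C ∪ D, isOpen_Ioo.prod isOpen_Ioo,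
        (Metric.isBounded_Ioo _ _).prod (Metric.isBounded_Ioo _ _),
        ⟨⟨by rw [← hy0]; norm_num, by rw [← hy0]; linarith⟩, ⟨by linarith, by linarith⟩⟩,
        ?_, ?_, ?_, ?_, ?_⟩
      · exact ((isCompact_Icc.prod isCompact_singleton).union
          (isCompact_singleton.prod isCompact_Icc)).union
          (isCompact_Icc.prod isCompact_singleton)
      · have cB : IsPreconnected B := isPreconnected_Icc.prod isPreconnected_singleton
        have cC : IsPreconnected C := isPreconnected_singleton.prod isPreconnected_Icc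
        have cD : IsPreconnected D := isPreconnected_Icc.prod isPreconnected_singleton
        have c2 : IsPreconnected (B ∪ C) :=
          cB.union (r₂, z₁) ⟨right_mem_Icc.mpr hrr, rfl⟩ ⟨rfl, left_mem_Icc.mpr hzz⟩ cC
        exact c2.union (r₂, z₂) (Or.inr ⟨rfl, right_mem_Icc.mpr hzz⟩)
          ⟨right_mem_Icc.mpr hrr, rfl⟩ cD
      · rintro ⟨r, z⟩ hx
        have hbx : r ∈ Icc 0 r₂ ∧ z ∈ Icc z₁ z₂ := by
          rcases hx with (⟨h1, h2⟩ | ⟨h1, h2⟩) | ⟨h1, h2⟩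
          · rw [mem_singleton_iff] at h2
            dsimp only at h1 h2
            rw [h2]
            exact ⟨h1, left_mem_Icc.mpr hzz⟩
          · rw [mem_singleton_iff] at h1
            dsimp only at h1 h2
            rw [h1]
            exact ⟨right_mem_Icc.mpr hrr, h2⟩
          · rw [mem_singleton_iff] at h2
            dsimp only at h1 h2
            rw [h2]
            exact ⟨h1, right_mem_Icc.mpr hzz⟩
        refine ⟨hbx.1.1, hbox ⟨⟨by dsimp only; linarith [hbx.1.1], by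
          dsimp only; linarith [hbx.1.2]⟩, ⟨by dsimp only; linarith [hbx.2.1], by
          dsimp only; linarith [hbx.2.2]⟩⟩, ?_⟩
        rcases hx with (⟨h1, h2⟩ | ⟨h1, h2⟩) | ⟨h1, h2⟩
        · rw [mem_singleton_iff] at h2
          dsimp only at h1 h2
          rw [h2]
          exact hn1 r h1.1 (by linarith [h1.2])
        · rw [mem_singleton_iff] at h1
          dsimp only at h1 h2
          rw [h1]
          exact hr2 z h2
        · rw [mem_singleton_iff] at h2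
          dsimp only at h1 h2
          rw [h2]
          exact hn2 r h1.1 (by linarith [h1.2])
      · rintro ⟨r, z⟩ ⟨h1, h2⟩ h3
        dsimp only at h1 h2 h3
        exact hbox ⟨⟨by dsimp only; linarith [h1.1], by dsimp only; linarith [h1.2]⟩,
          ⟨by dsimp only; linarith [h2.1], by dsimp only; linarith [h2.2]⟩⟩
      · rintro ⟨r, z⟩ hx hr0
        have h1 : closure (Ioo (-1) r₂ ×ˢ Ioo z₁ z₂) ⊆ Icc (-1) r₂ ×ˢ Icc z₁ z₂ :=
          closure_minimal (prod_mono Ioo_subset_Icc_self Ioo_subset_Icc_self)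
            (isClosed_Icc.prod isClosed_Icc)
        obtain ⟨h2, h3⟩ := h1 hx
        dsimp only at h2 h3 hr0
        by_cases e2 : r = r₂
        · exact Or.inr (Or.inl (Or.inr ⟨e2, h3⟩))
        by_cases e3 : z = z₁
        · exact Or.inr (Or.inl (Or.inl ⟨⟨hr0, h2.2⟩, e3⟩))
        by_cases e4 : z = z₂
        · exact Or.inr (Or.inr ⟨⟨hr0, h2.2⟩, e4⟩)
        left
        exact ⟨⟨by dsimp only; linarith, lt_of_le_of_ne h2.2 e2⟩,
          ⟨lt_of_le_of_ne h3.1 (Ne.symm e3), lt_of_le_of_ne h3.2 e4⟩⟩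

end Pool.Agent.AXS
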