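import Pool.Agent.AXS.Targets

/-!
# Axially symmetric `p`-harmonic functions: positivity of the quadratic form
-/

set_option autoImplicit false

open Set MeasureTheory Filter Topology

namespace Pool.Agent.AXS

/-- completing the squares -/
theorem pos_abs (q k k' B : ℝ) (hq : 0 < q) (hk : 0 < k) (hk' : 0 < k') (hB : 0 ≤ B) :
    ∃ c₀ : ℝ, 0 < c₀ ∧ ∀ X Y τ s c α R S₀ S₁ : ℝ, s ^ 2 + c ^ 2 = 1 →
      k' * α ^ 2 ≤ S₀ - α ^ 2 / 4 → k ≤ S₀ + S₁ - q * R ^ 2 / 4 → R ^ 2 ≤ B →
      c₀ * (X ^ 2 + Y ^ 2 + (s * τ) ^ 2) ≤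
        X ^ 2 + Y ^ 2 / q - α * (τ * c * X) + R * (τ * s * Y) + τ ^ 2 * (S₀ + S₁ * s ^ 2) := by
  have hD : 0 < q ^ 2 * B / 2 + 1 := by positivity
  refine ⟨min (min (1 / 2) (1 / (2 * q))) (min (2 * k') (k / (q ^ 2 * B / 2 + 1))),
    by positivity, ?_⟩
  intro X Y τ s c α R S₀ S₁ hsc h0 h1 hR
  set c₀ := min (min (1 / 2) (1 / (2 * q))) (min (2 * k') (k / (q ^ 2 * B / 2 + 1))) with hc0
  have a1 : c₀ ≤ 1 / 2 := (min_le_left _ _).trans (min_le_left _ _)
  have a2 : c₀ ≤ 1 / (2 * q) := (min_le_left _ _).trans (min_le_right _ _)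
  have a3 : c₀ ≤ 2 * k' := (min_le_right _ _).trans (min_le_left _ _)
  have a4 : c₀ ≤ k / (q ^ 2 * B / 2 + 1) := (min_le_right _ _).trans (min_le_right _ _)
  have hc : 0 < c₀ := by positivity
  have a4' : c₀ * (q ^ 2 * B / 2 + 1) ≤ k := by
    rw [le_div_iff₀ hD] at a4
    exact a4
  have hid : X ^ 2 + Y ^ 2 / q - α * (τ * c * X) + R * (τ * s * Y) + τ ^ 2 * (S₀ + S₁ * s ^ 2) =
      (X - α * c * τ / 2) ^ 2 + (Y + q * R * s * τ / 2) ^ 2 / q +
        (c * τ) ^ 2 * (S₀ - α ^ 2 / 4) + (s * τ) ^ 2 * (S₀ + S₁ - q * R ^ 2 / 4) := by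
    have hc2 : c ^ 2 = 1 - s ^ 2 := by linarith
    field_simp
    ring_nf
    rw [hc2]
    ring
  rw [hid]
  have b1 : (c * τ) ^ 2 * (k' * α ^ 2) ≤ (c * τ) ^ 2 * (S₀ - α ^ 2 / 4) :=
    mul_le_mul_of_nonneg_left h0 (sq_nonneg _)
  have b2 : (s * τ) ^ 2 * k ≤ (s * τ) ^ 2 * (S₀ + S₁ - q * R ^ 2 / 4) :=
    mul_le_mul_of_nonneg_left h1 (sq_nonneg _)
  have b3 : X ^ 2 ≤ 2 * (X - α * c * τ / 2) ^ 2 + (α * c * τ) ^ 2 / 2 := by
    nlinarith [sq_nonneg (X - α * c * τ)]
  have b4 : Y ^ 2 ≤ 2 * (Y + q * R * s * τ / 2) ^ 2 + (q * R * s * τ) ^ 2 / 2 := by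
    nlinarith [sq_nonneg (Y + q * R * s * τ)]
  have b5 : (q * R * s * τ) ^ 2 ≤ q ^ 2 * B * (s * τ) ^ 2 := by
    have : (q * R * s * τ) ^ 2 = q ^ 2 * (s * τ) ^ 2 * R ^ 2 := by ring
    rw [this]
    have : q ^ 2 * B * (s * τ) ^ 2 = q ^ 2 * (s * τ) ^ 2 * B := by ring
    rw [this]
    exact mul_le_mul_of_nonneg_left hR (by positivity)
  set u := (X - α * c * τ / 2) ^ 2 with hu
  set v := (Y + q * R * s * τ / 2) ^ 2 with hv
  have hu0 : 0 ≤ u := sq_nonneg _
  have hv0 : 0 ≤ v := sq_nonneg _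
  have c1 : c₀ * (2 * u) ≤ u := by nlinarith
  have c2 : c₀ * (2 * v) ≤ v / q := by
    have : c₀ * (2 * v) ≤ 1 / (2 * q) * (2 * v) := mul_le_mul_of_nonneg_right a2 (by positivity)
    refine this.trans (le_of_eq ?_)
    field_simp
  have c3 : c₀ * ((α * c * τ) ^ 2 / 2) ≤ (c * τ) ^ 2 * (k' * α ^ 2) := by
    have : c₀ * ((α * c * τ) ^ 2 / 2) ≤ 2 * k' * ((α * c * τ) ^ 2 / 2) :=
      mul_le_mul_of_nonneg_right a3 (by positivity)
    refine this.trans (le_of_eq ?_)
    ring
  have c4 : c₀ * (q ^ 2 * B * (s * τ) ^ 2 / 2 + (s * τ) ^ 2) ≤ (s * τ) ^ 2 * k := by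
    have : c₀ * (q ^ 2 * B / 2 + 1) * (s * τ) ^ 2 ≤ k * (s * τ) ^ 2 :=
      mul_le_mul_of_nonneg_right a4' (sq_nonneg _)
    linarith
  have c5 : c₀ * (X ^ 2 + Y ^ 2 + (s * τ) ^ 2) ≤ c₀ * (2 * u + (α * c * τ) ^ 2 / 2 +
      (2 * v + q ^ 2 * B * (s * τ) ^ 2 / 2) + (s * τ) ^ 2) := by
    apply mul_le_mul_of_nonneg_left _ hc.le
    linarith
  have c6 : c₀ * (2 * u + (α * c * τ) ^ 2 / 2 + (2 * v + q ^ 2 * B * (s * τ) ^ 2 / 2) +
      (s * τ) ^ 2) = c₀ * (2 * u) + c₀ * ((α * c * τ) ^ 2 / 2) + c₀ * (2 * v) +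
      c₀ * (q ^ 2 * B * (s * τ) ^ 2 / 2 + (s * τ) ^ 2) := by ring
  linarith

/-- the remainder in the low region (`4 q` times) -/
theorem pos_low {e v y G : ℝ} (he : 0 < e) (hv : 0 < v) (hy : 0 < y) (h : (e + v + 1) * y = v)
    (hG0 : 0 ≤ G) (hG1 : G ≤ 1) :
    3 * (v * e) ≤ 4 * v * G * e + 4 * v * G ^ 2 * y + 4 * (e + v) * (e + G * y) - 4 * v * G * y -
      (2 * e + G * (y + v - v * y)) ^ 2 := by
  have hK : y + v - v * y = y * (e + 2) := by linear_combination (-1) * h
  rw [hK]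
  have hye : y ^ 2 * e ^ 2 ≤ v * e := by
    have hD : 0 < (e + v + 1) ^ 2 := by positivity
    have h1 : y ^ 2 * e ^ 2 * (e + v + 1) ^ 2 = v ^ 2 * e ^ 2 := by
      have : y ^ 2 * e ^ 2 * (e + v + 1) ^ 2 = ((e + v + 1) * y) ^ 2 * e ^ 2 := by ring
      rw [this, h]
    have h2 : v ^ 2 * e ^ 2 ≤ v * e * (e + v + 1) ^ 2 := by
      have : v * e ≤ (e + v + 1) ^ 2 := by nlinarith [mul_pos he hv]
      have h3 := mul_le_mul_of_nonneg_left this (mul_pos hv he).le
      nlinarith
    rw [← h1] at h2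
    exact le_of_mul_le_mul_right h2 hD
  have hid : 4 * v * G * e + 4 * v * G ^ 2 * y + 4 * (e + v) * (e + G * y) - 4 * v * G * y -
      (2 * e + G * (y * (e + 2))) ^ 2 = 4 * (v * e) + 4 * G * (v * e - y * e * (e + 1)) +
      G ^ 2 * (4 * v * y - y ^ 2 * (e + 2) ^ 2) := by ring
  rw [hid]
  have h4 : v * e - y * e * (e + 1) = e * v * y := by
    linear_combination (- e) * h
  have h5 : 4 * v * y - y ^ 2 * (e + 2) ^ 2 = 4 * v * y ^ 2 - y ^ 2 * e ^ 2 := by
    linear_combination (- 4 * y) * h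
  rw [h4, h5]
  have h6 : 0 ≤ G * (e * v * y) := by positivity
  have h7 : 0 ≤ G ^ 2 * (4 * v * y ^ 2) := by positivity
  have h8 : G ^ 2 * (y ^ 2 * e ^ 2) ≤ 1 * (v * e) := by
    have : G ^ 2 ≤ 1 := by nlinarith
    calc G ^ 2 * (y ^ 2 * e ^ 2) ≤ 1 * (y ^ 2 * e ^ 2) :=
          mul_le_mul_of_nonneg_right this (by positivity)
      _ ≤ 1 * (v * e) := mul_le_mul_of_nonneg_left hye (by norm_num)
  nlinarith

/-- the remainder in the high region (`4 q` times) -/
theorem pos_high {e v y j L : ℝ} (he : 0 < e) (hv : 0 < v) (hy : 0 < y)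
    (h : (e + v + 1) * y = v) (hL : 1 ≤ L) (hj0 : 0 ≤ j) (hj1 : j ≤ 1) :
    3 * (v * e) ≤ 4 * v * e * L + 4 * v * y + 4 * (e + v) * (e + y * j) -
      (2 * e + v + y * j - y * v) ^ 2 := by
  have hyv : y ≤ v := by nlinarith [mul_pos he hy, mul_pos hv hy]
  have hid : 4 * v * e * L + 4 * v * y + 4 * (e + v) * (e + y * j) -
      (2 * e + v + y * j - y * v) ^ 2 = 4 * v * e * (L - 1) +
      j * y * (2 * v + 2 * (y * v) - y * j) +
      (4 * (v * e) + 4 * v * y * (1 + e) - v ^ 2 * (1 - y) ^ 2) := by ring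
  rw [hid]
  have h1 : 0 ≤ 4 * v * e * (L - 1) := by
    have : 0 ≤ L - 1 := by linarith
    positivity
  have h2 : 0 ≤ j * y * (2 * v + 2 * (y * v) - y * j) := by
    have h3 : y * j ≤ y * 1 := mul_le_mul_of_nonneg_left hj1 hy.le
    have h4 : 0 ≤ 2 * v + 2 * (y * v) - y * j := by
      nlinarith [mul_pos hy hv]
    positivity
  have h3 : v ^ 2 * (1 - y) ^ 2 ≤ 4 * v * y * (1 + e) := by
    have hD : 0 < e + v + 1 := by positivity
    have e1 : (1 - y) * (e + v + 1) = e + 1 := by linear_combination (-1) * h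
    have e2 : v ^ 2 * (1 - y) ^ 2 * (e + v + 1) ^ 2 = v ^ 2 * (e + 1) ^ 2 := by
      have : v ^ 2 * (1 - y) ^ 2 * (e + v + 1) ^ 2 = v ^ 2 * ((1 - y) * (e + v + 1)) ^ 2 := by
        ring
      rw [this, e1]
    have e3 : 4 * v * y * (1 + e) * (e + v + 1) ^ 2 = 4 * v ^ 2 * (1 + e) * (e + v + 1) := by
      have : 4 * v * y * (1 + e) * (e + v + 1) ^ 2 =
        4 * v * ((e + v + 1) * y) * (1 + e) * (e + v + 1) := by ring
      rw [this, h]
      ring
    have e4 : v ^ 2 * (e + 1) ^ 2 ≤ 4 * v ^ 2 * (1 + e) * (e + v + 1) := by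
      have : (e + 1) ^ 2 ≤ 4 * ((1 + e) * (e + v + 1)) := by
        nlinarith [mul_pos he hv]
      have h5 := mul_le_mul_of_nonneg_left this (sq_nonneg v)
      nlinarith
    rw [← e2, ← e3] at e4
    exact le_of_mul_le_mul_right e4 (by positivity)
  nlinarith [mul_pos hv he]

theorem p_POS : T_POS := by
  intro p m hp hm
  have hq : 0 < p - 1 := by linarith
  have hp0 : 0 < p := by linarith
  have hm0 : 0 < m := by linarith
  set q := p - 1 with hqdef
  set e := e1 p m with he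
  set y := y0 p m with hy
  have he0 : 0 < e := by
    rw [he]
    unfold e1
    positivity
  have hy0 : 0 < y := by
    rw [hy]
    unfold y0
    positivity
  set v := q * e with hv
  have hv0 : 0 < v := by positivity
  have hmev : m = e + v := by
    rw [hv, he, hqdef]
    unfold e1
    field_simp
    ring
  have hrel : (e + v + 1) * y = v := by
    rw [← hmev, hy, hv, he, hqdef]
    unfold y0 e1
    field_simp
  have hy1 : y < 1 := by nlinarith [mul_pos he0 hy0, mul_pos hv0 hy0]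
  have hk' : 0 < (1 - (1 + y) ^ 2 / 4) / (1 + y) ^ 2 := by
    have : 0 < 1 - (1 + y) ^ 2 / 4 := by nlinarith
    positivity
  set B := (m / q + e + e / q + y / q + y * e) ^ 2 with hB
  obtain ⟨c₀, hc₀, H⟩ := pos_abs q (3 * e ^ 2 / 4) ((1 - (1 + y) ^ 2 / 4) / (1 + y) ^ 2) B hq
    (by positivity) hk' (sq_nonneg _)
  refine ⟨c₀, hc₀, ?_⟩
  intro w t s c X Y τ hw ht0 ht1 hwt hsc
  by_cases hw1 : w ≤ 1
  · -- the low region
    have hPsi : Psi w = w := if_pos hw1
    have hPhi : Phi w = w := if_pos hw1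
    have hPsid : Psid w = 1 := if_pos hw1
    set G := 1 - (1 - t) ^ 2 with hG
    have hG0 : 0 ≤ G := by nlinarith
    have hG1 : G ≤ 1 := by nlinarith [sq_nonneg (1 - t)]
    have hlam : 2 * (1 - t) * t ≤ G := by nlinarith
    have hlam0 : 0 ≤ 2 * (1 - t) * t := by
      have : 0 ≤ 1 - t := by linarith
      positivity
    set R := m / q - (1 - G) * e + e / q + G * y / q - G * y * e with hR
    have key := H X Y τ s c (G * e * (1 + y)) R (G * e ^ 2)
      (G ^ 2 * y * e + m / q * (e + G * y) - 2 * (1 - t) * t * y * e) hsc ?_ ?_ ?_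
    · have hQ : QF p m w t s c X Y τ = w * (X ^ 2 + Y ^ 2 / q - G * e * (1 + y) * (τ * c * X) +
          R * (τ * s * Y) + τ ^ 2 * (G * e ^ 2 + (G ^ 2 * y * e + m / q * (e + G * y) -
            2 * (1 - t) * t * y * e) * s ^ 2)) := by
        unfold QF
        rw [hPsi, hPhi, hPsid, ← he, ← hy, ← hqdef, ← hG, hR]
        have : (1 - t) ^ 2 = 1 - G := by rw [hG]; ring
        rw [this]
        ring
      rw [hQ, hPsi]
      have := mul_le_mul_of_nonneg_left key hw.le
      linarith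
    · have h1 : G ^ 2 ≤ G := by nlinarith
      have h2 : (1 - (1 + y) ^ 2 / 4) / (1 + y) ^ 2 * (G * e * (1 + y)) ^ 2 =
          (1 - (1 + y) ^ 2 / 4) * e ^ 2 * G ^ 2 := by
        have : (1 + y) ^ 2 ≠ 0 := by positivity
        field_simp
      rw [h2]
      have h3 : 0 ≤ e ^ 2 * (G - G ^ 2) := by
        have : 0 ≤ G - G ^ 2 := by linarith
        positivity
      nlinarith
    · have h1 := pos_low he0 hv0 hy0 hrel hG0 hG1
      have h2 : q * R = 2 * e + G * (y + v - v * y) := by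
        rw [hR, hmev]
        field_simp
        rw [hv]
        ring
      have h3 : 4 * q * (G * e ^ 2 + (G ^ 2 * y * e + m / q * (e + G * y) -
          2 * (1 - t) * t * y * e) - q * R ^ 2 / 4) = 4 * v * G * e + 4 * v * G ^ 2 * y +
          4 * m * (e + G * y) - 4 * v * (2 * (1 - t) * t) * y - (q * R) ^ 2 := by
        rw [hv]
        field_simp
        ring
      have h4 : 4 * v * (2 * (1 - t) * t) * y ≤ 4 * v * G * y := by
        have := mul_le_mul_of_nonneg_left hlam (by positivity : 0 ≤ 4 * v * y)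
        linarith
      have h5 : 4 * q * (3 * e ^ 2 / 4) = 3 * (v * e) := by
        rw [hv]
        ring
      have h6 : 4 * q * (3 * e ^ 2 / 4) ≤ 4 * q * (G * e ^ 2 + (G ^ 2 * y * e +
          m / q * (e + G * y) - 2 * (1 - t) * t * y * e) - q * R ^ 2 / 4) := by
        rw [h3, h5, h2]
        have : 4 * m * (e + G * y) = 4 * (e + v) * (e + G * y) := by rw [← hmev]
        linarith
      exact le_of_mul_le_mul_left h6 (by positivity)
    · rw [hB]
      have hmq : 0 < m / q := by positivity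
      have heq : 0 < e / q := by positivity
      have hyq : 0 < y / q := by positivity
      have hye : 0 < y * e := by positivity
      have h1 : (1 - G) * e ≤ e := by nlinarith
      have h2 : 0 ≤ (1 - G) * e := by
        have : 0 ≤ 1 - G := by linarith
        positivity
      have h3 : G * y / q ≤ y / q := by
        rw [mul_div_assoc]
        nlinarith
      have h4 : 0 ≤ G * y / q := by positivity
      have h5 : G * y * e ≤ y * e := by
        rw [mul_assoc]
        nlinarith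
      have h6 : 0 ≤ G * y * e := by positivity
      apply sq_le_sq'
      · rw [hR]
        linarith
      · rw [hR]
        linarith
  · -- the high region
    push Not at hw1
    have ht : t = 1 := by
      by_contra hne
      have := hwt (lt_of_le_of_ne ht1 hne)
      linarith
    subst ht
    have hPsi : Psi w = 2 - 1 / w := if_neg (not_le.mpr hw1)
    have hPhi : Phi w = 2 * Real.log w + 1 / w := if_neg (not_le.mpr hw1)
    have hPsid : Psid w = 1 / w ^ 2 := if_neg (not_le.mpr hw1)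
    have hw' : 1 / w < 1 := by
      rw [div_lt_one hw]
      exact hw1
    have hw'' : 0 < 1 / w := by positivity
    set ψ := Psi w with hψ
    have hψ0 : 0 < ψ := by
      rw [hPsi]
      linarith
    have hlog : 1 - 1 / w ≤ Real.log w := by
      have h1 := Real.one_sub_inv_le_log_of_pos hw
      rwa [← one_div] at h1
    have hL : 1 ≤ Phi w / ψ := by
      rw [le_div_iff₀ hψ0, one_mul, hPhi, hPsi]
      linarith
    set j := w * Psid w / ψ with hj
    have hj0 : 0 ≤ j := by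
      rw [hj, hPsid]
      positivity
    have hj1 : j ≤ 1 := by
      rw [hj, div_le_one hψ0, hPsid, hPsi]
      have : w * (1 / w ^ 2) = 1 / w := by
        field_simp
      rw [this]
      linarith
    set L := Phi w / ψ with hLdef
    set R := m / q + e / q + y * j / q - y * e with hR
    have key := H X Y τ s c (e * (1 + y)) R (e ^ 2 * L) (y * e + m / q * (e + y * j)) hsc ?_ ?_ ?_
    · have hQ : QF p m w 1 s c X Y τ = ψ * (X ^ 2 + Y ^ 2 / q - e * (1 + y) * (τ * c * X) +
          R * (τ * s * Y) + τ ^ 2 * (e ^ 2 * L + (y * e + m / q * (e + y * j)) * s ^ 2)) := by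
        have e1 : Phi w = ψ * L := by
          rw [hLdef]
          field_simp
        have e2 : w * Psid w = ψ * j := by
          rw [hj]
          field_simp
        unfold QF
        rw [← he, ← hy, ← hqdef, ← hψ, e1, e2, hR]
        ring
      rw [hQ]
      have := mul_le_mul_of_nonneg_left key hψ0.le
      linarith
    · have h2 : (1 - (1 + y) ^ 2 / 4) / (1 + y) ^ 2 * (e * (1 + y)) ^ 2 =
          (1 - (1 + y) ^ 2 / 4) * e ^ 2 := by
        have : (1 + y) ^ 2 ≠ 0 := by positivity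
        field_simp
      rw [h2]
      have h3 : 0 ≤ e ^ 2 * (L - 1) := by
        have : 0 ≤ L - 1 := by linarith
        positivity
      nlinarith
    · have h1 := pos_high he0 hv0 hy0 hrel hL hj0 hj1
      have h2 : q * R = 2 * e + v + y * j - y * v := by
        rw [hR, hmev]
        field_simp
        rw [hv]
        ring
      have h3 : 4 * q * (e ^ 2 * L + (y * e + m / q * (e + y * j)) - q * R ^ 2 / 4) =
          4 * v * e * L + 4 * v * y + 4 * m * (e + y * j) - (q * R) ^ 2 := by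
        rw [hv]
        field_simp
        ring
      have h5 : 4 * q * (3 * e ^ 2 / 4) = 3 * (v * e) := by
        rw [hv]
        ring
      have h6 : 4 * q * (3 * e ^ 2 / 4) ≤
          4 * q * (e ^ 2 * L + (y * e + m / q * (e + y * j)) - q * R ^ 2 / 4) := by
        rw [h3, h5, h2]
        have : 4 * m * (e + y * j) = 4 * (e + v) * (e + y * j) := by rw [← hmev]
        linarith
      exact le_of_mul_le_mul_left h6 (by positivity)
    · rw [hB]
      have hmq : 0 < m / q := by positivity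
      have heq : 0 < e / q := by positivity
      have hyq : 0 < y / q := by positivity
      have hye : 0 < y * e := by positivity
      have h3 : y * j / q ≤ y / q := by
        apply div_le_div_of_nonneg_right _ hq.le
        nlinarith
      have h4 : 0 ≤ y * j / q := by positivity
      apply sq_le_sq'
      · rw [hR]
        linarith
      · rw [hR]
        linarith

end Pool.Agent.AXS
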