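import Pool.Agent.AXS.REDG

/-!
# The second derivative in the direction of the rotations
-/

set_option autoImplicit false

open Set MeasureTheory Filter Topology
open scoped RealInnerProductSpace
open Pool.Agent.SCP (E PHarm hs Eqn Sub)

namespace Pool.Agent.AXS

theorem p_REDH : T_REDH := by
  intro n Ω u a e f g y _ hΩ hf hinv hy hy0 hu hg hge hgf
  set x := axm a f e y with hx
  have hdiff : ∀ᶠ x' in 𝓝 x, DifferentiableAt ℝ u x' := by
    have h1 : ∀ᶠ x' in 𝓝 x, ContDiffAt ℝ 2 u x' := hu.eventually (by simp)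
    filter_upwards [h1] with x' hx'
    exact hx'.differentiableAt (by norm_num)
  have hzero : ∀ᶠ x' in 𝓝 x,
      ⟪gradient u x', ⟪x' - a, g⟫ • f - ⟪x' - a, f⟫ • g⟫ = 0 := by
    filter_upwards [hdiff, hΩ.mem_nhds hy] with x' hx' hx'Ω
    apply inner_gradient_eq_zero hΩ hinv hx'Ω hx'
    · rw [inner_sub_left, inner_smul_left, inner_smul_left, hf.orth, hge]
      simp
    · rw [inner_sub_left, inner_smul_left, inner_smul_left, real_inner_comm (x' - a) f,
        real_inner_comm (x' - a) g]
      simp only [conj_trivial]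
      ring
  -- the derivative in the direction `g`
  have hgd : HasFDerivAt (gradient u) (hs u x) x := by
    have h1 : ContDiffAt ℝ 1 (gradient u) x := Pool.Agent.SCP.contDiffAt_gradient hu
    exact (h1.differentiableAt (by norm_num)).hasFDerivAt
  have hc : HasDerivAt (fun t : ℝ => x + t • g) g 0 := by
    have := ((hasDerivAt_id (0 : ℝ)).smul_const g).const_add x
    simpa using this
  have hd1 : HasDerivAt (fun t : ℝ => gradient u (x + t • g)) (hs u x g) 0 := by
    have h3 : HasFDerivAt (gradient u) (hs u x) (x + (0 : ℝ) • g) := by simpa using hgd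
    exact h3.comp_hasDerivAt (0 : ℝ) hc
  have hxa : x - a = y.1 • f + y.2 • e := by
    rw [hx]
    unfold axm
    abel
  have hff : ⟪f, f⟫ = 1 := by rw [real_inner_self_eq_norm_sq, hf.norm_f]; norm_num
  have hgg : ⟪g, g⟫ = 1 := by rw [real_inner_self_eq_norm_sq, hg]; norm_num
  have hfg : ⟪f, g⟫ = 0 := by rw [real_inner_comm]; exact hgf
  have heg : ⟪e, g⟫ = 0 := by rw [real_inner_comm]; exact hge
  have hef : ⟪e, f⟫ = 0 := by rw [real_inner_comm]; exact hf.orth
  have hR : ∀ t : ℝ, ⟪x + t • g - a, g⟫ • f - ⟪x + t • g - a, f⟫ • g = t • f - y.1 • g := by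
    intro t
    have e1 : x + t • g - a = (x - a) + t • g := by abel
    rw [e1, hxa]
    simp only [inner_add_left, inner_smul_left, conj_trivial, hff, hgg, hfg, heg, hef, hgf]
    simp
  have hd2 : HasDerivAt (fun t : ℝ => t • f - y.1 • g) f 0 := by
    have := ((hasDerivAt_id (0 : ℝ)).smul_const f).sub_const (y.1 • g)
    simpa using this
  have hd3 : HasDerivAt (fun t : ℝ => ⟪gradient u (x + t • g), t • f - y.1 • g⟫)
      (⟪gradient u (x + (0 : ℝ) • g), f⟫ + ⟪hs u x g, (0 : ℝ) • f - y.1 • g⟫) 0 :=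
    hd1.inner ℝ hd2
  have hz : (fun t : ℝ => ⟪gradient u (x + t • g), t • f - y.1 • g⟫) =ᶠ[𝓝 0]
      fun _ => (0 : ℝ) := by
    have h4 : Tendsto (fun t : ℝ => x + t • g) (𝓝 0) (𝓝 x) := by
      have := hc.continuousAt.tendsto
      simpa using this
    filter_upwards [h4.eventually hzero] with t ht
    rw [← hR t]
    exact ht
  have h5 := (hd3.congr_of_eventuallyEq hz.symm).unique (hasDerivAt_const (0 : ℝ) (0 : ℝ))
  rw [zero_smul, zero_smul, add_zero, zero_sub, inner_neg_right, inner_smul_right] at h5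
  rw [d1_comp (hu.differentiableAt (by norm_num))]
  rw [eq_div_iff hy0.ne']
  linarith

end Pool.Agent.AXS
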