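import Pool.Agent.AXS.Targets

/-!
# REDP: the equation of the profile
-/

set_option autoImplicit false

open Set MeasureTheory Filter Topology
open scoped RealInnerProductSpace
open Pool.Agent.SCP (E PHarm hs Eqn Sub)

namespace Pool.Agent.AXS

namespace REDP_

variable {n : ℕ}

/-- the linear part of `axm` -/
noncomputable def lin (f e : E n) : ℝ × ℝ →L[ℝ] E n :=
  (ContinuousLinearMap.fst ℝ ℝ ℝ).smulRight f + (ContinuousLinearMap.snd ℝ ℝ ℝ).smulRight e

theorem lin_apply (f e : E n) (v : ℝ × ℝ) : lin f e v = v.1 • f + v.2 • e := by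
  simp [lin]

theorem lin_one (f e : E n) : lin f e (1, 0) = f := by
  simp [lin]

theorem lin_two (f e : E n) : lin f e (0, 1) = e := by
  simp [lin]

theorem axm_eq (a f e : E n) : axm a f e = fun y => a + lin f e y := by
  funext y
  rw [lin_apply, axm, add_assoc]

theorem contDiff_axm (a f e : E n) {k : WithTop ℕ∞} : ContDiff ℝ k (axm a f e) := by
  rw [axm_eq]
  exact contDiff_const.add (lin f e).contDiff

theorem hasFDerivAt_axm (a f e : E n) (y : ℝ × ℝ) : HasFDerivAt (axm a f e) (lin f e) y := by
  rw [axm_eq]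
  exact (lin f e).hasFDerivAt.const_add a

/-- the second derivatives of the profile -/
theorem second {u : E n → ℝ} {a f e : E n} {y : ℝ × ℝ} (h : ContDiffAt ℝ 2 u (axm a f e y))
    (v w : ℝ × ℝ) : fderiv ℝ (fun z => fderiv ℝ (u ∘ axm a f e) z v) y w =
      fderiv ℝ (fderiv ℝ u) (axm a f e y) (lin f e w) (lin f e v) := by
  have hc : Continuous (axm a f e) := (contDiff_axm a f e (k := 0)).continuous
  have h1 : (fun z => fderiv ℝ (u ∘ axm a f e) z v) =ᶠ[𝓝 y]
      fun z => fderiv ℝ u (axm a f e z) (lin f e v) := by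
    have h2 : ∀ᶠ z in 𝓝 y, ContDiffAt ℝ 2 u (axm a f e z) :=
      hc.continuousAt.eventually (h.eventually (by simp))
    filter_upwards [h2] with z hz
    have h3 : HasFDerivAt u (fderiv ℝ u (axm a f e z)) (axm a f e z) :=
      (hz.differentiableAt (by norm_num)).hasFDerivAt
    rw [(h3.comp z (hasFDerivAt_axm a f e z)).fderiv]
    rfl
  have h4 : HasFDerivAt (fderiv ℝ u) (fderiv ℝ (fderiv ℝ u) (axm a f e y)) (axm a f e y) := by
    have h5 : ContDiffAt ℝ 1 (fderiv ℝ u) (axm a f e y) := h.fderiv_right (by norm_num)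
    exact (h5.differentiableAt (by norm_num)).hasFDerivAt
  have h6 : HasFDerivAt (fun z => fderiv ℝ u (axm a f e z))
      ((fderiv ℝ (fderiv ℝ u) (axm a f e y)).comp (lin f e)) y :=
    h4.comp y (hasFDerivAt_axm a f e y)
  have h7 := h6.clm_apply (hasFDerivAt_const (lin f e v) y)
  rw [h1.fderiv_eq, h7.fderiv]
  simp

end REDP_

open REDP_ in
theorem p_REDP (hG : T_REDG) (hH : T_REDH) : T_REDP := by
  intro n p Ω u a e f hn hp hΩ hu h3 hF hI
  obtain ⟨hg, -, -, -⟩ := hG n Ω u a e f hn hΩ hu.1 hF hI
  have hc : Continuous (axm a f e) := (contDiff_axm a f e (k := 0)).continuous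
  have hff : ⟪f, f⟫ = (1 : ℝ) := by rw [real_inner_self_eq_norm_sq, hF.norm_f]; norm_num
  have hee : ⟪e, e⟫ = (1 : ℝ) := by rw [real_inner_self_eq_norm_sq, hF.norm_e]; norm_num
  have hfe : ⟪f, e⟫ = (0 : ℝ) := hF.orth
  have hef : ⟪e, f⟫ = (0 : ℝ) := by rw [real_inner_comm]; exact hfe
  have hnorm : ∀ y, axm a f e y ∈ Ω →
      ‖gradient u (axm a f e y)‖ ^ 2 = rho (u ∘ axm a f e) y := by
    intro y hy
    rw [hg y hy, ← real_inner_self_eq_norm_sq]
    simp only [inner_add_left, inner_add_right, real_inner_smul_left, real_inner_smul_right,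
      hff, hee, hfe, hef, rho]
    ring
  have hgood : ∀ y ∈ Good (axm a f e ⁻¹' Ω) (u ∘ axm a f e),
      gradient u (axm a f e y) ≠ 0 ∧ ContDiffAt ℝ 3 u (axm a f e y) := by
    intro y hy
    have h1 : gradient u (axm a f e y) ≠ 0 := by
      intro h0
      apply hy.2.2
      rw [← hnorm y hy.1, h0, norm_zero]
      norm_num
    exact ⟨h1, h3 _ hy.1 h1⟩
  refine ⟨hp, ?_, hΩ.preimage hc, ?_, ?_, ?_⟩
  · have : (3 : ℝ) ≤ n := by exact_mod_cast hn
    linarith
  · exact hu.1.comp (contDiff_axm a f e).contDiffOn (fun x hx => hx)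
  · intro y hy
    exact (hgood y hy).2.comp y (contDiff_axm a f e).contDiffAt
  · intro y hy
    obtain ⟨h1, h2⟩ := hgood y hy
    have hx : axm a f e y ∈ Ω := hy.1
    have h2' : ContDiffAt ℝ 2 u (axm a f e y) := h2.of_le (by norm_num)
    have heq := Pool.Agent.SCP.pt_ n p Ω u _ (by omega) hp hΩ hu hx h2' h1
    -- the second derivatives
    have d11 : ⟪hs u (axm a f e y) f, f⟫ = d1 (d1 (u ∘ axm a f e)) y := by
      rw [Pool.Agent.SCP.inner_hs h2']
      have h5 := second h2' (1, 0) (1, 0)
      rw [lin_one] at h5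
      exact h5.symm
    have d12 : ⟪hs u (axm a f e y) f, e⟫ = d1 (d2 (u ∘ axm a f e)) y := by
      rw [Pool.Agent.SCP.inner_hs h2']
      have h5 := second h2' (0, 1) (1, 0)
      rw [lin_one, lin_two] at h5
      exact h5.symm
    have d22 : ⟪hs u (axm a f e y) e, e⟫ = d2 (d2 (u ∘ axm a f e)) y := by
      rw [Pool.Agent.SCP.inner_hs h2']
      have h5 := second h2' (0, 1) (0, 1)
      rw [lin_two] at h5
      exact h5.symm
    have d21 : ⟪hs u (axm a f e y) e, f⟫ = d1 (d2 (u ∘ axm a f e)) y := by
      rw [Pool.Agent.SCP.hs_symm h2', real_inner_comm, d12]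
    -- the trace
    have htr : Pool.Agent.SCP.tr (hs u (axm a f e y)) = d1 (d1 (u ∘ axm a f e)) y +
        d2 (d2 (u ∘ axm a f e)) y + ((n : ℝ) - 2) * (d1 (u ∘ axm a f e) y / y.1) := by
      obtain ⟨i0, hi0⟩ : ∃ i : Fin n, i = ⟨0, by omega⟩ := ⟨_, rfl⟩
      obtain ⟨i1, hi1⟩ : ∃ i : Fin n, i = ⟨1, by omega⟩ := ⟨_, rfl⟩
      have h01 : i0 ≠ i1 := by
        rw [hi0, hi1]
        intro h
        simp at h
      have hon : Orthonormal ℝ (({i0, i1} : Set (Fin n)).domRestrict
          (fun i => if i = i0 then f else e)) := by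
        constructor
        · rintro ⟨i, hi⟩
          change ‖(if i = i0 then f else e)‖ = 1
          by_cases h : i = i0
          · rw [if_pos h]
            exact hF.norm_f
          · rw [if_neg h]
            exact hF.norm_e
        · rintro ⟨i, hi⟩ ⟨j, hj⟩ hij
          change ⟪(if i = i0 then f else e), (if j = i0 then f else e)⟫ = (0 : ℝ)
          have hij' : i ≠ j := fun h => hij (Subtype.ext h)
          by_cases h : i = i0
          · have h' : j ≠ i0 := fun h' => hij' (h.trans h'.symm)
            rw [if_pos h, if_neg h']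
            exact hfe
          · by_cases h' : j = i0
            · rw [if_neg h, if_pos h']
              exact hef
            · exfalso
              rcases hi with hi | hi
              · exact h hi
              · rcases hj with hj | hj
                · exact h' hj
                · exact hij' ((Set.mem_singleton_iff.1 hi).trans
                    (Set.mem_singleton_iff.1 hj).symm)
      obtain ⟨b, hb⟩ := hon.exists_orthonormalBasis_extension_of_card_eq
        (by simp)
      have hb0 : b i0 = f := by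
        rw [hb i0 (by simp)]
        simp
      have hb1 : b i1 = e := by
        rw [hb i1 (by simp), if_neg h01.symm]
      rw [Pool.Agent.SCP.tr_eq_sum _ b]
      have hterm : ∀ i ∈ (Finset.univ.erase i0).erase i1,
          ⟪b i, hs u (axm a f e y) (b i)⟫ = d1 (u ∘ axm a f e) y / y.1 := by
        intro i hi
        rw [Finset.mem_erase, Finset.mem_erase] at hi
        rw [real_inner_comm]
        refine hH n Ω u a e f (b i) y hn hΩ hF hI hx hy.2.1 h2' (b.norm_eq_one i) ?_ ?_
        · rw [← hb1]
          exact b.orthonormal.2 hi.1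
        · rw [← hb0]
          exact b.orthonormal.2 hi.2.1
      rw [← Finset.add_sum_erase _ _ (Finset.mem_univ i0),
        ← Finset.add_sum_erase _ _ (Finset.mem_erase.2 ⟨h01.symm, Finset.mem_univ i1⟩),
        Finset.sum_congr rfl hterm, Finset.sum_const, hb0, hb1, real_inner_comm, d11,
        real_inner_comm, d22, nsmul_eq_mul, Finset.card_erase_of_mem
          (Finset.mem_erase.2 ⟨h01.symm, Finset.mem_univ i1⟩),
        Finset.card_erase_of_mem (Finset.mem_univ i0), Finset.card_univ, Fintype.card_fin]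
      have hcast : ((n - 1 - 1 : ℕ) : ℝ) = (n : ℝ) - 2 := by
        have : n - 1 - 1 = n - 2 := by omega
        rw [this, Nat.cast_sub (by omega)]
        norm_num
      rw [hcast]
      ring
    unfold Eqn at heq
    rw [hnorm y hx, htr] at heq
    have hq : ⟪hs u (axm a f e y) (gradient u (axm a f e y)), gradient u (axm a f e y)⟫ =
        d1 (d1 (u ∘ axm a f e)) y * d1 (u ∘ axm a f e) y ^ 2 +
        2 * d1 (d2 (u ∘ axm a f e)) y * d1 (u ∘ axm a f e) y * d2 (u ∘ axm a f e) y +
        d2 (d2 (u ∘ axm a f e)) y * d2 (u ∘ axm a f e) y ^ 2 := by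
      rw [hg y hx, map_add, map_smul, map_smul]
      simp only [inner_add_left, inner_add_right, real_inner_smul_left, real_inner_smul_right,
        d11, d12, d21, d22]
      ring
    rw [hq] at heq
    unfold Pde
    rw [← heq]
    ring

end Pool.Agent.AXS
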