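import Pool.Agent.AXS.Targets

/-!
# Finite energy on a segment
-/

set_option autoImplicit false

open Set MeasureTheory Filter Topology

namespace Pool.Agent.AXS

namespace SEG_

theorem yy_pos {ρ : ℝ} (h : 0 < ρ) : 1 ≤ yy ρ := by
  unfold yy
  have : 0 ≤ Real.log (1 + 1 / ρ) := Real.log_nonneg (by
    have : 0 < 1 / ρ := by positivity
    linarith)
  linarith

theorem hasDerivAt_yy {ρ : ℝ} (h : 0 < ρ) : HasDerivAt yy (-(1 / (2 * ρ * (1 + ρ)))) ρ := by
  have h1 : HasDerivAt (fun x : ℝ => 1 + 1 / x) (-(1 / ρ ^ 2)) ρ := by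
    have h2 := (hasDerivAt_inv h.ne').const_add 1
    simp only [one_div]
    convert h2 using 1
  have hpos : 0 < 1 + 1 / ρ := by positivity
  have h3 := ((h1.log hpos.ne').div_const 2).const_add 1
  have h4 : yy = fun ρ : ℝ => 1 + Real.log (1 + 1 / ρ) / 2 := rfl
  rw [h4]
  have e : -(1 / ρ ^ 2) / (1 + 1 / ρ) / 2 = -(1 / (2 * ρ * (1 + ρ))) := by
    field_simp
    ring
  exact h3.congr_deriv e

/-- `log (yy (f x))` -/
theorem hasDerivAt_log_yy {f g : ℝ → ℝ} {x : ℝ} (h : 0 < f x)
    (hf : HasDerivAt f (2 * f x * g x) x) :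
    HasDerivAt (fun x => Real.log (yy (f x))) (-(g x / ((1 + f x) * yy (f x)))) x := by
  have h1 := (hasDerivAt_yy h).comp x hf
  have hy := yy_pos h
  have h2 := h1.log (by
    simp only [Function.comp]
    linarith)
  simp only [Function.comp] at h2
  convert h2 using 1
  have : yy (f x) ≠ 0 := by linarith
  field_simp

theorem core {f g : ℝ → ℝ} {c x0 : ℝ} (hfc : f c = 0) (hne : c ≠ x0)
    (hpos : ∀ x ∈ uIcc c x0, x ≠ c → 0 < f x)
    (hder : ∀ x ∈ uIcc c x0, x ≠ c → HasDerivAt f (2 * f x * g x) x)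
    (hcont : ContinuousOn f (uIcc c x0))
    (hg : ContinuousOn g (uIcc c x0 \ {c}))
    (hfin : ∫⁻ x in uIcc c x0 \ {c}, ENNReal.ofReal (g x ^ 2 / yy (f x) ^ 2) ≠ ⊤) : False := by
  set C : ℝ := (∫⁻ x in uIcc c x0 \ {c}, ENNReal.ofReal (g x ^ 2 / yy (f x) ^ 2)).toReal with hC
  set M : ℝ := |Real.log (yy (f x0))| + |x0 - c| + C + 1 with hM
  -- a small value of `f`
  have hsmall : ∃ ρ0 : ℝ, 0 < ρ0 ∧ ∀ ρ, 0 < ρ → ρ < ρ0 → M < Real.log (yy ρ) := by
    refine ⟨Real.exp (-(2 * Real.exp M)), Real.exp_pos _, fun ρ h1 h2 => ?_⟩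
    rw [Real.lt_log_iff_exp_lt (by linarith [yy_pos h1])]
    unfold yy
    have h3 : Real.exp (2 * Real.exp M) < 1 / ρ := by
      rw [lt_div_iff₀ h1]
      have h4 : Real.exp (2 * Real.exp M) * Real.exp (-(2 * Real.exp M)) = 1 := by
        rw [← Real.exp_add]; simp
      have h5 := Real.exp_pos (2 * Real.exp M)
      nlinarith
    have h6 : 2 * Real.exp M < Real.log (1 + 1 / ρ) := by
      rw [Real.lt_log_iff_exp_lt (by positivity)]
      linarith
    linarith
  obtain ⟨ρ0, hρ0, hsm⟩ := hsmall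
  have hcmem : c ∈ uIcc c x0 := left_mem_uIcc
  have hev : ∀ᶠ x in 𝓝[uIcc c x0] c, f x < ρ0 := by
    have h1 := hcont c hcmem
    have h2 : f c < ρ0 := by rw [hfc]; exact hρ0
    exact h1.eventually_lt continuousWithinAt_const h2
  -- a point `x ≠ c` of the segment with `f x < ρ0`
  obtain ⟨x, hx1, hx2, hx3⟩ : ∃ x ∈ uIcc c x0, x ≠ c ∧ f x < ρ0 := by
    rw [eventually_nhdsWithin_iff, Metric.eventually_nhds_iff] at hev
    obtain ⟨ε, hε, hball⟩ := hev
    rcases lt_or_gt_of_ne hne with h | h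
    · refine ⟨min x0 (c + ε / 2), ?_, ?_, ?_⟩
      · rw [uIcc_of_le h.le]
        exact ⟨le_min h.le (by linarith), min_le_left _ _⟩
      · have : c < min x0 (c + ε / 2) := lt_min h (by linarith)
        exact this.ne'
      · apply hball
        · rw [Real.dist_eq]
          have h1 : c < min x0 (c + ε / 2) := lt_min h (by linarith)
          have h2 : min x0 (c + ε / 2) ≤ c + ε / 2 := min_le_right _ _
          rw [abs_of_pos (by linarith)]
          linarith
        · rw [uIcc_of_le h.le]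
          exact ⟨le_min h.le (by linarith), min_le_left _ _⟩
    · refine ⟨max x0 (c - ε / 2), ?_, ?_, ?_⟩
      · rw [uIcc_of_ge h.le]
        exact ⟨le_max_left _ _, max_le h.le (by linarith)⟩
      · have : max x0 (c - ε / 2) < c := max_lt h (by linarith)
        exact this.ne
      · apply hball
        · rw [Real.dist_eq]
          have h1 : max x0 (c - ε / 2) < c := max_lt h (by linarith)
          have h2 : c - ε / 2 ≤ max x0 (c - ε / 2) := le_max_right _ _
          rw [abs_of_neg (by linarith)]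
          linarith
        · rw [uIcc_of_ge h.le]
          exact ⟨le_max_left _ _, max_le h.le (by linarith)⟩
  have hMx := hsm (f x) (hpos x hx1 hx2) hx3
  -- the segment from `x` to `x0`
  have hsub : uIcc x x0 ⊆ uIcc c x0 \ {c} := by
    intro y hy
    rcases lt_or_gt_of_ne hne with h | h
    · rw [uIcc_of_le h.le] at hx1
      have hcx : c < x := lt_of_le_of_ne hx1.1 hx2.symm
      rw [uIcc_of_le hx1.2] at hy
      rw [uIcc_of_le h.le]
      refine ⟨⟨by linarith [hy.1], hy.2⟩, ?_⟩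
      simp only [mem_singleton_iff]
      exact (lt_of_lt_of_le hcx hy.1).ne'
    · rw [uIcc_of_ge h.le] at hx1
      have hcx : x < c := lt_of_le_of_ne hx1.2 hx2
      rw [uIcc_of_ge hx1.1] at hy
      rw [uIcc_of_ge h.le]
      refine ⟨⟨hy.1, by linarith [hy.2]⟩, ?_⟩
      simp only [mem_singleton_iff]
      exact (lt_of_le_of_lt hy.2 hcx).ne
  have hfpos : ∀ y ∈ uIcc x x0, 0 < f y := fun y hy => hpos y (hsub hy).1 (hsub hy).2
  have hfcont : ContinuousOn f (uIcc x x0) := hcont.mono fun y hy => (hsub hy).1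
  have hgcont : ContinuousOn g (uIcc x x0) := hg.mono hsub
  have hyycont : ContinuousOn (fun y => yy (f y)) (uIcc x x0) := by
    intro y hy
    exact (hasDerivAt_yy (hfpos y hy)).continuousAt.comp_continuousWithinAt (hfcont y hy)
  have hyne : ∀ y ∈ uIcc x x0, yy (f y) ≠ 0 := fun y hy => by
    have := yy_pos (hfpos y hy)
    linarith
  have hdcont : ContinuousOn (fun y => -(g y / ((1 + f y) * yy (f y)))) (uIcc x x0) := by
    refine (hgcont.div ((continuousOn_const.add hfcont).mul hyycont) ?_).neg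
    intro y hy
    have h1 := hfpos y hy
    have h2 : (1 + f y) ≠ 0 := by linarith
    exact mul_ne_zero h2 (hyne y hy)
  have hFTC := intervalIntegral.integral_eq_sub_of_hasDerivAt
    (f := fun x => Real.log (yy (f x))) (f' := fun y => -(g y / ((1 + f y) * yy (f y))))
    (a := x) (b := x0)
    (fun y hy => hasDerivAt_log_yy (hfpos y hy) (hder y (hsub hy).1 (hsub hy).2))
    hdcont.intervalIntegrable
  have hnorm := intervalIntegral.norm_integral_le_integral_norm_uIoc
    (f := fun y => -(g y / ((1 + f y) * yy (f y)))) (a := x) (b := x0) (μ := volume)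
  rw [hFTC] at hnorm
  have hsub2 : uIoc x x0 ⊆ uIcc x x0 := uIoc_subset_uIcc
  have hE : ContinuousOn (fun y => g y ^ 2 / yy (f y) ^ 2) (uIcc x x0) :=
    (hgcont.pow 2).div (hyycont.pow 2) (fun y hy => pow_ne_zero 2 (hyne y hy))
  have hEint : IntegrableOn (fun y => g y ^ 2 / yy (f y) ^ 2) (uIoc x x0) :=
    (hE.integrableOn_compact isCompact_uIcc).mono_set hsub2
  have h1int : IntegrableOn (fun _ : ℝ => (1 : ℝ)) (uIoc x x0) :=
    (continuousOn_const.integrableOn_compact isCompact_uIcc).mono_set hsub2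
  have hbound : ∫ y in uIoc x x0, ‖-(g y / ((1 + f y) * yy (f y)))‖ ≤
      ∫ y in uIoc x x0, (1 + g y ^ 2 / yy (f y) ^ 2) := by
    refine setIntegral_mono_on ?_ (h1int.add hEint) measurableSet_uIoc ?_
    · exact ((hdcont.norm).integrableOn_compact isCompact_uIcc).mono_set hsub2
    · intro y hy
      have hy' := hsub2 hy
      have h1 := hfpos y hy'
      have h2 := yy_pos h1
      rw [norm_neg, Real.norm_eq_abs, abs_div, abs_mul, abs_of_pos (show 0 < 1 + f y by linarith),
        abs_of_pos (show 0 < yy (f y) by linarith)]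
      have h3 : |g y| / ((1 + f y) * yy (f y)) ≤ |g y| / yy (f y) := by
        refine div_le_div_of_nonneg_left (abs_nonneg _) (by linarith) ?_
        nlinarith
      have h4 : g y ^ 2 / yy (f y) ^ 2 = (|g y| / yy (f y)) ^ 2 := by
        rw [div_pow, sq_abs]
      rw [h4]
      have h5 : 0 ≤ |g y| / yy (f y) := by positivity
      nlinarith [sq_nonneg (|g y| / yy (f y) - 1)]
  have hsplit : ∫ y in uIoc x x0, (1 + g y ^ 2 / yy (f y) ^ 2) =
      (∫ _y in uIoc x x0, (1 : ℝ)) + ∫ y in uIoc x x0, g y ^ 2 / yy (f y) ^ 2 :=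
    integral_add h1int hEint
  have hone : (∫ _y in uIoc x x0, (1 : ℝ)) = |x0 - x| := by
    rw [setIntegral_const, smul_eq_mul, mul_one]
    rw [Measure.real, uIoc, Real.volume_Ioc, ENNReal.toReal_ofReal (by
      rw [sub_nonneg]; exact min_le_max)]
    rw [max_sub_min_eq_abs]
  have hxx : |x0 - x| ≤ |x0 - c| := by
    rcases lt_or_gt_of_ne hne with h | h
    · rw [uIcc_of_le h.le] at hx1
      rw [abs_of_nonneg (by linarith [hx1.2]), abs_of_nonneg (by linarith)]
      linarith [hx1.1]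
    · rw [uIcc_of_ge h.le] at hx1
      rw [abs_of_nonpos (by linarith [hx1.1]), abs_of_nonpos (by linarith)]
      linarith [hx1.2]
  have hen : ∫ y in uIoc x x0, g y ^ 2 / yy (f y) ^ 2 ≤ C := by
    rw [integral_eq_lintegral_of_nonneg_ae (Eventually.of_forall fun y => by positivity)
      hEint.aestronglyMeasurable]
    refine ENNReal.toReal_mono hfin ?_
    exact lintegral_mono_set (hsub2.trans hsub)
  have hfinal : |Real.log (yy (f x0)) - Real.log (yy (f x))| ≤ |x0 - c| + C := by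
    calc |Real.log (yy (f x0)) - Real.log (yy (f x))| ≤ _ := hnorm
      _ ≤ _ := hbound
      _ = |x0 - x| + ∫ y in uIoc x x0, g y ^ 2 / yy (f y) ^ 2 := by rw [hsplit, hone]
      _ ≤ _ := add_le_add hxx hen
  have h6 := (abs_le.mp hfinal).1
  have h7 := le_abs_self (Real.log (yy (f x0)))
  linarith

end SEG_

open SEG_ in
theorem p_SEG : T_SEG := by
  intro a b f g hab hf hf0 hder hg hfin
  by_contra hcon
  push Not at hcon
  obtain ⟨⟨x0, hx0, hfx0⟩, ⟨x1, hx1, hfx1⟩⟩ := hcon
  -- the zero nearest to `x0`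
  have hsub : uIcc x1 x0 ⊆ Icc a b := by
    intro y hy
    rw [uIcc, mem_Icc] at hy
    exact ⟨(le_min hx1.1 hx0.1).trans hy.1, hy.2.trans (max_le hx1.2 hx0.2)⟩
  have hcomp : IsCompact (uIcc x1 x0 ∩ f ⁻¹' {0}) := by
    refine IsCompact.of_isClosed_subset isCompact_uIcc ?_ inter_subset_left
    exact (hf.mono hsub).preimage_isClosed_of_isClosed isClosed_Icc isClosed_singleton
  obtain ⟨c, hc, hmin⟩ := hcomp.exists_isMinOn (f := fun x => |x - x0|)
    ⟨x1, left_mem_uIcc, hfx1⟩ (by fun_prop)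
  have hfc : f c = 0 := hc.2
  have hne : c ≠ x0 := by
    rintro rfl
    exact hfx0 hfc
  have hcsub : uIcc c x0 ⊆ uIcc x1 x0 := uIcc_subset_uIcc hc.1 right_mem_uIcc
  have hnz : ∀ x ∈ uIcc c x0, x ≠ c → f x ≠ 0 := by
    intro x hx hxc h0
    have h1 : |c - x0| ≤ |x - x0| := hmin (show x ∈ uIcc x1 x0 ∩ f ⁻¹' {0} from ⟨hcsub hx, h0⟩)
    rcases lt_or_gt_of_ne hne with h | h
    · rw [uIcc_of_le h.le] at hx
      rw [abs_of_nonpos (by linarith), abs_of_nonpos (by linarith [hx.2])] at h1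
      exact hxc (le_antisymm (by linarith) hx.1)
    · rw [uIcc_of_ge h.le] at hx
      rw [abs_of_nonneg (by linarith), abs_of_nonneg (by linarith [hx.1])] at h1
      exact hxc (le_antisymm hx.2 (by linarith))
  have hpos : ∀ x ∈ uIcc c x0, x ≠ c → 0 < f x := fun x hx hxc =>
    lt_of_le_of_ne (hf0 x (hsub (hcsub hx))) (hnz x hx hxc).symm
  have hsub3 : uIcc c x0 \ {c} ⊆ Icc a b ∩ {x | f x ≠ 0} := by
    rintro x ⟨hx, hxc⟩
    exact ⟨hsub (hcsub hx), hnz x hx hxc⟩
  refine core hfc hne hpos (fun x hx hxc => hder x (hsub (hcsub hx)) (hnz x hx hxc))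
    (hf.mono fun x hx => hsub (hcsub hx)) (hg.mono hsub3) ?_
  exact ne_top_of_le_ne_top hfin (lintegral_mono_set hsub3)

end Pool.Agent.AXS
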