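import Pool.Agent.AXS.Targets

/-!
# Cauchy-Schwarz on a segment
-/

set_option autoImplicit false

open Set MeasureTheory Filter Topology

namespace Pool.Agent.AXS

namespace SEG2_

theorem cs_interval {g : ℝ → ℝ} {c R : ℝ} (h : c < R) (hg : ContinuousOn g (uIcc c R)) :
    (∫ x in c..R, g x) ^ 2 ≤ (R - c) * ∫ x in c..R, g x ^ 2 := by
  set m : ℝ := (∫ x in c..R, g x) / (R - c) with hm
  have hRc : 0 < R - c := by linarith
  have h1 : 0 ≤ ∫ x in c..R, (g x - m) ^ 2 :=
    intervalIntegral.integral_nonneg h.le fun x _ => sq_nonneg _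
  have i1 : IntervalIntegrable (fun x => g x ^ 2) volume c R := (hg.pow 2).intervalIntegrable
  have i2 : IntervalIntegrable (fun x => 2 * m * g x) volume c R :=
    (continuousOn_const.mul hg).intervalIntegrable
  have i3 : IntervalIntegrable (fun _ : ℝ => m ^ 2) volume c R :=
    continuousOn_const.intervalIntegrable
  have h2 : ∫ x in c..R, (g x - m) ^ 2 =
      (∫ x in c..R, g x ^ 2) - 2 * m * (∫ x in c..R, g x) + m ^ 2 * (R - c) := by
    have e : ∀ x, (g x - m) ^ 2 = g x ^ 2 - 2 * m * g x + m ^ 2 := fun x => by ring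
    simp_rw [e]
    rw [intervalIntegral.integral_add (i1.sub i2) i3, intervalIntegral.integral_sub i1 i2,
      intervalIntegral.integral_const_mul, intervalIntegral.integral_const, smul_eq_mul]
    ring
  rw [h2] at h1
  have h3 : (∫ x in c..R, g x) = m * (R - c) := by
    rw [hm]
    field_simp
  rw [h3] at h1 ⊢
  nlinarith

end SEG2_

open SEG2_ in
theorem p_SEG2 : T_SEG2 := by
  intro R k f g hR hk hf hf0 hpos hg
  by_cases hfR : f R ≤ k
  · have h1 : Real.log (f R / k) / 2 ≤ 0 := by
      have h2 : Real.log (f R / k) ≤ 0 := by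
        refine Real.log_nonpos ?_ ?_
        · exact div_nonneg (hpos R ⟨hR, le_refl R⟩).1.le hk.le
        · rw [div_le_one hk]
          exact hfR
      linarith
    rw [max_eq_left h1]
    simp
  · push Not at hfR
    -- last point with `f ≤ k`
    have hcomp : IsCompact (Icc 0 R ∩ f ⁻¹' Iic k) := by
      refine IsCompact.of_isClosed_subset isCompact_Icc ?_ inter_subset_left
      exact hf.preimage_isClosed_of_isClosed isClosed_Icc isClosed_Iic
    have hne : (Icc 0 R ∩ f ⁻¹' Iic k).Nonempty :=
      ⟨0, ⟨le_refl 0, hR.le⟩, by simp only [mem_preimage, mem_Iic, hf0]; exact hk.le⟩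
    obtain ⟨c, hc, hmax⟩ := hcomp.exists_isMaxOn (f := fun x : ℝ => x) hne (by fun_prop)
    have hcI : c ∈ Icc 0 R := hc.1
    have hck : f c ≤ k := hc.2
    have hcR : c < R := by
      refine lt_of_le_of_ne hcI.2 ?_
      rintro rfl
      linarith
    have hgt : ∀ x, c < x → x ≤ R → k < f x := by
      intro x hx hxR
      by_contra hcon
      push Not at hcon
      have : x ≤ c := hmax (show x ∈ Icc 0 R ∩ f ⁻¹' Iic k from
        ⟨⟨by linarith [hcI.1], hxR⟩, hcon⟩)
      linarith
    have hfc : f c = k := by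
      refine le_antisymm hck ?_
      have h1 : ContinuousWithinAt f (Icc 0 R) c := hf c hcI
      have h2 : ContinuousWithinAt f (Ioc c R) c :=
        h1.mono fun x hx => ⟨by linarith [hcI.1, hx.1], hx.2⟩
      have h3 : (𝓝[Ioc c R] c).NeBot := by
        rw [← mem_closure_iff_nhdsWithin_neBot, closure_Ioc hcR.ne]
        exact ⟨le_refl c, hcR.le⟩
      refine ge_of_tendsto h2 ?_
      filter_upwards [self_mem_nhdsWithin] with x hx
      exact (hgt x hx.1 hx.2).le
    have hc0 : 0 < c := by
      refine lt_of_le_of_ne hcI.1 ?_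
      rintro rfl
      rw [hf0] at hfc
      linarith
    have hsub : uIcc c R ⊆ Ioc 0 R := by
      rw [uIcc_of_le hcR.le]
      exact fun x hx => ⟨by linarith [hx.1], hx.2⟩
    have hgc : ContinuousOn g (uIcc c R) := hg.mono hsub
    have hFTC := intervalIntegral.integral_eq_sub_of_hasDerivAt
      (f := fun x => Real.log (f x)) (f' := fun x => 2 * g x) (a := c) (b := R)
      (fun x hx => by
        have h1 := hpos x (hsub hx)
        have h2 := h1.2.log h1.1.ne'
        refine h2.congr_deriv ?_
        have := h1.1.ne'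
        field_simp)
      (continuousOn_const.mul hgc).intervalIntegrable
    rw [intervalIntegral.integral_const_mul] at hFTC
    have hlog : Real.log (f R / k) / 2 = ∫ x in c..R, g x := by
      rw [Real.log_div (by linarith) hk.ne', ← hfc]
      linarith
    have hlogpos : 0 ≤ Real.log (f R / k) / 2 := by
      have h2 : 0 ≤ Real.log (f R / k) := by
        refine Real.log_nonneg ?_
        rw [le_div_iff₀ hk]
        linarith
      linarith
    rw [max_eq_right hlogpos, hlog]
    have hI0 : 0 ≤ ∫ x in c..R, g x ^ 2 :=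
      intervalIntegral.integral_nonneg hcR.le fun x _ => sq_nonneg _
    have h4 : (∫ x in c..R, g x) ^ 2 ≤ R * ∫ x in c..R, g x ^ 2 := by
      refine (cs_interval hcR hgc).trans ?_
      exact mul_le_mul_of_nonneg_right (by linarith) hI0
    refine (ENNReal.ofReal_le_ofReal h4).trans ?_
    rw [ENNReal.ofReal_mul hR.le]
    refine mul_le_mul_right ?_ _
    rw [intervalIntegral.integral_of_le hcR.le]
    have hint : IntegrableOn (fun x => g x ^ 2) (Ioc c R) := by
      refine ((hgc.pow 2).integrableOn_compact isCompact_uIcc).mono_set ?_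
      rw [uIcc_of_le hcR.le]
      exact Ioc_subset_Icc_self
    rw [ofReal_integral_eq_lintegral_ofReal hint (Eventually.of_forall fun x => sq_nonneg _)]
    rw [← setLIntegral_congr (Ioo_ae_eq_Ioc (μ := volume) (a := c) (b := R))]
    refine lintegral_mono_set ?_
    intro x hx
    exact ⟨⟨by linarith [hx.1], hx.2⟩, hgt x hx.1 hx.2.le⟩

end Pool.Agent.AXS
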