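import Pool.Agent.AXS.Targets

/-!
# The strong comparison principle at a point which has a good neighbourhood
-/

set_option autoImplicit false

open Set MeasureTheory Filter Topology
open scoped RealInnerProductSpace
open Pool.Agent.SCP (E PHarm hs Eqn Sub)

namespace Pool.Agent.AXS

theorem p_STEP (hC : T_CMPV) : T_STEP := by
  intro n p Ω V S u v y hn hp hΩ hu hv hreg huv hV hVΩ hy hS hSc hSΩ hcrit hbd hcl hyuv
  have huc : ContinuousOn u S := hu.1.continuousOn.mono hSΩ
  have hvc : ContinuousOn v S := hv.1.continuousOn.mono hSΩ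
  -- the contact set is open in `S`
  have hopen : ∀ x ∈ S, u x = v x → ∀ᶠ x' in 𝓝 x, u x' = v x' := by
    intro x hx hxuv
    exact Pool.Agent.SCP.noncrit_ n p Ω u v x hn hp hΩ hu hv huv (hSΩ hx)
      (hreg x (hSΩ hx) (hcrit x hx)) (hcrit x hx) hxuv
  by_cases hall : ∀ x ∈ S, u x = v x
  · have h1 : ∀ x ∈ V, v x + 0 ≤ u x := by
      apply hC n p Ω V S v u 0 hn hp hΩ hv hu hV hVΩ hS hSΩ hbd hcl
      intro x hx
      rw [add_zero]
      exact (hall x hx).ge
    filter_upwards [hV.mem_nhds hy] with x hx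
    have h2 := h1 x hx
    rw [add_zero] at h2
    exact le_antisymm (huv x (hVΩ hx)) h2
  · exfalso
    push Not at hall
    obtain ⟨x₀, hx₀, hne⟩ := hall
    -- no contact on `S`
    have hnone : ∀ x ∈ S, u x ≠ v x := by
      intro x₁ hx₁ heq
      set O₁ : Set (E n) := {x | ∀ᶠ x' in 𝓝 x, u x' = v x'} with hO₁
      have hO₁o : IsOpen O₁ := by
        rw [isOpen_iff_mem_nhds]
        intro x hx
        exact hx.eventually_nhds
      have hdc : ContinuousOn (fun x => u x - v x) Ω := hu.1.continuousOn.sub hv.1.continuousOn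
      have hO₂o : IsOpen (Ω ∩ (fun x => u x - v x) ⁻¹' {0}ᶜ) :=
        hdc.isOpen_inter_preimage hΩ isOpen_compl_singleton
      have hcov : S ⊆ O₁ ∪ (Ω ∩ (fun x => u x - v x) ⁻¹' {0}ᶜ) := by
        intro x hx
        by_cases h : u x = v x
        · exact Or.inl (hopen x hx h)
        · right
          refine ⟨hSΩ hx, ?_⟩
          simp only [mem_preimage, mem_compl_iff, mem_singleton_iff]
          exact sub_ne_zero.mpr h
      obtain ⟨z, hzS, hz1, hz2⟩ := hSc O₁ _ hO₁o hO₂o hcov ⟨x₁, hx₁, hopen x₁ hx₁ heq⟩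
        ⟨x₀, hx₀, hSΩ hx₀, by
          simp only [mem_preimage, mem_compl_iff, mem_singleton_iff]
          exact sub_ne_zero.mpr hne⟩
      have hz3 : u z = v z := hz1.self_of_nhds
      have hz4 : u z - v z ≠ 0 := hz2.2
      exact hz4 (sub_eq_zero.mpr hz3)
    -- the difference has a positive minimum on `S`
    obtain ⟨xm, hxm, hmin⟩ := hS.exists_isMinOn ⟨x₀, hx₀⟩ (hvc.sub huc)
    have hd : 0 < v xm - u xm := by
      have h1 := huv xm (hSΩ hxm)
      have h2 := hnone xm hxm
      rcases h1.lt_or_eq with h | h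
      · linarith
      · exact absurd h h2
    have h1 : ∀ x ∈ V, u x + (v xm - u xm) ≤ v x := by
      apply hC n p Ω V S u v _ hn hp hΩ hu hv hV hVΩ hS hSΩ hbd hcl
      intro x hx
      have h2 : v xm - u xm ≤ v x - u x := hmin hx
      linarith
    have h2 := h1 y hy
    rw [hyuv] at h2
    linarith

end Pool.Agent.AXS
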