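import Pool.Agent.AXS.DIV
import Pool.Agent.AXS.GOOD
import Pool.Agent.AXS.OM
import Pool.Agent.AXS.PP
import Pool.Agent.AXS.DOM
import Pool.Agent.AXS.POS
import Pool.Agent.AXS.INEQ
import Pool.Agent.AXS.CAP
import Pool.Agent.AXS.INEQ2
import Pool.Agent.AXS.ENERGY
import Pool.Agent.AXS.SEG
import Pool.Agent.AXS.LINES
import Pool.Agent.AXS.SEG2
import Pool.Agent.AXS.AXIS
import Pool.Agent.AXS.NBHDP
import Pool.Agent.AXS.CLOP
import Pool.Agent.AXS.REDG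
import Pool.Agent.AXS.REDH
import Pool.Agent.AXS.REDP
import Pool.Agent.AXS.CONNS
import Pool.Agent.AXS.CRIT
import Pool.Agent.AXS.CMPV
import Pool.Agent.AXS.STEP
import Pool.Agent.AXS.MAIN
import Pool.Agent.AXS.Final

/-!
# The strong comparison principle for axially symmetric functions: assembly
-/

set_option autoImplicit false

open Set MeasureTheory Filter Topology
open Pool.Agent.SCP.Statement Pool.Agent.AXS.Statement

namespace Pool.Agent.AXS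

theorem cap_ : T_CAP := p_CAP p_DIV p_GOOD

theorem lines_ : T_LINES := p_LINES p_GOOD cap_ p_SEG

theorem ineq_ : T_INEQ := p_INEQ p_DIV p_GOOD p_OM p_PP p_DOM p_POS

theorem ineq2_ : T_INEQ2 := p_INEQ2 p_PP p_OM p_GOOD cap_ ineq_

theorem energy_ : T_ENERGY := p_ENERGY p_GOOD p_OM p_PP ineq2_

theorem axis_ : T_AXIS := p_AXIS p_GOOD lines_ energy_ p_SEG2

theorem main_ : T_MAIN := p_MAIN p_GOOD lines_ axis_ p_NBHDP p_REDG (p_REDP p_REDG p_REDH)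
  p_CONNS (p_CRIT p_REDG p_CLOP) (p_STEP p_CMPV)

theorem final (n : ℕ) (hn : 3 ≤ n) (p : ℝ) (hp : 1 < p) (Ω : Set (R n))
    (hΩ : IsOpen Ω) (hc : IsConnected Ω) (u v : R n → ℝ) (hu : PHarmonic p Ω u)
    (hv : PHarmonic p Ω v) (huv : (∀ x ∈ Ω, u x ≤ v x) ∨ (∀ x ∈ Ω, v x ≤ u x))
    (hx : ∃ x₀ ∈ Ω, u x₀ = v x₀) (a e : R n) (he : ‖e‖ = 1)
    (hsym : AxiallySymmetric a e Ω u) (hreg : C3OffCritical Ω u) : ∀ x ∈ Ω, u x = v x :=
  final_of main_ n hn p hp Ω hΩ hc u v hu hv huv hx a e he hsym hreg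

end Pool.Agent.AXS
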