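import Pool.Agent.SCP.All
import Pool.Agent.SCP.Statement

/-!
# Axially symmetric `p`-harmonic functions: definitions

Planar notation: the point `x` has the coordinates `x.1 = r` and `x.2 = z`; `U` is the profile of
`u`, a function of `(r, z)`.
-/

set_option autoImplicit false

open Set MeasureTheory Filter Topology
open scoped RealInnerProductSpace
open Pool.Agent.SCP (E PHarm hs Eqn Sub)

namespace Pool.Agent.AXS

/-! ### The plane -/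

/-- `∂/∂r` -/
noncomputable def d1 (f : ℝ × ℝ → ℝ) (x : ℝ × ℝ) : ℝ := fderiv ℝ f x (1, 0)

/-- `∂/∂z` -/
noncomputable def d2 (f : ℝ × ℝ → ℝ) (x : ℝ × ℝ) : ℝ := fderiv ℝ f x (0, 1)

/-- the square of the gradient -/
noncomputable def rho (U : ℝ × ℝ → ℝ) (x : ℝ × ℝ) : ℝ := d1 U x ^ 2 + d2 U x ^ 2

/-- `sin θ`, where `∇U = e^h (sin θ, cos θ)` -/
noncomputable def sn (U : ℝ × ℝ → ℝ) (x : ℝ × ℝ) : ℝ := d1 U x / √(rho U x)

/-- `cos θ` -/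
noncomputable def cs (U : ℝ × ℝ → ℝ) (x : ℝ × ℝ) : ℝ := d2 U x / √(rho U x)

/-- `∂θ/∂r` -/
noncomputable def t1 (U : ℝ × ℝ → ℝ) (x : ℝ × ℝ) : ℝ :=
  (d2 U x * d1 (d1 U) x - d1 U x * d1 (d2 U) x) / rho U x

/-- `∂θ/∂z` -/
noncomputable def t2 (U : ℝ × ℝ → ℝ) (x : ℝ × ℝ) : ℝ :=
  (d2 U x * d2 (d1 U) x - d1 U x * d2 (d2 U) x) / rho U x

/-- `∂h/∂r` -/
noncomputable def h1 (U : ℝ × ℝ → ℝ) (x : ℝ × ℝ) : ℝ :=
  (d1 U x * d1 (d1 U) x + d2 U x * d1 (d2 U) x) / rho U x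

/-- `∂h/∂z` -/
noncomputable def h2 (U : ℝ × ℝ → ℝ) (x : ℝ × ℝ) : ℝ :=
  (d1 U x * d2 (d1 U) x + d2 U x * d2 (d2 U) x) / rho U x

/-- the derivative of `θ` in the direction of the gradient -/
noncomputable def XX (U : ℝ × ℝ → ℝ) (x : ℝ × ℝ) : ℝ := sn U x * t1 U x + cs U x * t2 U x

/-- the derivative of `θ` in the direction `(cos θ, - sin θ)` -/
noncomputable def YY (U : ℝ × ℝ → ℝ) (x : ℝ × ℝ) : ℝ := cs U x * t1 U x - sn U x * t2 U x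

/-- the equation of the profile (`m = n - 2`) -/
def Pde (p m : ℝ) (U : ℝ × ℝ → ℝ) (x : ℝ × ℝ) : Prop :=
  rho U x * (d1 (d1 U) x + d2 (d2 U) x + m * d1 U x / x.1) +
    (p - 2) * (d1 (d1 U) x * d1 U x ^ 2 + 2 * d1 (d2 U) x * d1 U x * d2 U x +
      d2 (d2 U) x * d2 U x ^ 2) = 0

/-- the noncritical points with `r > 0` -/
def Good (P : Set (ℝ × ℝ)) (U : ℝ × ℝ → ℝ) : Set (ℝ × ℝ) := {x | x ∈ P ∧ 0 < x.1 ∧ rho U x ≠ 0}

/-- `U` is the profile of a solution -/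
structure Plan (p m : ℝ) (P : Set (ℝ × ℝ)) (U : ℝ × ℝ → ℝ) : Prop where
  one_lt : 1 < p
  one_le : 1 ≤ m
  isOpen : IsOpen P
  c1 : ContDiffOn ℝ 1 U P
  c3 : ∀ x ∈ Good P U, ContDiffAt ℝ 3 U x
  pde : ∀ x ∈ Good P U, Pde p m U x

/-- the function in the cutoff of the critical set -/
noncomputable def yy (ρ : ℝ) : ℝ := 1 + Real.log (1 + 1 / ρ) / 2

/-! ### The weights -/

/-- `Ψ` -/
noncomputable def Psi (w : ℝ) : ℝ := if w ≤ 1 then w else 2 - 1 / w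

/-- the derivative of `Ψ` -/
noncomputable def Psid (w : ℝ) : ℝ := if w ≤ 1 then 1 else 1 / w ^ 2

/-- `Φ` -/
noncomputable def Phi (w : ℝ) : ℝ := if w ≤ 1 then w else 2 * Real.log w + 1 / w

/-- the bound on the right hand side -/
noncomputable def LL (w : ℝ) : ℝ := if w ≤ 1 then w else (1 + 2 * Real.log w) ^ 2

/-- `t = min (r/δ) 1` -/
noncomputable def tt (δ r : ℝ) : ℝ := min (r / δ) 1

/-- `ω` -/
noncomputable def om (δ r : ℝ) : ℝ := tt δ r * Real.exp (3 / 2 - 2 * tt δ r + tt δ r ^ 2 / 2)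

/-- `G` -/
noncomputable def gg (δ r : ℝ) : ℝ := 1 - (1 - tt δ r) ^ 2

/-- `w = e^(ε h) / κ`, `ε = p / m` -/
noncomputable def ww (p m κ : ℝ) (U : ℝ × ℝ → ℝ) (x : ℝ × ℝ) : ℝ := rho U x ^ (p / (2 * m)) / κ

/-- `e₁ = m / p` -/
noncomputable def e1 (p m : ℝ) : ℝ := m / p

/-- `y₀ = m (p - 1) / (p (m + 1))` -/
noncomputable def y0 (p m : ℝ) : ℝ := m * (p - 1) / (p * (m + 1))

/-- the `dr` component of the one form -/
noncomputable def fA (p m κ δ : ℝ) (U : ℝ × ℝ → ℝ) (x : ℝ × ℝ) : ℝ :=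
  om δ x.1 * (e1 p m * Phi (ww p m κ U x) * t1 U x +
    gg δ x.1 * y0 p m * e1 p m * Psi (ww p m κ U x) * sn U x * cs U x / x.1)

/-- the `dz` component of the one form -/
noncomputable def fB (p m κ δ : ℝ) (U : ℝ × ℝ → ℝ) (x : ℝ × ℝ) : ℝ :=
  om δ x.1 * (e1 p m * Phi (ww p m κ U x) * t2 U x -
    (e1 p m ^ 2 * Phi (ww p m κ U x) +
      gg δ x.1 * y0 p m * e1 p m * Psi (ww p m κ U x) * sn U x ^ 2) / x.1)

/-- the quadratic form (`q = p - 1`, `T = e₁ Φ`, `T₁ = Ψ`, `b = e₁² Φ`, `b' = e₁ Ψ`,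
`g = G y₀ e₁ Ψ`, `g' = G y₀ w Ψ'`, `a = 1 - G`, `r G' = 2 (1 - t) t`) -/
noncomputable def QF (p m w t s c X Y τ : ℝ) : ℝ :=
  Psi w * X ^ 2 + Psi w / (p - 1) * Y ^ 2 +
    τ * c * X * ((1 - t) ^ 2 * (e1 p m * Phi w) - e1 p m * Psi w -
      (1 - (1 - t) ^ 2) * y0 p m * e1 p m * Psi w) +
    τ * s * Y * (m / (p - 1) * Psi w - (1 - t) ^ 2 * (e1 p m * Phi w) +
      e1 p m * Psi w / (p - 1) + (1 - (1 - t) ^ 2) * y0 p m * (w * Psid w) / (p - 1) -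
      (1 - (1 - t) ^ 2) * y0 p m * e1 p m * Psi w) +
    τ ^ 2 * ((1 - (1 - t) ^ 2) * (e1 p m ^ 2 * Phi w +
        (1 - (1 - t) ^ 2) * y0 p m * e1 p m * Psi w * s ^ 2) +
      m / (p - 1) * s ^ 2 * (e1 p m * Psi w + (1 - (1 - t) ^ 2) * y0 p m * (w * Psid w)) -
      2 * (1 - t) * t * y0 p m * e1 p m * Psi w * s ^ 2)

/-! ### Properties of the critical set -/

/-- a rectangle off the axis consists of critical points, or almost all segments parallel to its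
sides contain none -/
def LinesProp (P : Set (ℝ × ℝ)) (U : ℝ × ℝ → ℝ) : Prop :=
  ∀ r₁ r₂ z₁ z₂ : ℝ, 0 < r₁ → r₁ < r₂ → z₁ < z₂ → Icc r₁ r₂ ×ˢ Icc z₁ z₂ ⊆ P →
    (∀ x ∈ Icc r₁ r₂ ×ˢ Icc z₁ z₂, rho U x = 0) ∨
    ((∀ᵐ z : ℝ, z ∈ Icc z₁ z₂ → ∀ r ∈ Icc r₁ r₂, rho U (r, z) ≠ 0) ∧
      ∀ᵐ r : ℝ, r ∈ Icc r₁ r₂ → ∀ z ∈ Icc z₁ z₂, rho U (r, z) ≠ 0)

/-- if a segment of the axis is critical then an adjacent rectangle is -/
def AxisProp (P : Set (ℝ × ℝ)) (U : ℝ × ℝ → ℝ) : Prop :=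
  ∀ r₀ z₁ z₂ : ℝ, 0 < r₀ → z₁ < z₂ → Icc 0 r₀ ×ˢ Icc z₁ z₂ ⊆ P →
    (∀ z ∈ Icc z₁ z₂, rho U (0, z) = 0) →
    ∃ r₁, 0 < r₁ ∧ r₁ < r₀ ∧ ∀ x ∈ Icc r₁ r₀ ×ˢ Icc z₁ z₂, rho U x = 0

/-! ### The space -/

/-- the distance to the axis `a + ℝ e` and the height -/
noncomputable def prof {n : ℕ} (a e x : E n) : ℝ × ℝ := (‖x - a - ⟪x - a, e⟫ • e‖, ⟪x - a, e⟫)

/-- the half plane through `a` spanned by `f` and the axis -/
def axm {n : ℕ} (a f e : E n) (y : ℝ × ℝ) : E n := a + y.1 • f + y.2 • e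

/-- the axis and the half plane -/
structure Frame {n : ℕ} (f e : E n) : Prop where
  norm_f : ‖f‖ = 1
  norm_e : ‖e‖ = 1
  orth : ⟪f, e⟫ = 0

/-- `Ω` and `u` are invariant under the rotations about the axis -/
def Inv {n : ℕ} (a e : E n) (Ω : Set (E n)) (u : E n → ℝ) : Prop :=
  ∀ x ∈ Ω, ∀ y, prof a e y = prof a e x → y ∈ Ω ∧ u y = u x

end Pool.Agent.AXS
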