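import Pool.Agent.AXS.Targets

/-!
# The gradient of an invariant function
-/

set_option autoImplicit false

open Set MeasureTheory Filter Topology
open scoped RealInnerProductSpace
open Pool.Agent.SCP (E PHarm hs Eqn Sub)

namespace Pool.Agent.AXS

section

variable {n : ℕ} {a e f : E n} {Ω : Set (E n)} {u : E n → ℝ}

theorem prof_axm (hf : Frame f e) (y : ℝ × ℝ) : prof a e (axm a f e y) = (|y.1|, y.2) := by
  unfold prof axm
  have e1 : a + y.1 • f + y.2 • e - a = y.1 • f + y.2 • e := by abel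
  have e2 : ⟪y.1 • f + y.2 • e, e⟫ = y.2 := by
    rw [inner_add_left, inner_smul_left, inner_smul_left, hf.orth,
      real_inner_self_eq_norm_sq, hf.norm_e]
    simp
  rw [e1, e2]
  have e3 : y.1 • f + y.2 • e - y.2 • e = y.1 • f := by abel
  rw [e3, norm_smul, hf.norm_f, mul_one, Real.norm_eq_abs]

theorem prof_axm_prof (hf : Frame f e) (x : E n) :
    prof a e (axm a f e (prof a e x)) = prof a e x := by
  rw [prof_axm hf]
  have : 0 ≤ (prof a e x).1 := norm_nonneg _
  rw [abs_of_nonneg this]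

/-- the gradient has no component tangential to the orbits -/
theorem inner_gradient_eq_zero (hΩ : IsOpen Ω) (hinv : Inv a e Ω u) {x g : E n} (hx : x ∈ Ω)
    (hu : DifferentiableAt ℝ u x) (h1 : ⟪g, e⟫ = 0) (h2 : ⟪g, x - a⟫ = 0) :
    ⟪gradient u x, g⟫ = 0 := by
  have hprof : ∀ t : ℝ, prof a e (x + (-t) • g) = prof a e (x + t • g) := by
    intro t
    unfold prof
    have e1 : ∀ s : ℝ, ⟪x + s • g - a, e⟫ = ⟪x - a, e⟫ := by
      intro s
      have : x + s • g - a = (x - a) + s • g := by abel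
      rw [this, inner_add_left, inner_smul_left, h1, mul_zero, add_zero]
    have e2 : ∀ s : ℝ, ‖x + s • g - a - ⟪x - a, e⟫ • e‖ ^ 2 =
        ‖x - a - ⟪x - a, e⟫ • e‖ ^ 2 + s ^ 2 * ‖g‖ ^ 2 := by
      intro s
      have : x + s • g - a - ⟪x - a, e⟫ • e = (x - a - ⟪x - a, e⟫ • e) + s • g := by abel
      have h3 : ⟪x - a - ⟪x - a, e⟫ • e, g⟫ = 0 := by
        rw [real_inner_comm, inner_sub_right, inner_smul_right, h1, h2]
        simp
      rw [this, norm_add_sq_real, inner_smul_right, h3, norm_smul, mul_pow,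
        Real.norm_eq_abs, sq_abs]
      ring
    rw [e1, e1]
    have e3 : ‖x + (-t) • g - a - ⟪x - a, e⟫ • e‖ = ‖x + t • g - a - ⟪x - a, e⟫ • e‖ := by
      have h3 : ‖x + (-t) • g - a - ⟪x - a, e⟫ • e‖ ^ 2 =
          ‖x + t • g - a - ⟪x - a, e⟫ • e‖ ^ 2 := by
        rw [e2, e2]
        ring
      have h4 := congrArg Real.sqrt h3
      rwa [Real.sqrt_sq (norm_nonneg _), Real.sqrt_sq (norm_nonneg _)] at h4
    rw [e3]
  have hd : HasFDerivAt u (fderiv ℝ u x) x := hu.hasFDerivAt
  have hc1 : HasDerivAt (fun t : ℝ => x + t • g) g 0 := by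
    have := ((hasDerivAt_id (0 : ℝ)).smul_const g).const_add x
    simpa using this
  have hc2 : HasDerivAt (fun t : ℝ => x + (-t) • g) (-g) 0 := by
    have := ((hasDerivAt_id (0 : ℝ)).neg.smul_const g).const_add x
    simpa using this
  have hd1 : HasDerivAt (fun t : ℝ => u (x + t • g)) (fderiv ℝ u x g) 0 := by
    have h3 : HasFDerivAt u (fderiv ℝ u x) (x + (0 : ℝ) • g) := by simpa using hd
    exact h3.comp_hasDerivAt (0 : ℝ) hc1
  have hd2 : HasDerivAt (fun t : ℝ => u (x + (-t) • g)) (fderiv ℝ u x (-g)) 0 := by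
    have h3 : HasFDerivAt u (fderiv ℝ u x) (x + (-(0 : ℝ)) • g) := by simpa using hd
    exact h3.comp_hasDerivAt (0 : ℝ) hc2
  have heq : (fun t : ℝ => u (x + t • g)) =ᶠ[𝓝 0] fun t : ℝ => u (x + (-t) • g) := by
    have h3 : ∀ᶠ t : ℝ in 𝓝 0, x + t • g ∈ Ω := by
      have h4 : Tendsto (fun t : ℝ => x + t • g) (𝓝 0) (𝓝 x) := by
        have := hc1.continuousAt.tendsto
        simpa using this
      exact h4.eventually (hΩ.mem_nhds hx)
    filter_upwards [h3] with t ht
    exact ((hinv _ ht _ (hprof t)).2).symm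
  have h5 := (hd1.congr_of_eventuallyEq heq.symm).unique hd2
  rw [map_neg] at h5
  have h6 : fderiv ℝ u x g = 0 := by linarith
  rw [inner_gradient_left]
  exact h6

theorem hasFDerivAt_axm (y : ℝ × ℝ) : HasFDerivAt (axm a f e)
    ((ContinuousLinearMap.fst ℝ ℝ ℝ).smulRight f + (ContinuousLinearMap.snd ℝ ℝ ℝ).smulRight e)
    y := by
  unfold axm
  have h1 : HasFDerivAt (fun y : ℝ × ℝ => y.1 • f) ((ContinuousLinearMap.fst ℝ ℝ ℝ).smulRight f)
      y := by
    have := ((ContinuousLinearMap.fst ℝ ℝ ℝ).smulRight f).hasFDerivAt (x := y)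
    exact this
  have h2 : HasFDerivAt (fun y : ℝ × ℝ => y.2 • e) ((ContinuousLinearMap.snd ℝ ℝ ℝ).smulRight e)
      y := by
    have := ((ContinuousLinearMap.snd ℝ ℝ ℝ).smulRight e).hasFDerivAt (x := y)
    exact this
  exact (h1.const_add a).add h2

theorem d1_comp {y : ℝ × ℝ} (hu : DifferentiableAt ℝ u (axm a f e y)) :
    d1 (u ∘ axm a f e) y = ⟪gradient u (axm a f e y), f⟫ := by
  unfold d1
  rw [(hu.hasFDerivAt.comp y (hasFDerivAt_axm y)).fderiv, inner_gradient_left]
  simp

theorem d2_comp {y : ℝ × ℝ} (hu : DifferentiableAt ℝ u (axm a f e y)) :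
    d2 (u ∘ axm a f e) y = ⟪gradient u (axm a f e y), e⟫ := by
  unfold d2
  rw [(hu.hasFDerivAt.comp y (hasFDerivAt_axm y)).fderiv, inner_gradient_left]
  simp

/-- the gradient at a point of the half plane -/
theorem gradient_axm (hΩ : IsOpen Ω) (hf : Frame f e) (hinv : Inv a e Ω u) {y : ℝ × ℝ}
    (hy : axm a f e y ∈ Ω) (hu : DifferentiableAt ℝ u (axm a f e y)) :
    gradient u (axm a f e y) =
      d1 (u ∘ axm a f e) y • f + d2 (u ∘ axm a f e) y • e := by
  rw [d1_comp hu, d2_comp hu]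
  set G := gradient u (axm a f e y) with hG
  set w := G - (⟪G, f⟫ • f + ⟪G, e⟫ • e) with hw
  have hff : ⟪f, f⟫ = 1 := by rw [real_inner_self_eq_norm_sq, hf.norm_f]; norm_num
  have hee : ⟪e, e⟫ = 1 := by rw [real_inner_self_eq_norm_sq, hf.norm_e]; norm_num
  have hef : ⟪e, f⟫ = 0 := by rw [real_inner_comm]; exact hf.orth
  have hwf : ⟪w, f⟫ = 0 := by
    rw [hw, inner_sub_left, inner_add_left, inner_smul_left, inner_smul_left, hff, hef]
    simp
  have hwe : ⟪w, e⟫ = 0 := by
    rw [hw, inner_sub_left, inner_add_left, inner_smul_left, inner_smul_left, hee, hf.orth]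
    simp
  have hwx : ⟪w, axm a f e y - a⟫ = 0 := by
    have : axm a f e y - a = y.1 • f + y.2 • e := by
      unfold axm
      abel
    rw [this, inner_add_right, inner_smul_right, inner_smul_right, hwf, hwe]
    simp
  have h1 : ⟪G, w⟫ = 0 := inner_gradient_eq_zero hΩ hinv hy hu hwe hwx
  have h2 : ⟪w, w⟫ = 0 := by
    have : ⟪w, w⟫ = ⟪G, w⟫ - ⟪⟪G, f⟫ • f + ⟪G, e⟫ • e, w⟫ := by
      rw [← inner_sub_left]
    rw [this, h1, inner_add_left, inner_smul_left, inner_smul_left, real_inner_comm w f,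
      real_inner_comm w e, hwf, hwe]
    simp
  have h3 : w = 0 := inner_self_eq_zero.mp h2
  exact sub_eq_zero.mp h3

end

theorem p_REDG : T_REDG := by
  intro n Ω u a e f _ hΩ hu hf hinv
  have hd : ∀ x ∈ Ω, DifferentiableAt ℝ u x := fun x hx =>
    (hu.differentiableOn (by norm_num)).differentiableAt (hΩ.mem_nhds hx)
  have key : ∀ f' : E n, Frame f' e → ∀ y, axm a f' e y ∈ Ω → gradient u (axm a f' e y) =
      d1 (u ∘ axm a f' e) y • f' + d2 (u ∘ axm a f' e) y • e := fun f' hf' y hy =>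
    gradient_axm hΩ hf' hinv hy (hd _ hy)
  refine ⟨key f hf, ?_, ?_, ?_⟩
  · intro x
    constructor
    · intro hx
      exact (hinv x hx _ (prof_axm_prof hf x)).1
    · intro hx
      exact (hinv _ hx _ (prof_axm_prof hf x).symm).1
  · intro x hx
    exact (hinv x hx _ (prof_axm_prof hf x)).2.symm
  · intro x hx
    have hnorm : ∀ f' : E n, Frame f' e → ∀ A B : ℝ, ‖A • f' + B • e‖ ^ 2 = A ^ 2 + B ^ 2 := by
      intro f' hf' A B
      rw [norm_add_sq_real, inner_smul_left, inner_smul_right, hf'.orth, norm_smul, norm_smul,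
        hf'.norm_f, hf'.norm_e, mul_one, mul_one, Real.norm_eq_abs, Real.norm_eq_abs, sq_abs,
        sq_abs]
      simp
    set g := x - a - ⟪x - a, e⟫ • e with hg
    by_cases h0 : g = 0
    · have hx' : axm a f e (prof a e x) = x := by
        unfold axm prof
        dsimp only
        rw [← hg, h0, norm_zero, zero_smul, add_zero]
        have : x - a = ⟪x - a, e⟫ • e := sub_eq_zero.mp h0
        rw [← this]
        abel
      have h1 := key f hf (prof a e x) (by rw [hx']; exact hx)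
      rw [hx'] at h1
      rw [h1, hnorm f hf]
      rfl
    · have hg0 : ‖g‖ ≠ 0 := norm_ne_zero_iff.mpr h0
      have hge : ⟪g, e⟫ = 0 := by
        rw [hg, inner_sub_left, inner_smul_left, real_inner_self_eq_norm_sq, hf.norm_e]
        simp
      have hf' : Frame (‖g‖⁻¹ • g) e := by
        refine ⟨?_, hf.norm_e, ?_⟩
        · rw [norm_smul, norm_inv, norm_norm, inv_mul_cancel₀ hg0]
        · rw [inner_smul_left, hge, mul_zero]
      have hx' : axm a (‖g‖⁻¹ • g) e (prof a e x) = x := by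
        unfold axm prof
        dsimp only
        rw [← hg, smul_smul, mul_inv_cancel₀ hg0, one_smul, hg]
        abel
      have h1 := key _ hf' (prof a e x) (by rw [hx']; exact hx)
      rw [hx'] at h1
      rw [h1, hnorm _ hf']
      have heq : (u ∘ axm a (‖g‖⁻¹ • g) e) =ᶠ[𝓝 (prof a e x)] (u ∘ axm a f e) := by
        have hc : Continuous (axm a (‖g‖⁻¹ • g) e) := by
          unfold axm
          fun_prop
        have h2 : ∀ᶠ y in 𝓝 (prof a e x), axm a (‖g‖⁻¹ • g) e y ∈ Ω := by
          have h3 := hc.tendsto (prof a e x)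
          rw [hx'] at h3
          exact h3.eventually (hΩ.mem_nhds hx)
        filter_upwards [h2] with y hy
        have h4 : prof a e (axm a f e y) = prof a e (axm a (‖g‖⁻¹ • g) e y) := by
          rw [prof_axm hf, prof_axm hf']
        exact ((hinv _ hy _ h4).2).symm
      unfold rho d1 d2
      rw [heq.fderiv_eq]

end Pool.Agent.AXS
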