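import Pool.Agent.AXS.Defs

/-!
# Axially symmetric `p`-harmonic functions: exact targets (proofs: Blueprint.lean.txt)
-/

set_option autoImplicit false

open Set MeasureTheory Filter Topology
open scoped RealInnerProductSpace
open Pool.Agent.SCP (E PHarm hs Eqn Sub)

namespace Pool.Agent.AXS

/-! ## Calculus in the plane -/

/-- DIV: integration by parts -/
def T_DIV : Prop := ∀ (O : Set (ℝ × ℝ)) (Λ A B : ℝ × ℝ → ℝ), IsOpen O → ContDiff ℝ 1 Λ →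
  HasCompactSupport Λ → tsupport Λ ⊆ O → ContDiffOn ℝ 1 A O → ContDiffOn ℝ 1 B O →
  ∫ x, (d1 Λ x * B x - d2 Λ x * A x) = - ∫ x, Λ x * (d1 B x - d2 A x)

/-- GOOD: the calculus at noncritical points -/
def T_GOOD : Prop := ∀ (p m : ℝ) (P : Set (ℝ × ℝ)) (U : ℝ × ℝ → ℝ), Plan p m P U →
  IsOpen (Good P U) ∧ ContinuousOn (rho U) P ∧ ContDiffOn ℝ 1 (rho U) (Good P U) ∧
  ContDiffOn ℝ 1 (sn U) (Good P U) ∧ ContDiffOn ℝ 1 (cs U) (Good P U) ∧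
  ContDiffOn ℝ 1 (t1 U) (Good P U) ∧ ContDiffOn ℝ 1 (t2 U) (Good P U) ∧
  ContDiffOn ℝ 1 (h1 U) (Good P U) ∧ ContDiffOn ℝ 1 (h2 U) (Good P U) ∧
  ∀ x ∈ Good P U, 0 < rho U x ∧ sn U x ^ 2 + cs U x ^ 2 = 1 ∧
    d1 (rho U) x = 2 * rho U x * h1 U x ∧ d2 (rho U) x = 2 * rho U x * h2 U x ∧
    d1 (sn U) x = cs U x * t1 U x ∧ d2 (sn U) x = cs U x * t2 U x ∧
    d1 (cs U) x = - (sn U x * t1 U x) ∧ d2 (cs U) x = - (sn U x * t2 U x) ∧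
    d1 (t2 U) x = d2 (t1 U) x ∧
    h1 U x = cs U x * XX U x - sn U x * (YY U x + m * sn U x / x.1) / (p - 1) ∧
    h2 U x = - (sn U x * XX U x) - cs U x * (YY U x + m * sn U x / x.1) / (p - 1)

/-- OM: the weights `ω` and `G` -/
def T_OM : Prop := ∀ δ : ℝ, 0 < δ →
  ContDiffOn ℝ 1 (om δ) (Ioi 0) ∧ ContDiffOn ℝ 1 (gg δ) (Ioi 0) ∧ ∀ r : ℝ, 0 < r →
    HasDerivAt (om δ) ((1 - tt δ r) ^ 2 * om δ r / r) r ∧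
    HasDerivAt (gg δ) (2 * (1 - tt δ r) * tt δ r / r) r ∧
    0 < tt δ r ∧ 0 < om δ r ∧ om δ r ≤ 5 * tt δ r

/-- PP: the functions `Φ`, `Ψ` and `LL` -/
def T_PP : Prop := ContDiffOn ℝ 1 Phi (Ioi 0) ∧ ContDiffOn ℝ 1 Psi (Ioi 0) ∧
  ContinuousOn LL (Ici 0) ∧ ContinuousOn Psi (Ici 0) ∧ (∀ w, 0 ≤ w → 0 ≤ LL w) ∧
  (∀ w w', 0 ≤ w → w ≤ w' → LL w ≤ LL w') ∧
  ∀ w : ℝ, 0 < w → HasDerivAt Phi (Psi w / w) w ∧ HasDerivAt Psi (Psid w) w ∧ 0 < Psi w ∧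
    Psi w ≤ Phi w ∧ 0 < w * Psid w ∧ w * Psid w ≤ Psi w ∧ Phi w ^ 2 ≤ Psi w * LL w ∧
    Phi w ≤ LL w ∧ Psi w ≤ LL w ∧ (1 ≤ w → 1 ≤ Psi w)

/-- DOM: the derivative of the one form -/
def T_DOM : Prop := ∀ (p m κ δ : ℝ) (P : Set (ℝ × ℝ)) (U : ℝ × ℝ → ℝ), Plan p m P U → 0 < κ →
  0 < δ → ContDiffOn ℝ 1 (fA p m κ δ U) (Good P U) ∧
    ContDiffOn ℝ 1 (fB p m κ δ U) (Good P U) ∧
    ∀ x ∈ Good P U, d1 (fB p m κ δ U) x - d2 (fA p m κ δ U) x =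
      om δ x.1 * QF p m (ww p m κ U x) (tt δ x.1) (sn U x) (cs U x) (XX U x) (YY U x) (1 / x.1)

/-- POS: positivity of the quadratic form -/
def T_POS : Prop := ∀ p m : ℝ, 1 < p → 1 ≤ m → ∃ c₀ : ℝ, 0 < c₀ ∧
  ∀ w t s c X Y τ : ℝ, 0 < w → 0 < t → t ≤ 1 → (t < 1 → w ≤ 1) → s ^ 2 + c ^ 2 = 1 →
    c₀ * Psi w * (X ^ 2 + Y ^ 2 + (s * τ) ^ 2) ≤ QF p m w t s c X Y τ

/-! ## Integral inequalities -/

/-- INEQ: the main inequality for test functions which vanish near the critical set -/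
def T_INEQ : Prop := ∀ p m : ℝ, 1 < p → 1 ≤ m → ∃ C : ℝ, 0 < C ∧
  ∀ (κ δ : ℝ) (P : Set (ℝ × ℝ)) (U φ : ℝ × ℝ → ℝ), Plan p m P U → 0 < κ → 0 < δ →
    ContDiff ℝ 1 φ → HasCompactSupport φ → tsupport φ ⊆ Good P U →
    (∀ x ∈ tsupport φ, x.1 < δ → ww p m κ U x ≤ 1) →
    ∫ x, φ x ^ 2 * om δ x.1 * Psi (ww p m κ U x) *
        (t1 U x ^ 2 + t2 U x ^ 2 + (sn U x / x.1) ^ 2) ≤
      C * ∫ x, om δ x.1 * LL (ww p m κ U x) *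
        (d1 φ x ^ 2 + d2 φ x ^ 2 + |φ x| * |d1 φ x| / x.1)

/-- CAP: the critical set has capacity zero or contains interior points -/
def T_CAP : Prop := ∀ (p m : ℝ) (P K : Set (ℝ × ℝ)) (U : ℝ × ℝ → ℝ), Plan p m P U →
  IsCompact K → K ⊆ P → (∀ x ∈ K, 0 < x.1) →
  ∫⁻ x in K ∩ Good P U, ENNReal.ofReal ((h1 U x ^ 2 + h2 U x ^ 2) / yy (rho U x) ^ 2) ≠ ⊤

/-- INEQ2: the main inequality -/
def T_INEQ2 : Prop := ∀ p m : ℝ, 1 < p → 1 ≤ m → ∃ C : ℝ, 0 < C ∧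
  ∀ (κ δ : ℝ) (P : Set (ℝ × ℝ)) (U φ : ℝ × ℝ → ℝ), Plan p m P U → 0 < κ → 0 < δ →
    ContDiff ℝ 1 φ → HasCompactSupport φ → tsupport φ ⊆ P → (∀ x ∈ tsupport φ, 0 < x.1) →
    (∀ x ∈ tsupport φ, x.1 < δ → ww p m κ U x ≤ 1) →
    ∫⁻ x in Good P U, ENNReal.ofReal (φ x ^ 2 * om δ x.1 * Psi (ww p m κ U x) *
        (t1 U x ^ 2 + t2 U x ^ 2 + (sn U x / x.1) ^ 2)) ≤
      ENNReal.ofReal (C * ∫ x, om δ x.1 * LL (ww p m κ U x) *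
        (d1 φ x ^ 2 + d2 φ x ^ 2 + |φ x| * |d1 φ x| / x.1))

/-- ENERGY: the energy above a level -/
def T_ENERGY : Prop := ∀ (p m : ℝ) (P : Set (ℝ × ℝ)) (U : ℝ × ℝ → ℝ) (r₀ z₁ z₂ z₁' z₂' : ℝ),
  Plan p m P U → 0 < r₀ → z₁ < z₁' → z₁' < z₂' → z₂' < z₂ → Icc 0 r₀ ×ˢ Icc z₁ z₂ ⊆ P →
  (∀ z ∈ Icc z₁ z₂, rho U (0, z) = 0) → ∃ C : ℝ, 0 < C ∧ ∀ k : ℝ, 0 < k → k < 1 →
    ∫⁻ x in (Ioo 0 (r₀ / 2) ×ˢ Ioo z₁' z₂') ∩ {x | k < rho U x},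
      ENNReal.ofReal (h1 U x ^ 2) ≤ ENNReal.ofReal (C * (1 + Real.log (1 / k)) ^ 2)

/-! ## Segments -/

/-- SEG: finite energy on a segment -/
def T_SEG : Prop := ∀ (a b : ℝ) (f g : ℝ → ℝ), a < b → ContinuousOn f (Icc a b) →
  (∀ x ∈ Icc a b, 0 ≤ f x) →
  (∀ x ∈ Icc a b, f x ≠ 0 → HasDerivAt f (2 * f x * g x) x) →
  ContinuousOn g (Icc a b ∩ {x | f x ≠ 0}) →
  ∫⁻ x in Icc a b ∩ {x | f x ≠ 0}, ENNReal.ofReal (g x ^ 2 / yy (f x) ^ 2) ≠ ⊤ →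
  (∀ x ∈ Icc a b, f x = 0) ∨ ∀ x ∈ Icc a b, f x ≠ 0

/-- LINES: almost all segments avoid the critical set -/
def T_LINES : Prop := ∀ (p m : ℝ) (P : Set (ℝ × ℝ)) (U : ℝ × ℝ → ℝ), Plan p m P U →
  LinesProp P U

/-- SEG2: the energy on a segment ending at the axis -/
def T_SEG2 : Prop := ∀ (R k : ℝ) (f g : ℝ → ℝ), 0 < R → 0 < k → ContinuousOn f (Icc 0 R) →
  f 0 = 0 → (∀ x ∈ Ioc 0 R, 0 < f x ∧ HasDerivAt f (2 * f x * g x) x) →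
  ContinuousOn g (Ioc 0 R) →
  ENNReal.ofReal ((max 0 (Real.log (f R / k) / 2)) ^ 2) ≤
    ENNReal.ofReal R * ∫⁻ x in Ioo 0 R ∩ {x | k < f x}, ENNReal.ofReal (g x ^ 2)

/-- AXIS: no critical segments on the axis -/
def T_AXIS : Prop := ∀ (p m : ℝ) (P : Set (ℝ × ℝ)) (U : ℝ × ℝ → ℝ), Plan p m P U →
  AxisProp P U

/-! ## Topology of the plane -/

/-- NBHDP: neighbourhoods with a boundary free of critical points -/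
def T_NBHDP : Prop := ∀ (P : Set (ℝ × ℝ)) (U : ℝ × ℝ → ℝ) (y : ℝ × ℝ), IsOpen P →
  ContinuousOn (rho U) P → LinesProp P U → AxisProp P U →
  (∀ x ∈ P, 0 < x.1 → ¬ ∀ᶠ x' in 𝓝 x, rho U x' = 0) → y ∈ P → 0 ≤ y.1 →
  ∃ V T : Set (ℝ × ℝ), IsOpen V ∧ Bornology.IsBounded V ∧ y ∈ V ∧ IsCompact T ∧
    IsPreconnected T ∧ (∀ x ∈ T, 0 ≤ x.1 ∧ x ∈ P ∧ rho U x ≠ 0) ∧
    (∀ x ∈ V, 0 ≤ x.1 → x ∈ P) ∧ ∀ x ∈ closure V, 0 ≤ x.1 → x ∈ V ∨ x ∈ T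

/-- CLOP: the interior of the critical set is closed -/
def T_CLOP : Prop := ∀ (P : Set (ℝ × ℝ)) (U : ℝ × ℝ → ℝ) (y : ℝ × ℝ), IsOpen P →
  ContinuousOn (rho U) P → LinesProp P U → y ∈ P → 0 ≤ y.1 →
  (∃ᶠ x in 𝓝 y, 0 < x.1 ∧ ∀ᶠ x' in 𝓝 x, rho U x' = 0) →
  ∀ᶠ x in 𝓝 y, 0 ≤ x.1 → rho U x = 0

/-! ## The space -/

/-- REDG: the gradient of an invariant function -/
def T_REDG : Prop := ∀ (n : ℕ) (Ω : Set (E n)) (u : E n → ℝ) (a e f : E n), 3 ≤ n →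
  IsOpen Ω → ContDiffOn ℝ 1 u Ω → Frame f e → Inv a e Ω u →
  (∀ y, axm a f e y ∈ Ω → gradient u (axm a f e y) =
    d1 (u ∘ axm a f e) y • f + d2 (u ∘ axm a f e) y • e) ∧
  (∀ x, x ∈ Ω ↔ axm a f e (prof a e x) ∈ Ω) ∧
  (∀ x ∈ Ω, u x = u (axm a f e (prof a e x))) ∧
  ∀ x ∈ Ω, ‖gradient u x‖ ^ 2 = rho (u ∘ axm a f e) (prof a e x)

/-- REDH: the second derivative of an invariant function in the direction of the rotations -/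
def T_REDH : Prop := ∀ (n : ℕ) (Ω : Set (E n)) (u : E n → ℝ) (a e f g : E n) (y : ℝ × ℝ),
  3 ≤ n → IsOpen Ω → Frame f e → Inv a e Ω u → axm a f e y ∈ Ω → 0 < y.1 →
  ContDiffAt ℝ 2 u (axm a f e y) → ‖g‖ = 1 → ⟪g, e⟫ = 0 → ⟪g, f⟫ = 0 →
  ⟪hs u (axm a f e y) g, g⟫ = d1 (u ∘ axm a f e) y / y.1

/-- REDP: the equation of the profile -/
def T_REDP : Prop := ∀ (n : ℕ) (p : ℝ) (Ω : Set (E n)) (u : E n → ℝ) (a e f : E n), 3 ≤ n →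
  1 < p → IsOpen Ω → PHarm p Ω u → (∀ x ∈ Ω, gradient u x ≠ 0 → ContDiffAt ℝ 3 u x) →
  Frame f e → Inv a e Ω u → Plan p ((n : ℝ) - 2) (axm a f e ⁻¹' Ω) (u ∘ axm a f e)

/-- CONNS: the surface generated by a plane set -/
def T_CONNS : Prop := ∀ (n : ℕ) (a e : E n) (T : Set (ℝ × ℝ)), 3 ≤ n → ‖e‖ = 1 →
  (∀ x ∈ T, 0 ≤ x.1) → (IsPreconnected T → IsPreconnected (prof a e ⁻¹' T)) ∧
    (IsCompact T → IsCompact (prof a e ⁻¹' T))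

/-- CRIT: a solution with critical inner points is constant -/
def T_CRIT : Prop := ∀ (n : ℕ) (Ω : Set (E n)) (u : E n → ℝ) (a e f : E n), 3 ≤ n →
  IsOpen Ω → IsPreconnected Ω → ContDiffOn ℝ 1 u Ω → Frame f e → Inv a e Ω u →
  LinesProp (axm a f e ⁻¹' Ω) (u ∘ axm a f e) →
  (∃ x ∈ Ω, ∀ᶠ x' in 𝓝 x, gradient u x' = 0) → ∀ x ∈ Ω, gradient u x = 0

/-- CMPV: comparison on `V` -/
def T_CMPV : Prop := ∀ (n : ℕ) (p : ℝ) (Ω V S : Set (E n)) (u v : E n → ℝ) (d : ℝ), 1 ≤ n →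
  1 < p → IsOpen Ω → PHarm p Ω u → PHarm p Ω v → IsOpen V → V ⊆ Ω → IsCompact S → S ⊆ Ω →
  Bornology.IsBounded V → closure V ⊆ V ∪ S → (∀ x ∈ S, u x + d ≤ v x) →
  ∀ x ∈ V, u x + d ≤ v x

/-- STEP: the strong comparison principle at a point which has a neighbourhood with a connected
boundary free of critical points -/
def T_STEP : Prop := ∀ (n : ℕ) (p : ℝ) (Ω V S : Set (E n)) (u v : E n → ℝ) (y : E n), 1 ≤ n →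
  1 < p → IsOpen Ω → PHarm p Ω u → PHarm p Ω v →
  (∀ x ∈ Ω, gradient u x ≠ 0 → ContDiffAt ℝ 2 u x) → (∀ x ∈ Ω, u x ≤ v x) →
  IsOpen V → V ⊆ Ω → y ∈ V → IsCompact S → IsPreconnected S → S ⊆ Ω →
  (∀ x ∈ S, gradient u x ≠ 0) → Bornology.IsBounded V → closure V ⊆ V ∪ S → u y = v y →
  ∀ᶠ x in 𝓝 y, u x = v x

/-- MAIN: the strong comparison principle -/
def T_MAIN : Prop := ∀ (n : ℕ) (p : ℝ) (Ω : Set (E n)) (u v : E n → ℝ) (a e : E n), 3 ≤ n →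
  1 < p → IsOpen Ω → IsPreconnected Ω → PHarm p Ω u → PHarm p Ω v →
  (∀ x ∈ Ω, gradient u x ≠ 0 → ContDiffAt ℝ 3 u x) → ‖e‖ = 1 → Inv a e Ω u →
  ((∀ x ∈ Ω, u x ≤ v x) ∨ ∀ x ∈ Ω, v x ≤ u x) → (∃ x ∈ Ω, u x = v x) →
  ∀ x ∈ Ω, u x = v x

end Pool.Agent.AXS
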